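import Mathlib

/-!
# The Heisenberg type group over a group of permutations
-/

open scoped ComplexOrder

noncomputable section

namespace Pool.Agent.Lib.EcII

namespace BaseAlg

section

variable {K : Type} [Group K]

/-- left translation of finitely supported functions -/
def tl (k : K) : (K →₀ ZMod 2) →+ (K →₀ ZMod 2) := Finsupp.mapDomain.addMonoidHom (fun a => k * a)

theorem tl_one (S : K →₀ ZMod 2) : tl 1 S = S := by
  have : (fun a : K => 1 * a) = id := by ext; simp
  simp only [tl, Finsupp.mapDomain.addMonoidHom_apply]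
  rw [this, Finsupp.mapDomain_id]

theorem tl_tl (k k' : K) (S : K →₀ ZMod 2) : tl k (tl k' S) = tl (k * k') S := by
  simp only [tl, Finsupp.mapDomain.addMonoidHom_apply]
  rw [← Finsupp.mapDomain_comp]
  congr 1
  ext a
  simp [mul_assoc]

theorem tl_single (k a : K) (x : ZMod 2) : tl k (Finsupp.single a x) = Finsupp.single (k * a) x := by
  simp [tl]

theorem tl_inj {k : K} {S : K →₀ ZMod 2} : tl k S = 0 ↔ S = 0 := by
  constructor
  · intro h
    have := tl_tl k⁻¹ k S
    rw [h, map_zero, inv_mul_cancel, tl_one] at this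
    exact this.symm
  · rintro rfl
    exact map_zero _

/-- the bilinear form -/
def BB (r : K → ZMod 2) (C S : K →₀ ZMod 2) : ZMod 2 :=
  C.sum fun a x => S.sum fun b y => x * y * r (a⁻¹ * b)

theorem BB_zero_left (r : K → ZMod 2) (S : K →₀ ZMod 2) : BB r 0 S = 0 := by simp [BB]

theorem BB_zero_right (r : K → ZMod 2) (C : K →₀ ZMod 2) : BB r C 0 = 0 := by simp [BB]

theorem BB_add_left (r : K → ZMod 2) (C C' S : K →₀ ZMod 2) :
    BB r (C + C') S = BB r C S + BB r C' S := by
  classical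
  unfold BB
  rw [Finsupp.sum_add_index']
  · simp
  · intro a x x'
    rw [← Finsupp.sum_add]
    refine Finsupp.sum_congr fun b _ => ?_
    ring

theorem BB_add_right (r : K → ZMod 2) (C S S' : K →₀ ZMod 2) :
    BB r C (S + S') = BB r C S + BB r C S' := by
  classical
  unfold BB
  rw [← Finsupp.sum_add]
  refine Finsupp.sum_congr fun a _ => ?_
  rw [Finsupp.sum_add_index']
  · simp
  · intro a x x'
    ring

theorem BB_neg_left (r : K → ZMod 2) (C S : K →₀ ZMod 2) : BB r (-C) S = - BB r C S := by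
  have := BB_add_left r (-C) C S
  rw [neg_add_cancel, BB_zero_left] at this
  exact eq_neg_of_add_eq_zero_left this.symm

theorem BB_neg_right (r : K → ZMod 2) (C S : K →₀ ZMod 2) : BB r C (-S) = - BB r C S := by
  have := BB_add_right r C (-S) S
  rw [neg_add_cancel, BB_zero_right] at this
  exact eq_neg_of_add_eq_zero_left this.symm

theorem BB_tl (r : K → ZMod 2) (k : K) (C S : K →₀ ZMod 2) :
    BB r (tl k C) (tl k S) = BB r C S := by
  classical
  unfold BB tl
  simp only [Finsupp.mapDomain.addMonoidHom_apply]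
  rw [Finsupp.sum_mapDomain_index]
  · refine Finsupp.sum_congr fun a _ => ?_
    rw [Finsupp.sum_mapDomain_index]
    · refine Finsupp.sum_congr fun b _ => ?_
      congr 2
      group
    · simp
    · intro b y y'
      ring
  · simp
  · intro a x x'
    rw [← Finsupp.sum_add]
    refine Finsupp.sum_congr fun b _ => ?_
    ring

theorem BB_single (r : K → ZMod 2) (a b : K) :
    BB r (Finsupp.single a 1) (Finsupp.single b 1) = r (a⁻¹ * b) := by
  simp [BB]

/-- the elements of the Heisenberg type group -/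
@[ext] structure HG (K : Type) (r : K → ZMod 2) where
  S : K →₀ ZMod 2
  C : K →₀ ZMod 2
  e : ZMod 2
  k : K

variable {r : K → ZMod 2}

instance : Mul (HG K r) :=
  ⟨fun g g' => ⟨g.S + tl g.k g'.S, g.C + tl g.k g'.C, g.e + g'.e + BB r g.C (tl g.k g'.S),
    g.k * g'.k⟩⟩

instance : One (HG K r) := ⟨⟨0, 0, 0, 1⟩⟩

instance : Inv (HG K r) :=
  ⟨fun g => ⟨-tl g.k⁻¹ g.S, -tl g.k⁻¹ g.C, -g.e + BB r g.C g.S, g.k⁻¹⟩⟩

@[simp] theorem mul_S (g g' : HG K r) : (g * g').S = g.S + tl g.k g'.S := rfl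
@[simp] theorem mul_C (g g' : HG K r) : (g * g').C = g.C + tl g.k g'.C := rfl
@[simp] theorem mul_e (g g' : HG K r) : (g * g').e = g.e + g'.e + BB r g.C (tl g.k g'.S) := rfl
@[simp] theorem mul_k (g g' : HG K r) : (g * g').k = g.k * g'.k := rfl
@[simp] theorem one_S : (1 : HG K r).S = 0 := rfl
@[simp] theorem one_C : (1 : HG K r).C = 0 := rfl
@[simp] theorem one_e : (1 : HG K r).e = 0 := rfl
@[simp] theorem one_k : (1 : HG K r).k = 1 := rfl
@[simp] theorem inv_S (g : HG K r) : (g⁻¹).S = -tl g.k⁻¹ g.S := rfl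
@[simp] theorem inv_C (g : HG K r) : (g⁻¹).C = -tl g.k⁻¹ g.C := rfl
@[simp] theorem inv_e (g : HG K r) : (g⁻¹).e = -g.e + BB r g.C g.S := rfl
@[simp] theorem inv_k (g : HG K r) : (g⁻¹).k = g.k⁻¹ := rfl

instance : Group (HG K r) :=
  Group.ofLeftAxioms
    (by
      intro a b c
      ext1
      · simp [tl_tl, add_assoc]
      · simp [tl_tl, add_assoc]
      · simp only [mul_e, mul_C, mul_k, mul_S, map_add, BB_add_left, BB_add_right, ← tl_tl, BB_tl]
        ring
      · simp [mul_assoc])
    (by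
      intro a
      ext1
      · simp [tl_one]
      · simp [tl_one]
      · simp [BB_zero_left]
      · simp)
    (by
      intro a
      ext1
      · simp
      · simp
      · simp only [mul_e, inv_e, inv_C, inv_k, BB_neg_left, BB_tl, one_e]
        ring
      · simp)

/-- the sign of an element of `ZMod 2` -/
def sg (e : ZMod 2) : ℂ := if e = 0 then 1 else -1

theorem sg_zero : sg 0 = 1 := by simp [sg]

theorem sg_one : sg 1 = -1 := by simp [sg]

theorem zcases (e : ZMod 2) : e = 0 ∨ e = 1 := by revert e; decide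

theorem sg_add (e e' : ZMod 2) : sg (e + e') = sg e * sg e' := by
  have h : (1 : ZMod 2) + 1 = 0 := by decide
  rcases zcases e with rfl | rfl <;> rcases zcases e' with rfl | rfl <;>
    simp [sg_zero, sg_one, h]

theorem star_sg (e : ZMod 2) : star (sg e) = sg e := by
  rcases zcases e with rfl | rfl <;> simp [sg_zero, sg_one]

theorem norm_sg (e : ZMod 2) : ‖sg e‖ = 1 := by
  rcases zcases e with rfl | rfl <;> simp [sg_zero, sg_one]

/-- the components without sign -/
def pt (g : HG K r) : (K →₀ ZMod 2) × (K →₀ ZMod 2) × K := (g.S, g.C, g.k)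

open Classical in
/-- the character -/
def Phi (g : HG K r) : ℂ := if g.S = 0 ∧ g.C = 0 ∧ g.k = 1 then sg g.e else 0

theorem Phi_one : Phi (1 : HG K r) = 1 := by simp [Phi, sg_zero]

open Classical in
theorem Phi_inv_mul (a b : HG K r) :
    Phi (a⁻¹ * b) = if pt a = pt b then sg a.e * sg b.e else 0 := by
  have hpt : pt a = pt b ↔ ((a⁻¹ * b).S = 0 ∧ (a⁻¹ * b).C = 0 ∧ (a⁻¹ * b).k = 1) := by
    simp only [mul_S, mul_C, mul_k, inv_S, inv_C, inv_k, pt, Prod.mk.injEq]
    rw [← map_neg, ← map_neg, ← map_add, ← map_add, tl_inj, tl_inj, neg_add_eq_zero,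
      neg_add_eq_zero, inv_mul_eq_one]
  by_cases h : pt a = pt b
  · rw [Phi, if_pos (hpt.1 h), if_pos h]
    simp only [pt, Prod.mk.injEq] at h
    rw [← sg_add]
    congr 1
    simp only [mul_e, inv_e, inv_C, inv_k, BB_neg_left, BB_tl, h.1, h.2.1]
    rw [ZMod.neg_eq_self_mod_two]
    ring
  · rw [Phi, if_neg (fun h' => h (hpt.2 h')), if_neg h]

theorem Phi_comm (a b : HG K r) : Phi (a * b) = Phi (b * a) := by
  classical
  have key : ∀ a b : HG K r, (a * b).S = 0 ∧ (a * b).C = 0 ∧ (a * b).k = 1 →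
      ((b * a).S = 0 ∧ (b * a).C = 0 ∧ (b * a).k = 1) ∧ (a * b).e = (b * a).e := by
    intro a b h
    simp only [mul_S, mul_C, mul_k, mul_e] at h ⊢
    obtain ⟨h1, h2, h3⟩ := h
    have hk : b.k = a.k⁻¹ := (inv_eq_of_mul_eq_one_right h3).symm
    have e1 : a.S = - tl a.k b.S := eq_neg_of_add_eq_zero_left h1
    have e2 : a.C = - tl a.k b.C := eq_neg_of_add_eq_zero_left h2
    refine ⟨⟨?_, ?_, ?_⟩, ?_⟩
    · rw [e1, hk, map_neg, tl_tl, inv_mul_cancel, tl_one, add_neg_cancel]
    · rw [e2, hk, map_neg, tl_tl, inv_mul_cancel, tl_one, add_neg_cancel]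
    · rw [hk, inv_mul_cancel]
    · rw [e2, e1, BB_neg_left, BB_tl, hk, map_neg, tl_tl, inv_mul_cancel, tl_one, BB_neg_right]
      ring
  unfold Phi
  by_cases h : (a * b).S = 0 ∧ (a * b).C = 0 ∧ (a * b).k = 1
  · obtain ⟨h', he⟩ := key a b h
    rw [if_pos h, if_pos h', he]
  · rw [if_neg h, if_neg]
    intro h'
    exact h (key b a h').1

theorem psd_aux {G X : Type*} [DecidableEq X] (p : G → X) (u : G → ℂ) (s : Finset G) :
    ∑ a ∈ s, ∑ b ∈ s, (if p a = p b then star (u a) * u b else 0) =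
      ∑ q ∈ s.image p, star (∑ a ∈ s with p a = q, u a) * ∑ a ∈ s with p a = q, u a := by
  rw [← Finset.sum_fiberwise_of_maps_to (s := s) (t := s.image p) (g := p)
        (fun a ha => Finset.mem_image_of_mem _ ha)]
  refine Finset.sum_congr rfl fun q _ => ?_
  rw [star_sum, Finset.sum_mul]
  refine Finset.sum_congr rfl fun a ha => ?_
  rw [Finset.mul_sum, Finset.sum_filter]
  refine Finset.sum_congr rfl fun b _ => ?_
  rw [(Finset.mem_filter.1 ha).2]
  by_cases h : q = p b
  · simp [h]
  · rw [if_neg h, if_neg (fun h' => h h'.symm)]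

theorem Phi_psd (s : Finset (HG K r)) (c : HG K r → ℂ) :
    0 ≤ ∑ a ∈ s, ∑ b ∈ s, star (c a) * c b * Phi (a⁻¹ * b) := by
  classical
  have := psd_aux (pt (r := r)) (fun a => c a * sg a.e) s
  have e : ∑ a ∈ s, ∑ b ∈ s, star (c a) * c b * Phi (a⁻¹ * b) =
      ∑ a ∈ s, ∑ b ∈ s, (if pt a = pt b then star (c a * sg a.e) * (c b * sg b.e) else 0) := by
    refine Finset.sum_congr rfl fun a _ => Finset.sum_congr rfl fun b _ => ?_
    rw [Phi_inv_mul]
    split_ifs
    · rw [star_mul, star_sg]; ring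
    · simp
  rw [e, this]
  exact Finset.sum_nonneg fun q _ => star_mul_self_nonneg _

end

end BaseAlg

end Pool.Agent.Lib.EcII
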