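import Pool.Agent.Lib.EcII.Basic

/-!
# Hilbert spaces of positive semidefinite kernels and operators on them
-/

open scoped ComplexOrder InnerProductSpace
open ContinuousLinearMap

noncomputable section

namespace Pool.Agent.Lib.EcII

/-- A positive semidefinite kernel. -/
structure Ker (X : Type) where
  /-- the kernel -/
  K : X → X → ℂ
  herm : ∀ x y, star (K x y) = K y x
  pos : ∀ (s : Finset X) (c : X → ℂ), 0 ≤ ∑ a ∈ s, ∑ b ∈ s, star (c a) * c b * K a b

namespace Ker

variable {X : Type} (κ : Ker X)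

/-- the space of finite formal combinations -/
@[nolint unusedArguments]
def Pre (_ : Ker X) : Type := X →₀ ℂ

instance : AddCommGroup κ.Pre := inferInstanceAs (AddCommGroup (X →₀ ℂ))
instance : Module ℂ κ.Pre := inferInstanceAs (Module ℂ (X →₀ ℂ))

/-- the identity map -/
def toPre : (X →₀ ℂ) ≃ₗ[ℂ] κ.Pre := LinearEquiv.refl ℂ _

/-- the semi inner product -/
def form (f g : X →₀ ℂ) : ℂ := f.sum fun a x => g.sum fun b y => star x * y * κ.K a b

theorem form_add_left (f g h : X →₀ ℂ) : κ.form (f + g) h = κ.form f h + κ.form g h := by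
  classical
  unfold form
  rw [Finsupp.sum_add_index'] <;> simp [← Finsupp.sum_add, add_mul]

theorem form_add_right (f g h : X →₀ ℂ) : κ.form h (f + g) = κ.form h f + κ.form h g := by
  classical
  unfold form
  rw [← Finsupp.sum_add]
  refine Finsupp.sum_congr fun a _ => ?_
  rw [Finsupp.sum_add_index'] <;> simp [mul_add, add_mul]

theorem form_smul_left (r : ℂ) (f g : X →₀ ℂ) : κ.form (r • f) g = star r * κ.form f g := by
  unfold form
  rw [Finsupp.sum_smul_index] <;> simp [Finsupp.mul_sum, ← mul_assoc]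

theorem form_smul_right (r : ℂ) (f g : X →₀ ℂ) : κ.form f (r • g) = r * κ.form f g := by
  unfold form
  rw [Finsupp.mul_sum]
  refine Finsupp.sum_congr fun a _ => ?_
  rw [Finsupp.sum_smul_index, Finsupp.mul_sum]
  · refine Finsupp.sum_congr fun b _ => ?_
    ring
  · simp

theorem form_single (a b : X) (x y : ℂ) :
    κ.form (Finsupp.single a x) (Finsupp.single b y) = star x * y * κ.K a b := by
  simp [form]

theorem form_nonneg (f : X →₀ ℂ) : 0 ≤ κ.form f f := κ.pos f.support f

/-- the core -/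
abbrev core : PreInnerProductSpace.Core ℂ κ.Pre where
  inner f g := κ.form (κ.toPre.symm f) (κ.toPre.symm g)
  conj_inner_symm f g := by
    unfold form
    rw [Finsupp.sum_comm]
    simp only [map_finsuppSum]
    refine Finsupp.sum_congr fun a _ => Finsupp.sum_congr fun b _ => ?_
    rw [map_mul, map_mul, ← Complex.star_def, κ.herm]
    simp [mul_comm]
  re_inner_nonneg f := (Complex.le_def.1 (κ.form_nonneg _)).1
  add_left f g h := by
    rw [map_add]
    exact κ.form_add_left _ _ _
  smul_left f g r := by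
    rw [map_smul]
    exact κ.form_smul_left _ _ _

instance : SeminormedAddCommGroup κ.Pre :=
  InnerProductSpace.Core.toSeminormedAddCommGroup (c := κ.core)
instance : InnerProductSpace ℂ κ.Pre := InnerProductSpace.ofCore κ.core

theorem inner_toPre (f g : X →₀ ℂ) : ⟪κ.toPre f, κ.toPre g⟫_ℂ = κ.form f g := rfl

/-- The Hilbert space of the kernel. -/
abbrev H : Type := UniformSpace.Completion κ.Pre

/-- the canonical map to the Hilbert space -/
def emb : (X →₀ ℂ) →ₗ[ℂ] κ.H :=
  (UniformSpace.Completion.toComplL (𝕜 := ℂ) (E := κ.Pre)).toLinearMap ∘ₗ κ.toPre.toLinearMap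

theorem inner_emb (f g : X →₀ ℂ) : ⟪κ.emb f, κ.emb g⟫_ℂ = κ.form f g := by
  simp only [emb, LinearMap.comp_apply]
  exact UniformSpace.Completion.inner_coe _ _

theorem denseRange_emb : DenseRange κ.emb :=
  UniformSpace.Completion.denseRange_coe.comp (κ.toPre.surjective.denseRange)
    (UniformSpace.Completion.continuous_coe _)

/-- the vector of a point -/
def e (x : X) : κ.H := κ.emb (Finsupp.single x 1)

theorem inner_e (x y : X) : ⟪κ.e x, κ.e y⟫_ℂ = κ.K x y := by
  rw [e, e, inner_emb, form_single]; simp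

theorem norm_emb_sq (f : X →₀ ℂ) : ‖κ.emb f‖ ^ 2 = (κ.form f f).re := by
  have := inner_self_eq_norm_sq_to_K (𝕜 := ℂ) (κ.emb f)
  rw [inner_emb] at this
  rw [this]
  simp [← Complex.ofReal_pow]

theorem emb_eq_sum (f : X →₀ ℂ) : κ.emb f = f.sum fun x c => c • κ.e x := by
  conv_lhs => rw [← f.sum_single]
  rw [map_finsuppSum]
  refine Finsupp.sum_congr fun x _ => ?_
  rw [e, ← map_smul]; simp

/-- equality of continuous linear maps can be tested on the point vectors -/
theorem ext_e {F : Type*} [NormedAddCommGroup F] [NormedSpace ℂ F] {S T : κ.H →L[ℂ] F}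
    (h : ∀ x, S (κ.e x) = T (κ.e x)) : S = T := by
  refine ContinuousLinearMap.ext fun y => ?_
  refine κ.denseRange_emb.induction_on y (isClosed_eq S.continuous T.continuous) fun f => ?_
  rw [emb_eq_sum, map_finsuppSum, map_finsuppSum]
  refine Finsupp.sum_congr fun x _ => ?_
  rw [map_smul, map_smul, h]

theorem ext_inner {y z : κ.H} (h : ∀ x, ⟪κ.e x, y⟫_ℂ = ⟪κ.e x, z⟫_ℂ) : y = z := by
  have h2 : ∀ w : κ.H, ⟪w, y⟫_ℂ = ⟪w, z⟫_ℂ := by
    intro w
    refine κ.denseRange_emb.induction_on w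
      (isClosed_eq (continuous_id.inner continuous_const) (continuous_id.inner continuous_const))
      fun f => ?_
    rw [emb_eq_sum, Finsupp.sum_inner, Finsupp.sum_inner]
    refine Finsupp.sum_congr fun x _ => ?_
    rw [inner_smul_left, inner_smul_left, h]
  exact ext_inner_left ℂ h2

/-- the linear extension of a map on points -/
def lin (t : X → (X →₀ ℂ)) : (X →₀ ℂ) →ₗ[ℂ] (X →₀ ℂ) := Finsupp.linearCombination ℂ t

theorem lin_single (t : X → (X →₀ ℂ)) (x : X) : lin t (Finsupp.single x 1) = t x := by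
  simp [lin]

/-- The bounded operator of a map on points which satisfies a bound. -/
def op (t : X → (X →₀ ℂ)) (C : ℝ)
    (h : ∀ f, (κ.form (lin t f) (lin t f)).re ≤ C ^ 2 * (κ.form f f).re) : κ.H →L[ℂ] κ.H :=
  (((κ.toPre.toLinearMap ∘ₗ lin t ∘ₗ κ.toPre.symm.toLinearMap)).mkContinuous |C| (by
    intro f
    have h1 := h (κ.toPre.symm f)
    have h2 : ‖(κ.toPre.toLinearMap ∘ₗ lin t ∘ₗ κ.toPre.symm.toLinearMap) f‖ ^ 2 ≤
        (|C| * ‖f‖) ^ 2 := by
      rw [mul_pow, sq_abs]
      have e1 : ∀ g : κ.Pre, ‖g‖ ^ 2 = (κ.form (κ.toPre.symm g) (κ.toPre.symm g)).re := by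
        intro g
        have := inner_self_eq_norm_sq_to_K (𝕜 := ℂ) g
        have h3 : ⟪g, g⟫_ℂ = κ.form (κ.toPre.symm g) (κ.toPre.symm g) := rfl
        rw [h3] at this
        rw [this]; simp [← Complex.ofReal_pow]
      rw [e1, e1]
      exact h1
    exact (abs_le_of_sq_le_sq' h2 (by positivity)).2)).completion

theorem op_emb (t : X → (X →₀ ℂ)) (C : ℝ)
    (h : ∀ f, (κ.form (lin t f) (lin t f)).re ≤ C ^ 2 * (κ.form f f).re) (f : X →₀ ℂ) :
    κ.op t C h (κ.emb f) = κ.emb (lin t f) := by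
  unfold op
  exact ContinuousLinearMap.completion_apply_coe _ _

theorem op_e (t : X → (X →₀ ℂ)) (C : ℝ)
    (h : ∀ f, (κ.form (lin t f) (lin t f)).re ≤ C ^ 2 * (κ.form f f).re) (x : X) :
    κ.op t C h (κ.e x) = κ.emb (t x) := by
  rw [e, op_emb, lin_single]

theorem norm_op_le (t : X → (X →₀ ℂ)) (C : ℝ) (hC : 0 ≤ C)
    (h : ∀ f, (κ.form (lin t f) (lin t f)).re ≤ C ^ 2 * (κ.form f f).re) :
    ‖κ.op t C h‖ ≤ C := by
  refine opNorm_le_bound _ hC fun y => ?_
  refine κ.denseRange_emb.induction_on y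
    (isClosed_le (κ.op t C h).continuous.norm (continuous_const.mul continuous_norm)) fun f => ?_
  rw [op_emb]
  have h2 : ‖κ.emb (lin t f)‖ ^ 2 ≤ (C * ‖κ.emb f‖) ^ 2 := by
    rw [mul_pow, norm_emb_sq, norm_emb_sq]; exact h f
  exact (abs_le_of_sq_le_sq' h2 (by positivity)).2

/-- criterion for the adjoint -/
theorem star_eq_of {S T : κ.H →L[ℂ] κ.H}
    (h : ∀ x y, ⟪S (κ.e x), κ.e y⟫_ℂ = ⟪κ.e x, T (κ.e y)⟫_ℂ) : star S = T := by
  refine κ.ext_e fun y => κ.ext_inner fun x => ?_
  rw [star_eq_adjoint, adjoint_inner_right, h]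

/-- the form after applying a map of points -/
theorem form_lin_single (φ ψ : X → X) (f g : X →₀ ℂ) :
    κ.form (lin (fun x => Finsupp.single (φ x) 1) f) (lin (fun x => Finsupp.single (ψ x) 1) g) =
      ∑ a ∈ f.support, ∑ b ∈ g.support, star (f a) * g b * κ.K (φ a) (ψ b) := by
  classical
  have h1 : ∀ (φ : X → X) (f : X →₀ ℂ), lin (fun x => Finsupp.single (φ x) 1) f =
      ∑ a ∈ f.support, f a • Finsupp.single (φ a) (1 : ℂ) := by
    intro φ f
    simp [lin, Finsupp.linearCombination_apply, Finsupp.sum]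
  have h2 : ∀ (s : Finset X) (F : X → X →₀ ℂ) (g : X →₀ ℂ),
      κ.form (∑ a ∈ s, F a) g = ∑ a ∈ s, κ.form (F a) g := by
    intro s F g
    induction s using Finset.induction_on with
    | empty => simp [form]
    | insert a s ha ih => rw [Finset.sum_insert ha, Finset.sum_insert ha, form_add_left, ih]
  have h3 : ∀ (s : Finset X) (F : X → X →₀ ℂ) (g : X →₀ ℂ),
      κ.form g (∑ a ∈ s, F a) = ∑ a ∈ s, κ.form g (F a) := by
    intro s F g
    induction s using Finset.induction_on with
    | empty => simp [form]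
    | insert a s ha ih => rw [Finset.sum_insert ha, Finset.sum_insert ha, form_add_right, ih]
  rw [h1, h1, h2]
  refine Finset.sum_congr rfl fun a _ => ?_
  rw [h3]
  refine Finset.sum_congr rfl fun b _ => ?_
  rw [form_smul_left, form_smul_right, form_single]
  simp
  ring

theorem lin_id (f : X →₀ ℂ) : lin (fun x => Finsupp.single x 1) f = f := by
  simp [lin, Finsupp.linearCombination_apply]

theorem form_eq_sum (f g : X →₀ ℂ) :
    κ.form f g = ∑ a ∈ f.support, ∑ b ∈ g.support, star (f a) * g b * κ.K a b := rfl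

/-- adjoint maps of points give adjoint maps for the form -/
theorem form_lin_adj (φ ψ : X → X) (hφ : ∀ a b, κ.K (φ a) b = κ.K a (ψ b)) (f g : X →₀ ℂ) :
    κ.form (lin (fun x => Finsupp.single (φ x) 1) f) g =
      κ.form f (lin (fun x => Finsupp.single (ψ x) 1) g) := by
  have h1 := κ.form_lin_single φ id f g
  have h2 := κ.form_lin_single id ψ f g
  simp only [id_eq] at h1 h2
  rw [lin_id] at h1 h2
  rw [h1, h2]
  refine Finset.sum_congr rfl fun a _ => Finset.sum_congr rfl fun b _ => ?_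
  rw [hφ]

/-- a bound for an operator gives the bound for its adjoint -/
theorem bound_adj {S T : (X →₀ ℂ) →ₗ[ℂ] (X →₀ ℂ)} (hST : ∀ f g, κ.form (S f) g = κ.form f (T g))
    {C : ℝ} (hC : 0 ≤ C) (hS : ∀ f, (κ.form (S f) (S f)).re ≤ C ^ 2 * (κ.form f f).re)
    (f : X →₀ ℂ) : (κ.form (T f) (T f)).re ≤ C ^ 2 * (κ.form f f).re := by
  have hS' : ∀ f, ‖κ.emb (S f)‖ ≤ C * ‖κ.emb f‖ := by
    intro f
    have : ‖κ.emb (S f)‖ ^ 2 ≤ (C * ‖κ.emb f‖) ^ 2 := by
      rw [mul_pow, norm_emb_sq, norm_emb_sq]; exact hS f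
    exact (abs_le_of_sq_le_sq' this (by positivity)).2
  have h1 : ‖κ.emb (T f)‖ ^ 2 ≤ C * ‖κ.emb (T f)‖ * ‖κ.emb f‖ := by
    rw [norm_emb_sq, ← hST, ← inner_emb]
    refine (Complex.re_le_norm _).trans ((norm_inner_le_norm _ _).trans ?_)
    exact mul_le_mul_of_nonneg_right (hS' _) (norm_nonneg _)
  rw [← norm_emb_sq, ← norm_emb_sq, ← mul_pow]
  rcases (norm_nonneg (κ.emb (T f))).eq_or_lt with h0 | h0
  · rw [← h0]; simp; positivity
  · have : ‖κ.emb (T f)‖ ≤ C * ‖κ.emb f‖ := by
      by_contra hlt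
      push Not at hlt
      nlinarith
    exact pow_le_pow_left₀ h0.le this 2

theorem herm_of_pos {X : Type} {K : X → X → ℂ}
    (pos : ∀ (s : Finset X) (c : X → ℂ), 0 ≤ ∑ a ∈ s, ∑ b ∈ s, star (c a) * c b * K a b)
    (x y : X) : star (K x y) = K y x := by
  classical
  have hd : ∀ x, (K x x).im = 0 := by
    intro x
    have := pos {x} (fun _ => 1)
    simp at this
    exact (Complex.le_def.1 this).2.symm
  rcases eq_or_ne x y with rfl | hxy
  · apply Complex.ext
    · simp
    · simp [hd x]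
  · have h1 := pos {x, y} (fun _ => 1)
    have h2 := pos {x, y} (fun z => if z = x then 1 else Complex.I)
    rw [Finset.sum_pair hxy, Finset.sum_pair hxy, Finset.sum_pair hxy] at h1 h2
    simp only [if_true, hxy.symm, if_false, star_one, one_mul, mul_one, Complex.star_def,
      Complex.conj_I, neg_mul, Complex.I_mul_I, neg_neg] at h1 h2
    have h1' := (Complex.le_def.1 h1).2
    have h2' := (Complex.le_def.1 h2).2
    simp [hd] at h1' h2'
    apply Complex.ext
    · simp; linarith
    · simp; linarith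

end Ker

end Pool.Agent.Lib.EcII
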