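import Pool.Agent.Lib.EcII.StdForm
import Pool.Agent.Lib.EcII.PreHilb

/-!
# Every positive law is the law of a generating tuple of contractions
-/

open scoped ComplexOrder InnerProductSpace
open ContinuousLinearMap

noncomputable section

namespace Pool.Agent.Lib.EcII

namespace LawGNS

variable {J : Type} {μ : List (J × Bool) → ℂ} (h : IsPosLaw μ)

/-- the kernel of a law -/
def ker (h : IsPosLaw μ) : Ker (List (J × Bool)) where
  K a b := μ (wstar a ++ b)
  herm := Ker.herm_of_pos h.pos
  pos := h.pos

theorem ker_K (a b : List (J × Bool)) : (ker h).K a b = μ (wstar a ++ b) := rfl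

/-- left multiplication by a letter on points -/
def tl (x : J × Bool) (w : List (J × Bool)) : List (J × Bool) →₀ ℂ := Finsupp.single (x :: w) 1

/-- right multiplication by a letter on points -/
def tr (x : J × Bool) (w : List (J × Bool)) : List (J × Bool) →₀ ℂ := Finsupp.single (w ++ [x]) 1

theorem adj_l (x : J × Bool) (f g : List (J × Bool) →₀ ℂ) :
    (ker h).form (Ker.lin (tl x) f) g = (ker h).form f (Ker.lin (tl (x.1, !x.2)) g) := by
  refine (ker h).form_lin_adj (fun w => x :: w) (fun w => (x.1, !x.2) :: w) (fun a b => ?_) f g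
  rw [ker_K, ker_K]
  rcases x with ⟨j, e⟩
  rw [wstar_cons]
  simp

theorem adj_r (x : J × Bool) (f g : List (J × Bool) →₀ ℂ) :
    (ker h).form (Ker.lin (tr x) f) g = (ker h).form f (Ker.lin (tr (x.1, !x.2)) g) := by
  refine (ker h).form_lin_adj (fun w => w ++ [x]) (fun w => w ++ [(x.1, !x.2)])
    (fun a b => ?_) f g
  rw [ker_K, ker_K]
  rcases x with ⟨j, e⟩
  rw [wstar_append]
  have : wstar [(j, e)] = [(j, !e)] := by rw [wstar_cons]; simp
  rw [this, List.append_assoc, h.tracial]
  simp

theorem bound_l' (j : J) (f : List (J × Bool) →₀ ℂ) :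
    ((ker h).form (Ker.lin (tl (j, false)) f) (Ker.lin (tl (j, false)) f)).re ≤
      (1 : ℝ) ^ 2 * ((ker h).form f f).re := by
  rw [one_pow, one_mul]
  have h1 := (ker h).form_lin_single (fun w => (j, false) :: w) (fun w => (j, false) :: w) f f
  have h2 := h.contr j f.support f
  have h3 : (ker h).form (Ker.lin (tl (j, false)) f) (Ker.lin (tl (j, false)) f) =
      ∑ a ∈ f.support, ∑ b ∈ f.support, star (f a) * f b *
        μ (wstar a ++ (j, true) :: (j, false) :: b) := by
    refine h1.trans (Finset.sum_congr rfl fun a _ => Finset.sum_congr rfl fun b _ => ?_)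
    rw [ker_K, wstar_cons]
    simp
  rw [h3]
  exact (Complex.le_def.1 h2).1

theorem bound_l (x : J × Bool) (f : List (J × Bool) →₀ ℂ) :
    ((ker h).form (Ker.lin (tl x) f) (Ker.lin (tl x) f)).re ≤
      (1 : ℝ) ^ 2 * ((ker h).form f f).re := by
  rcases x with ⟨j, e⟩
  cases e
  · exact bound_l' h j f
  · exact (ker h).bound_adj (adj_l h (j, false)) zero_le_one (bound_l' h j) f

/-- the conjugation of formal combinations -/
def cj (f : List (J × Bool) →₀ ℂ) : List (J × Bool) →₀ ℂ :=
  f.sum fun w c => Finsupp.single (wstar w) (star c)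

theorem cj_add (f g : List (J × Bool) →₀ ℂ) : cj (f + g) = cj f + cj g := by
  classical
  unfold cj
  rw [Finsupp.sum_add_index'] <;> simp

theorem cj_single (w : List (J × Bool)) (c : ℂ) :
    cj (Finsupp.single w c) = Finsupp.single (wstar w) (star c) := by
  simp [cj]

theorem form_cj (f g : List (J × Bool) →₀ ℂ) :
    (ker h).form (cj f) (cj g) = (ker h).form g f := by
  induction f using Finsupp.induction_linear with
  | zero => simp [cj, Ker.form]
  | add f f' hf hf' => rw [cj_add, Ker.form_add_left, hf, hf', Ker.form_add_right]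
  | single a c =>
    induction g using Finsupp.induction_linear with
    | zero => simp [cj, Ker.form]
    | add g g' hg hg' => rw [cj_add, Ker.form_add_right, hg, hg', Ker.form_add_left]
    | single b d =>
      rw [cj_single, cj_single, Ker.form_single, Ker.form_single, ker_K, ker_K, wstar_wstar,
        h.tracial]
      simp [mul_comm]

theorem cj_lin (x : J × Bool) (f : List (J × Bool) →₀ ℂ) :
    cj (Ker.lin (tr x) f) = Ker.lin (tl (x.1, !x.2)) (cj f) := by
  induction f using Finsupp.induction_linear with
  | zero => simp [cj]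
  | add f f' hf hf' => rw [map_add, cj_add, hf, hf', cj_add, map_add]
  | single a c =>
    have h1 : Ker.lin (tr x) (Finsupp.single a c) = Finsupp.single (a ++ [x]) c := by
      simp [Ker.lin, tr]
    have h2 : Ker.lin (tl (x.1, !x.2)) (Finsupp.single (wstar a) (star c)) =
        Finsupp.single ((x.1, !x.2) :: wstar a) (star c) := by
      simp [Ker.lin, tl]
    rw [h1, cj_single, cj_single, h2, wstar_append]
    rfl

theorem bound_r (x : J × Bool) (f : List (J × Bool) →₀ ℂ) :
    ((ker h).form (Ker.lin (tr x) f) (Ker.lin (tr x) f)).re ≤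
      (1 : ℝ) ^ 2 * ((ker h).form f f).re := by
  rw [← form_cj h (Ker.lin (tr x) f), cj_lin, ← form_cj h f]
  exact bound_l h _ _

/-- left operator of a letter -/
def L (x : J × Bool) : (ker h).H →L[ℂ] (ker h).H := (ker h).op (tl x) 1 (bound_l h x)

/-- right operator of a letter -/
def R (x : J × Bool) : (ker h).H →L[ℂ] (ker h).H := (ker h).op (tr x) 1 (bound_r h x)

theorem L_e (x : J × Bool) (w : List (J × Bool)) : L h x ((ker h).e w) = (ker h).e (x :: w) :=
  (ker h).op_e _ _ _ _

theorem R_e (x : J × Bool) (w : List (J × Bool)) : R h x ((ker h).e w) = (ker h).e (w ++ [x]) :=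
  (ker h).op_e _ _ _ _

theorem star_L (x : J × Bool) : star (L h x) = L h (x.1, !x.2) := by
  refine (ker h).star_eq_of fun a b => ?_
  rw [L_e, L_e, Ker.inner_e, Ker.inner_e, ker_K, ker_K]
  rcases x with ⟨j, e⟩
  rw [wstar_cons]
  simp

theorem star_R (x : J × Bool) : star (R h x) = R h (x.1, !x.2) := by
  refine (ker h).star_eq_of fun a b => ?_
  rw [R_e, R_e, Ker.inner_e, Ker.inner_e, ker_K, ker_K]
  rcases x with ⟨j, e⟩
  rw [wstar_append]
  have : wstar [(j, e)] = [(j, !e)] := by rw [wstar_cons]; simp
  rw [this, List.append_assoc, h.tracial]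
  simp

theorem comm_LR (x y : J × Bool) : L h x * R h y = R h y * L h x := by
  refine (ker h).ext_e fun w => ?_
  show L h x (R h y _) = R h y (L h x _)
  rw [R_e, L_e, L_e, R_e]; simp

theorem norm_L_le (x : J × Bool) : ‖L h x‖ ≤ 1 := (ker h).norm_op_le _ _ zero_le_one _

/-- operator of a word -/
def Lw (w : List (J × Bool)) : (ker h).H →L[ℂ] (ker h).H := (w.map (L h)).prod

/-- right operator of a word -/
def Rw (w : List (J × Bool)) : (ker h).H →L[ℂ] (ker h).H := (w.reverse.map (R h)).prod

theorem Lw_e (w v : List (J × Bool)) : Lw h w ((ker h).e v) = (ker h).e (w ++ v) := by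
  induction w with
  | nil => simp [Lw]
  | cons x w ih =>
    have : Lw h (x :: w) = L h x * Lw h w := by simp [Lw]
    rw [this]
    show L h x (Lw h w _) = _
    rw [ih, L_e]; rfl

theorem Rw_e (w v : List (J × Bool)) : Rw h w ((ker h).e v) = (ker h).e (v ++ w) := by
  induction w generalizing v with
  | nil => simp [Rw]
  | cons x w ih =>
    have : Rw h (x :: w) = Rw h w * R h x := by simp [Rw]
    rw [this]
    show Rw h w (R h x _) = _
    rw [R_e, ih]; simp

theorem star_Lw (w : List (J × Bool)) : star (Lw h w) = Lw h (wstar w) := by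
  refine (ker h).star_eq_of fun a b => ?_
  rw [Lw_e, Lw_e, Ker.inner_e, Ker.inner_e, ker_K, ker_K, wstar_append, List.append_assoc]

theorem star_Rw (w : List (J × Bool)) : star (Rw h w) = Rw h (wstar w) := by
  refine (ker h).star_eq_of fun a b => ?_
  rw [Rw_e, Rw_e, Ker.inner_e, Ker.inner_e, ker_K, ker_K, wstar_append, List.append_assoc,
    h.tracial, List.append_assoc]

theorem comm_LRw (w v : List (J × Bool)) : Lw h w * Rw h v = Rw h v * Lw h w := by
  refine (ker h).ext_e fun u => ?_
  show Lw h w (Rw h v _) = Rw h v (Lw h w _)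
  rw [Rw_e, Lw_e, Lw_e, Rw_e]; simp

/-- the standard form of a law -/
def std : StdData (ker h).H (List (J × Bool) →₀ ℂ) where
  l f := f.sum fun w c => c • Lw h w
  r f := f.sum fun w c => c • Rw h w
  inv := cj
  Ω := (ker h).e []
  norm_Ω := by
    have h1 : ‖(ker h).e ([] : List (J × Bool))‖ ^ 2 = 1 := by
      have := inner_self_eq_norm_sq_to_K (𝕜 := ℂ) ((ker h).e ([] : List (J × Bool)))
      rw [Ker.inner_e, ker_K] at this
      simp only [wstar_nil, List.append_nil, h.one] at this
      have h2 := congrArg Complex.re this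
      simp [← Complex.ofReal_pow] at h2
      exact h2.symm
    nlinarith [norm_nonneg ((ker h).e ([] : List (J × Bool)))]
  hl f := by
    induction f using Finsupp.induction_linear with
    | zero => simp [cj]
    | add f g hf hg =>
      rw [cj_add, Finsupp.sum_add_index' (by simp) (by simp [add_smul]), hf, hg,
        Finsupp.sum_add_index' (by simp) (by simp [add_smul]), star_add]
    | single w c => rw [cj_single]; simp [star_smul, star_Lw]
  hr f := by
    induction f using Finsupp.induction_linear with
    | zero => simp [cj]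
    | add f g hf hg =>
      rw [cj_add, Finsupp.sum_add_index' (by simp) (by simp [add_smul]), hf, hg,
        Finsupp.sum_add_index' (by simp) (by simp [add_smul]), star_add]
    | single w c => rw [cj_single]; simp [star_smul, star_Rw]
  comm f g := by
    simp only [Finsupp.sum]
    rw [Finset.sum_mul_sum, Finset.sum_mul_sum, Finset.sum_comm]
    refine Finset.sum_congr rfl fun a _ => Finset.sum_congr rfl fun b _ => ?_
    rw [smul_mul_smul_comm, smul_mul_smul_comm, comm_LRw, mul_comm]
  vac f := by
    simp only [Finsupp.sum, sum_apply, smul_apply]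
    refine Finset.sum_congr rfl fun a _ => ?_
    rw [Lw_e, Rw_e]; simp
  dense := by
    have : (fun f : List (J × Bool) →₀ ℂ => (f.sum fun w c => c • Lw h w) ((ker h).e [])) =
        (ker h).emb := by
      funext f
      rw [Ker.emb_eq_sum]
      simp only [Finsupp.sum, sum_apply, smul_apply]
      refine Finset.sum_congr rfl fun a _ => ?_
      rw [Lw_e]; simp
    rw [this]
    exact (ker h).denseRange_emb

end LawGNS

open LawGNS in
/-- Every positive law is the law of a generating tuple of contractions in a tracial von Neumann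
algebra. -/
theorem IsPosLaw.exists_tvn {J : Type} {μ : List (J × Bool) → ℂ} (h : IsPosLaw μ) :
    ∃ (M : TVN) (v : J → M), (∀ j, ‖v j‖ ≤ 1) ∧ M.law v = μ ∧ M.Gen v := by
  have hmem : ∀ j, L h (j, false) ∈ (std h).alg := by
    intro j
    rw [StdData.mem_alg]
    intro f
    show L h (j, false) * (f.sum fun w c => c • Rw h w) = (f.sum fun w c => c • Rw h w) * _
    simp only [Finsupp.sum]
    rw [Finset.mul_sum, Finset.sum_mul]
    refine Finset.sum_congr rfl fun a _ => ?_
    rw [mul_smul_comm, smul_mul_assoc]
    have := comm_LRw h [(j, false)] a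
    simp only [Lw, List.map_cons, List.map_nil, List.prod_cons, List.prod_nil, mul_one] at this
    rw [this]
  choose v hv using fun j => (std h).exists_incl (hmem j)
  have hev : ∀ w, (std h).incl (TVN.ev v w) = Lw h w := by
    intro w
    induction w with
    | nil => simp [Lw]
    | cons x w ih =>
      have : Lw h (x :: w) = L h x * Lw h w := by simp [Lw]
      rw [TVN.ev_cons, map_mul, ih, this]
      congr 1
      rcases x with ⟨j, e⟩
      cases e
      · simp [hv]
      · rw [TVN.letter_true, map_star, hv, star_L]; rfl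
  refine ⟨(std h).tvn, v, fun j => ?_, ?_, ?_⟩
  · rw [← (std h).norm_incl, hv]
    exact norm_L_le h _
  · funext w
    show (std h).tvn.tr (TVN.ev v w) = _
    rw [StdData.tr_eq, hev]
    show ⟪(ker h).e [], Lw h w ((ker h).e [])⟫_ℂ = _
    rw [Lw_e, Ker.inner_e, ker_K]; simp
  · intro x hx
    apply (std h).incl_injective
    rw [map_zero]
    refine (std h).eq_zero_of_apply ((std h).incl_mem x) ?_
    refine (ker h).ext_inner fun w => ?_
    rw [inner_zero_right]
    have h1 := hx w
    rw [StdData.tr_eq, map_mul, map_star, hev] at h1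
    have h2 : ⟪(std h).Ω, (star (Lw h w) * (std h).incl x) (std h).Ω⟫_ℂ =
        ⟪Lw h w (std h).Ω, (std h).incl x (std h).Ω⟫_ℂ := by
      show ⟪(std h).Ω, (star (Lw h w)) ((std h).incl x (std h).Ω)⟫_ℂ = _
      rw [star_eq_adjoint, adjoint_inner_right]
    rw [h2] at h1
    have h3 : Lw h w (std h).Ω = (ker h).e w := by
      show Lw h w ((ker h).e []) = _
      rw [Lw_e]; simp
    rwa [h3] at h1

end Pool.Agent.Lib.EcII
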