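import Pool.Agent.Lib.EcII.Poly
import Pool.Agent.Lib.EcII.GNS

/-!
# Laws of group elements under a positive definite tracial function
-/

open scoped ComplexOrder

noncomputable section

namespace Pool.Agent.Lib.EcII

/-- value of a word in a group -/
def gev {G J : Type*} [Group G] (f : J → G) (w : List (J × Bool)) : G :=
  (w.map (fun a => if a.2 then (f a.1)⁻¹ else f a.1)).prod

section

variable {G J : Type*} [Group G] (f : J → G)

@[simp] theorem gev_nil : gev f [] = 1 := rfl

theorem gev_append (a b : List (J × Bool)) : gev f (a ++ b) = gev f a * gev f b := by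
  simp [gev]

theorem gev_cons (a : J × Bool) (b : List (J × Bool)) :
    gev f (a :: b) = (if a.2 then (f a.1)⁻¹ else f a.1) * gev f b := by
  simp [gev]

theorem gev_wstar (w : List (J × Bool)) : gev f (wstar w) = (gev f w)⁻¹ := by
  induction w with
  | nil => simp
  | cons a w ih =>
    rcases a with ⟨j, e⟩
    rw [wstar_cons, gev_append, ih, gev_cons, gev_cons, mul_inv_rev]
    cases e <;> simp

/-- A positive definite tracial function on a group gives a law for every family of elements. -/
theorem isPosLaw_group (Φ : G → ℂ) (h1 : Φ 1 = 1) (hc : ∀ a b, Φ (a * b) = Φ (b * a))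
    (hp : ∀ (s : Finset G) (c : G → ℂ), 0 ≤ ∑ a ∈ s, ∑ b ∈ s, star (c a) * c b * Φ (a⁻¹ * b)) :
    IsPosLaw (fun w : List (J × Bool) => Φ (gev f w)) := by
  classical
  have key : ∀ (s : Finset (List (J × Bool))) (c : List (J × Bool) → ℂ),
      0 ≤ ∑ a ∈ s, ∑ b ∈ s, star (c a) * c b * Φ ((gev f a)⁻¹ * gev f b) := by
    intro s c
    have h2 := hp (s.image (gev f)) (fun g => ∑ a ∈ s with gev f a = g, c a)
    refine le_of_le_of_eq h2 ?_
    have e1 : ∀ (F : G → List (J × Bool) → ℂ), ∑ g ∈ s.image (gev f),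
        ∑ a ∈ s with gev f a = g, F g a = ∑ a ∈ s, F (gev f a) a := by
      intro F
      rw [← Finset.sum_fiberwise_of_maps_to (s := s) (t := s.image (gev f)) (g := gev f)
        (fun a ha => Finset.mem_image_of_mem _ ha)]
      refine Finset.sum_congr rfl fun g _ => Finset.sum_congr rfl fun a ha => ?_
      rw [(Finset.mem_filter.1 ha).2]
    calc _ = ∑ g ∈ s.image (gev f), ∑ a ∈ s with gev f a = g,
          (∑ g' ∈ s.image (gev f), ∑ b ∈ s with gev f b = g',
            star (c a) * c b * Φ (g⁻¹ * g')) := by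
          refine Finset.sum_congr rfl fun g _ => ?_
          rw [Finset.sum_comm]
          refine Finset.sum_congr rfl fun g' _ => ?_
          rw [star_sum, Finset.sum_mul_sum, Finset.sum_mul]
          refine Finset.sum_congr rfl fun a _ => ?_
          rw [Finset.sum_mul]
      _ = _ := by
          rw [e1 (fun g a => ∑ g' ∈ s.image (gev f), ∑ b ∈ s with gev f b = g',
            star (c a) * c b * Φ (g⁻¹ * g'))]
          refine Finset.sum_congr rfl fun a _ => ?_
          exact e1 (fun g' b => star (c a) * c b * Φ ((gev f a)⁻¹ * g'))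
  refine ⟨by simpa using h1, fun a b => ?_, fun s c => ?_, fun x s c => ?_⟩
  · rw [gev_append, gev_append, hc]
  · refine le_of_le_of_eq (key s c) ?_
    refine Finset.sum_congr rfl fun a _ => Finset.sum_congr rfl fun b _ => ?_
    rw [gev_append, gev_wstar]
  · refine le_of_eq ?_
    refine Finset.sum_congr rfl fun a _ => Finset.sum_congr rfl fun b _ => ?_
    rw [gev_append, gev_append, gev_cons, gev_cons]
    simp

end

namespace TVN

variable {G J : Type*} [Group G] {f : J → G} {Φ : G → ℂ} {M : TVN} {v : J → M}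

theorem n2_evp_group (hM : ∀ w, M.law v w = Φ (gev f w)) (Q : List (J × Bool) →₀ ℂ) :
    ((M.n2 (evp v Q) ^ 2 : ℝ) : ℂ) = ∑ a ∈ Q.support, ∑ b ∈ Q.support,
      star (Q a) * Q b * Φ ((gev f a)⁻¹ * gev f b) := by
  rw [← tr_star_mul_self]
  have := sum_law_eq v Q.support Q
  have e : evp v Q = ∑ a ∈ Q.support, Q a • ev v a := rfl
  rw [e, ← this]
  refine Finset.sum_congr rfl fun a _ => Finset.sum_congr rfl fun b _ => ?_
  rw [hM, gev_append, gev_wstar]

/-- words with the same group value are equal -/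
theorem ev_eq_of_gev_eq (hM : ∀ w, M.law v w = Φ (gev f w)) {a b : List (J × Bool)}
    (h : gev f a = gev f b) : ev v a = ev v b := by
  have h1 : M.n2 (ev v a - ev v b) ^ 2 = 0 := by
    rw [n2_sub_sq, n2_sq, n2_sq, ← ev_wstar, ← ev_wstar, ← ev_append, ← ev_append, ← ev_append]
    have e : ∀ w, M.tr (ev v w) = Φ (gev f w) := hM
    rw [e, e, e, gev_append, gev_append, gev_append, gev_wstar, gev_wstar, h]
    simp
    ring
  have h2 := M.n2_eq_zero.1 (pow_eq_zero_iff two_ne_zero |>.1 h1)
  exact sub_eq_zero.1 h2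

theorem unitary_of_group (hM : ∀ w, M.law v w = Φ (gev f w)) (j : J) : v j ∈ unitary M := by
  rw [Unitary.mem_iff]
  constructor
  · have := ev_eq_of_gev_eq (f := f) (Φ := Φ) hM (a := [(j, true), (j, false)]) (b := [])
      (by simp [gev])
    simpa [ev] using this
  · have := ev_eq_of_gev_eq (f := f) (Φ := Φ) hM (a := [(j, false), (j, true)]) (b := [])
      (by simp [gev])
    simpa [ev] using this

end TVN

/-- The tracial von Neumann algebra of a positive definite tracial function on a group. -/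
theorem exists_group_tvn {G : Type} [Group G] (Φ : G → ℂ) (h1 : Φ 1 = 1)
    (hc : ∀ a b, Φ (a * b) = Φ (b * a))
    (hp : ∀ (s : Finset G) (c : G → ℂ), 0 ≤ ∑ a ∈ s, ∑ b ∈ s, star (c a) * c b * Φ (a⁻¹ * b)) :
    ∃ (C : TVN) (π : G → C), C.Gen π ∧ (∀ g, π g ∈ unitary C) ∧ (∀ a b, π (a * b) = π a * π b) ∧
      π 1 = 1 ∧ (∀ g, π g⁻¹ = star (π g)) ∧ ∀ g, C.tr (π g) = Φ g := by
  obtain ⟨C, π, -, hlaw, hgen⟩ := (isPosLaw_group (J := G) id Φ h1 hc hp).exists_tvn
  have hM : ∀ w, C.law π w = Φ (gev id w) := fun w => congrFun hlaw w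
  refine ⟨C, π, hgen, TVN.unitary_of_group hM, fun a b => ?_, ?_, fun g => ?_, fun g => ?_⟩
  · have := TVN.ev_eq_of_gev_eq (f := id) (Φ := Φ) hM (a := [(a * b, false)])
      (b := [(a, false), (b, false)]) (by simp [gev])
    simpa [TVN.ev] using this
  · have := TVN.ev_eq_of_gev_eq (f := id) (Φ := Φ) hM (a := [((1 : G), false)])
      (b := []) (by simp [gev])
    simpa [TVN.ev] using this
  · have := TVN.ev_eq_of_gev_eq (f := id) (Φ := Φ) hM (a := [(g⁻¹, false)])
      (b := [(g, true)]) (by simp [gev])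
    simpa [TVN.ev] using this
  · have := hM [(g, false)]
    simpa [TVN.law, TVN.ev, gev] using this

end Pool.Agent.Lib.EcII
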