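import Pool.Agent.Lib.EcII.Funs
import Pool.Agent.Lib.EcII.GroupLaw
import Pool.Agent.Lib.EcII.BaseGrp

/-!
# A continuous family of laws coding bits by commutators
-/

open scoped ComplexOrder

noncomputable section

namespace Pool.Agent.Lib.EcII

namespace BaseAlg

/-! ### Computations in the algebra -/

section

variable {J : Type*} {K : Type} [Group K] {r : K → ZMod 2} {M : TVN} {v : J → M}
  {f : J → HG K r}

open Classical in
theorem tr_star_ev_mul_ev (hM : ∀ w, M.law v w = Phi (gev f w)) (a b : List (J × Bool)) :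
    M.tr (star (TVN.ev v a) * TVN.ev v b) =
      if pt (gev f a) = pt (gev f b) then sg (gev f a).e * sg (gev f b).e else 0 := by
  rw [← TVN.ev_wstar, ← TVN.ev_append, ← Phi_inv_mul, ← gev_wstar, ← gev_append]
  exact hM _

theorem sg_mul_self (e : ZMod 2) : sg e * sg e = 1 := by
  rcases zcases e with rfl | rfl <;> simp [sg_zero, sg_one]

theorem n2_ev (hM : ∀ w, M.law v w = Phi (gev f w)) (a : List (J × Bool)) :
    M.n2 (TVN.ev v a) ^ 2 = 1 := by
  rw [TVN.n2_sq, tr_star_ev_mul_ev hM, if_pos rfl, sg_mul_self, Complex.one_re]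

/-- The norm of a linear combination of words in distinct classes. -/
theorem n2_sq_orth (hM : ∀ w, M.law v w = Phi (gev f w)) {I : Type*} (s : Finset I)
    (W : I → List (J × Bool)) (a : I → ℂ)
    (hinj : ∀ i ∈ s, ∀ j ∈ s, pt (gev f (W i)) = pt (gev f (W j)) → i = j) :
    M.n2 (∑ i ∈ s, a i • TVN.ev v (W i)) ^ 2 = ∑ i ∈ s, ‖a i‖ ^ 2 := by
  classical
  have h : ((M.n2 (∑ i ∈ s, a i • TVN.ev v (W i)) ^ 2 : ℝ) : ℂ) =
      ((∑ i ∈ s, ‖a i‖ ^ 2 : ℝ) : ℂ) := by
    rw [← TVN.tr_star_mul_self, star_sum, Finset.sum_mul_sum, map_sum, Complex.ofReal_sum]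
    refine Finset.sum_congr rfl fun i hi => ?_
    rw [map_sum, Finset.sum_eq_single_of_mem i hi]
    · rw [star_smul, smul_mul_smul_comm, map_smul, smul_eq_mul, tr_star_ev_mul_ev hM, if_pos rfl,
        sg_mul_self, mul_one, Complex.star_def, Complex.conj_mul', Complex.ofReal_pow]
    · intro j hj hji
      rw [star_smul, smul_mul_smul_comm, map_smul, smul_eq_mul, tr_star_ev_mul_ev hM, if_neg,
        mul_zero]
      exact fun h => hji (hinj i hi j hj h).symm
  exact_mod_cast h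

end

/-! ### The permutations -/

section

variable (Λ : Type) [Group Λ]

/-- the permutations acting by left multiplication in the zeroth fibre -/
def emb : Λ →* Equiv.Perm (ℤ × Λ) where
  toFun g :=
    { toFun := fun p => (p.1, if p.1 = 0 then g * p.2 else p.2)
      invFun := fun p => (p.1, if p.1 = 0 then g⁻¹ * p.2 else p.2)
      left_inv := fun p => by by_cases h : p.1 = 0 <;> ext <;> simp [h]
      right_inv := fun p => by by_cases h : p.1 = 0 <;> ext <;> simp [h] }
  map_one' := by ext p <;> simp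
  map_mul' g g' := by
    ext p
    · simp
    · by_cases h : p.1 = 0 <;> simp [h, mul_assoc]

/-- the shift -/
def sh : Equiv.Perm (ℤ × Λ) where
  toFun p := (p.1 + 1, p.2)
  invFun p := (p.1 - 1, p.2)
  left_inv p := by simp
  right_inv p := by simp

variable {Λ}

theorem emb_apply (g : Λ) (p : ℤ × Λ) : emb Λ g p = (p.1, if p.1 = 0 then g * p.2 else p.2) := rfl

omit [Group Λ] in
theorem sh_apply (p : ℤ × Λ) : sh Λ p = (p.1 + 1, p.2) := rfl

theorem emb_inj {g g' : Λ} : emb Λ g = emb Λ g' ↔ g = g' := by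
  constructor
  · intro h
    have := congrArg (fun k : Equiv.Perm (ℤ × Λ) => (k (0, 1)).2) h
    simpa [emb_apply] using this
  · rintro rfl; rfl

/-- decoding the quadruple -/
def dec (k : Equiv.Perm (ℤ × Λ)) : Option ((Λ × Λ) × Λ × Λ) :=
  if (k (0, 1)).1 = 3 then
    some (((k (-3, 1)).2, (k (-2, 1)).2), (k (-1, 1)).2, (k (0, 1)).2) else none

theorem dec_emb (g : Λ) : dec (emb Λ g) = none := by
  simp [dec, emb_apply]

theorem dec_y (b x s s' : Λ) :
    dec (emb Λ b * sh Λ * emb Λ x * sh Λ * emb Λ s * sh Λ * emb Λ s') =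
      some ((b, x), s, s') := by
  simp [dec, emb_apply, sh_apply]

/-- the function entering the bilinear form -/
def rr (R : ((Λ × Λ) × Λ × Λ) → Bool) (k : Equiv.Perm (ℤ × Λ)) : ZMod 2 :=
  match dec k with
  | none => 0
  | some q => if R q then 0 else 1

theorem rr_emb (R : ((Λ × Λ) × Λ × Λ) → Bool) (g : Λ) : rr R (emb Λ g) = 0 := by
  simp [rr, dec_emb]

theorem rr_y (R : ((Λ × Λ) × Λ × Λ) → Bool) (b x s s' : Λ) :
    rr R (emb Λ b * sh Λ * emb Λ x * sh Λ * emb Λ s * sh Λ * emb Λ s') =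
      if R ((b, x), s, s') then 0 else 1 := by
  simp [rr, dec_y]

theorem continuous_rr (k : Equiv.Perm (ℤ × Λ)) :
    Continuous (fun R : ((Λ × Λ) × Λ × Λ) → Bool => rr R k) := by
  unfold rr
  cases dec k with
  | none => exact continuous_const
  | some q =>
    have h : Continuous (fun t : Bool => if t then (0 : ZMod 2) else 1) :=
      continuous_of_discreteTopology
    exact h.comp (continuous_apply q)

theorem continuous_BB (C S : Equiv.Perm (ℤ × Λ) →₀ ZMod 2) :
    Continuous (fun R : ((Λ × Λ) × Λ × Λ) → Bool => BB (rr R) C S) := by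
  unfold BB Finsupp.sum
  refine continuous_finsetSum _ fun a _ => continuous_finsetSum _ fun b _ => ?_
  exact (continuous_of_discreteTopology (f := fun z : ZMod 2 => C a * S b * z)).comp
    (continuous_rr _)

/-- families of elements with constant classes and continuous signs -/
def Nice (F : ∀ R : ((Λ × Λ) × Λ × Λ) → Bool, HG (Equiv.Perm (ℤ × Λ)) (rr R)) : Prop :=
  ∃ p, (∀ R, pt (F R) = p) ∧ Continuous fun R => (F R).e

theorem Nice.mul {F G : ∀ R : ((Λ × Λ) × Λ × Λ) → Bool, HG (Equiv.Perm (ℤ × Λ)) (rr R)}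
    (hF : Nice F) (hG : Nice G) : Nice (fun R => F R * G R) := by
  obtain ⟨⟨S, C, k⟩, h1, h2⟩ := hF
  obtain ⟨⟨S', C', k'⟩, h1', h2'⟩ := hG
  simp only [pt, Prod.mk.injEq] at h1 h1'
  refine ⟨(S + tl k S', C + tl k C', k * k'), fun R => ?_, ?_⟩
  · simp only [pt, mul_S, mul_C, mul_k, (h1 R).1, (h1 R).2.1, (h1 R).2.2, (h1' R).1, (h1' R).2.1,
      (h1' R).2.2]
  · have e : (fun R => (F R * G R).e) = fun R => (F R).e + (G R).e + BB (rr R) C (tl k S') := by
      ext R
      rw [mul_e, (h1 R).2.1, (h1 R).2.2, (h1' R).1]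
    rw [e]
    exact (h2.add h2').add (continuous_BB _ _)

theorem Nice.inv {F : ∀ R : ((Λ × Λ) × Λ × Λ) → Bool, HG (Equiv.Perm (ℤ × Λ)) (rr R)}
    (hF : Nice F) : Nice (fun R => (F R)⁻¹) := by
  obtain ⟨⟨S, C, k⟩, h1, h2⟩ := hF
  simp only [pt, Prod.mk.injEq] at h1
  refine ⟨(-tl k⁻¹ S, -tl k⁻¹ C, k⁻¹), fun R => ?_, ?_⟩
  · simp only [pt, inv_S, inv_C, inv_k, (h1 R).1, (h1 R).2.1, (h1 R).2.2]
  · have e : (fun R => ((F R)⁻¹).e) = fun R => -(F R).e + BB (rr R) C S := by
      ext R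
      rw [inv_e, (h1 R).2.1, (h1 R).1]
    rw [e]
    exact h2.neg.add (continuous_BB _ _)

theorem Nice.one : Nice (fun R : ((Λ × Λ) × Λ × Λ) → Bool =>
    (1 : HG (Equiv.Perm (ℤ × Λ)) (rr R))) :=
  ⟨(0, 0, 1), fun _ => rfl, continuous_const⟩

/-- the generators -/
def ff (r : Equiv.Perm (ℤ × Λ) → ZMod 2) : Λ ⊕ Fin 3 → HG (Equiv.Perm (ℤ × Λ)) r :=
  Sum.elim (fun g => ⟨0, 0, 0, emb Λ g⟩)
    ![⟨Finsupp.single 1 1, 0, 0, 1⟩, ⟨0, 0, 0, sh Λ⟩, ⟨0, Finsupp.single 1 1, 0, 1⟩]

theorem nice_ff (j : Λ ⊕ Fin 3) :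
    Nice (fun R : ((Λ × Λ) × Λ × Λ) → Bool => ff (rr R) j) := by
  rcases j with g | i
  · exact ⟨(0, 0, emb Λ g), fun _ => rfl, continuous_const⟩
  · fin_cases i
    · exact ⟨(Finsupp.single 1 1, 0, 1), fun _ => rfl, continuous_const⟩
    · exact ⟨(0, 0, sh Λ), fun _ => rfl, continuous_const⟩
    · exact ⟨(0, Finsupp.single 1 1, 1), fun _ => rfl, continuous_const⟩

theorem nice_gev (w : List ((Λ ⊕ Fin 3) × Bool)) :
    Nice (fun R : ((Λ × Λ) × Λ × Λ) → Bool => gev (ff (rr R)) w) := by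
  induction w with
  | nil => exact Nice.one
  | cons a w ih =>
    rcases a with ⟨j, t⟩
    have e : (fun R : ((Λ × Λ) × Λ × Λ) → Bool => gev (ff (rr R)) ((j, t) :: w)) =
        fun R => (if t then (ff (rr R) j)⁻¹ else ff (rr R) j) * gev (ff (rr R)) w := by
      ext1 R
      rw [gev_cons]
    rw [e]
    refine Nice.mul ?_ ih
    cases t
    · simpa using nice_ff j
    · simpa using (nice_ff j).inv

theorem continuous_Phi {F : ∀ R : ((Λ × Λ) × Λ × Λ) → Bool, HG (Equiv.Perm (ℤ × Λ)) (rr R)}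
    (hF : Nice F) : Continuous (fun R => Phi (F R)) := by
  classical
  obtain ⟨⟨S, C, k⟩, h1, h2⟩ := hF
  simp only [pt, Prod.mk.injEq] at h1
  have e : (fun R => Phi (F R)) = fun R => if S = 0 ∧ C = 0 ∧ k = 1 then sg (F R).e else 0 := by
    ext R
    rw [Phi, (h1 R).1, (h1 R).2.1, (h1 R).2.2]
  rw [e]
  split_ifs
  · exact (continuous_of_discreteTopology (f := sg)).comp h2
  · exact continuous_const

end

end BaseAlg

open BaseAlg

theorem exists_base (Λ : Type) [Group Λ] :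
    ∃ β : (((Λ × Λ) × Λ × Λ) → Bool) → (List ((Λ ⊕ Fin 3) × Bool) → ℂ), Continuous β ∧
      ∀ R, IsPosLaw (β R) ∧ ∀ (M : TVN) (v : Λ ⊕ Fin 3 → M), (∀ w, M.law v w = β R w) →
        (∀ j, v j ∈ unitary M) ∧
        (∀ g g', v (.inl (g * g')) = v (.inl g) * v (.inl g')) ∧ v (.inl 1) = 1 ∧
        (∀ g, g ≠ 1 → M.tr (v (.inl g)) = 0) ∧
        (∀ (s : Finset Λ) (a : Λ → ℂ), M.cm (v (.inr 2))
          ((∑ g ∈ s, a g • v (.inl g)) * v (.inr 0) * star (∑ g ∈ s, a g • v (.inl g))) ^ 2 =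
          2 * ((∑ g ∈ s, ‖a g‖ ^ 2) ^ 2 - ∑ g ∈ s, ‖a g‖ ^ 4)) ∧
        ∀ b x s s' : Λ, ∀ y : M, y = v (.inl b) * v (.inr 1) * v (.inl x) * v (.inr 1) *
            v (.inl s) * v (.inr 1) * v (.inl s') →
          M.cm (v (.inr 2)) (y * v (.inr 0) * star y) = if R ((b, x), s, s') then 0 else 2 := by
  classical
  refine ⟨fun R w => Phi (gev (ff (rr R)) w),
    continuous_pi fun w => continuous_Phi (nice_gev w), fun R =>
    ⟨isPosLaw_group _ Phi Phi_one Phi_comm Phi_psd, fun M v hM' => ?_⟩⟩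
  have hM : ∀ w, M.law v w = Phi (gev (ff (rr R)) w) := hM'
  refine ⟨TVN.unitary_of_group hM, fun g g' => ?_, ?_, fun g hg => ?_, fun s a => ?_,
    fun b x s s' y hy => ?_⟩
  · have := TVN.ev_eq_of_gev_eq hM (a := [(.inl (g * g'), false)])
      (b := [(.inl g, false), (.inl g', false)]) (by
        ext1 <;> simp [gev, ff, BB_zero_left])
    simpa [TVN.ev] using this
  · have := TVN.ev_eq_of_gev_eq hM (a := [(.inl (1 : Λ), false)]) (b := []) (by
        ext1 <;> simp [gev, ff])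
    simpa [TVN.ev] using this
  · have h1 : M.tr (v (.inl g)) = Phi (gev (ff (rr R)) [(.inl g, false)]) := by
      rw [← hM]; simp [TVN.law, TVN.ev]
    have h2 : emb Λ g ≠ 1 := fun h => hg (emb_inj.1 (h.trans (map_one (emb Λ)).symm))
    rw [h1, Phi, if_neg]
    rintro ⟨-, -, h⟩
    exact h2 (by simpa [gev, ff] using h)
  · -- the two families of words
    set A : Λ × Λ → List ((Λ ⊕ Fin 3) × Bool) := fun p =>
      [(.inr 2, false), (.inl p.1, false), (.inr 0, false), (.inl p.2, true)] with hA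
    set B : Λ × Λ → List ((Λ ⊕ Fin 3) × Bool) := fun p =>
      [(.inl p.1, false), (.inr 0, false), (.inl p.2, true), (.inr 2, false)] with hB
    have hptA : ∀ p, pt (gev (ff (rr R)) (A p)) =
        (Finsupp.single (emb Λ p.1) 1, Finsupp.single 1 1, emb Λ p.1 * (emb Λ p.2)⁻¹) := by
      intro p
      simp [hA, gev, ff, pt, tl_one, tl_single]
    have hptB : ∀ p, pt (gev (ff (rr R)) (B p)) =
        (Finsupp.single (emb Λ p.1) 1, Finsupp.single (emb Λ p.1 * (emb Λ p.2)⁻¹) 1,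
          emb Λ p.1 * (emb Λ p.2)⁻¹) := by
      intro p
      simp [hB, gev, ff, pt, tl_one, tl_single]
    have hdiag : ∀ g : Λ, TVN.ev v (A (g, g)) = TVN.ev v (B (g, g)) := by
      intro g
      refine TVN.ev_eq_of_gev_eq hM ?_
      ext1
      · simp [hA, hB, gev, ff, tl_one, tl_single]
      · simp [hA, hB, gev, ff, tl_one, tl_single]
      · simp [hA, hB, gev, ff, tl_one, tl_single, BB_zero_left, BB_zero_right, BB_single, rr_emb]
      · simp [hA, hB, gev, ff]
    have key : v (.inr 2) * ((∑ g ∈ s, a g • v (.inl g)) * v (.inr 0) *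
          star (∑ g ∈ s, a g • v (.inl g))) -
        ((∑ g ∈ s, a g • v (.inl g)) * v (.inr 0) * star (∑ g ∈ s, a g • v (.inl g))) *
          v (.inr 2) =
        ∑ i ∈ s.offDiag ×ˢ (Finset.univ : Finset Bool),
          (if i.2 then a i.1.1 * star (a i.1.2) else -(a i.1.1 * star (a i.1.2))) •
            TVN.ev v (if i.2 then A i.1 else B i.1) := by
      have e1 : (∑ g ∈ s, a g • v (.inl g)) * v (.inr 0) * star (∑ g ∈ s, a g • v (.inl g)) =
          ∑ p ∈ s ×ˢ s, (a p.1 * star (a p.2)) • (v (.inl p.1) * v (.inr 0) *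
            star (v (.inl p.2))) := by
        rw [Finset.sum_product, star_sum, Finset.sum_mul, Finset.sum_mul_sum]
        refine Finset.sum_congr rfl fun g _ => Finset.sum_congr rfl fun g' _ => ?_
        rw [star_smul, smul_mul_assoc, smul_mul_smul_comm]
      rw [e1, Finset.mul_sum, Finset.sum_mul, ← Finset.sum_sub_distrib]
      have e2 : ∀ p : Λ × Λ, v (.inr 2) * ((a p.1 * star (a p.2)) • (v (.inl p.1) * v (.inr 0) *
            star (v (.inl p.2)))) - ((a p.1 * star (a p.2)) • (v (.inl p.1) * v (.inr 0) *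
            star (v (.inl p.2)))) * v (.inr 2) =
          (a p.1 * star (a p.2)) • (TVN.ev v (A p) - TVN.ev v (B p)) := by
        intro p
        rw [mul_smul_comm, smul_mul_assoc, ← smul_sub]
        congr 1
        simp [hA, hB, TVN.ev, mul_assoc]
      rw [Finset.sum_congr rfl (fun p _ => e2 p), ← Finset.diag_union_offDiag,
        Finset.sum_union (Finset.disjoint_diag_offDiag s), Finset.sum_eq_zero, zero_add,
        Finset.sum_product]
      · refine Finset.sum_congr rfl fun p _ => ?_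
        simp [sub_eq_add_neg, neg_smul]
      · rintro ⟨g, g'⟩ hp
        obtain ⟨-, rfl⟩ : _ ∧ g = g' := by simpa using hp
        rw [hdiag, sub_self, smul_zero]
    have hcm : M.cm (v (.inr 2)) ((∑ g ∈ s, a g • v (.inl g)) * v (.inr 0) *
          star (∑ g ∈ s, a g • v (.inl g))) ^ 2 =
        ∑ i ∈ s.offDiag ×ˢ (Finset.univ : Finset Bool),
          ‖(if i.2 then a i.1.1 * star (a i.1.2) else -(a i.1.1 * star (a i.1.2)))‖ ^ 2 := by
      rw [TVN.cm, key]
      refine n2_sq_orth hM _ (fun i : (Λ × Λ) × Bool => if i.2 then A i.1 else B i.1) _ ?_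
      rintro ⟨⟨g, g'⟩, t⟩ hi ⟨⟨k, k'⟩, t'⟩ hj h
      have hi' : g ≠ g' := by simpa using (Finset.mem_offDiag.1 (Finset.mem_product.1 hi).1).2.2
      have hj' : k ≠ k' := by simpa using (Finset.mem_offDiag.1 (Finset.mem_product.1 hj).1).2.2
      have hpt : ∀ (p : Λ × Λ) (t : Bool), pt (gev (ff (rr R)) (if t then A p else B p)) =
          (Finsupp.single (emb Λ p.1) 1,
            (if t then Finsupp.single 1 1 else Finsupp.single (emb Λ p.1 * (emb Λ p.2)⁻¹) 1),
            emb Λ p.1 * (emb Λ p.2)⁻¹) := by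
        intro p t
        cases t
        · simpa using hptB p
        · simpa using hptA p
      have h' := h
      simp only [hpt, Prod.mk.injEq] at h'
      obtain ⟨h1, h2, h3⟩ := h'
      have e1 : g = k := by
        have := (Finsupp.single_left_inj (one_ne_zero)).1 h1
        exact emb_inj.1 this
      subst e1
      have e2 : g' = k' := by
        have := mul_left_cancel h3
        exact emb_inj.1 (inv_injective this)
      subst e2
      have hne : emb Λ g * (emb Λ g')⁻¹ ≠ 1 := by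
        intro h
        exact hi' (emb_inj.1 (mul_inv_eq_one.1 h))
      have hne' : (Finsupp.single (1 : Equiv.Perm (ℤ × Λ)) (1 : ZMod 2)) ≠
          Finsupp.single (emb Λ g * (emb Λ g')⁻¹) 1 := by
        intro h
        exact hne ((Finsupp.single_left_inj (one_ne_zero)).1 h).symm
      cases t <;> cases t' <;> simp at h2 ⊢
      · exact hne' h2.symm
      · exact hne' h2
    rw [hcm, Finset.sum_product]
    have e3 : ∀ p : Λ × Λ, ∑ t : Bool,
        ‖(if t then a p.1 * star (a p.2) else -(a p.1 * star (a p.2)))‖ ^ 2 =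
          2 * (‖a p.1‖ ^ 2 * ‖a p.2‖ ^ 2) := by
      intro p
      simp [mul_pow]
      ring
    rw [Finset.sum_congr rfl (fun p _ => e3 p), ← Finset.mul_sum]
    congr 1
    have e4 : (∑ g ∈ s, ‖a g‖ ^ 2) ^ 2 = ∑ p ∈ s ×ˢ s, ‖a p.1‖ ^ 2 * ‖a p.2‖ ^ 2 := by
      rw [sq, Finset.sum_mul_sum, Finset.sum_product]
    rw [e4, ← Finset.diag_union_offDiag, Finset.sum_union (Finset.disjoint_diag_offDiag s),
      Finset.sum_diag]
    have e5 : ∑ g ∈ s, ‖a g‖ ^ 4 = ∑ g ∈ s, ‖a g‖ ^ 2 * ‖a g‖ ^ 2 :=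
      Finset.sum_congr rfl fun g _ => by ring
    rw [e5]
    ring
  · set Y : List ((Λ ⊕ Fin 3) × Bool) := [(.inl b, false), (.inr 1, false), (.inl x, false),
      (.inr 1, false), (.inl s, false), (.inr 1, false), (.inl s', false)] with hY
    set κ : Equiv.Perm (ℤ × Λ) := emb Λ b * sh Λ * emb Λ x * sh Λ * emb Λ s * sh Λ * emb Λ s'
      with hκ
    have hyY : y = TVN.ev v Y := by
      rw [hy, hY]; simp [TVN.ev, mul_assoc]
    have hgY : gev (ff (rr R)) Y = ⟨0, 0, 0, κ⟩ := by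
      rw [hY, hκ]
      ext1 <;> simp [gev, ff, BB_zero_left, mul_assoc]
    set A : List ((Λ ⊕ Fin 3) × Bool) := [(.inr 2, false)] ++ (Y ++ [(.inr 0, false)] ++ wstar Y)
      with hA
    set B : List ((Λ ⊕ Fin 3) × Bool) := (Y ++ [(.inr 0, false)] ++ wstar Y) ++ [(.inr 2, false)]
      with hB
    have hgA : gev (ff (rr R)) A = ⟨Finsupp.single κ 1, Finsupp.single 1 1, rr R κ, 1⟩ := by
      rw [hA, gev_append, gev_append, gev_append, gev_wstar, hgY]
      ext1 <;> simp [gev, ff, tl_one, tl_single, BB_zero_left, BB_single]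
    have hgB : gev (ff (rr R)) B = ⟨Finsupp.single κ 1, Finsupp.single 1 1, 0, 1⟩ := by
      rw [hB, gev_append, gev_append, gev_append, gev_wstar, hgY]
      ext1 <;> simp [gev, ff, tl_one, tl_single, BB_zero_left, BB_zero_right]
    have hcm : M.cm (v (.inr 2)) (y * v (.inr 0) * star y) = M.n2 (TVN.ev v A - TVN.ev v B) := by
      rw [TVN.cm, hA, hB, hyY]
      simp only [TVN.ev_append, TVN.ev_wstar, TVN.ev_cons, TVN.ev_nil, TVN.letter_false, mul_one]
    rw [hcm]
    have hrr : rr R κ = if R ((b, x), s, s') then 0 else 1 := rr_y R b x s s'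
    split_ifs with hR
    · rw [TVN.ev_eq_of_gev_eq hM (a := A) (b := B), sub_self, TVN.n2_zero]
      rw [hgA, hgB, hrr, if_pos hR]
    · have h4 : M.n2 (TVN.ev v A - TVN.ev v B) ^ 2 = 2 ^ 2 := by
        rw [TVN.n2_sub_sq, n2_ev hM, n2_ev hM, tr_star_ev_mul_ev hM, hgA, hgB, hrr, if_neg hR]
        simp [pt, sg_one, sg_zero]
        norm_num
      exact (sq_eq_sq₀ (M.n2_nonneg _) (by norm_num)).1 h4

end Pool.Agent.Lib.EcII
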