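import Pool.Agent.Lib.EcII.Defs

/-!
# Trace norm inequalities, words and laws
-/

open scoped ComplexOrder

noncomputable section

namespace Pool.Agent.Lib.EcII

namespace TVN

variable (M : TVN)

theorem tr_star (x : M) : M.tr (star x) = star (M.tr x) := by
  have h1 := M.tr_nonneg (x + 1)
  have h2 := M.tr_nonneg (x + Complex.I • (1 : M))
  have h0 := M.tr_nonneg x
  have e1 : star (x + 1) * (x + 1) = star x * x + star x + x + 1 := by
    rw [star_add, star_one]; noncomm_ring
  have e2 : star (x + Complex.I • (1 : M)) * (x + Complex.I • (1 : M)) =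
      star x * x + Complex.I • star x - Complex.I • x + 1 := by
    rw [star_add, star_smul, star_one]
    simp only [Complex.star_def, Complex.conj_I, add_mul, mul_add, smul_mul_assoc, one_mul,
      mul_smul_comm, mul_one]
    have h : Complex.I • -Complex.I • (1 : M) = 1 := by
      rw [smul_smul, mul_neg, Complex.I_mul_I, neg_neg, one_smul]
    rw [smul_add, h, neg_smul]
    abel
  rw [e1, map_add, map_add, map_add, M.tr_one] at h1
  rw [e2, map_add, map_sub, map_add, map_smul, map_smul, M.tr_one] at h2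
  rw [Complex.le_def] at h0 h1 h2
  obtain ⟨-, h0⟩ := h0
  obtain ⟨-, h1⟩ := h1
  obtain ⟨-, h2⟩ := h2
  simp at h0 h1 h2
  apply Complex.ext
  · simp; linarith
  · simp; linarith

/-- The pre-Hilbert space of a tracial von Neumann algebra. -/
def L2 (M : TVN) : Type := M.carrier

instance : AddCommGroup M.L2 := inferInstanceAs (AddCommGroup M.carrier)
instance : Module ℂ M.L2 := inferInstanceAs (Module ℂ M.carrier)

/-- the identity map to the pre-Hilbert space -/
def toL2 : M ≃ₗ[ℂ] M.L2 := LinearEquiv.refl ℂ _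

/-- The inner product. -/
abbrev l2core : InnerProductSpace.Core ℂ M.L2 where
  inner a b := M.tr (star (M.toL2.symm a) * M.toL2.symm b)
  conj_inner_symm a b := by
    rw [← Complex.star_def, ← tr_star, star_mul, star_star]
  re_inner_nonneg a := (Complex.le_def.1 (M.tr_nonneg _)).1
  add_left a b c := by rw [map_add, star_add, add_mul, map_add]
  smul_left a b r := by
    rw [map_smul, star_smul, smul_mul_assoc, map_smul, smul_eq_mul]
    rfl
  definite a h := by
    have := M.tr_faithful _ h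
    simpa using this

instance : NormedAddCommGroup M.L2 :=
  InnerProductSpace.Core.toNormedAddCommGroup (cd := M.l2core)
instance : InnerProductSpace ℂ M.L2 :=
  InnerProductSpace.ofCore M.l2core.toCore

theorem inner_toL2 (x y : M) : inner ℂ (M.toL2 x) (M.toL2 y) = M.tr (star x * y) := rfl

theorem norm_toL2 (x : M) : ‖M.toL2 x‖ = M.n2 x := rfl

theorem tr_nonneg_re (x : M) : 0 ≤ (M.tr (star x * x)).re := (Complex.le_def.1 (M.tr_nonneg x)).1

theorem tr_im_zero (x : M) : (M.tr (star x * x)).im = 0 := (Complex.le_def.1 (M.tr_nonneg x)).2.symm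

theorem n2_sq (x : M) : M.n2 x ^ 2 = (M.tr (star x * x)).re := Real.sq_sqrt (M.tr_nonneg_re x)

theorem tr_star_mul_self (x : M) : M.tr (star x * x) = ((M.n2 x ^ 2 : ℝ) : ℂ) := by
  rw [n2_sq]
  apply Complex.ext
  · simp
  · simp [M.tr_im_zero x]

theorem n2_nonneg (x : M) : 0 ≤ M.n2 x := Real.sqrt_nonneg _

theorem n2_zero : M.n2 0 = 0 := by simp [n2]

theorem n2_add_le (x y : M) : M.n2 (x + y) ≤ M.n2 x + M.n2 y := by
  have := norm_add_le (M.toL2 x) (M.toL2 y)
  rwa [← map_add] at this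

theorem n2_neg (x : M) : M.n2 (-x) = M.n2 x := by simp [n2]

theorem n2_sub_le (x y : M) : M.n2 (x - y) ≤ M.n2 x + M.n2 y := by
  have := M.n2_add_le x (-y)
  rwa [n2_neg, ← sub_eq_add_neg] at this

theorem n2_sub_comm (x y : M) : M.n2 (x - y) = M.n2 (y - x) := by
  rw [← n2_neg, neg_sub]

theorem n2_tri (x y z : M) : M.n2 (x - z) ≤ M.n2 (x - y) + M.n2 (y - z) := by
  have := M.n2_add_le (x - y) (y - z)
  rwa [sub_add_sub_cancel] at this

theorem n2_le_add (x y : M) : M.n2 x ≤ M.n2 y + M.n2 (x - y) := by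
  have := M.n2_add_le y (x - y)
  rwa [add_sub_cancel] at this

theorem abs_n2_sub_n2_le (x y : M) : |M.n2 x - M.n2 y| ≤ M.n2 (x - y) := by
  have := abs_norm_sub_norm_le (M.toL2 x) (M.toL2 y)
  rwa [← map_sub] at this

theorem n2_smul (c : ℂ) (x : M) : M.n2 (c • x) = ‖c‖ * M.n2 x := by
  have := norm_smul c (M.toL2 x)
  rwa [← map_smul] at this

theorem n2_eq_zero {x : M} : M.n2 x = 0 ↔ x = 0 := by
  have := norm_eq_zero (a := M.toL2 x)
  rw [norm_toL2] at this
  rw [this]
  simp

theorem n2_star (x : M) : M.n2 (star x) = M.n2 x := by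
  rw [n2, n2, star_star, M.tr_comm]

theorem n2_one : M.n2 1 = 1 := by simp [n2, M.tr_one]

theorem n2_sum_le {ι : Type*} (s : Finset ι) (f : ι → M) :
    M.n2 (∑ i ∈ s, f i) ≤ ∑ i ∈ s, M.n2 (f i) := by
  have := norm_sum_le s (fun i => M.toL2 (f i))
  rwa [← map_sum] at this

theorem cs (x y : M) : ‖M.tr (star x * y)‖ ≤ M.n2 x * M.n2 y :=
  norm_inner_le_norm (𝕜 := ℂ) (M.toL2 x) (M.toL2 y)

theorem norm_tr_le_n2 (x : M) : ‖M.tr x‖ ≤ M.n2 x := by
  have := M.cs 1 x
  rwa [star_one, one_mul, n2_one, one_mul] at this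

theorem tr_nonneg_of_nonneg [PartialOrder M] [StarOrderedRing M] {x : M} (hx : 0 ≤ x) :
    0 ≤ M.tr x := by
  obtain ⟨y, rfl⟩ := CStarAlgebra.nonneg_iff_eq_star_mul_self.1 hx
  exact M.tr_nonneg y

theorem n2_mul_le (x y : M) : M.n2 (x * y) ≤ ‖x‖ * M.n2 y := by
  letI : PartialOrder M := CStarAlgebra.spectralOrder M
  letI : StarOrderedRing M := CStarAlgebra.spectralOrderedRing M
  have h1 : star x * x ≤ algebraMap ℝ M (‖x‖ ^ 2) := CStarAlgebra.star_mul_le_algebraMap_norm_sq
  have h2 := star_left_conjugate_le_conjugate h1 y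
  have h3 := M.tr_nonneg_of_nonneg (sub_nonneg.2 h2)
  rw [map_sub, Complex.le_def] at h3
  have h4 := h3.1
  rw [Complex.sub_re, Algebra.algebraMap_eq_smul_one, mul_smul_comm, mul_one, smul_mul_assoc] at h4
  have e1 : M.tr ((‖x‖ ^ 2 : ℝ) • (star y * y)) = ((‖x‖ ^ 2 : ℝ) : ℂ) * M.tr (star y * y) := by
    rw [← Complex.coe_smul, map_smul, smul_eq_mul]
  rw [e1, tr_star_mul_self, ← Complex.ofReal_mul, Complex.ofReal_re] at h4
  have e2 : star y * (star x * x) * y = star (x * y) * (x * y) := by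
    rw [star_mul]; noncomm_ring
  rw [e2, ← n2_sq] at h4
  simp at h4
  have h5 : M.n2 (x * y) ^ 2 ≤ (‖x‖ * M.n2 y) ^ 2 := by
    rw [mul_pow]; linarith
  exact (abs_le_of_sq_le_sq' h5 (mul_nonneg (norm_nonneg _) (M.n2_nonneg _))).2

theorem n2_mul_le' (x y : M) : M.n2 (x * y) ≤ M.n2 x * ‖y‖ := by
  have := M.n2_mul_le (star y) (star x)
  rw [← star_mul, n2_star, norm_star, n2_star, mul_comm] at this
  exact this

theorem n2_le_norm (x : M) : M.n2 x ≤ ‖x‖ := by
  have := M.n2_mul_le x 1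
  rwa [mul_one, n2_one, mul_one] at this

theorem norm_tr_le (x : M) : ‖M.tr x‖ ≤ ‖x‖ := (M.norm_tr_le_n2 x).trans (M.n2_le_norm x)

theorem tr_ip_symm (x y : M) : M.tr (star x * y) = star (M.tr (star y * x)) := by
  rw [← tr_star, star_mul, star_star]

theorem n2_sub_sq (x y : M) :
    M.n2 (x - y) ^ 2 = M.n2 x ^ 2 - 2 * (M.tr (star x * y)).re + M.n2 y ^ 2 := by
  have := @norm_sub_sq ℂ _ _ _ _ (M.toL2 x) (M.toL2 y)
  exact this

theorem n2_add_sq (x y : M) :
    M.n2 (x + y) ^ 2 = M.n2 x ^ 2 + 2 * (M.tr (star x * y)).re + M.n2 y ^ 2 := by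
  have := @norm_add_sq ℂ _ _ _ _ (M.toL2 x) (M.toL2 y)
  exact this

theorem nontriv : Nontrivial M := by
  refine ⟨⟨0, 1, fun h => ?_⟩⟩
  have := M.tr_one
  rw [← h, map_zero] at this
  exact zero_ne_one this

instance : Nontrivial M := M.nontriv

theorem n2_unitary_mul {u : M} (hu : u ∈ unitary M) (x : M) : M.n2 (u * x) = M.n2 x := by
  rw [n2, n2, star_mul, mul_assoc, ← mul_assoc (star u), Unitary.star_mul_self_of_mem hu, one_mul]

theorem n2_mul_unitary {u : M} (hu : u ∈ unitary M) (x : M) : M.n2 (x * u) = M.n2 x := by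
  have := M.n2_unitary_mul (Unitary.star_mem hu) (star x)
  rwa [← star_mul, n2_star, n2_star] at this

theorem n2_of_unitary {u : M} (hu : u ∈ unitary M) : M.n2 u = 1 := by
  have := M.n2_unitary_mul hu 1
  rwa [mul_one, n2_one] at this

theorem norm_le_one_of_unitary {u : M} (hu : u ∈ unitary M) : ‖u‖ ≤ 1 :=
  (CStarRing.norm_of_mem_unitary hu).le

/-- The unit ball. -/
abbrev Ball (M : TVN) : Type := {x : M // ‖x‖ ≤ 1}

instance : Nonempty M.Ball := ⟨⟨0, by simp⟩⟩

/-- completeness of balls, sequential version -/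
theorem exists_lim {s : ℕ → M} {r : ℝ} (hr : 0 ≤ r) (hs : ∀ n, ‖s n‖ ≤ r)
    (hc : ∀ ε > 0, ∃ N, ∀ m ≥ N, ∀ n ≥ N, M.n2 (s m - s n) < ε) :
    ∃ x, ‖x‖ ≤ r ∧ ∀ ε > 0, ∃ N, ∀ n ≥ N, M.n2 (s n - x) < ε := by
  rcases hr.eq_or_lt with rfl | hr
  · refine ⟨0, by simp, fun ε hε => ⟨0, fun n _ => ?_⟩⟩
    have : s n = 0 := by simpa using hs n
    rw [this, sub_zero, n2_zero]; exact hε
  have hC : ‖(r⁻¹ : ℂ)‖ = r⁻¹ := by
    rw [norm_inv, Complex.norm_real, Real.norm_of_nonneg hr.le]
  obtain ⟨x, hx, h⟩ := M.complete_ball (fun n => (r⁻¹ : ℂ) • s n)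
    (fun n => by
      rw [norm_smul, hC]
      exact (mul_le_mul_of_nonneg_left (hs n) (inv_nonneg.2 hr.le)).trans (by
        rw [inv_mul_cancel₀ hr.ne']))
    (by
      intro ε hε
      obtain ⟨N, hN⟩ := hc (r * √ε) (by positivity)
      refine ⟨N, fun m hm n hn => ?_⟩
      rw [← n2_sq, ← smul_sub, n2_smul, hC, mul_pow]
      have h1 := hN m hm n hn
      have h2 : M.n2 (s m - s n) ^ 2 < (r * √ε) ^ 2 :=
        pow_lt_pow_left₀ h1 (M.n2_nonneg _) two_ne_zero
      rw [mul_pow, Real.sq_sqrt hε.le] at h2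
      calc r⁻¹ ^ 2 * M.n2 (s m - s n) ^ 2 < r⁻¹ ^ 2 * (r ^ 2 * ε) :=
            mul_lt_mul_of_pos_left h2 (by positivity)
        _ = ε := by field_simp)
  refine ⟨(r : ℂ) • x, ?_, ?_⟩
  · rw [norm_smul, Complex.norm_real, Real.norm_of_nonneg hr.le]
    nlinarith
  · intro ε hε
    obtain ⟨N, hN⟩ := h ((ε / r) ^ 2) (by positivity)
    refine ⟨N, fun n hn => ?_⟩
    have h1 := hN n hn
    rw [← n2_sq] at h1
    have h2 := lt_of_pow_lt_pow_left₀ 2 (by positivity) h1
    have e : s n - (r : ℂ) • x = (r : ℂ) • ((r⁻¹ : ℂ) • s n - x) := by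
      rw [smul_sub, smul_smul, mul_inv_cancel₀ (by exact_mod_cast hr.ne'), one_smul]
    rw [e, n2_smul, Complex.norm_real, Real.norm_of_nonneg hr.le]
    calc r * M.n2 ((r⁻¹ : ℂ) • s n - x) < r * (ε / r) := mul_lt_mul_of_pos_left h2 hr
      _ = ε := by field_simp

/-- A star homomorphism preserving the trace preserves the trace norm. -/
theorem n2_map {M P : TVN} (ι : M →⋆ₐ[ℂ] P) (h : ∀ x, P.tr (ι x) = M.tr x) (x : M) :
    P.n2 (ι x) = M.n2 x := by
  rw [n2, n2, ← map_star, ← map_mul, h]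

theorem map_injective {M P : TVN} (ι : M →⋆ₐ[ℂ] P) (h : ∀ x, P.tr (ι x) = M.tr x) :
    Function.Injective ι := by
  intro x y hxy
  have h1 := n2_map ι h (x - y)
  rw [map_sub, hxy, sub_self, n2_zero] at h1
  exact sub_eq_zero.1 (M.n2_eq_zero.1 h1.symm)

theorem norm_map {M P : TVN} (ι : M →⋆ₐ[ℂ] P) (h : ∀ x, P.tr (ι x) = M.tr x) (x : M) :
    ‖ι x‖ = ‖x‖ := NonUnitalStarAlgHom.norm_map ι (map_injective ι h) x

end TVN

/-! ### Words -/

/-- the adjoint of a word -/
def wstar {J : Type*} (w : List (J × Bool)) : List (J × Bool) :=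
  (w.map (fun a => (a.1, !a.2))).reverse

@[simp] theorem wstar_nil {J : Type*} : wstar ([] : List (J × Bool)) = [] := rfl

theorem wstar_append {J : Type*} (a b : List (J × Bool)) : wstar (a ++ b) = wstar b ++ wstar a := by
  simp [wstar]

@[simp] theorem wstar_wstar {J : Type*} (a : List (J × Bool)) : wstar (wstar a) = a := by
  simp [wstar, Function.comp_def]

theorem wstar_cons {J : Type*} (j : J) (e : Bool) (a : List (J × Bool)) :
    wstar ((j, e) :: a) = wstar a ++ [(j, !e)] := by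
  simp [wstar]

theorem wstar_map {J K : Type*} (f : J → K) (a : List (J × Bool)) :
    wstar (a.map (Prod.map f id)) = (wstar a).map (Prod.map f id) := by
  simp [wstar, List.map_reverse, Function.comp_def]

namespace TVN

variable {M : TVN} {J : Type*}

/-- the value of a letter -/
def letter (v : J → M) (a : J × Bool) : M := if a.2 then star (v a.1) else v a.1

/-- the value of a word -/
def ev (v : J → M) (w : List (J × Bool)) : M := (w.map (letter v)).prod

@[simp] theorem ev_nil (v : J → M) : ev v [] = 1 := rfl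

theorem ev_append (v : J → M) (a b : List (J × Bool)) : ev v (a ++ b) = ev v a * ev v b := by
  simp [ev]

theorem ev_cons (v : J → M) (a : J × Bool) (b : List (J × Bool)) :
    ev v (a :: b) = letter v a * ev v b := by
  simp [ev]

@[simp] theorem letter_false (v : J → M) (j : J) : letter v (j, false) = v j := by simp [letter]
@[simp] theorem letter_true (v : J → M) (j : J) : letter v (j, true) = star (v j) := by
  simp [letter]

theorem letter_not (v : J → M) (a : J × Bool) : letter v (a.1, !a.2) = star (letter v a) := by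
  rcases a with ⟨j, b⟩
  cases b <;> simp

theorem ev_wstar (v : J → M) (w : List (J × Bool)) : ev v (wstar w) = star (ev v w) := by
  induction w with
  | nil => simp
  | cons a w ih =>
    rcases a with ⟨j, e⟩
    rw [wstar_cons, ev_append, ih, ev_cons, ev_cons, star_mul, ← letter_not v (j, e), ev_nil,
      mul_one]

theorem ev_map {K : Type*} (f : K → J) (v : J → M) (w : List (K × Bool)) :
    ev v (w.map (Prod.map f id)) = ev (v ∘ f) w := by
  simp only [ev, List.map_map]
  congr 1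

theorem map_ev {P : TVN} (ι : M →⋆ₐ[ℂ] P) (v : J → M) (w : List (J × Bool)) :
    ι (ev v w) = ev (fun j => ι (v j)) w := by
  induction w with
  | nil => simp
  | cons a w ih =>
    rw [ev_cons, ev_cons, map_mul, ih]
    congr 1
    rcases a with ⟨j, e⟩
    cases e <;> simp [map_star]

theorem norm_letter_le {v : J → M} (hv : ∀ j, ‖v j‖ ≤ 1) (a : J × Bool) : ‖letter v a‖ ≤ 1 := by
  rcases a with ⟨j, e⟩
  cases e <;> simp [hv j]

theorem norm_ev_le {v : J → M} (hv : ∀ j, ‖v j‖ ≤ 1) (w : List (J × Bool)) : ‖ev v w‖ ≤ 1 := by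
  induction w with
  | nil => simp [CStarRing.norm_one]
  | cons a w ih =>
    rw [ev_cons]
    refine (norm_mul_le _ _).trans ?_
    have := norm_letter_le hv a
    nlinarith [norm_nonneg (letter v a), norm_nonneg (ev v w)]

/-- The law of a tuple. -/
def law (M : TVN) (v : J → M) : List (J × Bool) → ℂ := fun w => M.tr (ev v w)

/-- The tuple generates the algebra. -/
def Gen (M : TVN) (v : J → M) : Prop := ∀ x : M, (∀ w, M.tr (star (ev v w) * x) = 0) → x = 0

end TVN

/-- The abstract law conditions for tuples of contractions. -/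
structure IsPosLaw {J : Type*} (μ : List (J × Bool) → ℂ) : Prop where
  one : μ [] = 1
  tracial : ∀ a b, μ (a ++ b) = μ (b ++ a)
  pos : ∀ (s : Finset (List (J × Bool))) (c : List (J × Bool) → ℂ),
    0 ≤ ∑ a ∈ s, ∑ b ∈ s, star (c a) * c b * μ (wstar a ++ b)
  contr : ∀ (x : J) (s : Finset (List (J × Bool))) (c : List (J × Bool) → ℂ),
    ∑ a ∈ s, ∑ b ∈ s, star (c a) * c b * μ (wstar a ++ (x, true) :: (x, false) :: b) ≤
      ∑ a ∈ s, ∑ b ∈ s, star (c a) * c b * μ (wstar a ++ b)

open TVN in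
theorem TVN.sum_law_eq {M : TVN} {J : Type*} (v : J → M) (s : Finset (List (J × Bool)))
    (c : List (J × Bool) → ℂ) :
    ∑ a ∈ s, ∑ b ∈ s, star (c a) * c b * M.law v (wstar a ++ b) =
      M.tr (star (∑ a ∈ s, c a • ev v a) * ∑ a ∈ s, c a • ev v a) := by
  rw [star_sum, Finset.sum_mul_sum, map_sum]
  refine Finset.sum_congr rfl fun i _ => ?_
  rw [map_sum]
  refine Finset.sum_congr rfl fun j _ => ?_
  rw [star_smul, smul_mul_smul_comm, map_smul, smul_eq_mul]
  simp only [TVN.law]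
  rw [ev_append, ev_wstar]

open TVN in
theorem TVN.isPosLaw_law {M : TVN} {J : Type*} {v : J → M} (hv : ∀ j, ‖v j‖ ≤ 1) :
    IsPosLaw (M.law v) := by
  refine ⟨by simp [TVN.law, M.tr_one], fun a b => ?_, fun s c => ?_, fun x s c => ?_⟩
  · simp only [TVN.law]
    rw [ev_append, ev_append, M.tr_comm]
  · rw [sum_law_eq]; exact M.tr_nonneg _
  · have h2 : ∑ a ∈ s, ∑ b ∈ s, star (c a) * c b *
        M.law v (wstar a ++ (x, true) :: (x, false) :: b) =
        M.tr (star (v x * ∑ a ∈ s, c a • ev v a) * (v x * ∑ a ∈ s, c a • ev v a)) := by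
      rw [Finset.mul_sum, star_sum, Finset.sum_mul_sum, map_sum]
      refine Finset.sum_congr rfl fun i _ => ?_
      rw [map_sum]
      refine Finset.sum_congr rfl fun j _ => ?_
      rw [mul_smul_comm, mul_smul_comm, star_smul, smul_mul_smul_comm, map_smul, smul_eq_mul]
      simp only [TVN.law]
      rw [ev_append, ev_wstar, ev_cons, ev_cons, letter_true, letter_false, star_mul]
      congr 2
      noncomm_ring
    rw [sum_law_eq, h2, TVN.tr_star_mul_self, TVN.tr_star_mul_self]
    have h3 := M.n2_mul_le (v x) (∑ a ∈ s, c a • ev v a)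
    have h4 := hv x
    rw [Complex.real_le_real]
    have h5 := M.n2_nonneg (∑ a ∈ s, c a • ev v a)
    have h6 := M.n2_nonneg (v x * ∑ a ∈ s, c a • ev v a)
    have h7 : M.n2 (v x * ∑ a ∈ s, c a • ev v a) ≤ M.n2 (∑ a ∈ s, c a • ev v a) := by nlinarith
    exact pow_le_pow_left₀ h6 h7 2

end Pool.Agent.Lib.EcII
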