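import Pool.Agent.Lib.EcII.CondDefs

open scoped ComplexOrder

set_option linter.style.haveILetI false

noncomputable section

namespace Pool.Agent.Lib.EcII

namespace TVN

variable (M : TVN)

theorem norm_tr_mul_le (q c : M) : ‖M.tr (star q * q * c)‖ ≤ M.n2 q ^ 2 * ‖c‖ := by
  have h1 : M.tr (star q * q * c) = M.tr (star (star q) * (c * star q)) := by
    rw [star_star, mul_assoc, M.tr_comm, mul_assoc]
  rw [h1]
  refine (M.cs _ _).trans ?_
  have h2 := M.n2_mul_le c (star q)
  rw [n2_star] at h2 ⊢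
  have h3 := M.n2_nonneg q
  nlinarith [mul_le_mul_of_nonneg_left h2 h3]

/-- approximate polar decomposition inside a closed star subalgebra -/
theorem polar (A : StarSubalgebra ℂ M) (hA : IsClosed (A : Set M)) (x : M) (hx : x ∈ A)
    (δ : ℝ) (hδ : 0 < δ) : ∃ n ∈ A, ‖n‖ ≤ 1 ∧ ∃ q : M, x = n * (star q * q) ∧
      M.n2 q ^ 2 - δ ≤ (M.tr (star x * n)).re := by
  letI : PartialOrder M := CStarAlgebra.spectralOrder M
  letI : StarOrderedRing M := CStarAlgebra.spectralOrderedRing M
  set b : M := star x * x with hb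
  have hbA : b ∈ A := mul_mem (star_mem hx) hx
  have hbsa : IsSelfAdjoint b := IsSelfAdjoint.star_mul_self x
  have hsp : ∀ t ∈ spectrum ℝ b, 0 ≤ t := fun t ht => spectrum_star_mul_self_nonneg t ht
  have hpos : ∀ t ∈ spectrum ℝ b, 0 < √(t + δ ^ 2) := fun t ht => by
    have := hsp t ht
    positivity
  set f : ℝ → ℝ := fun t => (√(t + δ ^ 2))⁻¹ with hf
  set g : ℝ → ℝ := fun t => √(t + δ ^ 2) with hg
  set h : ℝ → ℝ := fun t => √(√(t + δ ^ 2)) with hh
  have hgc : ContinuousOn g (spectrum ℝ b) := by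
    apply Continuous.continuousOn; fun_prop
  have hhc : ContinuousOn h (spectrum ℝ b) := by
    apply Continuous.continuousOn; fun_prop
  have hfc : ContinuousOn f (spectrum ℝ b) := hgc.inv₀ fun t ht => (hpos t ht).ne'
  have hidc : ContinuousOn (fun t : ℝ => t) (spectrum ℝ b) := continuousOn_id
  have hfg : cfc f b * cfc g b = 1 := by
    rw [← cfc_mul f g b hfc hgc, cfc_congr (g := fun _ => (1 : ℝ)) (fun t ht => ?_)]
    · exact cfc_const_one ℝ b
    · simp only [hf, hg]
      exact inv_mul_cancel₀ (hpos t ht).ne'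
  have hqq : star (cfc h b) * cfc h b = cfc g b := by
    have h1 : star (cfc h b) = cfc h b := (cfc_predicate h b).star_eq
    rw [h1, ← cfc_mul h h b hhc hhc]
    refine cfc_congr fun t ht => ?_
    simp only [hh, hg]
    exact Real.mul_self_sqrt (Real.sqrt_nonneg _)
  have hfA : cfc f b ∈ A := cfc_mem (hs := hA) f hbA
  refine ⟨x * cfc f b, mul_mem hx hfA, ?_, cfc h b, ?_, ?_⟩
  · have hfs : star (cfc f b) = cfc f b := (cfc_predicate f b).star_eq
    have h1 : star (x * cfc f b) * (x * cfc f b) = cfc (fun t => f t * t * f t) b := by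
      rw [star_mul, hfs]
      have e : cfc f b * star x * (x * cfc f b) = cfc f b * b * cfc f b := by
        rw [hb]; noncomm_ring
      rw [e, cfc_mul (fun t => f t * t) f b (hfc.mul hidc) hfc,
        cfc_mul f (fun t => t) b hfc hidc, cfc_id' ℝ b]
    have h2 : ‖star (x * cfc f b) * (x * cfc f b)‖ ≤ 1 := by
      rw [h1]
      refine norm_cfc_le zero_le_one fun t ht => ?_
      have ht0 := hsp t ht
      have hp := hpos t ht
      have h3 : f t * t * f t = t / (t + δ ^ 2) := by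
        simp only [hf]
        rw [div_eq_mul_inv, show (t + δ ^ 2)⁻¹ = (√(t + δ ^ 2))⁻¹ * (√(t + δ ^ 2))⁻¹ by
          rw [← mul_inv, Real.mul_self_sqrt (by positivity)]]
        ring
      rw [h3, Real.norm_of_nonneg (by positivity), div_le_one (by positivity)]
      nlinarith [sq_nonneg δ]
    rw [CStarRing.norm_star_mul_self] at h2
    nlinarith [norm_nonneg (x * cfc f b)]
  · rw [hqq, mul_assoc, hfg, mul_one]
  · rw [n2_sq, hqq, ← mul_assoc, ← hb]
    have e2 : b * cfc f b = cfc (fun t => t * f t) b := by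
      rw [cfc_mul (fun t => t) f b hidc hfc, cfc_id' ℝ b]
    rw [e2]
    have h4 : (0 : M) ≤ cfc (fun t => δ - (g t - t * f t)) b := by
      refine cfc_nonneg fun t ht => ?_
      have ht0 := hsp t ht
      have hp := hpos t ht
      simp only [hf, hg]
      have h5 : √(t + δ ^ 2) * √(t + δ ^ 2) = t + δ ^ 2 := Real.mul_self_sqrt (by positivity)
      have h6 : δ ≤ √(t + δ ^ 2) := Real.le_sqrt_of_sq_le (by linarith)
      have h7 : √(t + δ ^ 2) - t * (√(t + δ ^ 2))⁻¹ = δ ^ 2 / √(t + δ ^ 2) := by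
        field_simp
        nlinarith
      rw [h7, sub_nonneg, div_le_iff₀ hp]
      nlinarith
    have h8 := (Complex.le_def.1 (M.tr_nonneg_of_nonneg h4)).1
    rw [cfc_sub (fun _ => δ) (fun t => g t - t * f t) b continuousOn_const
      (hgc.sub (hidc.mul hfc)), cfc_sub g (fun t => t * f t) b hgc (hidc.mul hfc),
      cfc_const δ b, map_sub, map_sub] at h8
    have h9 : M.tr (algebraMap ℝ M δ) = (δ : ℂ) := by
      rw [Algebra.algebraMap_eq_smul_one, ← Complex.coe_smul, map_smul, M.tr_one]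
      simp
    rw [h9] at h8
    simp at h8
    linarith


theorem re_ip_symm (x y : M) : (M.tr (star x * y)).re = (M.tr (star y * x)).re := by
  rw [tr_ip_symm]; simp

theorem approx_proj (A : StarSubalgebra ℂ M) (m : M) (ε : ℝ) (hε : 0 < ε) :
    ∃ w ∈ A, ∀ a ∈ A, ‖M.tr (star a * (m - w))‖ ≤ ε * M.n2 a := by
  set S : Set ℝ := (fun w => M.n2 (m - w) ^ 2) '' (A : Set M) with hS
  have hne : S.Nonempty := ⟨_, 0, zero_mem A, rfl⟩
  have hbdd : BddBelow S := ⟨0, by rintro _ ⟨w, _, rfl⟩; positivity⟩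
  obtain ⟨_, ⟨w, hw, rfl⟩, hlt⟩ := exists_lt_of_csInf_lt hne (show sInf S < sInf S + ε ^ 2 by
    have : 0 < ε ^ 2 := by positivity
    linarith)
  refine ⟨w, hw, fun a ha => ?_⟩
  rcases (M.n2_nonneg a).eq_or_lt with h0 | h0
  · have : a = 0 := M.n2_eq_zero.1 h0.symm
    subst this
    simp [n2_zero]
  set c : ℂ := M.tr (star a * (m - w)) with hc
  set N : ℝ := M.n2 a ^ 2 with hN
  have hNpos : 0 < N := by positivity
  have h1 : sInf S ≤ M.n2 (m - (w + (c / N) • a)) ^ 2 :=
    csInf_le hbdd ⟨_, add_mem hw (A.smul_mem ha _), rfl⟩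
  have e1 : m - (w + (c / N) • a) = (m - w) - (c / N) • a := by abel
  rw [e1, n2_sub_sq, mul_smul_comm, map_smul, smul_eq_mul, n2_smul, tr_ip_symm, ← hc] at h1
  have e2 : (c / (N : ℂ) * star c).re = ‖c‖ ^ 2 / N := by
    rw [div_mul_eq_mul_div, Complex.star_def, Complex.mul_conj, ← Complex.ofReal_div,
      Complex.ofReal_re, Complex.normSq_eq_norm_sq]
  have e3 : (‖c / (N : ℂ)‖ * M.n2 a) ^ 2 = ‖c‖ ^ 2 / N := by
    rw [norm_div, Complex.norm_real, Real.norm_of_nonneg hNpos.le, mul_pow, ← hN]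
    field_simp
  rw [e2, e3] at h1
  have h2 : ‖c‖ ^ 2 / N ≤ ε ^ 2 := by
    simp only at hlt
    linarith
  rw [div_le_iff₀ hNpos, hN, ← mul_pow] at h2
  exact (abs_le_of_sq_le_sq' h2 (by positivity)).2

theorem approx_ball (A : StarSubalgebra ℂ M) (m : M) (κ : ℝ) (hκ : 0 < κ) (hκ1 : κ ≤ 1) :
    ∃ v ∈ A, ‖v‖ ≤ 1 ∧ ∀ n ∈ A, ‖n‖ ≤ 1 →
      (M.tr (star n * (m - v))).re ≤ (M.tr (star v * (m - v))).re + κ := by
  set S : Set ℝ := (fun w => M.n2 (m - w) ^ 2) '' {w | w ∈ A ∧ ‖w‖ ≤ 1} with hS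
  have hne : S.Nonempty := ⟨_, 0, ⟨zero_mem A, by simp⟩, rfl⟩
  have hbdd : BddBelow S := ⟨0, by rintro _ ⟨w, _, rfl⟩; positivity⟩
  obtain ⟨_, ⟨v, ⟨hv, hv1⟩, rfl⟩, hlt⟩ := exists_lt_of_csInf_lt hne
    (show sInf S < sInf S + κ ^ 2 / 4 by
      have : 0 < κ ^ 2 / 4 := by positivity
      linarith)
  refine ⟨v, hv, hv1, fun n hn hn1 => ?_⟩
  set t : ℝ := κ / 4 with ht
  have ht0 : 0 < t := by positivity
  have ht1 : t ≤ 1 := by linarith
  have hmem : v + (t : ℂ) • (n - v) ∈ A := add_mem hv (A.smul_mem (sub_mem hn hv) _)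
  have hnorm : ‖v + (t : ℂ) • (n - v)‖ ≤ 1 := by
    have e : v + (t : ℂ) • (n - v) = ((1 - t : ℝ) : ℂ) • v + (t : ℂ) • n := by
      push_cast
      rw [sub_smul, one_smul, smul_sub]; abel
    rw [e]
    refine (norm_add_le _ _).trans ?_
    rw [norm_smul, norm_smul, Complex.norm_real, Complex.norm_real,
      Real.norm_of_nonneg ht0.le, Real.norm_of_nonneg (by linarith : (0 : ℝ) ≤ 1 - t)]
    nlinarith
  have h1 : sInf S ≤ M.n2 (m - (v + (t : ℂ) • (n - v))) ^ 2 :=
    csInf_le hbdd ⟨_, ⟨hmem, hnorm⟩, rfl⟩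
  have e1 : m - (v + (t : ℂ) • (n - v)) = (m - v) - (t : ℂ) • (n - v) := by abel
  rw [e1, n2_sub_sq, mul_smul_comm, map_smul, smul_eq_mul, n2_smul, Complex.norm_real,
    Real.norm_of_nonneg ht0.le, Complex.re_ofReal_mul, re_ip_symm, star_sub, sub_mul, map_sub,
    Complex.sub_re] at h1
  have h2 : M.n2 (n - v) ≤ 2 := by
    have := M.n2_sub_le n v
    have h3 := M.n2_le_norm n
    have h4 := M.n2_le_norm v
    linarith
  have h3 := M.n2_nonneg (n - v)
  have h4 : (t * M.n2 (n - v)) ^ 2 ≤ 4 * t ^ 2 := by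
    rw [mul_pow]
    have h9 : M.n2 (n - v) ^ 2 ≤ 4 := by nlinarith
    nlinarith [mul_le_mul_of_nonneg_left h9 (sq_nonneg t)]
  simp only at hlt
  have h5 : 2 * t * ((M.tr (star n * (m - v))).re - (M.tr (star v * (m - v))).re)
      ≤ 2 * t * κ := by
    have : κ ^ 2 / 4 + 4 * t ^ 2 = 2 * t * κ := by rw [ht]; ring
    nlinarith
  have h6 := le_of_mul_le_mul_left h5 (by positivity)
  linarith

theorem kaplansky_aux (A : StarSubalgebra ℂ M) (hA : IsClosed (A : Set M)) (m : M)
    (hm : ‖m‖ ≤ 1) (ε : ℝ) (hε : 0 < ε) :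
    ∃ v ∈ A, ‖v‖ ≤ 1 ∧ ∀ a ∈ A, ‖M.tr (star a * (m - v))‖ ≤ ε * M.n2 a := by
  set θ : ℝ := min 1 (min (ε / 2) (ε ^ 2 / 36)) with hθ
  have hθ0 : 0 < θ := by
    simp only [hθ, lt_min_iff]
    exact ⟨one_pos, by positivity, by positivity⟩
  have hθ1 : θ ≤ 1 := min_le_left _ _
  have hθ2 : θ ≤ ε / 2 := (min_le_right _ _).trans (min_le_left _ _)
  have hθ3 : θ ≤ ε ^ 2 / 36 := (min_le_right _ _).trans (min_le_right _ _)
  obtain ⟨w, hw, hw2⟩ := M.approx_proj A m θ hθ0
  obtain ⟨v, hv, hv1, hv2⟩ := M.approx_ball A m θ hθ0 hθ1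
  set x := w - v with hx
  have hxA : x ∈ A := sub_mem hw hv
  obtain ⟨n, hn, hn1, q, hq, hq2⟩ := M.polar A hA x hxA θ hθ0
  have esplit : m - v = (m - w) + x := by rw [hx]; abel
  have key : ∀ a, M.tr (star a * (m - v)) = M.tr (star a * (m - w)) + M.tr (star a * x) := by
    intro a
    rw [esplit, mul_add, map_add]
  have habs : ∀ a ∈ A, |(M.tr (star a * (m - w))).re| ≤ θ * M.n2 a := fun a ha =>
    (Complex.abs_re_le_norm _).trans (hw2 a ha)
  have hnn : M.n2 n ≤ 1 := (M.n2_le_norm n).trans hn1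
  have hvn : M.n2 v ≤ 1 := (M.n2_le_norm v).trans hv1
  have h1 := hv2 n hn hn1
  rw [key, key, Complex.add_re, Complex.add_re] at h1
  have h2 := (abs_le.1 (habs n hn)).1
  have h3 := (abs_le.1 (habs v hv)).2
  have h4 := (abs_le.1 (habs x hxA)).1
  have h5 : (M.tr (star x * m)).re ≤ M.n2 q ^ 2 := by
    have e : star x * m = star q * q * (star n * m) := by
      rw [hq, star_mul, star_mul, star_star]; noncomm_ring
    rw [e]
    refine (Complex.re_le_norm _).trans ((M.norm_tr_mul_le _ _).trans ?_)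
    have : ‖star n * m‖ ≤ 1 := by
      refine (norm_mul_le _ _).trans ?_
      rw [norm_star]
      nlinarith [norm_nonneg n, norm_nonneg m]
    nlinarith [sq_nonneg (M.n2 q)]
  have h6 : (M.tr (star x * m)).re = (M.tr (star x * (m - w))).re + M.n2 x ^ 2
      + (M.tr (star x * v)).re := by
    have e : star x * m = star x * (m - w) + star x * x + star x * v := by
      rw [← mul_add, ← mul_add, hx]
      congr 1
      abel
    rw [e, map_add, map_add, Complex.add_re, Complex.add_re, n2_sq]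
  have h7 := M.re_ip_symm x v
  have h8 := M.re_ip_symm x n
  have hX := M.n2_nonneg x
  have hvn0 := M.n2_nonneg v
  have hnn0 := M.n2_nonneg n
  have h9 : M.n2 x ^ 2 ≤ 4 * θ + θ * M.n2 x := by nlinarith
  have h10 : M.n2 x ^ 2 ≤ 9 * θ := by nlinarith [sq_nonneg (θ - M.n2 x)]
  have h11 : M.n2 x ≤ ε / 2 := by
    have : M.n2 x ^ 2 ≤ (ε / 2) ^ 2 := by nlinarith
    exact (abs_le_of_sq_le_sq' this (by positivity)).2
  refine ⟨v, hv, hv1, fun a ha => ?_⟩
  rw [key]
  refine (norm_add_le _ _).trans ?_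
  have h12 := hw2 a ha
  have h13 := M.cs a x
  have h14 := M.n2_nonneg a
  nlinarith

theorem kaplansky_aux' (A : StarSubalgebra ℂ M) (hA : IsClosed (A : Set M)) (m : M)
    (ε : ℝ) (hε : 0 < ε) :
    ∃ v ∈ A, ‖v‖ ≤ ‖m‖ ∧ ∀ a ∈ A, ‖M.tr (star a * (m - v))‖ ≤ ε * M.n2 a := by
  rcases eq_or_ne m 0 with rfl | hm
  · refine ⟨0, zero_mem A, le_rfl, fun a ha => ?_⟩
    simp only [sub_zero, mul_zero, map_zero, norm_zero]
    have := M.n2_nonneg a
    positivity
  set c : ℝ := ‖m‖ with hc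
  have hc0 : 0 < c := norm_pos_iff.2 hm
  have hcc : (c : ℂ) ≠ 0 := by exact_mod_cast hc0.ne'
  obtain ⟨v, hv, hv1, hv2⟩ := M.kaplansky_aux A hA ((c⁻¹ : ℂ) • m) (by
    rw [norm_smul, norm_inv, Complex.norm_real, Real.norm_of_nonneg hc0.le, ← hc,
      inv_mul_cancel₀ hc0.ne']) (ε / c) (by positivity)
  refine ⟨(c : ℂ) • v, A.smul_mem hv _, ?_, fun a ha => ?_⟩
  · rw [norm_smul, Complex.norm_real, Real.norm_of_nonneg hc0.le]
    nlinarith
  · have e : star a * (m - (c : ℂ) • v) = (c : ℂ) • (star a * ((c⁻¹ : ℂ) • m - v)) := by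
      rw [← mul_smul_comm, smul_sub, smul_smul, mul_inv_cancel₀ hcc, one_smul]
    rw [e, map_smul, norm_smul, Complex.norm_real, Real.norm_of_nonneg hc0.le]
    have := hv2 a ha
    calc c * ‖M.tr (star a * ((c⁻¹ : ℂ) • m - v))‖ ≤ c * (ε / c * M.n2 a) :=
          mul_le_mul_of_nonneg_left this hc0.le
      _ = ε * M.n2 a := by field_simp


/-- `v` is a trace norm limit of elements of `A` of norm at most `r`. -/
def Near (A : StarSubalgebra ℂ M) (r : ℝ) (v : M) : Prop :=
  ∀ ε > 0, ∃ a ∈ A, ‖a‖ ≤ r ∧ M.n2 (v - a) < ε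

variable {M} {A : StarSubalgebra ℂ M}

theorem exists_nat_inv_lt {ε : ℝ} (hε : 0 < ε) : ∃ N : ℕ, ∀ n ≥ N, 1 / ((n : ℝ) + 1) < ε := by
  obtain ⟨N, hN⟩ := exists_nat_one_div_lt hε
  refine ⟨N, fun n hn => lt_of_le_of_lt ?_ hN⟩
  apply one_div_le_one_div_of_le (by positivity)
  have : (N : ℝ) ≤ n := by exact_mod_cast hn
  linarith

theorem Near.norm_le {r : ℝ} {v : M} (h : M.Near A r v) : ‖v‖ ≤ r := by
  have h0 : ∀ k : ℕ, ∃ a ∈ A, ‖a‖ ≤ r ∧ M.n2 (v - a) < 1 / ((k : ℝ) + 1) := fun k =>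
    h _ (by positivity)
  choose a haA har hav using h0
  have hr : 0 ≤ r := (norm_nonneg _).trans (har 0)
  obtain ⟨x, hx, hlim⟩ := M.exists_lim (s := a) hr har (by
    intro ε hε
    obtain ⟨N, hN⟩ := exists_nat_inv_lt (half_pos hε)
    refine ⟨N, fun m hm n hn => ?_⟩
    have h1 := hN m hm
    have h2 := hN n hn
    have h3 := hav m
    have h4 := hav n
    have h5 := M.n2_tri (a m) v (a n)
    rw [M.n2_sub_comm (a m) v] at h5
    linarith)
  have : v = x := by
    rw [← sub_eq_zero, ← M.n2_eq_zero]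
    by_contra hne
    have hpos : 0 < M.n2 (v - x) := lt_of_le_of_ne (M.n2_nonneg _) (Ne.symm hne)
    obtain ⟨N1, hN1⟩ := exists_nat_inv_lt (half_pos hpos)
    obtain ⟨N2, hN2⟩ := hlim _ (half_pos hpos)
    have h1 := hN1 (max N1 N2) (le_max_left _ _)
    have h2 := hN2 (max N1 N2) (le_max_right _ _)
    have h3 := hav (max N1 N2)
    have h5 := M.n2_tri v (a (max N1 N2)) x
    linarith
  rw [this]
  exact hx

theorem Near.nonneg {r : ℝ} {v : M} (h : M.Near A r v) : 0 ≤ r := (norm_nonneg _).trans h.norm_le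

theorem Near.mono {r s : ℝ} (hrs : r ≤ s) {v : M} (h : M.Near A r v) : M.Near A s v := by
  intro ε hε
  obtain ⟨a, ha, har, hav⟩ := h ε hε
  exact ⟨a, ha, har.trans hrs, hav⟩

theorem near_of_mem {a : M} (ha : a ∈ A) : M.Near A ‖a‖ a := fun ε hε =>
  ⟨a, ha, le_rfl, by rw [sub_self, n2_zero]; exact hε⟩

theorem Near.add {r s : ℝ} {v w : M} (hv : M.Near A r v) (hw : M.Near A s w) :
    M.Near A (r + s) (v + w) := by
  intro ε hε
  obtain ⟨a, ha, har, hav⟩ := hv _ (half_pos hε)
  obtain ⟨b, hb, hbs, hbw⟩ := hw _ (half_pos hε)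
  refine ⟨a + b, add_mem ha hb, (norm_add_le _ _).trans (add_le_add har hbs), ?_⟩
  have e : v + w - (a + b) = (v - a) + (w - b) := by abel
  rw [e]
  have := M.n2_add_le (v - a) (w - b)
  linarith

theorem Near.smul {r : ℝ} {v : M} (c : ℂ) (hv : M.Near A r v) :
    M.Near A (‖c‖ * r) (c • v) := by
  intro ε hε
  obtain ⟨a, ha, har, hav⟩ := hv (ε / (‖c‖ + 1)) (by positivity)
  refine ⟨c • a, A.smul_mem ha _, ?_, ?_⟩
  · rw [norm_smul]
    exact mul_le_mul_of_nonneg_left har (norm_nonneg _)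
  · rw [← smul_sub, n2_smul]
    rw [lt_div_iff₀ (by positivity)] at hav
    nlinarith [M.n2_nonneg (v - a), norm_nonneg c]

theorem Near.star {r : ℝ} {v : M} (hv : M.Near A r v) : M.Near A r (star v) := by
  intro ε hε
  obtain ⟨a, ha, har, hav⟩ := hv ε hε
  refine ⟨Star.star a, star_mem ha, by rwa [norm_star], ?_⟩
  rwa [← star_sub, n2_star]

theorem Near.mul {r s : ℝ} {v w : M} (hv : M.Near A r v) (hw : M.Near A s w) :
    M.Near A (r * s) (v * w) := by
  intro ε hε
  have hr := hv.nonneg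
  have hs := hw.nonneg
  obtain ⟨a, ha, har, hav⟩ := hv (ε / 2 / (s + 1)) (by positivity)
  obtain ⟨b, hb, hbs, hbw⟩ := hw (ε / 2 / (r + 1)) (by positivity)
  refine ⟨a * b, mul_mem ha hb, (norm_mul_le _ _).trans
    (mul_le_mul har hbs (norm_nonneg _) hr), ?_⟩
  have e : v * w - a * b = (v - a) * b + v * (w - b) := by noncomm_ring
  rw [e]
  have h1 := M.n2_add_le ((v - a) * b) (v * (w - b))
  have h2 := M.n2_mul_le' (v - a) b
  have h3 := M.n2_mul_le v (w - b)
  have h4 := hv.norm_le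
  rw [lt_div_iff₀ (by positivity)] at hav hbw
  have h5 := M.n2_nonneg (v - a)
  have h6 := M.n2_nonneg (w - b)
  have h7 : M.n2 (v - a) * ‖b‖ < ε / 2 := by nlinarith
  have h8 : ‖v‖ * M.n2 (w - b) < ε / 2 := by nlinarith
  linarith

/-- orthogonality passes to limits -/
theorem Near.orth {r : ℝ} {v u : M} (hv : M.Near A r v) (hu : ∀ a ∈ A, M.tr (Star.star a * u) = 0) :
    M.tr (Star.star v * u) = 0 := by
  by_contra hne
  have hpos : 0 < ‖M.tr (Star.star v * u)‖ := norm_pos_iff.2 hne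
  obtain ⟨a, ha, har, hav⟩ := hv (‖M.tr (Star.star v * u)‖ / (M.n2 u + 1)) (by
    have := M.n2_nonneg u
    positivity)
  have e : M.tr (Star.star v * u) = M.tr (Star.star (v - a) * u) := by
    rw [star_sub, sub_mul, map_sub, hu a ha, sub_zero]
  have h1 := M.cs (v - a) u
  rw [← e] at h1
  have h0 := M.n2_nonneg u
  rw [lt_div_iff₀ (by positivity)] at hav
  nlinarith [M.n2_nonneg (v - a)]

theorem near_unique {r s : ℝ} {m v w : M} (hv : M.Near A r v) (hw : M.Near A s w)
    (hv' : ∀ a ∈ A, M.tr (star a * (m - v)) = 0) (hw' : ∀ a ∈ A, M.tr (star a * (m - w)) = 0) :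
    v = w := by
  have h1 : ∀ a ∈ A, M.tr (star a * (v - w)) = 0 := by
    intro a ha
    have e : v - w = (m - w) - (m - v) := by abel
    rw [e, mul_sub, map_sub, hv' a ha, hw' a ha, sub_zero]
  have h2 : M.Near A (r + ‖(-1 : ℂ)‖ * s) (v - w) := by
    have := hv.add (hw.smul (-1))
    rwa [neg_one_smul, ← sub_eq_add_neg] at this
  have h3 := h2.orth h1
  rw [← sub_eq_zero]
  exact M.tr_faithful _ h3

theorem exists_cond (hA : IsClosed (A : Set M)) (m : M) :
    ∃ v, M.Near A ‖m‖ v ∧ ∀ a ∈ A, M.tr (star a * (m - v)) = 0 := by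
  have h0 : ∀ k : ℕ, ∃ v ∈ A, ‖v‖ ≤ ‖m‖ ∧
      ∀ a ∈ A, ‖M.tr (star a * (m - v))‖ ≤ 1 / ((k : ℝ) + 1) * M.n2 a := fun k =>
    M.kaplansky_aux' A hA m _ (by positivity)
  choose s hsA hsn hs using h0
  have hcau : ∀ k l, M.n2 (s k - s l) ≤ 1 / ((k : ℝ) + 1) + 1 / ((l : ℝ) + 1) := by
    intro k l
    have h1 : M.n2 (s k - s l) ^ 2 ≤
        (1 / ((k : ℝ) + 1) + 1 / ((l : ℝ) + 1)) * M.n2 (s k - s l) := by
      have hmem : s k - s l ∈ A := sub_mem (hsA k) (hsA l)
      have h2 := hs k _ hmem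
      have h3 := hs l _ hmem
      have e : star (s k - s l) * (s k - s l) =
          star (s k - s l) * (m - s l) - star (s k - s l) * (m - s k) := by
        rw [← mul_sub]
        congr 1
        abel
      rw [n2_sq, e, map_sub]
      refine (Complex.re_le_norm _).trans ((norm_sub_le _ _).trans ?_)
      linarith
    rcases (M.n2_nonneg (s k - s l)).eq_or_lt with h | h
    · rw [← h]; positivity
    · rw [sq] at h1
      exact le_of_mul_le_mul_right h1 h
  obtain ⟨v, hv, hlim⟩ := M.exists_lim (s := s) (norm_nonneg m) hsn (by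
    intro ε hε
    obtain ⟨N, hN⟩ := exists_nat_inv_lt (half_pos hε)
    refine ⟨N, fun k hk l hl => ?_⟩
    have := hcau k l
    have := hN k hk
    have := hN l hl
    linarith)
  refine ⟨v, ?_, ?_⟩
  · intro ε hε
    obtain ⟨N, hN⟩ := hlim ε hε
    refine ⟨s N, hsA N, hsn N, ?_⟩
    rw [M.n2_sub_comm]
    exact hN N le_rfl
  · intro a ha
    rw [← norm_le_zero_iff]
    apply le_of_forall_pos_le_add
    intro ε hε
    rw [zero_add]
    have ha0 := M.n2_nonneg a
    obtain ⟨N1, hN1⟩ := exists_nat_inv_lt (show 0 < ε / 2 / (M.n2 a + 1) by positivity)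
    obtain ⟨N2, hN2⟩ := hlim (ε / 2 / (M.n2 a + 1)) (by positivity)
    have h1 := hN1 (max N1 N2) (le_max_left _ _)
    have h2 := hN2 (max N1 N2) (le_max_right _ _)
    have h3 := hs (max N1 N2) a ha
    have h4 := M.cs a (s (max N1 N2) - v)
    have e : star a * (m - v) = star a * (m - s (max N1 N2)) + star a * (s (max N1 N2) - v) := by
      rw [← mul_add]
      congr 1
      abel
    rw [e, map_add]
    refine (norm_add_le _ _).trans ?_
    rw [lt_div_iff₀ (by positivity)] at h1 h2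
    have h5 : 0 ≤ 1 / (((max N1 N2 : ℕ) : ℝ) + 1) := by positivity
    have h6 := M.n2_nonneg (s (max N1 N2) - v)
    nlinarith


/-- negative part of a selfadjoint element of a closed star subalgebra -/
theorem negPart_lemma {B : Type} [CStarAlgebra B] (S : NonUnitalStarSubalgebra ℂ B)
    (hS : IsClosed (S : Set B)) (T : B) (hT : T ∈ S) (hsa : IsSelfAdjoint T) :
    ∃ N ∈ S, star N = N ∧ T * N = -(N * N) ∧ (∃ Y, N = star Y * Y) ∧
      (N = 0 → ∃ Z, T = star Z * Z) := by
  letI : PartialOrder B := CStarAlgebra.spectralOrder B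
  letI : StarOrderedRing B := CStarAlgebra.spectralOrderedRing B
  have hnn : 0 ≤ T⁻ := CFC.negPart_nonneg T
  have hTB : T * T⁻ = - (T⁻ * T⁻) := by
    have h1 : T * T⁻ = (T⁺ - T⁻) * T⁻ := by rw [CFC.posPart_sub_negPart T hsa]
    rw [h1, sub_mul, CFC.posPart_mul_negPart, zero_sub]
  refine ⟨T⁻, cfcₙ_mem (hs := hS) _ hT, (IsSelfAdjoint.of_nonneg hnn).star_eq, hTB,
    CStarAlgebra.nonneg_iff_eq_star_mul_self.1 hnn, fun h0 => ?_⟩
  have hTnn : 0 ≤ T := by
    rw [← CFC.posPart_sub_negPart T hsa, h0, sub_zero]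
    exact CFC.posPart_nonneg T
  exact CStarAlgebra.nonneg_iff_eq_star_mul_self.1 hTnn

/-! ### The conditional expectation -/

section cond

variable (M A)

/-- the underlying map -/
def ceFun (hA : IsClosed (A : Set M)) (m : M) : M := (exists_cond hA m).choose

variable {M A}

theorem ceFun_near (hA : IsClosed (A : Set M)) (m : M) : M.Near A ‖m‖ (ceFun M A hA m) :=
  (exists_cond hA m).choose_spec.1

theorem ceFun_orth (hA : IsClosed (A : Set M)) (m : M) :
    ∀ a ∈ A, M.tr (star a * (m - ceFun M A hA m)) = 0 :=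
  (exists_cond hA m).choose_spec.2

theorem ceFun_eq (hA : IsClosed (A : Set M)) {m v : M} {r : ℝ} (hv : M.Near A r v)
    (hv' : ∀ a ∈ A, M.tr (star a * (m - v)) = 0) : ceFun M A hA m = v :=
  near_unique (ceFun_near hA m) hv (ceFun_orth hA m) hv'

/-- orthogonality against limits -/
theorem ceFun_orth' (hA : IsClosed (A : Set M)) (m : M) {r : ℝ} {v : M} (hv : M.Near A r v) :
    M.tr (star v * (m - ceFun M A hA m)) = 0 := hv.orth (ceFun_orth hA m)

theorem ceFun_of_near (hA : IsClosed (A : Set M)) {r : ℝ} {v : M} (hv : M.Near A r v) :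
    ceFun M A hA v = v :=
  ceFun_eq hA hv (fun a _ => by rw [sub_self, mul_zero, map_zero])

/-- the linear map -/
def ceLin (hA : IsClosed (A : Set M)) : M →ₗ[ℂ] M where
  toFun := ceFun M A hA
  map_add' x y := by
    refine ceFun_eq hA ((ceFun_near hA x).add (ceFun_near hA y)) fun a ha => ?_
    have e : x + y - (ceFun M A hA x + ceFun M A hA y) =
        (x - ceFun M A hA x) + (y - ceFun M A hA y) := by abel
    rw [e, mul_add, map_add, ceFun_orth hA x a ha, ceFun_orth hA y a ha, add_zero]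
  map_smul' c x := by
    refine ceFun_eq hA ((ceFun_near hA x).smul c) fun a ha => ?_
    simp only [RingHom.id_apply]
    rw [← smul_sub, mul_smul_comm, map_smul, ceFun_orth hA x a ha, smul_zero]

theorem ceLin_apply (hA : IsClosed (A : Set M)) (x : M) : ceLin hA x = ceFun M A hA x := rfl

theorem ce_star (hA : IsClosed (A : Set M)) (x : M) :
    ceFun M A hA (star x) = star (ceFun M A hA x) := by
  refine ceFun_eq hA (ceFun_near hA x).star fun a ha => ?_
  have h1 := ceFun_orth hA x (star a) (star_mem ha)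
  rw [star_star] at h1
  rw [← star_sub, ← star_mul, M.tr_star, M.tr_comm, h1, star_zero]

theorem ce_mul_left (hA : IsClosed (A : Set M)) (x y : M) :
    ceFun M A hA (ceFun M A hA x * y) = ceFun M A hA x * ceFun M A hA y := by
  refine ceFun_eq hA ((ceFun_near hA x).mul (ceFun_near hA y)) fun a ha => ?_
  rw [← mul_sub, ← mul_assoc]
  have h1 := ceFun_orth' hA y ((ceFun_near hA x).star.mul (near_of_mem ha))
  rwa [star_mul, star_star] at h1

theorem ce_mul_right (hA : IsClosed (A : Set M)) (x y : M) :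
    ceFun M A hA (x * ceFun M A hA y) = ceFun M A hA x * ceFun M A hA y := by
  have h := ce_mul_left hA (star y) (star x)
  rw [ce_star, ce_star, ← star_mul, ce_star, ← star_mul] at h
  exact star_injective h

theorem ce_tr_mul (hA : IsClosed (A : Set M)) (x y : M) :
    M.tr (ceFun M A hA x * y) = M.tr (x * ceFun M A hA y) := by
  have h1 := ceFun_orth' hA y (ceFun_near hA x).star
  have h2 := ceFun_orth' hA x (ceFun_near hA y).star
  rw [star_star, mul_sub, map_sub, sub_eq_zero] at h1 h2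
  rw [h1, M.tr_comm x, h2, M.tr_comm]

theorem ce_tr (hA : IsClosed (A : Set M)) (x : M) : M.tr (ceFun M A hA x) = M.tr x := by
  have h1 := ceFun_orth hA x 1 (one_mem A)
  rw [star_one, one_mul, map_sub, sub_eq_zero] at h1
  exact h1.symm

theorem ce_n2_le (hA : IsClosed (A : Set M)) (x : M) : M.n2 (ceFun M A hA x) ≤ M.n2 x := by
  have h1 := ceFun_orth' hA x (ceFun_near hA x)
  rw [mul_sub, map_sub, sub_eq_zero] at h1
  have h2 := M.cs (ceFun M A hA x) x
  rw [h1, tr_star_mul_self, Complex.norm_real, Real.norm_of_nonneg (sq_nonneg _), sq] at h2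
  rcases (M.n2_nonneg (ceFun M A hA x)).eq_or_lt with h | h
  · rw [← h]; exact M.n2_nonneg _
  · exact le_of_mul_le_mul_left h2 h

/-- the fixed matrices form a star subalgebra -/
def fixSub (hA : IsClosed (A : Set M)) (n : ℕ) :
    NonUnitalStarSubalgebra ℂ (CStarMatrix (Fin n) (Fin n) M) where
  carrier := {T | ∀ i j, ceFun M A hA (T i j) = T i j}
  add_mem' := by
    intro S T hS hT i j
    rw [CStarMatrix.add_apply, ← ceLin_apply, map_add, ceLin_apply, ceLin_apply, hS, hT]
  zero_mem' := by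
    intro i j
    rw [CStarMatrix.zero_apply, ← ceLin_apply, map_zero]
  mul_mem' := by
    intro S T hS hT i j
    rw [CStarMatrix.mul_apply, ← ceLin_apply, map_sum]
    refine Finset.sum_congr rfl fun k _ => ?_
    rw [ceLin_apply, ← hS i k, ce_mul_left, hT k j, hS i k]
  smul_mem' := by
    intro c T hT i j
    rw [CStarMatrix.smul_apply, ← ceLin_apply, map_smul, ceLin_apply, hT]
  star_mem' := by
    intro T hT i j
    change ceFun M A hA (star (T j i)) = star (T j i)
    rw [ce_star, hT]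

theorem fixSub_closed (hA : IsClosed (A : Set M)) (n : ℕ) :
    IsClosed (fixSub hA n : Set (CStarMatrix (Fin n) (Fin n) M)) := by
  have hcont : Continuous (ceFun M A hA) := by
    have h1 : ∀ x, ‖ceLin hA x‖ ≤ 1 * ‖x‖ := fun x => by
      rw [one_mul]
      exact (ceFun_near hA x).norm_le
    exact (LinearMap.mkContinuous (ceLin hA) 1 h1).continuous
  have : (fixSub hA n : Set (CStarMatrix (Fin n) (Fin n) M)) =
      ⋂ i, ⋂ j, {T | ceFun M A hA (T i j) = T i j} := by
    ext T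
    simp only [Set.mem_iInter]
    rfl
  rw [this]
  refine isClosed_iInter fun i => isClosed_iInter fun j => ?_
  have he : Continuous (fun T : CStarMatrix (Fin n) (Fin n) M => T i j) :=
    continuous_apply_apply (ρ := fun _ _ => M.carrier) i j
  exact isClosed_eq (hcont.comp he) he

theorem ce_sos (hA : IsClosed (A : Set M)) (n : ℕ) (a : Fin n → M) :
    ∃ S : Fin n → Fin n → M, ∀ i j,
      ceFun M A hA (star (a i) * a j) = ∑ k, star (S k i) * S k j := by
  letI : PartialOrder M := CStarAlgebra.spectralOrder M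
  letI : StarOrderedRing M := CStarAlgebra.spectralOrderedRing M
  let T : CStarMatrix (Fin n) (Fin n) M :=
    CStarMatrix.ofMatrix fun i j => ceFun M A hA (star (a i) * a j)
  have hT : ∀ i j, T i j = ceFun M A hA (star (a i) * a j) := fun i j => rfl
  have hTsa : IsSelfAdjoint T := by
    ext i j
    change star (T j i) = T i j
    rw [hT, hT, ← ce_star, star_mul, star_star]
  have hTfix : T ∈ fixSub hA n := by
    intro i j
    rw [hT]
    exact ceFun_of_near hA (ceFun_near hA _)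
  obtain ⟨B, hBfix, hBsa, hTB, ⟨Y, hY⟩, hend⟩ :=
    negPart_lemma (fixSub hA n) (fixSub_closed hA n) T hTfix hTsa
  have hBfix' : ∀ i j, ceFun M A hA (B i j) = B i j := hBfix
  set X := Y * B with hX
  have hXX : star X * X = - (star B * (T * B)) := by
    rw [hTB, hX, star_mul, hBsa]
    calc B * star Y * (Y * B) = B * (star Y * Y) * B := by noncomm_ring
      _ = -(B * -(B * B)) := by rw [← hY]; noncomm_ring
  -- trace computation
  have hpos : ∀ k, 0 ≤ M.tr ((star B * (T * B)) k k) := by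
    intro k
    have e : M.tr ((star B * (T * B)) k k) =
        M.tr (star (∑ i, a i * B i k) * ∑ j, a j * B j k) := by
      rw [star_sum, Finset.sum_mul_sum, map_sum, CStarMatrix.mul_apply, map_sum]
      refine Finset.sum_congr rfl fun i _ => ?_
      rw [CStarMatrix.mul_apply, Finset.mul_sum, map_sum, map_sum]
      refine Finset.sum_congr rfl fun j _ => ?_
      have hs : (star B) k i = star (B i k) := rfl
      rw [hs, hT]
      have h1 : M.tr (star (B i k) * (ceFun M A hA (star (a i) * a j) * B j k)) =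
          M.tr (ceFun M A hA (star (a i) * a j) * (B j k * star (B i k))) := by
        rw [M.tr_comm, mul_assoc]
      have h2 : ceFun M A hA (B j k * star (B i k)) = B j k * star (B i k) := by
        conv_lhs => rw [← hBfix' j k]
        rw [ce_mul_left, ce_star, hBfix', hBfix']
      have h3 : M.tr (star (a i) * a j * (B j k * star (B i k))) =
          M.tr (star (a i * B i k) * (a j * B j k)) := by
        rw [star_mul, ← mul_assoc, M.tr_comm]
        congr 1
        simp only [mul_assoc]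
      rw [h1, ce_tr_mul, h2, h3]
    rw [e]
    exact M.tr_nonneg _
  have hneg : ∀ k, M.tr ((star B * (T * B)) k k) = - ∑ l, M.tr (star (X l k) * X l k) := by
    intro k
    have e : star B * (T * B) = - (star X * X) := by rw [hXX, neg_neg]
    rw [e, CStarMatrix.neg_apply, map_neg, CStarMatrix.mul_apply, map_sum]
    rfl
  have hXz : X = 0 := by
    ext l k
    have h1 := hpos k
    rw [hneg k, neg_nonneg] at h1
    have h2 : ∀ l ∈ Finset.univ, 0 ≤ M.tr (star (X l k) * X l k) := fun l _ => M.tr_nonneg _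
    have h3 := (Finset.sum_eq_zero_iff_of_nonneg h2).1 (le_antisymm h1 (Finset.sum_nonneg h2)) l
      (Finset.mem_univ l)
    exact M.tr_faithful _ h3
  have hB3 : B * B * B = 0 := by
    have h1 := hXX
    rw [hXz, mul_zero, hTB, hBsa] at h1
    have h2 : B * B * B = -(B * -(B * B)) := by noncomm_ring
    rw [h2, ← h1]
  have hB4 : B * B = 0 := by
    have h1 : star (B * B) * (B * B) = 0 := by
      rw [star_mul, hBsa, ← mul_assoc, hB3, zero_mul]
    exact CStarRing.star_mul_self_eq_zero_iff _ |>.1 h1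
  have hB0 : B = 0 := by
    have h1 : star B * B = 0 := by rw [hBsa, hB4]
    exact CStarRing.star_mul_self_eq_zero_iff _ |>.1 h1
  obtain ⟨S, hS⟩ := hend hB0
  refine ⟨fun k i => S k i, fun i j => ?_⟩
  rw [← hT, hS, CStarMatrix.mul_apply]
  rfl

end cond

end TVN

theorem exists_condExp (M : TVN) (A : StarSubalgebra ℂ M) (hA : IsClosed (A : Set M)) :
    Nonempty (CondExp M A) := by
  refine ⟨{ E := TVN.ceLin hA, approx := ?_, norm_le := ?_, of_mem := ?_, idem := ?_,
            map_star := ?_, mul_left := ?_, mul_right := ?_, tr_mul := ?_, tr_E := ?_,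
            n2_le := ?_, sos := ?_ }⟩
  · exact fun x ε hε => TVN.ceFun_near hA x ε hε
  · exact fun x => (TVN.ceFun_near hA x).norm_le
  · exact fun a ha => TVN.ceFun_of_near hA (TVN.near_of_mem ha)
  · exact fun x => TVN.ceFun_of_near hA (TVN.ceFun_near hA x)
  · exact TVN.ce_star hA
  · exact TVN.ce_mul_left hA
  · exact TVN.ce_mul_right hA
  · exact TVN.ce_tr_mul hA
  · exact TVN.ce_tr hA
  · exact TVN.ce_n2_le hA
  · exact TVN.ce_sos hA

end Pool.Agent.Lib.EcII
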