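import Pool.Agent.Lib.EcII.CondDefs

/-!
# Embeddings from equality of laws

`exists_embed_of` is the embedding theorem given the existence of conditional expectations
(`exists_condExp` of `Cond.lean`); the final form is
`exists_embed v hv v' h := exists_embed_of v hv v' h (exists_condExp M)`.
-/

open scoped ComplexOrder

noncomputable section

namespace Pool.Agent.Lib.EcII

namespace TVN

theorem norm_le_of_moments {M : TVN} {a : M} {r : ℝ} (hr : 0 ≤ r)
    (h : ∀ k : ℕ, (M.tr ((star a * a) ^ k)).re ≤ r ^ (2 * k)) : ‖a‖ ≤ r := by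
  by_contra hlt
  push Not at hlt
  let _ : PartialOrder M := CStarAlgebra.spectralOrder M
  let _ : StarOrderedRing M := CStarAlgebra.spectralOrderedRing M
  set b : M := star a * a with hbdef
  have hb : 0 ≤ b := star_mul_self_nonneg a
  have hbs : IsSelfAdjoint b := hb.isSelfAdjoint
  have hnb : ‖b‖ = ‖a‖ * ‖a‖ := CStarRing.norm_star_mul_self
  have hrb : r ^ 2 < ‖b‖ := by nlinarith
  set s : ℝ := (r ^ 2 + ‖b‖) / 2 with hs
  have hs1 : r ^ 2 < s := by linarith
  have hs2 : s < ‖b‖ := by linarith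
  have hs0 : 0 < s := by nlinarith [sq_nonneg r]
  set f : ℝ → ℝ := fun t => max (t - s) 0 with hf
  have hfc : Continuous f := by fun_prop
  have hmem : ‖b‖ ∈ spectrum ℝ b := CStarAlgebra.norm_mem_spectrum_of_nonneg hb
  have hg0 : 0 ≤ cfc f b := cfc_nonneg (fun t _ => le_max_right _ _)
  have hgn : f ‖b‖ ≤ ‖cfc f b‖ := by
    have := norm_apply_le_norm_cfc f b hmem hfc.continuousOn hbs
    exact (le_abs_self _).trans this
  have hfb : 0 < f ‖b‖ := by
    simp only [hf]
    exact lt_max_of_lt_left (by linarith)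
  have hgne : cfc f b ≠ 0 := by
    intro h0
    rw [h0, norm_zero] at hgn
    linarith
  have hτ : 0 < (M.tr (cfc f b)).re := by
    obtain ⟨y, hy⟩ := CStarAlgebra.nonneg_iff_eq_star_mul_self.1 hg0
    rw [hy, ← n2_sq]
    have hy0 : y ≠ 0 := by
      rintro rfl
      apply hgne
      rw [hy]; simp
    have : M.n2 y ≠ 0 := fun h0 => hy0 (M.n2_eq_zero.1 h0)
    have := M.n2_nonneg y
    positivity
  have key : ∀ k : ℕ, s ^ k * (M.tr (cfc f b)).re ≤ (‖b‖ - s) * r ^ (2 * k) := by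
    intro k
    have h1 : cfc (fun t => s ^ k * f t) b ≤ cfc (fun t => (‖b‖ - s) * t ^ k) b := by
      refine cfc_mono (fun t ht => ?_) (by fun_prop) (by fun_prop)
      have ht0 : 0 ≤ t := spectrum_nonneg_of_nonneg hb ht
      have ht1 : t ≤ ‖b‖ := (le_abs_self t).trans (by
        have := spectrum.norm_le_norm_of_mem ht
        simpa using this)
      simp only [hf]
      rcases le_total t s with hts | hts
      · rw [max_eq_right (by linarith), mul_zero]
        exact mul_nonneg (by linarith) (pow_nonneg ht0 k)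
      · rw [max_eq_left (by linarith), mul_comm]
        exact mul_le_mul (by linarith) (pow_le_pow_left₀ hs0.le hts k) (by positivity)
          (by linarith)
    rw [cfc_const_mul (s ^ k) f b hfc.continuousOn,
      cfc_const_mul (‖b‖ - s) (fun t => t ^ k) b (by fun_prop), cfc_pow_id b k] at h1
    have h2 := (Complex.le_def.1 (M.tr_nonneg_of_nonneg (sub_nonneg.2 h1))).1
    have e : ∀ (c : ℝ) (z : M), (M.tr (c • z)).re = c * (M.tr z).re := by
      intro c z
      rw [← Complex.coe_smul, map_smul, smul_eq_mul]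
      simp
    rw [map_sub, Complex.sub_re, e, e] at h2
    have h3 := h k
    have h4 : (‖b‖ - s) * (M.tr (b ^ k)).re ≤ (‖b‖ - s) * r ^ (2 * k) :=
      mul_le_mul_of_nonneg_left h3 (by linarith)
    simp at h2
    linarith
  have hlim : Filter.Tendsto (fun k : ℕ => (‖b‖ - s) * (r ^ 2 / s) ^ k) Filter.atTop
      (nhds ((‖b‖ - s) * 0)) := by
    apply Filter.Tendsto.const_mul
    apply tendsto_pow_atTop_nhds_zero_of_lt_one (by positivity)
    rw [div_lt_one hs0]; exact hs1
  rw [mul_zero] at hlim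
  have := ge_of_tendsto' hlim (fun k => (show (M.tr (cfc f b)).re ≤ (‖b‖ - s) * (r ^ 2 / s) ^ k by
    have := key k
    rw [div_pow, ← pow_mul, ← mul_div_assoc, le_div_iff₀ (by positivity), mul_comm]
    exact this))
  linarith


section Graph

variable {M P : TVN}

/-- The word subalgebra of the product. -/
def wordAlg {J : Type} (v : J → M) (v' : J → P) : StarSubalgebra ℂ (M × P) where
  carrier := Submodule.span ℂ (Set.range fun w : List (J × Bool) => ((ev v w, ev v' w) : M × P))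
  mul_mem' := by
    intro a b ha hb
    have h := Submodule.mul_mem_mul ha hb
    rw [Submodule.span_mul_span] at h
    refine Submodule.span_mono ?_ h
    rintro _ ⟨_, ⟨w1, rfl⟩, _, ⟨w2, rfl⟩, rfl⟩
    exact ⟨w1 ++ w2, by simp [ev_append]⟩
  one_mem' := Submodule.subset_span ⟨[], by simp [Prod.ext_iff]⟩
  add_mem' := fun ha hb => Submodule.add_mem _ ha hb
  zero_mem' := Submodule.zero_mem _
  algebraMap_mem' := by
    intro r
    rw [Algebra.algebraMap_eq_smul_one]
    exact Submodule.smul_mem _ _ (Submodule.subset_span ⟨[], by simp [Prod.ext_iff]⟩)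
  star_mem' := by
    intro a ha
    refine Submodule.span_induction (p := fun x _ => star x ∈ Submodule.span ℂ
      (Set.range fun w : List (J × Bool) => ((ev v w, ev v' w) : M × P))) ?_ ?_ ?_ ?_ ha
    · rintro _ ⟨w, rfl⟩
      exact Submodule.subset_span ⟨wstar w, by simp [ev_wstar, Prod.ext_iff]⟩
    · rw [star_zero]; exact Submodule.zero_mem _
    · intro x y _ _ hx hy
      rw [star_add]; exact Submodule.add_mem _ hx hy
    · intro c x _ hx
      rw [star_smul]; exact Submodule.smul_mem _ _ hx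

theorem mem_wordAlg_word {J : Type} (v : J → M) (v' : J → P) (w : List (J × Bool)) :
    ((ev v w, ev v' w) : M × P) ∈ wordAlg v v' := Submodule.subset_span ⟨w, rfl⟩

theorem mem_wordAlg_gen {J : Type} (v : J → M) (v' : J → P) (j : J) :
    ((v j, v' j) : M × P) ∈ wordAlg v v' := by
  have := mem_wordAlg_word v v' [(j, false)]
  simpa [ev_cons] using this

theorem tr_eq_of_mem_wordAlg {J : Type} (v : J → M) (v' : J → P)
    (h : ∀ w, P.tr (ev v' w) = M.tr (ev v w)) {d : M × P} (hd : d ∈ wordAlg v v') :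
    P.tr d.2 = M.tr d.1 := by
  refine Submodule.span_induction (p := fun (x : M × P) _ => P.tr x.2 = M.tr x.1) ?_ ?_ ?_ ?_ hd
  · rintro _ ⟨w, rfl⟩; exact h w
  · simp
  · intro x y _ _ hx hy
    simp [hx, hy]
  · intro c x _ hx
    simp [hx]

variable (D : StarSubalgebra ℂ (M × P)) (hD : ∀ d ∈ D, P.tr d.2 = M.tr d.1)

include hD in
theorem n2_snd_eq {d : M × P} (hd : d ∈ D) : P.n2 d.2 = M.n2 d.1 := by
  have := hD _ (mul_mem (star_mem hd) hd)
  rw [n2, n2]
  congr 2

include hD in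
theorem norm_snd_eq {d : M × P} (hd : d ∈ D) : ‖d.2‖ = ‖d.1‖ := by
  have hk : ∀ k : ℕ, P.tr ((star d.2 * d.2) ^ k) = M.tr ((star d.1 * d.1) ^ k) := by
    intro k
    exact hD _ (pow_mem (mul_mem (star_mem hd) hd) k)
  have hup : ∀ (N : TVN) (a : N) (k : ℕ), (N.tr ((star a * a) ^ k)).re ≤ ‖a‖ ^ (2 * k) := by
    intro N a k
    refine (Complex.re_le_norm _).trans ((N.norm_tr_le _).trans ?_)
    rcases Nat.eq_zero_or_pos k with rfl | hk
    · simp
    refine (norm_pow_le' _ hk).trans ?_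
    rw [CStarRing.norm_star_mul_self, ← sq, ← pow_mul]
  apply le_antisymm
  · refine norm_le_of_moments (norm_nonneg _) fun k => ?_
    rw [hk]; exact hup M d.1 k
  · refine norm_le_of_moments (norm_nonneg _) fun k => ?_
    rw [← hk]; exact hup P d.2 k

/-- The two norm closure of a star subalgebra of the product on which the traces agree. -/
def closAlg : StarSubalgebra ℂ (M × P) where
  carrier := {z | ∃ C : ℝ, ∀ ε > 0, ∃ d ∈ D, ‖d‖ ≤ C ∧ M.n2 (d.1 - z.1) < ε ∧ P.n2 (d.2 - z.2) < ε}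
  mul_mem' := by
    rintro x y ⟨C, hC⟩ ⟨C', hC'⟩
    have hC0 : 0 ≤ C := by
      obtain ⟨d, -, h, -⟩ := hC 1 one_pos
      exact (norm_nonneg _).trans h
    have hC0' : 0 ≤ C' := by
      obtain ⟨d, -, h, -⟩ := hC' 1 one_pos
      exact (norm_nonneg _).trans h
    refine ⟨C * C', fun ε hε => ?_⟩
    obtain ⟨e, he, h1, h2, h3⟩ := hC' (ε / (2 * (C + 1))) (by positivity)
    obtain ⟨d, hd, g1, g2, g3⟩ := hC (ε / (2 * (‖y‖ + 1))) (by positivity)
    refine ⟨d * e, mul_mem hd he, (norm_mul_le _ _).trans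
      (mul_le_mul g1 h1 (norm_nonneg _) hC0), ?_, ?_⟩
    · have e1 : (d * e).1 - (x * y).1 = d.1 * (e.1 - y.1) + (d.1 - x.1) * y.1 := by
        simp only [Prod.fst_mul]; noncomm_ring
      rw [e1]
      refine (M.n2_add_le _ _).trans_lt ?_
      have a1 := M.n2_mul_le d.1 (e.1 - y.1)
      have a2 := M.n2_mul_le' (d.1 - x.1) y.1
      have a3 : ‖d.1‖ ≤ C := (norm_fst_le d).trans g1
      have a4 : ‖y.1‖ ≤ ‖y‖ := norm_fst_le y
      have a5 : ‖d.1‖ * M.n2 (e.1 - y.1) ≤ C * M.n2 (e.1 - y.1) :=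
        mul_le_mul_of_nonneg_right a3 (M.n2_nonneg _)
      have a6 : C * M.n2 (e.1 - y.1) ≤ C * (ε / (2 * (C + 1))) :=
        mul_le_mul_of_nonneg_left h2.le hC0
      have a7 : C * (ε / (2 * (C + 1))) < ε / 2 := by
        rw [mul_div_assoc', div_lt_div_iff₀ (by positivity) (by positivity)]
        nlinarith
      have a8 : M.n2 (d.1 - x.1) * ‖y.1‖ ≤ (ε / (2 * (‖y‖ + 1))) * ‖y‖ :=
        mul_le_mul g2.le a4 (norm_nonneg _) (by positivity)
      have a9 : (ε / (2 * (‖y‖ + 1))) * ‖y‖ ≤ ε / 2 := by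
        rw [div_mul_eq_mul_div, div_le_div_iff₀ (by positivity) (by positivity)]
        nlinarith [norm_nonneg y]
      linarith
    · have e1 : (d * e).2 - (x * y).2 = d.2 * (e.2 - y.2) + (d.2 - x.2) * y.2 := by
        simp only [Prod.snd_mul]; noncomm_ring
      rw [e1]
      refine (P.n2_add_le _ _).trans_lt ?_
      have a1 := P.n2_mul_le d.2 (e.2 - y.2)
      have a2 := P.n2_mul_le' (d.2 - x.2) y.2
      have a3 : ‖d.2‖ ≤ C := (norm_snd_le d).trans g1
      have a4 : ‖y.2‖ ≤ ‖y‖ := norm_snd_le y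
      have a5 : ‖d.2‖ * P.n2 (e.2 - y.2) ≤ C * P.n2 (e.2 - y.2) :=
        mul_le_mul_of_nonneg_right a3 (P.n2_nonneg _)
      have a6 : C * P.n2 (e.2 - y.2) ≤ C * (ε / (2 * (C + 1))) :=
        mul_le_mul_of_nonneg_left h3.le hC0
      have a7 : C * (ε / (2 * (C + 1))) < ε / 2 := by
        rw [mul_div_assoc', div_lt_div_iff₀ (by positivity) (by positivity)]
        nlinarith
      have a8 : P.n2 (d.2 - x.2) * ‖y.2‖ ≤ (ε / (2 * (‖y‖ + 1))) * ‖y‖ :=
        mul_le_mul g3.le a4 (norm_nonneg _) (by positivity)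
      have a9 : (ε / (2 * (‖y‖ + 1))) * ‖y‖ ≤ ε / 2 := by
        rw [div_mul_eq_mul_div, div_le_div_iff₀ (by positivity) (by positivity)]
        nlinarith [norm_nonneg y]
      linarith
  one_mem' := ⟨‖(1 : M × P)‖, fun ε hε => ⟨1, one_mem _, le_rfl, by simp [n2_zero, hε],
    by simp [n2_zero, hε]⟩⟩
  add_mem' := by
    rintro x y ⟨C, hC⟩ ⟨C', hC'⟩
    refine ⟨C + C', fun ε hε => ?_⟩
    obtain ⟨d, hd, g1, g2, g3⟩ := hC (ε / 2) (by positivity)
    obtain ⟨e, he, h1, h2, h3⟩ := hC' (ε / 2) (by positivity)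
    refine ⟨d + e, add_mem hd he, (norm_add_le _ _).trans (add_le_add g1 h1), ?_, ?_⟩
    · have e1 : (d + e).1 - (x + y).1 = (d.1 - x.1) + (e.1 - y.1) := by
        simp only [Prod.fst_add]; abel
      rw [e1]
      refine (M.n2_add_le _ _).trans_lt ?_
      linarith
    · have e1 : (d + e).2 - (x + y).2 = (d.2 - x.2) + (e.2 - y.2) := by
        simp only [Prod.snd_add]; abel
      rw [e1]
      refine (P.n2_add_le _ _).trans_lt ?_
      linarith
  zero_mem' := ⟨0, fun ε hε => ⟨0, zero_mem _, by simp, by simp [n2_zero, hε],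
    by simp [n2_zero, hε]⟩⟩
  algebraMap_mem' := by
    intro r
    exact ⟨‖algebraMap ℂ (M × P) r‖, fun ε hε => ⟨_, algebraMap_mem _ _, le_rfl,
      by simp only [sub_self, n2_zero, hε], by simp only [sub_self, n2_zero, hε]⟩⟩
  star_mem' := by
    rintro x ⟨C, hC⟩
    refine ⟨C, fun ε hε => ?_⟩
    obtain ⟨d, hd, g1, g2, g3⟩ := hC ε hε
    refine ⟨star d, star_mem hd, by rwa [norm_star], ?_, ?_⟩
    · rwa [Prod.fst_star, Prod.fst_star, ← star_sub, n2_star]
    · rwa [Prod.snd_star, Prod.snd_star, ← star_sub, n2_star]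

include hD in
theorem tr_eq_closAlg : ∀ z ∈ closAlg D, P.tr z.2 = M.tr z.1 := by
  rintro z ⟨C, hC⟩
  by_contra hne
  have hpos : 0 < ‖P.tr z.2 - M.tr z.1‖ := norm_pos_iff.2 (sub_ne_zero.2 hne)
  obtain ⟨d, hd, -, h1, h2⟩ := hC (‖P.tr z.2 - M.tr z.1‖ / 2) (by positivity)
  have e : P.tr z.2 - M.tr z.1 = M.tr (d.1 - z.1) - P.tr (d.2 - z.2) := by
    rw [map_sub, map_sub, hD d hd]; ring
  have h3 := norm_sub_le (M.tr (d.1 - z.1)) (P.tr (d.2 - z.2))
  rw [← e] at h3
  have h4 := M.norm_tr_le_n2 (d.1 - z.1)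
  have h5 := P.norm_tr_le_n2 (d.2 - z.2)
  linarith

theorem le_closAlg {d : M × P} (hd : d ∈ D) : d ∈ closAlg D :=
  ⟨‖d‖, fun ε hε => ⟨d, hd, le_rfl, by simp only [sub_self, n2_zero, hε],
    by simp only [sub_self, n2_zero, hε]⟩⟩

include hD in
theorem exists_closAlg (x : M) {C : ℝ} (hx : ∀ ε > 0, ∃ d ∈ D, ‖d.1‖ ≤ C ∧ M.n2 (d.1 - x) < ε) :
    ∃ y : P, ((x, y) : M × P) ∈ closAlg D := by
  have hC0 : 0 ≤ C := by
    obtain ⟨d, -, h, -⟩ := hx 1 one_pos
    exact (norm_nonneg _).trans h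
  have hx' : ∀ n : ℕ, ∃ d ∈ D, ‖d.1‖ ≤ C ∧ M.n2 (d.1 - x) < 1 / ((n : ℝ) + 1) :=
    fun n => hx _ (by positivity)
  choose d hd hd1 hd2 using hx'
  have hlim : ∀ ε > 0, ∃ N : ℕ, ∀ n ≥ N, M.n2 ((d n).1 - x) < ε := by
    intro ε hε
    obtain ⟨N, hN⟩ := exists_nat_one_div_lt hε
    refine ⟨N, fun n hn => (hd2 n).trans (lt_of_le_of_lt ?_ hN)⟩
    exact Nat.one_div_le_one_div hn
  obtain ⟨y, hy1, hy2⟩ := P.exists_lim (s := fun n => (d n).2) hC0
    (fun n => by rw [norm_snd_eq D hD (hd n)]; exact hd1 n) (by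
      intro ε hε
      obtain ⟨N, hN⟩ := hlim (ε / 2) (by positivity)
      refine ⟨N, fun m hm n hn => ?_⟩
      have h1 : P.n2 ((d m).2 - (d n).2) = M.n2 ((d m).1 - (d n).1) :=
        n2_snd_eq D hD (sub_mem (hd m) (hd n))
      rw [h1]
      have h2 := M.n2_tri (d m).1 x (d n).1
      rw [M.n2_sub_comm x] at h2
      have h3 := hN m hm
      have h4 := hN n hn
      linarith)
  refine ⟨y, C, fun ε hε => ?_⟩
  obtain ⟨N1, hN1⟩ := hlim ε hε
  obtain ⟨N2, hN2⟩ := hy2 ε hε
  refine ⟨d (max N1 N2), hd _, ?_, hN1 _ (le_max_left _ _), hN2 _ (le_max_right _ _)⟩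
  rw [Prod.norm_def, norm_snd_eq D hD (hd _), max_self]
  exact hd1 _

/-- A star subalgebra of the product on which the traces agree and which projects onto the
first factor is the graph of an embedding. -/
theorem exists_of_graph (R : StarSubalgebra ℂ (M × P)) (hR : ∀ z ∈ R, P.tr z.2 = M.tr z.1)
    (hs : ∀ x : M, ∃ y : P, ((x, y) : M × P) ∈ R) :
    ∃ ι : M →⋆ₐ[ℂ] P, (∀ x, P.tr (ι x) = M.tr x) ∧ ∀ z ∈ R, ι z.1 = z.2 := by
  choose g hg using hs
  have huniq : ∀ z ∈ R, g z.1 = z.2 := by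
    intro z hz
    have h1 : z - (z.1, g z.1) ∈ R := sub_mem hz (hg _)
    have h2 := n2_snd_eq R hR h1
    rw [Prod.fst_sub, Prod.snd_sub, sub_self, n2_zero] at h2
    exact (sub_eq_zero.1 (P.n2_eq_zero.1 h2)).symm
  refine ⟨{ toFun := g, map_one' := huniq _ (one_mem R), map_zero' := huniq _ (zero_mem R),
            map_mul' := fun x y => huniq _ (mul_mem (hg x) (hg y)),
            map_add' := fun x y => huniq _ (add_mem (hg x) (hg y)),
            commutes' := fun r => huniq _ (algebraMap_mem R r),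
            map_star' := fun x => huniq _ (star_mem (hg x)) }, fun x => hR _ (hg x), huniq⟩

end Graph

/-- Existence of embeddings from equality of laws, given conditional expectations. -/
theorem exists_embed_of {M P : TVN} {J : Type} (v : J → M) (hv : M.Gen v) (v' : J → P)
    (h : ∀ w, P.tr (ev v' w) = M.tr (ev v w))
    (hc : ∀ A : StarSubalgebra ℂ M, IsClosed (A : Set M) → Nonempty (CondExp M A)) :
    ∃ ι : M →⋆ₐ[ℂ] P, (∀ x, P.tr (ι x) = M.tr x) ∧ ∀ j, ι (v j) = v' j := by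
  set D := wordAlg v v' with hDdef
  have hD : ∀ d ∈ D, P.tr d.2 = M.tr d.1 := fun d hd => tr_eq_of_mem_wordAlg v v' h hd
  set A0 : StarSubalgebra ℂ M := D.map (StarAlgHom.fst ℂ M P) with hA0
  obtain ⟨E⟩ := hc A0.topologicalClosure (StarSubalgebra.isClosed_topologicalClosure A0)
  have hw : ∀ w, ev v w ∈ A0.topologicalClosure := by
    intro w
    refine A0.le_topologicalClosure ?_
    exact ⟨_, mem_wordAlg_word v v' w, rfl⟩
  have hE : ∀ x, E.E x = x := by
    intro x
    have : x - E.E x = 0 := by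
      apply hv
      intro w
      rw [mul_sub, map_sub, M.tr_comm _ (E.E x), E.tr_mul, E.of_mem _ (star_mem (hw w)),
        M.tr_comm x, sub_self]
    exact (sub_eq_zero.1 this).symm
  obtain ⟨ι, h1, h2⟩ := exists_of_graph (closAlg D) (tr_eq_closAlg D hD) (fun x => by
    refine exists_closAlg D hD x (C := ‖x‖ + 1) fun ε hε => ?_
    obtain ⟨a, ha, ha1, ha2⟩ := E.approx x (ε / 2) (by positivity)
    rw [hE] at ha2
    have ha' : a ∈ closure (A0 : Set M) := by
      rw [← StarSubalgebra.topologicalClosure_coe]; exact ha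
    obtain ⟨p, hp, hp1⟩ := Metric.mem_closure_iff.1 ha' (min 1 (ε / 2)) (by positivity)
    obtain ⟨d, hd, rfl⟩ := hp
    rw [dist_eq_norm] at hp1
    have hp2 : ‖a - d.1‖ < 1 := hp1.trans_le (min_le_left _ _)
    have hp3 : ‖a - d.1‖ < ε / 2 := hp1.trans_le (min_le_right _ _)
    refine ⟨d, hd, ?_, ?_⟩
    · have := norm_sub_norm_le d.1 a
      rw [norm_sub_rev] at this
      linarith
    · have k1 := M.n2_tri d.1 a x
      have k2 := M.n2_le_norm (d.1 - a)
      rw [norm_sub_rev] at k2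
      rw [M.n2_sub_comm a x] at k1
      linarith)
  exact ⟨ι, h1, fun j => h2 _ (le_closAlg D (mem_wordAlg_gen v v' j))⟩

end TVN

end Pool.Agent.Lib.EcII
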