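import Pool.Agent.Lib.EcII.Funs
import Pool.Agent.Lib.EcII.GroupLaw
import Pool.Agent.Lib.EcII.Embed
import Pool.Agent.Lib.EcII.Cond

/-!
# The code algebra

For a family of unitaries of `M` indexed by a group there is a tracial von Neumann algebra
containing `M`, a copy of the regular representation of the group, and two unitaries `z`, `w'`
such that the commutator with `w'` of `y v z v^*` computes the distances of `y` to the members of
the family.  It is built from a wreath product with its product trace.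
-/

open scoped ComplexOrder

noncomputable section

namespace Pool.Agent.Lib.EcII

namespace CodeAlg

/-- the permutation action on functions -/
def permAct (I Q : Type) [Group Q] : Equiv.Perm I →* MulAut (I → Q) where
  toFun σ :=
    { toFun := fun q i => q (σ.symm i)
      invFun := fun q i => q (σ i)
      left_inv := fun q => by funext i; simp
      right_inv := fun q => by funext i; simp
      map_mul' := fun _ _ => rfl }
  map_one' := by ext q i; rfl
  map_mul' σ τ := by ext q i; rfl

/-- the unrestricted permutation wreath product -/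
abbrev Wr (I Q : Type) [Group Q] : Type := (I → Q) ⋊[permAct I Q] Equiv.Perm I

section

variable {I Q : Type} [Group Q]

theorem permAct_apply (σ : Equiv.Perm I) (q : I → Q) (i : I) :
    permAct I Q σ q i = q (σ.symm i) := rfl

open Classical in
/-- the kernel of the product character -/
def ker (φ : Q → ℂ) (a b : Wr I Q) : ℂ :=
  if a.right = b.right ∧ {i | a.left i ≠ b.left i}.Finite then
    ∏ᶠ i, φ ((a.left i)⁻¹ * b.left i) else 0

theorem ker_of_subset {φ : Q → ℂ} (h1 : φ 1 = 1) {a b : Wr I Q} (h : a.right = b.right)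
    (F : Finset I) (hF : ∀ i, a.left i ≠ b.left i → i ∈ F) :
    ker φ a b = ∏ i ∈ F, φ ((a.left i)⁻¹ * b.left i) := by
  have hfin : {i | a.left i ≠ b.left i}.Finite := F.finite_toSet.subset fun i hi => hF i hi
  rw [ker, if_pos ⟨h, hfin⟩]
  apply finprod_eq_prod_of_mulSupport_subset
  intro i hi
  refine hF i fun e => hi ?_
  simp [e, h1]

theorem ker_of_ne {φ : Q → ℂ} {a b : Wr I Q} (h : a.right ≠ b.right) : ker φ a b = 0 := by
  rw [ker, if_neg fun hh => h hh.1]

theorem ker_self {φ : Q → ℂ} (h1 : φ 1 = 1) (a : Wr I Q) : ker φ a a = 1 := by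
  rw [ker_of_subset h1 rfl ∅ (by simp)]
  simp

theorem ker_mul_left (φ : Q → ℂ) (c a b : Wr I Q) : ker φ (c * a) (c * b) = ker φ a b := by
  unfold ker
  have e1 : (c * a).right = (c * b).right ↔ a.right = b.right := by
    simp [SemidirectProduct.mul_right]
  have e2 : ∀ i, ((c * a).left i)⁻¹ * (c * b).left i =
      (a.left (c.right.symm i))⁻¹ * b.left (c.right.symm i) := by
    intro i
    simp only [SemidirectProduct.mul_left, Pi.mul_apply, permAct_apply]
    group
  have e3 : {i | (c * a).left i ≠ (c * b).left i} = c.right '' {i | a.left i ≠ b.left i} := by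
    ext i
    simp only [SemidirectProduct.mul_left, Pi.mul_apply, permAct_apply, ne_eq, mul_right_inj,
      Set.mem_ofPred_eq, Set.mem_image]
    constructor
    · intro h
      exact ⟨_, h, by simp⟩
    · rintro ⟨j, h, rfl⟩
      simpa using h
  have e4 : {i | (c * a).left i ≠ (c * b).left i}.Finite ↔ {i | a.left i ≠ b.left i}.Finite := by
    rw [e3]
    exact Set.finite_image_iff c.right.injective.injOn
  rw [e1, e4]
  congr 1
  simp_rw [e2]
  exact finprod_comp_equiv c.right.symm (f := fun i => φ ((a.left i)⁻¹ * b.left i))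

/-- the product character -/
def Phi (φ : Q → ℂ) (g : Wr I Q) : ℂ := ker φ 1 g

theorem Phi_inv_mul (φ : Q → ℂ) (a b : Wr I Q) : Phi φ (a⁻¹ * b) = ker φ a b := by
  rw [Phi, ← ker_mul_left φ a 1 (a⁻¹ * b)]
  simp

theorem Phi_one {φ : Q → ℂ} (h1 : φ 1 = 1) : Phi φ (1 : Wr I Q) = 1 := ker_self h1 1

theorem Phi_comm (φ : Q → ℂ) (hc : ∀ a b, φ (a * b) = φ (b * a)) (a b : Wr I Q) :
    Phi φ (a * b) = Phi φ (b * a) := by
  have ha : a * b = (a⁻¹)⁻¹ * b := by simp
  have hb : b * a = (b⁻¹)⁻¹ * a := by simp
  rw [ha, hb, Phi_inv_mul, Phi_inv_mul]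
  unfold ker
  by_cases h : a⁻¹.right = b.right
  swap
  · have h' : ¬ b⁻¹.right = a.right := by
      intro h'
      apply h
      rw [SemidirectProduct.inv_right] at h' ⊢
      rw [← h', inv_inv]
    rw [if_neg fun x => h x.1, if_neg fun x => h' x.1]
  have h' : b⁻¹.right = a.right := by
    rw [SemidirectProduct.inv_right] at h ⊢
    rw [← h, inv_inv]
  have hab : ∀ i, b.right (a.right i) = i := by
    intro i
    rw [← h, SemidirectProduct.inv_right]
    simp
  have hba : ∀ i, a.right (b.right i) = i := by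
    intro i
    rw [← h, SemidirectProduct.inv_right]
    simp
  have l1 : ∀ i, (a⁻¹).left i = (a.left (a.right i))⁻¹ := by
    intro i
    rw [SemidirectProduct.inv_left, permAct_apply]
    rfl
  have l2 : ∀ i, (b⁻¹).left i = (b.left (b.right i))⁻¹ := by
    intro i
    rw [SemidirectProduct.inv_left, permAct_apply]
    rfl
  have hfin : {i | (a⁻¹).left i ≠ b.left i}.Finite ↔ {i | (b⁻¹).left i ≠ a.left i}.Finite := by
    have : {i | (b⁻¹).left i ≠ a.left i} = a.right '' {i | (a⁻¹).left i ≠ b.left i} := by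
      ext i
      simp only [l1, l2, Set.mem_ofPred_eq, Set.mem_image]
      constructor
      · intro hi
        refine ⟨b.right i, ?_, hba i⟩
        rw [hba]
        intro e
        apply hi
        rw [← e, inv_inv]
      · rintro ⟨j, hj, rfl⟩
        rw [hab]
        intro e
        apply hj
        rw [← e, inv_inv]
    rw [this]
    exact (Set.finite_image_iff a.right.injective.injOn).symm
  rw [hfin]
  rw [eq_true h, eq_true h']
  congr 1
  rw [← finprod_comp_equiv a.right (f := fun i => φ (((b⁻¹).left i)⁻¹ * a.left i))]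
  refine finprod_congr fun i => ?_
  rw [l1, l2, hab, inv_inv, inv_inv, hc]

/-- finite products of positive kernels -/
theorem posSemidef_prod {X I : Type} (F : Finset I) (K : I → Matrix X X ℂ)
    (hK : ∀ i, (K i).PosSemidef) :
    (Matrix.of fun a b => ∏ i ∈ F, K i a b).PosSemidef := by
  classical
  induction F using Finset.induction_on with
  | empty =>
    have h1 : (1 : Matrix Unit Unit ℂ).PosSemidef := Matrix.PosSemidef.one
    have h2 := h1.submatrix (fun _ : X => ())
    have e : (Matrix.of fun a b : X => ∏ i ∈ (∅ : Finset I), K i a b) =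
        (1 : Matrix Unit Unit ℂ).submatrix (fun _ : X => ()) (fun _ : X => ()) := by
      ext a b
      simp
    rw [e]
    exact h2
  | insert i F hi ih =>
    have e : (Matrix.of fun a b : X => ∏ i ∈ insert i F, K i a b) =
        (K i).hadamard (Matrix.of fun a b : X => ∏ i ∈ F, K i a b) := by
      ext a b
      simp [Finset.prod_insert hi]
    rw [e]
    exact (hK i).hadamard ih

theorem posSemidef_eq {X Z : Type} (f : X → Z) [DecidableEq Z] :
    (Matrix.of fun a b => if f a = f b then (1 : ℂ) else 0).PosSemidef := by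
  have h2 := (Matrix.PosSemidef.one : (1 : Matrix Z Z ℂ).PosSemidef).submatrix f
  have e : (Matrix.of fun a b => if f a = f b then (1 : ℂ) else 0) =
      (1 : Matrix Z Z ℂ).submatrix f f := by
    ext a b
    simp [Matrix.one_apply]
  rw [e]
  exact h2

/-- two elements in the same class -/
def rel (I Q : Type) [Group Q] : Setoid (Wr I Q) where
  r a b := a.right = b.right ∧ {i | a.left i ≠ b.left i}.Finite
  iseqv := by
    refine ⟨fun a => ⟨rfl, by simp⟩, fun {a b} h => ⟨h.1.symm, ?_⟩, fun {a b c} h h' =>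
      ⟨h.1.trans h'.1, ?_⟩⟩
    · simpa [eq_comm] using h.2
    · refine (h.2.union h'.2).subset fun i hi => ?_
      by_contra hh
      simp only [Set.mem_union, Set.mem_ofPred_eq, not_or, not_not] at hh
      exact hi (hh.1.trans hh.2)

theorem ker_psd {φ : Q → ℂ} (h1 : φ 1 = 1)
    (hφ : (Matrix.of fun a b : Q => φ (a⁻¹ * b)).PosSemidef)
    (s : Finset (Wr I Q)) (c : Wr I Q → ℂ) :
    0 ≤ ∑ a ∈ s, ∑ b ∈ s, star (c a) * c b * Phi φ (a⁻¹ * b) := by
  classical
  obtain ⟨F, hF⟩ : ∃ F : Finset I, ∀ a ∈ s, ∀ b ∈ s, (rel I Q).r a b → ∀ i,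
      a.left i ≠ b.left i → i ∈ F := by
    have hfin : (⋃ p ∈ (s ×ˢ s).filter (fun p => (rel I Q).r p.1 p.2),
        {i | p.1.left i ≠ p.2.left i}).Finite := by
      refine Set.Finite.biUnion (Finset.finite_toSet _) fun p hp => ?_
      exact (Finset.mem_filter.1 hp).2.2
    refine ⟨hfin.toFinset, fun a ha b hb hab i hi => ?_⟩
    rw [Set.Finite.mem_toFinset]
    refine Set.mem_biUnion (x := (a, b)) ?_ hi
    exact Finset.mem_filter.2 ⟨Finset.mem_product.2 ⟨ha, hb⟩, hab⟩
  have hP : (Matrix.of fun a b : Wr I Q => (if (Quotient.mk (rel I Q) a) = Quotient.mk _ b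
      then (1 : ℂ) else 0) * ∏ i ∈ F, φ ((a.left i)⁻¹ * b.left i)).PosSemidef := by
    have h3 := (posSemidef_eq (Quotient.mk (rel I Q))).hadamard
      (posSemidef_prod F (fun i => (Matrix.of fun a b : Q => φ (a⁻¹ * b)).submatrix
        (fun a : Wr I Q => a.left i) (fun a : Wr I Q => a.left i)) fun i => hφ.submatrix _)
    exact h3
  have h4 := hP.2 (Finsupp.indicator s (fun a _ => c a))
  have hsub : (Finsupp.indicator s (fun a _ => c a)).support ⊆ s :=
    Finsupp.support_indicator_subset ..
  rw [Finsupp.sum_of_support_subset _ hsub _ (by simp)] at h4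
  refine le_of_le_of_eq h4 (Finset.sum_congr rfl fun a ha => ?_)
  rw [Finsupp.sum_of_support_subset _ hsub _ (by simp)]
  refine Finset.sum_congr rfl fun b hb => ?_
  rw [Finsupp.indicator_of_mem ha, Finsupp.indicator_of_mem hb, Matrix.of_apply, Phi_inv_mul]
  have hrel : (Quotient.mk (rel I Q) a = Quotient.mk _ b) ↔ (rel I Q).r a b := Quotient.eq
  by_cases hab : (rel I Q).r a b
  · rw [if_pos (hrel.2 hab), ker_of_subset h1 hab.1 F (hF a ha b hb hab)]
    ring
  · rw [if_neg fun h => hab (hrel.1 h)]
    unfold ker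
    rw [if_neg (show ¬ (a.right = b.right ∧ {i | a.left i ≠ b.left i}.Finite) from hab)]
    ring

end

/-- the character on `unitary M × ℤ` -/
def phiQ (M : TVN) (q : unitary M × Multiplicative ℤ) : ℂ :=
  if q.2 = 1 then M.tr (q.1 : M) else 0

theorem phiQ_one (M : TVN) : phiQ M 1 = 1 := by
  simp [phiQ, M.tr_one]

theorem phiQ_comm (M : TVN) (a b : unitary M × Multiplicative ℤ) :
    phiQ M (a * b) = phiQ M (b * a) := by
  simp only [phiQ, Prod.snd_mul, Prod.fst_mul, mul_comm a.2 b.2, Submonoid.coe_mul]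
  rw [M.tr_comm]

theorem trKernel_psd (M : TVN) :
    (Matrix.of fun u v : unitary M => M.tr (star (u : M) * (v : M))).PosSemidef := by
  refine ⟨?_, fun x => ?_⟩
  · ext u v
    rw [Matrix.conjTranspose_apply, Matrix.of_apply, Matrix.of_apply, ← M.tr_ip_symm]
  · have h := M.tr_nonneg (x.sum fun j c => c • (j : M))
    refine le_of_le_of_eq h ?_
    simp only [Finsupp.sum, star_sum, Finset.sum_mul, Finset.mul_sum, map_sum, star_smul,
      smul_mul_assoc, mul_smul_comm, map_smul, smul_eq_mul, Matrix.of_apply]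
    rw [Finset.sum_comm]
    refine Finset.sum_congr rfl fun a _ => Finset.sum_congr rfl fun b _ => ?_
    ring

theorem phiQ_psd (M : TVN) :
    (Matrix.of fun a b : unitary M × Multiplicative ℤ => phiQ M (a⁻¹ * b)).PosSemidef := by
  have e : (Matrix.of fun a b : unitary M × Multiplicative ℤ => phiQ M (a⁻¹ * b)) =
      (Matrix.of fun a b : unitary M × Multiplicative ℤ =>
        if a.2 = b.2 then (1 : ℂ) else 0).hadamard
      ((Matrix.of fun u v : unitary M => M.tr (star (u : M) * (v : M))).submatrix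
        Prod.fst Prod.fst) := by
    ext a b
    simp only [Matrix.of_apply, Matrix.hadamard_apply, Matrix.submatrix_apply, phiQ,
      Prod.snd_mul, Prod.fst_mul, Prod.snd_inv, Prod.fst_inv, inv_mul_eq_one]
    split_ifs with h
    · rw [one_mul]
      rfl
    · simp
  rw [e]
  exact (posSemidef_eq Prod.snd).hadamard ((trKernel_psd M).submatrix Prod.fst)

/-- norm of a combination of pairwise orthogonal elements -/
theorem n2_sum_sq (C : TVN) {P : Type} [DecidableEq P] (s : Finset P) (c : P → ℂ) (e : P → C)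
    (h : ∀ p ∈ s, ∀ q ∈ s, p ≠ q → C.tr (star (e p) * e q) = 0) :
    C.n2 (∑ p ∈ s, c p • e p) ^ 2 = ∑ p ∈ s, ‖c p‖ ^ 2 * C.n2 (e p) ^ 2 := by
  have h1 : ((C.n2 (∑ p ∈ s, c p • e p) ^ 2 : ℝ) : ℂ) =
      ((∑ p ∈ s, ‖c p‖ ^ 2 * C.n2 (e p) ^ 2 : ℝ) : ℂ) := by
    rw [← C.tr_star_mul_self]
    simp only [star_sum, Finset.sum_mul, Finset.mul_sum, map_sum, star_smul,
      smul_mul_assoc, mul_smul_comm, map_smul, smul_eq_mul, Complex.ofReal_sum]
    rw [Finset.sum_comm]
    refine Finset.sum_congr rfl fun p hp => ?_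
    rw [Finset.sum_eq_single p (fun q hq hqp => by rw [h p hp q hq hqp.symm]; ring)
      (fun hh => absurd hp hh), C.tr_star_mul_self]
    have : ((‖c p‖ ^ 2 : ℝ) : ℂ) = star (c p) * c p := by
      rw [Complex.star_def, ← Complex.normSq_eq_conj_mul_self, Complex.normSq_eq_norm_sq]
    rw [Complex.ofReal_mul, this]
    ring
  exact_mod_cast h1

/-- the index set -/
abbrev Ix (Λ : Type) : Type := Option Λ ⊕ (Λ ⊕ Λ)

/-- the permutation part of `z` -/
def tz {Λ : Type} : Equiv.Perm (Ix Λ) := Equiv.sumCongr (Equiv.refl _) (Equiv.sumComm _ _)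

@[simp] theorem tz_inl {Λ : Type} (k : Option Λ) : tz (Sum.inl k : Ix Λ) = Sum.inl k := rfl
@[simp] theorem tz_l {Λ : Type} (k : Λ) : tz (Sum.inr (Sum.inl k) : Ix Λ) = Sum.inr (Sum.inr k) :=
  rfl
@[simp] theorem tz_r {Λ : Type} (k : Λ) : tz (Sum.inr (Sum.inr k) : Ix Λ) = Sum.inr (Sum.inl k) :=
  rfl

open Classical in
/-- the group elements of the unitaries of `M` -/
def gy {Λ : Type} {M : TVN} : unitary M →* Wr (Ix Λ) (unitary M × Multiplicative ℤ) :=
  SemidirectProduct.inl.comp ((MonoidHom.mulSingle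
    (fun _ : Ix Λ => unitary M × Multiplicative ℤ) (Sum.inl none)).comp (MonoidHom.inl _ _))

theorem gy_left_none {Λ : Type} {M : TVN} (y : unitary M) :
    (gy (Λ := Λ) y).left (Sum.inl none) = (y, 1) := by
  classical
  simp [gy]

theorem gy_left_ne {Λ : Type} {M : TVN} (y : unitary M) {i : Ix Λ} (hi : i ≠ Sum.inl none) :
    (gy (Λ := Λ) y).left i = 1 := by
  classical
  simp [gy, Pi.mulSingle_eq_of_ne hi]

theorem gy_right {Λ : Type} {M : TVN} (y : unitary M) : (gy (Λ := Λ) y).right = 1 := by
  simp [gy]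

section

variable {Λ : Type} [Group Λ]

/-- the translation action -/
def Lp : Λ →* Equiv.Perm (Ix Λ) where
  toFun g := Equiv.sumCongr (Equiv.optionCongr (Equiv.mulLeft g))
    (Equiv.sumCongr (Equiv.mulLeft g) (Equiv.refl _))
  map_one' := by
    ext i
    rcases i with (_ | i) | i | i <;> simp
  map_mul' g g' := by
    ext i
    rcases i with (_ | i) | i | i <;> simp [mul_assoc]

@[simp] theorem Lp_none (g : Λ) : Lp g (Sum.inl none) = Sum.inl none := rfl
@[simp] theorem Lp_some (g k : Λ) : Lp g (Sum.inl (some k)) = Sum.inl (some (g * k)) := rfl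
@[simp] theorem Lp_l (g k : Λ) : Lp g (Sum.inr (Sum.inl k)) = Sum.inr (Sum.inl (g * k)) := rfl
@[simp] theorem Lp_r (g k : Λ) : Lp g (Sum.inr (Sum.inr k)) = Sum.inr (Sum.inr k) := rfl

variable {M : TVN}

/-- the function part of `z` -/
def zq (x : Λ → Option (unitary M)) : Ix Λ → unitary M × Multiplicative ℤ
  | Sum.inl (some k) => match x k⁻¹ with
    | some u => (u, 1)
    | none => (1, Multiplicative.ofAdd 1)
  | _ => 1

/-- the group element of `z` -/
def gz (x : Λ → Option (unitary M)) : Wr (Ix Λ) (unitary M × Multiplicative ℤ) := ⟨zq x, tz⟩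

/-- the group elements of the translations -/
def gl : Λ →* Wr (Ix Λ) (unitary M × Multiplicative ℤ) := SemidirectProduct.inr.comp Lp

open Classical in
/-- the transposition -/
def tw : Equiv.Perm (Ix Λ) := Equiv.swap (Sum.inl none) (Sum.inl (some 1))

/-- the group element of `w'` -/
def gw : Wr (Ix Λ) (unitary M × Multiplicative ℤ) := SemidirectProduct.inr tw

/-- the basic group elements -/
def gT (x : Λ → Option (unitary M)) (y : unitary M) (p : Λ × Λ) :
    Wr (Ix Λ) (unitary M × Multiplicative ℤ) := gy y * gl p.1 * gz x * (gl p.2)⁻¹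

theorem gT_right (x : Λ → Option (unitary M)) (y : unitary M) (p : Λ × Λ) :
    (gT x y p).right = Lp p.1 * tz * (Lp p.2)⁻¹ := by
  simp [gT, gl, gz, gy_right]

theorem gT_left (x : Λ → Option (unitary M)) (y : unitary M) (p : Λ × Λ) (i : Ix Λ) :
    (gT x y p).left i = (gy y).left i * zq x ((Lp p.1).symm i) := by
  simp [gT, gl, gz, gy_right, permAct_apply]

@[simp] theorem sLp_none (g : Λ) : (Lp g).symm (Sum.inl none) = Sum.inl none := rfl
@[simp] theorem sLp_some (g k : Λ) : (Lp g).symm (Sum.inl (some k)) = Sum.inl (some (g⁻¹ * k)) :=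
  rfl
@[simp] theorem sLp_l (g k : Λ) : (Lp g).symm (Sum.inr (Sum.inl k)) = Sum.inr (Sum.inl (g⁻¹ * k)) :=
  rfl
@[simp] theorem sLp_r (g k : Λ) : (Lp g).symm (Sum.inr (Sum.inr k)) = Sum.inr (Sum.inr k) := rfl

theorem tw_inr (j : Λ ⊕ Λ) : tw (Sum.inr j : Ix Λ) = Sum.inr j := by
  classical
  exact Equiv.swap_apply_of_ne_of_ne (by simp) (by simp)

theorem tw_none : tw (Sum.inl none : Ix Λ) = Sum.inl (some 1) := by
  classical
  exact Equiv.swap_apply_left _ _

theorem tw_some : tw (Sum.inl (some 1) : Ix Λ) = Sum.inl none := by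
  classical
  exact Equiv.swap_apply_right _ _

/-- the four products -/
def gAB (x : Λ → Option (unitary M)) (y : unitary M) (b : Bool) (p : Λ × Λ) :
    Wr (Ix Λ) (unitary M × Multiplicative ℤ) := if b then gw * gT x y p else gT x y p * gw

theorem gAB_r (x : Λ → Option (unitary M)) (y : unitary M) (b : Bool) (p : Λ × Λ) :
    (gAB x y b p).right (Sum.inr (Sum.inr 1)) = Sum.inr (Sum.inl p.1) := by
  rcases b with _ | _ <;>
    simp [gAB, gw, gT_right, tw_inr]

theorem gAB_l (x : Λ → Option (unitary M)) (y : unitary M) (b : Bool) (p : Λ × Λ) :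
    (gAB x y b p).right (Sum.inr (Sum.inl 1)) = Sum.inr (Sum.inr p.2⁻¹) := by
  rcases b with _ | _ <;>
    simp [gAB, gw, gT_right, tw_inr]

theorem ker_gAB_ne (φ : unitary M × Multiplicative ℤ → ℂ) (x : Λ → Option (unitary M))
    (y : unitary M) (b b' : Bool) {p q : Λ × Λ} (h : p ≠ q) :
    ker φ (gAB x y b p) (gAB x y b' q) = 0 := by
  apply ker_of_ne
  intro e
  have h1 := gAB_r x y b p
  have h2 := gAB_l x y b p
  rw [e, gAB_r] at h1
  rw [e, gAB_l] at h2
  apply h
  have h3 : q.1 = p.1 := by simpa using h1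
  have h4 : q.2 = p.2 := by simpa using h2
  exact Prod.ext h3.symm h4.symm

theorem ker_gAB_off (φ : unitary M × Multiplicative ℤ → ℂ) (x : Λ → Option (unitary M))
    (y : unitary M) {p : Λ × Λ} (h : p.1 ≠ p.2) :
    ker φ (gAB x y true p) (gAB x y false p) = 0 := by
  apply ker_of_ne
  intro e
  have h1 : (gAB x y true p).right (Sum.inl none) = Sum.inl (some 1) := by
    simp [gAB, gw, gT_right, tw_none]
  have h2 : (gAB x y false p).right (Sum.inl none) = Sum.inl (some (p.1 * p.2⁻¹)) := by
    simp [gAB, gw, gT_right, tw_none]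
  rw [e, h2] at h1
  apply h
  have h3 : p.1 * p.2⁻¹ = 1 := by simpa using h1
  exact mul_inv_eq_one.1 h3

theorem ker_gAB_diag (x : Λ → Option (unitary M)) (y : unitary M) (g : Λ) :
    ker (phiQ M) (gAB x y true (g, g)) (gAB x y false (g, g)) =
      ((match x g with
        | none => 0
        | some u => ‖M.tr (star (y : M) * (u : M))‖ ^ 2 : ℝ) : ℂ) := by
  classical
  have hP : ∀ k : Option Λ, (gT x y (g, g)).right (Sum.inl k) = Sum.inl k := by
    intro k
    rcases k with _ | k <;> simp [gT_right]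
  have hr : (gAB x y true (g, g)).right = (gAB x y false (g, g)).right := by
    simp only [gAB, if_true, SemidirectProduct.mul_right, gw, SemidirectProduct.right_inr,
      Bool.false_eq_true, if_false]
    unfold tw
    rw [Equiv.mul_swap_eq_swap_mul, hP, hP]
  have hL : ∀ i, (gAB x y true (g, g)).left i = (gT x y (g, g)).left (tw.symm i) := by
    intro i
    simp [gAB, gw, permAct_apply]
  have hR : ∀ i, (gAB x y false (g, g)).left i = (gT x y (g, g)).left i := by
    intro i
    simp [gAB, gw]
  have htw : tw.symm = (tw : Equiv.Perm (Ix Λ)) := Equiv.symm_swap _ _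
  rw [ker_of_subset (phiQ_one M) hr {Sum.inl none, Sum.inl (some 1)} (by
    intro i hi
    by_contra hh
    simp only [Finset.mem_insert, Finset.mem_singleton, not_or] at hh
    apply hi
    rw [hL, hR, htw]
    unfold tw
    rw [Equiv.swap_apply_of_ne_of_ne hh.1 hh.2])]
  rw [Finset.prod_pair (by simp), hL, hL, hR, hR, htw, tw_none, tw_some]
  have l1 : (gT x y (g, g)).left (Sum.inl none) = (y, 1) := by
    rw [gT_left, gy_left_none]
    have : (Lp g).symm (Sum.inl none) = (Sum.inl none : Ix Λ) := by
      rw [Equiv.symm_apply_eq]; simp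
    simp [this, zq]
  have l2 : (gT x y (g, g)).left (Sum.inl (some 1)) = match x g with
      | some u => (u, 1)
      | none => (1, Multiplicative.ofAdd 1) := by
    rw [gT_left, gy_left_ne _ (by simp), one_mul]
    have : (Lp g).symm (Sum.inl (some 1)) = (Sum.inl (some g⁻¹) : Ix Λ) := by
      rw [Equiv.symm_apply_eq]; simp
    simp only [this, zq, inv_inv]
  rw [l1, l2]
  rcases x g with _ | u
  · simp [phiQ]
  · simp only [phiQ, Prod.snd_mul, Prod.fst_mul, Prod.snd_inv, Prod.fst_inv, inv_one, mul_one,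
      if_true, Submonoid.coe_mul]
    have e1 : ((u⁻¹ : unitary M) : M) = star (u : M) := rfl
    have e2 : ((y⁻¹ : unitary M) : M) = star (y : M) := rfl
    rw [e1, e2, M.tr_ip_symm (u : M) (y : M), Complex.star_def,
      ← Complex.normSq_eq_conj_mul_self, Complex.normSq_eq_norm_sq]

end

end CodeAlg

open CodeAlg in
open Classical in
theorem exists_code (M : TVN) (Λ : Type) [Group Λ] (x : Λ → Option (unitary M)) :
    ∃ (C : TVN) (ι : M →⋆ₐ[ℂ] C) (l : Λ → C) (z w' : C), (∀ y, C.tr (ι y) = M.tr y) ∧
      (∀ g, l g ∈ unitary C) ∧ (∀ g g', l (g * g') = l g * l g') ∧ l 1 = 1 ∧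
      (∀ g, g ≠ 1 → C.tr (l g) = 0) ∧ z ∈ unitary C ∧ w' ∈ unitary C ∧
      ∀ (y : unitary M) (s : Finset Λ) (a : Λ → ℂ),
        C.cm w' (ι y * ((∑ g ∈ s, a g • l g) * z * star (∑ g ∈ s, a g • l g))) ^ 2 =
          2 * ((∑ g ∈ s, ‖a g‖ ^ 2) ^ 2 - ∑ g ∈ s, ‖a g‖ ^ 4 *
            (match x g with
              | none => 0
              | some u => ‖M.tr (star (y : M) * (u : M))‖ ^ 2)) := by
  obtain ⟨C, π, -, hunit, hmul, hone, hinv, htr⟩ := exists_group_tvn
    (G := Wr (Ix Λ) (unitary M × Multiplicative ℤ)) (Phi (phiQ M)) (Phi_one (phiQ_one M))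
    (Phi_comm _ (phiQ_comm M)) (ker_psd (phiQ_one M) (phiQ_psd M))
  have htr2 : ∀ a b, C.tr (star (π a) * π b) = ker (phiQ M) a b := by
    intro a b
    rw [← hinv, ← hmul, htr, Phi_inv_mul]
  -- the embedding
  have hgen : M.Gen (fun u : unitary M => (u : M)) := by
    intro y hy
    have h1 : ∀ t ∈ Submodule.span ℂ (unitary M : Set M), M.tr (star t * y) = 0 := by
      intro t ht
      induction ht using Submodule.span_induction with
      | mem t ht =>
        have := hy [(⟨t, ht⟩, false)]
        simpa [TVN.ev] using this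
      | zero => simp
      | add t t' _ _ h h' => rw [star_add, add_mul, map_add, h, h', add_zero]
      | smul c t _ h => rw [star_smul, smul_mul_assoc, map_smul, h, smul_zero]
    apply M.tr_faithful
    exact h1 y (by rw [CStarAlgebra.span_unitary]; trivial)
  obtain ⟨ι, hι, hιy⟩ := TVN.exists_embed_of (fun u : unitary M => (u : M)) hgen
    (fun u => π (gy u)) (by
      intro w
      have e1 : ∀ w : List (unitary M × Bool), TVN.ev (fun u : unitary M => π (gy (Λ := Λ) u)) w =
          π (gy (gev id w)) := by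
        intro w
        induction w with
        | nil => simp [hone]
        | cons a w ih =>
          rcases a with ⟨u, b⟩
          rw [TVN.ev_cons, ih, gev_cons, map_mul, hmul]
          rcases b with _ | _
          · simp [TVN.letter]
          · simp [TVN.letter, ← hinv]
      have e2 : ∀ w : List (unitary M × Bool), TVN.ev (fun u : unitary M => (u : M)) w =
          ((gev id w : unitary M) : M) := by
        intro w
        induction w with
        | nil => simp
        | cons a w ih =>
          rcases a with ⟨u, b⟩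
          rw [TVN.ev_cons, ih, gev_cons]
          rcases b with _ | _
          · simp [TVN.letter]
          · have e3 : ((u⁻¹ : unitary M) : M) = star (u : M) := rfl
            simp [TVN.letter, e3]
      rw [e1, e2, htr]
      unfold Phi
      rw [ker_of_subset (phiQ_one M) (by simp [gy_right]) {Sum.inl none} (by
        intro i hi
        by_contra hh
        rw [Finset.mem_singleton] at hh
        exact hi (by rw [gy_left_ne _ hh]; simp))]
      rw [Finset.prod_singleton, gy_left_none]
      simp [phiQ]) (fun A hA => exists_condExp M A hA)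
  refine ⟨C, ι, fun g => π (gl g), π (gz x), π gw, hι, fun g => hunit _,
    fun g g' => by simp only [map_mul, hmul], by simp only [map_one, hone], fun g hg => ?_,
    hunit _, hunit _, ?_⟩
  · rw [htr]
    unfold Phi
    apply ker_of_ne
    intro e
    have e' : (1 : Equiv.Perm (Ix Λ)) = Lp g := by simpa [gl] using e
    have := congrArg (fun σ : Equiv.Perm (Ix Λ) => σ (Sum.inl (some 1))) e'
    simp at this
    exact hg this.symm
  · intro y s a
    have key : (π gw : C) * (ι y * ((∑ g ∈ s, a g • π (gl g)) * π (gz x) *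
        star (∑ g ∈ s, a g • π (gl g)))) - (ι y * ((∑ g ∈ s, a g • π (gl g)) * π (gz x) *
        star (∑ g ∈ s, a g • π (gl g)))) * π gw =
        ∑ p ∈ s ×ˢ s, (a p.1 * star (a p.2)) • (π (gAB x y true p) - π (gAB x y false p)) := by
      have hT : ι y * ((∑ g ∈ s, a g • π (gl g)) * π (gz x) *
          star (∑ g ∈ s, a g • π (gl g))) =
          ∑ p ∈ s ×ˢ s, (a p.1 * star (a p.2)) • π (gT x y p) := by
        rw [hιy, Finset.sum_product, star_sum, Finset.sum_mul, Finset.sum_mul, Finset.mul_sum]
        refine Finset.sum_congr rfl fun g _ => ?_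
        rw [Finset.mul_sum, Finset.mul_sum]
        refine Finset.sum_congr rfl fun g' _ => ?_
        rw [star_smul, ← hinv, gT, hmul, hmul, hmul]
        simp only [smul_mul_assoc, mul_smul_comm, mul_assoc, smul_smul]
        rw [mul_comm (a g)]
      rw [hT, Finset.mul_sum, Finset.sum_mul, ← Finset.sum_sub_distrib]
      refine Finset.sum_congr rfl fun p _ => ?_
      simp only [gAB, if_true, Bool.false_eq_true, if_false, hmul]
      rw [smul_sub, mul_smul_comm, smul_mul_assoc]
    rw [TVN.cm, key, n2_sum_sq C]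
    swap
    · intro p _ q _ hpq
      simp only [star_sub, sub_mul, mul_sub, map_sub, htr2]
      rw [ker_gAB_ne _ _ _ _ _ hpq, ker_gAB_ne _ _ _ _ _ hpq, ker_gAB_ne _ _ _ _ _ hpq,
        ker_gAB_ne _ _ _ _ _ hpq]
      simp
    set q : Λ → ℝ := fun g => (match x g with
        | none => 0
        | some u => ‖M.tr (star (y : M) * (u : M))‖ ^ 2 : ℝ) with hq
    have hn : ∀ p : Λ × Λ, C.n2 (π (gAB x y true p) - π (gAB x y false p)) ^ 2 =
        2 - if p.1 = p.2 then 2 * q p.1 else 0 := by
      intro p
      rw [C.n2_sub_sq, htr2, C.n2_of_unitary (hunit _), C.n2_of_unitary (hunit _)]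
      split_ifs with h
      · obtain ⟨g, g'⟩ := p
        simp only at h
        subst h
        rw [ker_gAB_diag, Complex.ofReal_re]
        simp only [hq]
        ring
      · rw [ker_gAB_off _ _ _ h]
        norm_num
    simp_rw [hn]
    have hc : ∀ p : Λ × Λ, ‖a p.1 * star (a p.2)‖ ^ 2 = ‖a p.1‖ ^ 2 * ‖a p.2‖ ^ 2 := by
      intro p
      rw [norm_mul, norm_star, mul_pow]
    simp_rw [hc, mul_sub, Finset.sum_sub_distrib]
    rw [Finset.sum_product, Finset.sum_product]
    congr 1
    · rw [sq (∑ g ∈ s, ‖a g‖ ^ 2), Finset.sum_mul_sum, Finset.mul_sum]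
      refine Finset.sum_congr rfl fun g _ => ?_
      rw [Finset.mul_sum]
      refine Finset.sum_congr rfl fun g' _ => ?_
      ring
    · rw [Finset.mul_sum]
      refine Finset.sum_congr rfl fun g hg => ?_
      rw [Finset.sum_eq_single g (fun g' _ hne => by simp [Ne.symm hne]) (fun hh => absurd hg hh)]
      simp only [if_true, hq]
      ring

end Pool.Agent.Lib.EcII
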