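import Pool.Agent.Lib.EcII.Basic

/-!
# Conditional expectations
-/

noncomputable section

namespace Pool.Agent.Lib.EcII

/-- A trace preserving conditional expectation onto the trace norm closure of `A`, including
Kaplansky density (`approx`) and complete positivity in sum of squares form (`sos`). -/
structure CondExp (M : TVN) (A : StarSubalgebra ℂ M) where
  /-- the conditional expectation -/
  E : M →ₗ[ℂ] M
  approx : ∀ x, ∀ ε > 0, ∃ a ∈ A, ‖a‖ ≤ ‖x‖ ∧ M.n2 (E x - a) < ε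
  norm_le : ∀ x, ‖E x‖ ≤ ‖x‖
  of_mem : ∀ a ∈ A, E a = a
  idem : ∀ x, E (E x) = E x
  map_star : ∀ x, E (star x) = star (E x)
  mul_left : ∀ x y, E (E x * y) = E x * E y
  mul_right : ∀ x y, E (x * E y) = E x * E y
  tr_mul : ∀ x y, M.tr (E x * y) = M.tr (x * E y)
  tr_E : ∀ x, M.tr (E x) = M.tr x
  n2_le : ∀ x, M.n2 (E x) ≤ M.n2 x
  sos : ∀ (n : ℕ) (a : Fin n → M), ∃ S : Fin n → Fin n → M, ∀ i j,
    E (star (a i) * a j) = ∑ k, star (S k i) * S k j

end Pool.Agent.Lib.EcII
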