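import Pool.Agent.Lib.EcII.DC
import Pool.Agent.Lib.EcII.GroupLaw

/-!
# Orthonormal unitary representations of the discrete group
-/

open scoped ComplexOrder

noncomputable section

namespace Pool.Agent.Lib.EcII

/-- A unitary representation with orthonormal values. -/
structure Copy (M : TVN) {Λ : Type} [Group Λ] (l : Λ → M) : Prop where
  unit : ∀ g, l g ∈ unitary M
  mul : ∀ g g', l (g * g') = l g * l g'
  one : l 1 = 1
  orth : ∀ g, g ≠ 1 → M.tr (l g) = 0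

namespace Copy

variable {M : TVN} {Λ : Type} [Group Λ] {l : Λ → M} (hl : Copy M l)

include hl

theorem star_eq (g : Λ) : star (l g) = l g⁻¹ := by
  have h1 : l g⁻¹ * l g = 1 := by rw [← hl.mul, inv_mul_cancel, hl.one]
  have h2 : l g * star (l g) = 1 := Unitary.mul_star_self_of_mem (hl.unit g)
  calc star (l g) = (l g⁻¹ * l g) * star (l g) := by rw [h1, one_mul]
    _ = l g⁻¹ := by rw [mul_assoc, h2, mul_one]

open Classical in
theorem tr_mul (g g' : Λ) : M.tr (star (l g) * l g') = if g = g' then 1 else 0 := by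
  rw [hl.star_eq, ← hl.mul]
  split_ifs with h
  · rw [h, inv_mul_cancel, hl.one, M.tr_one]
  · refine hl.orth _ fun h2 => h ?_
    exact (inv_mul_eq_one.1 h2)

theorem norm_le (g : Λ) : ‖l g‖ ≤ 1 := M.norm_le_one_of_unitary (hl.unit g)

open Classical in
theorem tr_sum_mul (s : Finset Λ) (a : Λ → ℂ) {g : Λ} (hg : g ∈ s) :
    M.tr (star (l g) * ∑ g ∈ s, a g • l g) = a g := by
  rw [Finset.mul_sum, map_sum]
  rw [Finset.sum_eq_single g]
  · rw [mul_smul_comm, map_smul, hl.tr_mul, if_pos rfl, smul_eq_mul, mul_one]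
  · intro g' _ hg'
    rw [mul_smul_comm, map_smul, hl.tr_mul, if_neg (Ne.symm hg'), smul_zero]
  · intro h; exact absurd hg h

theorem n2_sum_sq (s : Finset Λ) (a : Λ → ℂ) :
    M.n2 (∑ g ∈ s, a g • l g) ^ 2 = ∑ g ∈ s, ‖a g‖ ^ 2 := by
  have h1 : M.tr (star (∑ g ∈ s, a g • l g) * ∑ g ∈ s, a g • l g) =
      ((∑ g ∈ s, ‖a g‖ ^ 2 : ℝ) : ℂ) := by
    conv_lhs => rw [star_sum, Finset.sum_mul, map_sum]
    rw [Complex.ofReal_sum]
    refine Finset.sum_congr rfl fun g hg => ?_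
    rw [star_smul, smul_mul_assoc, map_smul, hl.tr_sum_mul s a hg, smul_eq_mul,
      Complex.star_def, ← Complex.normSq_eq_conj_mul_self, Complex.normSq_eq_norm_sq]
  rw [TVN.tr_star_mul_self] at h1
  exact_mod_cast h1

/-- distance of a finite sum to a multiple of a group element -/
theorem n2_sub_smul_sq (s : Finset Λ) (a : Λ → ℂ) {g : Λ} (hg : g ∈ s) (t : ℂ) (ht : ‖t‖ = 1) :
    M.n2 ((∑ g ∈ s, a g • l g) - t • l g) ^ 2 = ∑ g ∈ s, ‖a g‖ ^ 2 - 2 * (star (a g) * t).re + 1 := by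
  rw [M.n2_sub_sq, hl.n2_sum_sq, M.n2_smul, ht, one_mul, M.n2_of_unitary (hl.unit g)]
  have h1 : M.tr (star (∑ g ∈ s, a g • l g) * (t • l g)) = star (a g) * t := by
    rw [M.tr_ip_symm, star_smul, smul_mul_assoc, map_smul, hl.tr_sum_mul s a hg, smul_eq_mul,
      star_mul, star_star, mul_comm]
  rw [h1]; ring

theorem ev_eq (u : Fin 3 → Λ) (w : List (Fin 3 × Bool)) :
    TVN.ev (fun i => l (u i)) w = l (gev u w) := by
  induction w with
  | nil => simp [hl.one]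
  | cons x w ih =>
    rw [TVN.ev_cons, ih, gev_cons, hl.mul]
    congr 1
    rcases x with ⟨j, e⟩
    cases e
    · simp
    · simp [hl.star_eq]

open Classical in
theorem exists_sum (u : Fin 3 → Λ) (Q : List (Fin 3 × Bool) →₀ ℂ) :
    ∃ (s : Finset Λ) (a : Λ → ℂ), TVN.evp (fun i => l (u i)) Q = ∑ g ∈ s, a g • l g := by
  refine ⟨Q.support.image (gev u), fun g => ∑ w ∈ Q.support with gev u w = g, Q w, ?_⟩
  unfold TVN.evp
  rw [Finsupp.sum]
  rw [← Finset.sum_fiberwise_of_maps_to (s := Q.support) (t := Q.support.image (gev u))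
    (g := gev u) (fun a ha => Finset.mem_image_of_mem _ ha)]
  refine Finset.sum_congr rfl fun g _ => ?_
  rw [Finset.sum_smul]
  refine Finset.sum_congr rfl fun w hw => ?_
  rw [hl.ev_eq, (Finset.mem_filter.1 hw).2]

/-- elements with small gap are near finite sums -/
theorem approx (hM : M.EC') (u : Fin 3 → Λ) {x : M} (hx : ‖x‖ ≤ 1) {ε : ℝ} (hε : 0 < ε) :
    ∃ (s : Finset Λ) (a : Λ → ℂ), ‖∑ g ∈ s, a g • l g‖ ≤ 1 ∧
      M.n2 (x - ∑ g ∈ s, a g • l g) ≤ 3 / 2 * M.gap x (fun i => l (u i)) + ε := by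
  obtain ⟨Q, hQ1, hQ2⟩ := TVN.condE_approx (fun i => l (u i)) hx hε
  obtain ⟨s, a, hs⟩ := hl.exists_sum u Q
  refine ⟨s, a, hs ▸ hQ1, ?_⟩
  rw [← hs]
  have h1 := hM.n2_sub_condE_le x (fun i => l (u i))
  have h2 := M.n2_tri x ((TVN.condE (fun i => l (u i))).E x) (TVN.evp (fun i => l (u i)) Q)
  linarith

/-- Finite sums on which the discrete structure function is small are near multiples of group
elements. -/
theorem dist_sum {w c : M} (hw : ‖w‖ ≤ 1) (hc : ‖c‖ ≤ 1)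
    (hf : ∀ (s : Finset Λ) (a : Λ → ℂ), M.cm c ((∑ g ∈ s, a g • l g) * w *
      star (∑ g ∈ s, a g • l g)) ^ 2 = 2 * ((∑ g ∈ s, ‖a g‖ ^ 2) ^ 2 - ∑ g ∈ s, ‖a g‖ ^ 4))
    (u : Fin 3 → M) (s : Finset Λ) (a : Λ → ℂ) (h1 : ‖∑ g ∈ s, a g • l g‖ ≤ 1) :
    ∃ (t : ℂ) (g : Λ), ‖t‖ = 1 ∧ M.n2 ((∑ g ∈ s, a g • l g) - t • l g) ≤
      4 * M.GD (∑ g ∈ s, a g • l g) u w c := by
  set x := ∑ g ∈ s, a g • l g with hx
  set γ := M.GD x u w c with hγ
  have hγ0 : 0 ≤ γ := TVN.GD_nonneg _ _ _ _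
  have hγ1 : M.n2 (1 - star x * x) ≤ γ := by
    rw [hγ]; unfold TVN.GD
    have := TVN.gap_nonneg x u
    have := TVN.cm_nonneg c (x * w * star x)
    linarith
  have hγ2 : M.cm c (x * w * star x) ≤ γ := by
    rw [hγ]; unfold TVN.GD
    have := TVN.gap_nonneg x u
    have := M.n2_nonneg (1 - star x * x)
    linarith
  set S2 := ∑ g ∈ s, ‖a g‖ ^ 2 with hS2
  set S4 := ∑ g ∈ s, ‖a g‖ ^ 4 with hS4
  have hS2x : M.n2 x ^ 2 = S2 := hl.n2_sum_sq s a
  have hS2le : S2 ≤ 1 := by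
    rw [← hS2x]
    have := M.n2_le_norm x
    have := M.n2_nonneg x
    nlinarith
  have hS2ge : 1 - γ ≤ S2 := by
    have e1 : M.tr (1 - star x * x) = ((1 - S2 : ℝ) : ℂ) := by
      rw [map_sub, M.tr_one, TVN.tr_star_mul_self, hS2x]; push_cast; rfl
    have e2 := M.norm_tr_le_n2 (1 - star x * x)
    rw [e1, Complex.norm_real, Real.norm_eq_abs] at e2
    have := le_abs_self (1 - S2)
    linarith
  by_cases hbig : 1 / 2 < γ
  · refine ⟨1, 1, by simp, ?_⟩
    rw [one_smul]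
    have e1 := M.n2_sub_le x (l 1)
    have e2 := M.n2_of_unitary (hl.unit 1)
    have e3 := (M.n2_le_norm x).trans h1
    linarith
  push Not at hbig
  have hS2pos : 1 / 2 ≤ S2 := by linarith
  have hne : s.Nonempty := by
    rw [Finset.nonempty_iff_ne_empty]
    rintro rfl
    simp [hS2] at hS2pos
    linarith
  obtain ⟨g, hg, hmax⟩ := s.exists_max_image (fun g => ‖a g‖) hne
  have hS4le : S4 ≤ ‖a g‖ ^ 2 * S2 := by
    rw [hS4, hS2, Finset.mul_sum]
    refine Finset.sum_le_sum fun g' hg' => ?_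
    have := pow_le_pow_left₀ (norm_nonneg _) (hmax g' hg') 2
    have h4 : ‖a g'‖ ^ 4 = ‖a g'‖ ^ 2 * ‖a g'‖ ^ 2 := by ring
    rw [h4]
    exact mul_le_mul_of_nonneg_right this (sq_nonneg _)
  have hcm : 2 * (S2 ^ 2 - S4) ≤ γ ^ 2 := by
    rw [← hf s a]
    exact pow_le_pow_left₀ (TVN.cm_nonneg _ _) hγ2 2
  set p := ‖a g‖ with hp
  have hp0 : 0 ≤ p := norm_nonneg _
  have hple : p ^ 2 ≤ S2 := Finset.single_le_sum (f := fun g => ‖a g‖ ^ 2)
    (fun _ _ => sq_nonneg _) hg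
  have hd : S2 - p ^ 2 ≤ γ ^ 2 := by
    have : S2 * (S2 - p ^ 2) ≤ γ ^ 2 / 2 := by nlinarith
    nlinarith
  have hp1 : p ≤ 1 := by nlinarith
  have hppos : 0 < p := by
    rcases hp0.eq_or_lt with h0 | h0
    · rw [← h0] at hd
      nlinarith
    · exact h0
  have hane : a g ≠ 0 := by
    intro h0
    rw [hp, h0, norm_zero] at hppos
    exact lt_irrefl _ hppos
  refine ⟨a g / p, g, ?_, ?_⟩
  · rw [norm_div, Complex.norm_real, Real.norm_of_nonneg hp0, ← hp, div_self hppos.ne']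
  · have ht : ‖a g / (p : ℂ)‖ = 1 := by
      rw [norm_div, Complex.norm_real, Real.norm_of_nonneg hp0, ← hp, div_self hppos.ne']
    have e1 := hl.n2_sub_smul_sq s a hg (a g / p) ht
    have e2 : (star (a g) * (a g / p)).re = p := by
      have : star (a g) * (a g / p) = ((p : ℝ) : ℂ) := by
        rw [mul_div_assoc', Complex.star_def, ← Complex.normSq_eq_conj_mul_self,
          Complex.normSq_eq_norm_sq, ← hp, ← Complex.ofReal_div]
        congr 1
        field_simp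
      rw [this, Complex.ofReal_re]
    rw [e2, ← hS2, ← hx] at e1
    have e3 : M.n2 (x - (a g / p) • l g) ^ 2 ≤ (4 * γ) ^ 2 := by
      rw [e1]
      have e4 : 1 - p ≤ γ + γ ^ 2 := by nlinarith
      have e5 : (1 - p) ^ 2 ≤ (γ + γ ^ 2) ^ 2 := pow_le_pow_left₀ (by linarith) e4 2
      have e6 : γ ^ 2 ≤ γ / 2 := by nlinarith
      have e7 : γ + γ ^ 2 ≤ 3 / 2 * γ := by linarith
      have e8 : (γ + γ ^ 2) ^ 2 ≤ (3 / 2 * γ) ^ 2 := pow_le_pow_left₀ (by positivity) e7 2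
      nlinarith
    exact (abs_le_of_sq_le_sq' e3 (by positivity)).2

/-- Elements on which the discrete structure function is small are near multiples of group
elements. -/
theorem dist_le (hM : M.EC') {w c : M} (hw : ‖w‖ ≤ 1) (hc : ‖c‖ ≤ 1)
    (hf : ∀ (s : Finset Λ) (a : Λ → ℂ), M.cm c ((∑ g ∈ s, a g • l g) * w *
      star (∑ g ∈ s, a g • l g)) ^ 2 = 2 * ((∑ g ∈ s, ‖a g‖ ^ 2) ^ 2 - ∑ g ∈ s, ‖a g‖ ^ 4))
    (u : Fin 3 → Λ) {x : M} (hx : ‖x‖ ≤ 1) {ε : ℝ} (hε : 0 < ε) :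
    ∃ (t : ℂ) (g : Λ), ‖t‖ = 1 ∧
      M.n2 (x - t • l g) ≤ 70 * M.GD x (fun i => l (u i)) w c + ε := by
  obtain ⟨s, a, hs1, hs2⟩ := hl.approx hM u hx (ε := ε / 33) (by positivity)
  obtain ⟨t, g, ht, hg⟩ := hl.dist_sum hw hc hf (fun i => l (u i)) s a hs1
  refine ⟨t, g, ht, ?_⟩
  have h1 := TVN.GD_lip hs1 hx (fun i => l (u i)) hw hc
  rw [M.n2_sub_comm] at h1
  have h2 : M.gap x (fun i => l (u i)) ≤ M.GD x (fun i => l (u i)) w c := by
    unfold TVN.GD
    have := M.n2_nonneg (1 - star x * x)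
    have := TVN.cm_nonneg c (x * w * star x)
    linarith
  have h3 := M.n2_tri x (∑ g ∈ s, a g • l g) (t • l g)
  have h4 := TVN.GD_nonneg x (fun i => l (u i)) w c
  linarith

end Copy

end Pool.Agent.Lib.EcII
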