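import Pool.Agent.Lib.EcII.Poly

/-!
# A moment criterion for existential closedness
-/

open scoped ComplexOrder

noncomputable section

namespace Pool.Agent.Lib.EcII

/-- Finitely many moments of tuples of contractions in extensions can be approximated in `M`. -/
def TVN.EC' (M : TVN) : Prop :=
  ∀ (P : TVN) (ι : M →⋆ₐ[ℂ] P), (∀ x, P.tr (ι x) = M.tr x) →
    ∀ (A K : Type) [Finite A] [Finite K] (a : A → M) (y : K → P), (∀ i, ‖y i‖ ≤ 1) →
    ∀ (W : Finset (List ((A ⊕ K) × Bool))) (ε : ℝ), 0 < ε →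
    ∃ y' : K → M, (∀ i, ‖y' i‖ ≤ 1) ∧ ∀ w ∈ W,
      ‖P.law (Sum.elim (fun i => ι (a i)) y) w - M.law (Sum.elim a y') w‖ ≤ ε

namespace TVN

theorem EC'.n2 {M : TVN} (h : M.EC') {P : TVN} (ι : M →⋆ₐ[ℂ] P) (hι : ∀ x, P.tr (ι x) = M.tr x)
    {A K : Type} [Finite A] [Finite K] (a : A → M) (y : K → P) (hy : ∀ i, ‖y i‖ ≤ 1)
    (S : Finset (List ((A ⊕ K) × Bool) →₀ ℂ)) (ε : ℝ) (hε : 0 < ε) :
    ∃ y' : K → M, (∀ i, ‖y' i‖ ≤ 1) ∧ ∀ Q ∈ S,
      |P.n2 (evp (Sum.elim (fun i => ι (a i)) y) Q) - M.n2 (evp (Sum.elim a y') Q)| < ε := by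
  obtain ⟨W, δ, hδ, hW⟩ := exists_n2_evp_close' S hε
  obtain ⟨y', hy', h'⟩ := h P ι hι A K a y hy W δ hδ
  exact ⟨y', hy', hW _ _ _ _ h'⟩

/-! ### Moment functions -/

/-- A function on tuples which is a continuous function of finitely many moments. -/
def IsMom (I : Type) (F : ∀ M : TVN, (I → M) → ℝ) : Prop :=
  ∃ (L : Type) (_ : Finite L) (W : L → List (I × Bool)) (f : (L → ℂ) → ℝ), Continuous f ∧
    ∀ M v, F M v = f fun l => M.law v (W l)

theorem IsMom.comp {I I' : Type} {F : ∀ M : TVN, (I → M) → ℝ} (hF : IsMom I F) (g : I → I') :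
    IsMom I' (fun M v => F M (v ∘ g)) := by
  obtain ⟨L, hL, W, f, hf, h⟩ := hF
  refine ⟨L, hL, fun l => (W l).map (Prod.map g id), f, hf, fun M v => ?_⟩
  show F M (v ∘ g) = _
  rw [h]
  congr 1
  funext l
  unfold law
  rw [ev_map]

theorem IsMom.conn {I : Type} {k : ℕ} {F : Fin k → ∀ M : TVN, (I → M) → ℝ}
    (hF : ∀ i, IsMom I (F i)) (g : (Fin k → ℝ) → ℝ) (hg : Continuous g) :
    IsMom I (fun M v => g fun i => F i M v) := by
  choose L hL W f hf h using hF
  refine ⟨Σ i, L i, inferInstance, fun l => W l.1 l.2,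
    fun z => g fun i => f i fun l => z ⟨i, l⟩, ?_, fun M v => ?_⟩
  · refine hg.comp (continuous_pi fun i => (hf i).comp ?_)
    exact continuous_pi fun l => continuous_apply _
  · simp only [h]

theorem Term.exists_poly {n : ℕ} (t : Term n) : ∃ Q : List (Fin n × Bool) →₀ ℂ,
    ∀ (M : TVN) (v : Fin n → M), t.eval M v = evp v Q := by
  induction t with
  | var i => exact ⟨X i, fun M v => by rw [Term.eval, evp_X]⟩
  | one => exact ⟨Finsupp.single [] 1, fun M v => by rw [Term.eval, evp_one]⟩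
  | add s t hs ht =>
    obtain ⟨P, hP⟩ := hs
    obtain ⟨Q, hQ⟩ := ht
    exact ⟨P + Q, fun M v => by rw [Term.eval, hP, hQ, evp_add]⟩
  | mul s t hs ht =>
    obtain ⟨P, hP⟩ := hs
    obtain ⟨Q, hQ⟩ := ht
    exact ⟨pmul P Q, fun M v => by rw [Term.eval, hP, hQ, evp_pmul]⟩
  | star t ht =>
    obtain ⟨Q, hQ⟩ := ht
    exact ⟨pstar Q, fun M v => by rw [Term.eval, hQ, evp_pstar]⟩
  | smul c t ht =>
    obtain ⟨Q, hQ⟩ := ht
    exact ⟨c • Q, fun M v => by rw [Term.eval, hQ, evp_smul]⟩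

theorem isMom_tr {I : Type} (Q : List (I × Bool) →₀ ℂ) (g : ℂ → ℝ) (hg : Continuous g) :
    IsMom I (fun M v => g (M.tr (evp v Q))) := by
  refine ⟨Q.support, inferInstance, fun l => l.1, fun z => g (∑ l, Q l.1 * z l),
    hg.comp (by fun_prop), fun M v => ?_⟩
  show g (M.tr (evp v Q)) = g _
  rw [tr_evp, Finsupp.sum, ← Finset.sum_coe_sort]

theorem isMom_n2 {I : Type} (Q : List (I × Bool) →₀ ℂ) :
    IsMom I (fun M v => M.n2 (evp v Q)) := by
  have := isMom_tr (pmul (pstar Q) Q) (fun z => √z.re) (by fun_prop)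
  refine (congrArg (IsMom I) ?_).mp this
  funext M v
  rw [evp_pmul, evp_pstar]; rfl

theorem isMom_of_isQF {n : ℕ} {φ : Formula n} (h : φ.IsQF) :
    IsMom (Fin n) (fun M v => φ.eval M v) := by
  induction h with
  | trRe t =>
    obtain ⟨Q, hQ⟩ := Term.exists_poly t
    refine (congrArg (IsMom _) ?_).mp (isMom_tr Q Complex.re Complex.continuous_re)
    funext M v
    rw [Formula.eval, hQ]
  | trIm t =>
    obtain ⟨Q, hQ⟩ := Term.exists_poly t
    refine (congrArg (IsMom _) ?_).mp (isMom_tr Q Complex.im Complex.continuous_im)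
    funext M v
    rw [Formula.eval, hQ]
  | dist s t =>
    obtain ⟨P, hP⟩ := Term.exists_poly s
    obtain ⟨Q, hQ⟩ := Term.exists_poly t
    refine (congrArg (IsMom _) ?_).mp (isMom_n2 (P - Q))
    funext M v
    rw [Formula.eval, hP, hQ, evp_sub]
  | conn f φ h ih =>
    refine (congrArg (IsMom _) ?_).mp (IsMom.conn ih f f.continuous)
    funext M v
    rw [Formula.eval]

/-! ### Boundedness -/

theorem norm_law_le {M : TVN} {I : Type} {v : I → M} {r : ℝ} (hr : 1 ≤ r) (hv : ∀ i, ‖v i‖ ≤ r)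
    (w : List (I × Bool)) : ‖M.law v w‖ ≤ r ^ w.length :=
  (M.norm_tr_le _).trans (n2_ev_sub_le hr le_rfl hv hv
    (fun j => by rw [sub_self, n2_zero]) w).2

theorem IsMom.bounded {I : Type} {F : ∀ M : TVN, (I → M) → ℝ} (hF : IsMom I F)
    (r : ℝ) (hr : 1 ≤ r) :
    ∃ C, ∀ (M : TVN) (v : I → M), (∀ i, ‖v i‖ ≤ r) → |F M v| ≤ C := by
  obtain ⟨L, hL, W, f, hf, h⟩ := hF
  have := Fintype.ofFinite L
  have hK : IsCompact (Set.pi Set.univ fun l : L => Metric.closedBall (0 : ℂ) (r ^ (W l).length)) :=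
    isCompact_univ_pi fun _ => isCompact_closedBall _ _
  obtain ⟨C, hC⟩ := hK.exists_bound_of_continuousOn hf.continuousOn
  refine ⟨C, fun M v hv => ?_⟩
  rw [h]
  refine hC _ ?_
  rw [Set.mem_univ_pi]
  intro l
  rw [mem_closedBall_zero_iff]
  exact norm_law_le hr hv _

end TVN

/-- every formula is bounded on bounded sets, uniformly over all algebras -/
theorem Formula.bounded {n : ℕ} (φ : Formula n) (r : ℝ) :
    ∃ C, ∀ (M : TVN) (v : Fin n → M), (∀ i, ‖v i‖ ≤ r) → |φ.eval M v| ≤ C := by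
  induction φ generalizing r with
  | trRe t =>
    obtain ⟨C, hC⟩ := (TVN.isMom_of_isQF (.trRe t)).bounded (max r 1) (le_max_right _ _)
    exact ⟨C, fun M v hv => hC M v fun i => (hv i).trans (le_max_left _ _)⟩
  | trIm t =>
    obtain ⟨C, hC⟩ := (TVN.isMom_of_isQF (.trIm t)).bounded (max r 1) (le_max_right _ _)
    exact ⟨C, fun M v hv => hC M v fun i => (hv i).trans (le_max_left _ _)⟩
  | dist s t =>
    obtain ⟨C, hC⟩ := (TVN.isMom_of_isQF (.dist s t)).bounded (max r 1) (le_max_right _ _)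
    exact ⟨C, fun M v hv => hC M v fun i => (hv i).trans (le_max_left _ _)⟩
  | @conn n k f φ ih =>
    choose C hC using fun i => ih i r
    have hK : IsCompact (Set.pi Set.univ fun i : Fin k => Metric.closedBall (0 : ℝ) (C i)) :=
      isCompact_univ_pi fun _ => isCompact_closedBall _ _
    obtain ⟨D, hD⟩ := hK.exists_bound_of_continuousOn f.continuous.continuousOn
    refine ⟨D, fun M v hv => hD _ ?_⟩
    rw [Set.mem_univ_pi]
    intro i
    rw [mem_closedBall_zero_iff]
    exact hC i M v hv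
  | inf k φ ih =>
    obtain ⟨C, hC⟩ := ih (max r k)
    refine ⟨C, fun M v hv => ?_⟩
    have hb : ∀ x : {x : M // ‖x‖ ≤ (k : ℝ)}, |φ.eval M (Fin.cons x.1 v)| ≤ C := by
      intro x
      refine hC M _ fun i => ?_
      refine Fin.cases ?_ (fun i => ?_) i
      · exact x.2.trans (le_max_right _ _)
      · exact (hv i).trans (le_max_left _ _)
    haveI : Nonempty {x : M // ‖x‖ ≤ (k : ℝ)} := ⟨⟨0, by simp⟩⟩
    rw [Formula.eval, abs_le]
    constructor
    · exact le_ciInf fun x => (abs_le.1 (hb x)).1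
    · exact (ciInf_le ⟨-C, by rintro _ ⟨x, rfl⟩; exact (abs_le.1 (hb x)).1⟩
        ⟨0, by simp⟩).trans (abs_le.1 (hb ⟨0, by simp⟩)).2
  | sup k φ ih =>
    obtain ⟨C, hC⟩ := ih (max r k)
    refine ⟨C, fun M v hv => ?_⟩
    have hb : ∀ x : {x : M // ‖x‖ ≤ (k : ℝ)}, |φ.eval M (Fin.cons x.1 v)| ≤ C := by
      intro x
      refine hC M _ fun i => ?_
      refine Fin.cases ?_ (fun i => ?_) i
      · exact x.2.trans (le_max_right _ _)
      · exact (hv i).trans (le_max_left _ _)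
    haveI : Nonempty {x : M // ‖x‖ ≤ (k : ℝ)} := ⟨⟨0, by simp⟩⟩
    rw [Formula.eval, abs_le]
    constructor
    · exact (abs_le.1 (hb ⟨0, by simp⟩)).1.trans
        (le_ciSup (f := fun x : {x : M // ‖x‖ ≤ (k : ℝ)} => φ.eval M (Fin.cons x.1 v))
          ⟨C, by rintro _ ⟨x, rfl⟩; exact (abs_le.1 (hb x)).2⟩ ⟨0, by simp⟩)
    · exact ciSup_le fun x => (abs_le.1 (hb x)).2

namespace TVN

/-- The structure of existential formulas. -/
theorem exists_of_isExistential {n : ℕ} {φ : Formula n} (h : φ.IsExistential) :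
    ∃ (K : Type) (_ : Finite K) (r : K → ℕ) (F : ∀ M : TVN, (Fin n ⊕ K → M) → ℝ),
      IsMom (Fin n ⊕ K) F ∧ ∀ (M : TVN) (v : Fin n → M),
        (∀ x : K → M, (∀ i, ‖x i‖ ≤ r i) → φ.eval M v ≤ F M (Sum.elim v x)) ∧
        ∀ ε > 0, ∃ x : K → M, (∀ i, ‖x i‖ ≤ r i) ∧ F M (Sum.elim v x) ≤ φ.eval M v + ε := by
  induction h with
  | @qf n φ h =>
    refine ⟨Empty, inferInstance, fun e => e.elim, fun M v => φ.eval M (v ∘ Sum.inl),
      (isMom_of_isQF h).comp Sum.inl, fun M v => ⟨fun x _ => le_rfl, fun ε hε => ?_⟩⟩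
    refine ⟨fun e => e.elim, fun e => e.elim, ?_⟩
    show φ.eval M v ≤ _
    linarith
  | @inf n k φ h ih =>
    obtain ⟨K, hK, r, F, hF, h⟩ := ih
    let g : Fin (n + 1) ⊕ K → Fin n ⊕ Option K :=
      Sum.elim (Fin.cons (Sum.inr none) Sum.inl) (fun i => Sum.inr (some i))
    have hg : ∀ (M : TVN) (v : Fin n → M) (x : Option K → M),
        (Sum.elim v x) ∘ g = Sum.elim (Fin.cons (x none) v) (fun i => x (some i)) := by
      intro M v x
      funext i
      rcases i with i | i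
      · refine Fin.cases ?_ (fun i => ?_) i <;> simp [g]
      · simp [g]
    refine ⟨Option K, inferInstance, fun o => o.elim k r, fun M v => F M (v ∘ g), hF.comp g,
      fun M v => ?_⟩
    have hbdd : BddBelow (Set.range fun x : {x : M // ‖x‖ ≤ (k : ℝ)} =>
        φ.eval M (Fin.cons x.1 v)) := by
      obtain ⟨R, hR⟩ : ∃ R : ℝ, ∀ i, ‖v i‖ ≤ R := by
        obtain ⟨R, hR⟩ := (Set.finite_range fun i => ‖v i‖).bddAbove
        exact ⟨R, fun i => hR ⟨i, rfl⟩⟩
      obtain ⟨C, hC⟩ := φ.bounded (max R k)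
      refine ⟨-C, ?_⟩
      rintro _ ⟨x, rfl⟩
      refine (abs_le.1 (hC M _ fun i => ?_)).1
      refine Fin.cases ?_ (fun i => ?_) i
      · exact x.2.trans (le_max_right _ _)
      · exact (hR i).trans (le_max_left _ _)
    constructor
    · intro x hx
      show _ ≤ F M (Sum.elim v x ∘ g)
      rw [hg, Formula.eval]
      refine (ciInf_le hbdd ⟨x none, hx none⟩).trans ?_
      exact (h M (Fin.cons (x none) v)).1 _ fun i => hx (some i)
    · intro ε hε
      haveI : Nonempty {x : M // ‖x‖ ≤ (k : ℝ)} := ⟨⟨0, by simp⟩⟩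
      obtain ⟨x₀, hx₀⟩ := exists_lt_of_ciInf_lt (show (⨅ x : {x : M // ‖x‖ ≤ (k : ℝ)},
        φ.eval M (Fin.cons x.1 v)) < (⨅ x : {x : M // ‖x‖ ≤ (k : ℝ)},
        φ.eval M (Fin.cons x.1 v)) + ε / 2 by linarith)
      obtain ⟨x, hx, hx2⟩ := (h M (Fin.cons x₀.1 v)).2 (ε / 2) (by positivity)
      refine ⟨fun o => o.elim x₀.1 x, fun o => ?_, ?_⟩
      · rcases o with - | o
        · exact x₀.2
        · exact hx o
      · show F M (Sum.elim v _ ∘ g) ≤ _
        rw [hg, Formula.eval]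
        simp only [Option.elim_none, Option.elim_some]
        linarith

theorem EC'.existential {M : TVN} (h : M.EC') {P : TVN} (ι : M →⋆ₐ[ℂ] P)
    (hι : ∀ x, P.tr (ι x) = M.tr x) {n : ℕ} {φ : Formula n} (hφ : φ.IsExistential)
    (v : Fin n → M) : φ.eval M v = φ.eval P (fun i => ι (v i)) := by
  obtain ⟨K, hK, r, F, hF, hφ⟩ := exists_of_isExistential hφ
  have hF' := hF
  obtain ⟨L, hL, W, f, hf, hFf⟩ := hF'
  have := Fintype.ofFinite L
  refine le_antisymm (le_of_forall_pos_le_add fun ε hε => ?_)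
    (le_of_forall_pos_le_add fun ε hε => ?_)
  · obtain ⟨x, hx, hx2⟩ := (hφ P fun i => ι (v i)).2 (ε / 2) (by positivity)
    -- rescale
    let y : K → P := fun i => ((r i : ℝ)⁻¹ : ℂ) • x i
    have hy : ∀ i, ‖y i‖ ≤ 1 := by
      intro i
      rw [norm_smul, norm_inv, Complex.norm_real, Real.norm_of_nonneg (by positivity)]
      rcases Nat.eq_zero_or_pos (r i) with h0 | h0
      · rw [h0]; simp
      · have h1 : (0 : ℝ) < r i := by exact_mod_cast h0
        rw [inv_mul_le_iff₀ h1, mul_one]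
        exact hx i
    have hxy : ∀ i, x i = ((r i : ℝ) : ℂ) • y i := by
      intro i
      rcases Nat.eq_zero_or_pos (r i) with h0 | h0
      · have h1 : x i = 0 := by
          have := hx i
          rw [h0] at this
          simpa using this
        simp [y, h1]
      · simp only [y]
        rw [smul_smul, mul_inv_cancel₀ (by exact_mod_cast h0.ne'), one_smul]
    -- continuity
    let ρ : Fin n ⊕ K → ℝ := Sum.elim (fun _ => 1) (fun i => r i)
    have hρ : ∀ (M' : TVN) (a : Fin n → M') (z : K → M'),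
        Sum.elim a (fun i => ((r i : ℝ) : ℂ) • z i) =
        fun j => ((ρ j : ℝ) : ℂ) • (Sum.elim a z) j := by
      intro M' a z
      funext j
      rcases j with j | j <;> simp [ρ]
    let z₀ : L → ℂ := fun l => P.law (Sum.elim (fun i => ι (v i)) y) (W l)
    let G : (L → ℂ) → ℝ := fun z => f fun l => ((wt ρ (W l) : ℝ) : ℂ) * z l
    have hG : Continuous G := hf.comp (by fun_prop)
    obtain ⟨δ, hδ, hδ2⟩ := Metric.continuous_iff.1 hG z₀ (ε / 2) (by positivity)
    classical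
    obtain ⟨y', hy', hclose⟩ := h P ι hι (Fin n) K v y hy (Finset.univ.image W) (δ / 2)
      (by positivity)
    have h1 : dist (fun l => M.law (Sum.elim v y') (W l)) z₀ < δ := by
      refine lt_of_le_of_lt ((dist_pi_le_iff (by positivity)).2 fun l => ?_)
        (show δ / 2 < δ by linarith)
      rw [dist_comm, dist_eq_norm]
      exact hclose _ (Finset.mem_image_of_mem _ (Finset.mem_univ _))
    have h2 := hδ2 _ h1
    have h3 : F M (Sum.elim v (fun i => ((r i : ℝ) : ℂ) • y' i)) =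
        G fun l => M.law (Sum.elim v y') (W l) := by
      rw [hFf, hρ]
      simp only [law_smul]
      rfl
    have h4 : F P (Sum.elim (fun i => ι (v i)) x) = G z₀ := by
      have : x = fun i => ((r i : ℝ) : ℂ) • y i := funext hxy
      rw [this, hFf, hρ]
      simp only [law_smul]
      rfl
    have h5 := (hφ M v).1 (fun i => ((r i : ℝ) : ℂ) • y' i) (fun i => by
      rw [norm_smul, Complex.norm_real, Real.norm_of_nonneg (by positivity)]
      exact mul_le_of_le_one_right (by positivity) (hy' i))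
    rw [h3] at h5
    rw [h4] at hx2
    rw [Real.dist_eq, abs_lt] at h2
    linarith
  · obtain ⟨x, hx, hx2⟩ := (hφ M v).2 ε hε
    refine ((hφ P fun i => ι (v i)).1 (fun i => ι (x i)) fun i => ?_).trans ?_
    · rw [norm_map ι hι]; exact hx i
    · have : F P (Sum.elim (fun i => ι (v i)) fun i => ι (x i)) = F M (Sum.elim v x) := by
        rw [hFf, hFf]
        congr 1
        funext l
        unfold law
        have e : (Sum.elim (fun i => ι (v i)) fun i => ι (x i)) =
            fun j => ι (Sum.elim v x j) := by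
          funext j; rcases j with j | j <;> rfl
        rw [e, ← map_ev, hι]
      rw [this]
      exact hx2

theorem EC'.isEC {M : TVN} (h : M.EC') (hM : M.IsII1Factor) : M.IsEC :=
  ⟨hM, fun _ _ ι hι _ _ hφ v => h.existential ι hι hφ v⟩

end TVN

end Pool.Agent.Lib.EcII
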