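import Pool.Agent.Lib.EcII.StdForm
import Pool.Agent.Lib.EcII.PreHilb
import Pool.Agent.Lib.EcII.CondDefs

/-!
# Operator valued semicircular elements via the full Fock space
-/

open scoped ComplexOrder InnerProductSpace
open ContinuousLinearMap

noncomputable section

namespace Pool.Agent.Lib.EcII

namespace Fock

variable {M : TVN}

/-- the kernel on lists with final functional `t`, linear in the middle element -/
def kk (E : M →ₗ[ℂ] M) (t : M →ₗ[ℂ] ℂ) : List M → List M → (M →ₗ[ℂ] ℂ)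
  | [], [] => t
  | a :: L, b :: L' => (kk E t L L') ∘ₗ (LinearMap.mulRight ℂ b) ∘ₗ
      (LinearMap.mulLeft ℂ (star a)) ∘ₗ E
  | [], _ :: _ => 0
  | _ :: _, [] => 0

@[simp] theorem kk_nil (E : M →ₗ[ℂ] M) (t : M →ₗ[ℂ] ℂ) (c : M) : kk E t [] [] c = t c := by
  simp [kk]

@[simp] theorem kk_cons (E : M →ₗ[ℂ] M) (t : M →ₗ[ℂ] ℂ) (a b : M) (L L' : List M) (c : M) :
    kk E t (a :: L) (b :: L') c = kk E t L L' (star a * E c * b) := by
  simp [kk]

@[simp] theorem kk_nil_cons (E : M →ₗ[ℂ] M) (t : M →ₗ[ℂ] ℂ) (b : M) (L' : List M) :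
    kk E t [] (b :: L') = 0 := by
  simp [kk]

@[simp] theorem kk_cons_nil (E : M →ₗ[ℂ] M) (t : M →ₗ[ℂ] ℂ) (a : M) (L : List M) :
    kk E t (a :: L) [] = 0 := by
  simp [kk]

/-- final functional with multiplications -/
def tm (t : M →ₗ[ℂ] ℂ) (m m' : M) : M →ₗ[ℂ] ℂ :=
  t ∘ₗ (LinearMap.mulRight ℂ m') ∘ₗ (LinearMap.mulLeft ℂ (star m))

theorem tm_apply (t : M →ₗ[ℂ] ℂ) (m m' c : M) : tm t m m' c = t (star m * c * m') := by
  simp [tm]

/-- final functional after one more entry -/
def te (E : M →ₗ[ℂ] M) (t : M →ₗ[ℂ] ℂ) (a b : M) : M →ₗ[ℂ] ℂ := (tm t a b) ∘ₗ E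

theorem te_apply (E : M →ₗ[ℂ] M) (t : M →ₗ[ℂ] ℂ) (a b c : M) :
    te E t a b c = t (star a * E c * b) := by
  simp [te, tm_apply]

theorem kk_append (E : M →ₗ[ℂ] M) (t : M →ₗ[ℂ] ℂ) (a b : M) (L L' : List M) (c : M) :
    kk E t (L ++ [a]) (L' ++ [b]) c = kk E (te E t a b) L L' c := by
  induction L generalizing L' c with
  | nil =>
    cases L' with
    | nil => simp [te_apply]
    | cons b1 L1 =>
      cases L1 <;> simp
  | cons a1 L1 ih =>
    cases L' with
    | nil => cases L1 <;> simp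
    | cons b1 L2 =>
      simp only [List.cons_append, kk_cons]
      rw [ih]

theorem kk_lin_t (E : M →ₗ[ℂ] M) (t t' : M →ₗ[ℂ] ℂ) (r : ℂ) (L L' : List M) (c : M) :
    kk E (r • t - t') L L' c = r * kk E t L L' c - kk E t' L L' c := by
  induction L generalizing L' c with
  | nil => cases L' <;> simp
  | cons a L ih =>
    cases L' with
    | nil => simp
    | cons b L' => simp [ih]

/-- right multiplication of the last entry -/
def ml (m : M) : M → List M → M × List M
  | a, [] => (a * m, [])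
  | a, b :: L => (a, (ml m b L).1 :: (ml m b L).2)

@[simp] theorem ml_nil (m a : M) : ml m a [] = (a * m, []) := rfl
@[simp] theorem ml_cons (m a b : M) (L : List M) :
    ml m a (b :: L) = (a, (ml m b L).1 :: (ml m b L).2) := rfl

theorem ml_one (a : M) (L : List M) : ml (1 : M) a L = (a, L) := by
  induction L generalizing a with
  | nil => simp
  | cons b L ih => simp [ih]

theorem kk_ml (E : M →ₗ[ℂ] M) (t : M →ₗ[ℂ] ℂ) (m m' : M) (L L' : List M) (a b c : M) :
    kk E t (ml m a L).2 (ml m' b L').2 (star (ml m a L).1 * c * (ml m' b L').1) =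
      kk E (tm t m m') L L' (star a * c * b) := by
  induction L generalizing L' a b c with
  | nil =>
    cases L' with
    | nil =>
      simp only [ml_nil, kk_nil, tm_apply, star_mul]
      congr 1
      noncomm_ring
    | cons b1 L1 => simp
  | cons a1 L1 ih =>
    cases L' with
    | nil => simp
    | cons b1 L2 =>
      simp only [ml_cons, kk_cons]
      rw [ih]

end Fock

open Fock

variable {M : TVN} {A : StarSubalgebra ℂ M}

theorem CondExp.sos' (E : CondExp M A) {ι : Type*} (s : Finset ι) (a : ι → M) :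
    ∃ (n : ℕ) (S : Fin n → ι → M), ∀ i ∈ s, ∀ j ∈ s,
      E.E (star (a i) * a j) = ∑ k, star (S k i) * S k j := by
  classical
  obtain ⟨S, hS⟩ := E.sos s.card (fun i => a (s.equivFin.symm i))
  refine ⟨s.card, fun k i => if h : i ∈ s then S k (s.equivFin ⟨i, h⟩) else 0,
    fun i hi j hj => ?_⟩
  have := hS (s.equivFin ⟨i, hi⟩) (s.equivFin ⟨j, hj⟩)
  simpa [hi, hj] using this

theorem CondExp.E_one (E : CondExp M A) : E.E 1 = 1 := E.of_mem 1 (one_mem A)

namespace Fock

theorem pos0 (t : M →ₗ[ℂ] ℂ) (ht : ∀ x, 0 ≤ t (star x * x)) {ι : Type*} (s : Finset ι)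
    (x : ι → M) (c : ι → ℂ) :
    0 ≤ ∑ i ∈ s, ∑ j ∈ s, star (c i) * c j * t (star (x i) * x j) := by
  have h := ht (∑ i ∈ s, c i • x i)
  have e : t (star (∑ i ∈ s, c i • x i) * ∑ i ∈ s, c i • x i) =
      ∑ i ∈ s, ∑ j ∈ s, star (c i) * c j * t (star (x i) * x j) := by
    rw [star_sum, Finset.sum_mul_sum, map_sum]
    refine Finset.sum_congr rfl fun i _ => ?_
    rw [map_sum]
    refine Finset.sum_congr rfl fun j _ => ?_
    rw [star_smul, smul_mul_smul_comm, map_smul, smul_eq_mul]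
  rwa [e] at h

theorem kk_pos (E : CondExp M A) (t : M →ₗ[ℂ] ℂ) (ht : ∀ x, 0 ≤ t (star x * x)) (n : ℕ)
    {ι : Type*} (s : Finset ι) (x : ι → M) (L : ι → List M) (c : ι → ℂ)
    (hL : ∀ i ∈ s, (L i).length ≤ n) :
    0 ≤ ∑ i ∈ s, ∑ j ∈ s, star (c i) * c j * kk E.E t (L i) (L j) (star (x i) * x j) := by
  classical
  induction n generalizing x L c with
  | zero =>
    have h := pos0 t ht s x c
    convert h using 1
    refine Finset.sum_congr rfl fun i hi => Finset.sum_congr rfl fun j hj => ?_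
    rw [List.length_eq_zero_iff.1 (Nat.le_zero.1 (hL i hi)),
      List.length_eq_zero_iff.1 (Nat.le_zero.1 (hL j hj)), kk_nil]
  | succ n ih =>
    obtain ⟨N, S, hS⟩ := E.sos' s x
    have key : ∀ i ∈ s, ∀ j ∈ s,
        star (c i) * c j * kk E.E t (L i) (L j) (star (x i) * x j) =
        star (if L i = [] then c i else 0) * (if L j = [] then c j else 0) *
          t (star (x i) * x j) +
        ∑ k, star (if L i = [] then 0 else c i) * (if L j = [] then 0 else c j) *
          kk E.E t (L i).tail (L j).tail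
            (star (S k i * (L i).headD 0) * (S k j * (L j).headD 0)) := by
      intro i hi j hj
      rcases hLi : L i with _ | ⟨a, L1⟩
      · rcases hLj : L j with _ | ⟨b, L2⟩
        · simp
        · simp
      · rcases hLj : L j with _ | ⟨b, L2⟩
        · simp
        · simp only [kk_cons, reduceCtorEq, if_false, star_zero, zero_mul, zero_add,
            List.tail_cons, List.headD_cons]
          rw [hS i hi j hj, ← Finset.mul_sum, ← map_sum]
          congr 2
          rw [Finset.mul_sum, Finset.sum_mul]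
          refine Finset.sum_congr rfl fun k _ => ?_
          rw [star_mul]
          noncomm_ring
    rw [Finset.sum_congr rfl fun i hi => Finset.sum_congr rfl fun j hj => key i hi j hj]
    simp only [Finset.sum_add_distrib]
    refine add_nonneg (pos0 t ht s x _) ?_
    have hcomm : ∑ i ∈ s, ∑ j ∈ s, ∑ k, star (if L i = [] then 0 else c i) *
        (if L j = [] then 0 else c j) * kk E.E t (L i).tail (L j).tail
            (star (S k i * (L i).headD 0) * (S k j * (L j).headD 0)) =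
        ∑ k, ∑ i ∈ s, ∑ j ∈ s, star (if L i = [] then 0 else c i) *
        (if L j = [] then 0 else c j) * kk E.E t (L i).tail (L j).tail
            (star (S k i * (L i).headD 0) * (S k j * (L j).headD 0)) := by
      rw [Finset.sum_comm]
      rw [Finset.sum_congr rfl fun i _ => Finset.sum_comm]
      rw [Finset.sum_comm]
      refine Finset.sum_congr rfl fun k _ => ?_
      rw [Finset.sum_comm]
    rw [hcomm]
    refine Finset.sum_nonneg fun k _ => ?_
    refine ih (fun i => S k i * (L i).headD 0) (fun i => (L i).tail)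
      (fun i => if L i = [] then 0 else c i) ?_
    intro i hi
    have := hL i hi
    simp only [List.length_tail]
    omega

theorem kk_pos' (E : CondExp M A) (t : M →ₗ[ℂ] ℂ) (ht : ∀ x, 0 ≤ t (star x * x))
    {ι : Type*} (s : Finset ι) (x : ι → M) (L : ι → List M) (c : ι → ℂ) :
    0 ≤ ∑ i ∈ s, ∑ j ∈ s, star (c i) * c j * kk E.E t (L i) (L j) (star (x i) * x j) :=
  kk_pos E t ht (s.sup fun i => (L i).length) s x L c
    fun _ hi => Finset.le_sup (f := fun i => (L i).length) hi

/-- the kernel of the full Fock space -/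
def ker (E : CondExp M A) : Ker (M × List M) where
  K x y := kk E.E M.tr x.2 y.2 (star x.1 * y.1)
  herm := Ker.herm_of_pos fun s c => kk_pos' E M.tr M.tr_nonneg s (fun x => x.1) (fun x => x.2) c
  pos s c := kk_pos' E M.tr M.tr_nonneg s (fun x => x.1) (fun x => x.2) c

theorem ker_K (E : CondExp M A) (x y : M × List M) :
    (ker E).K x y = kk E.E M.tr x.2 y.2 (star x.1 * y.1) := rfl

end Fock

namespace Ker

variable {X : Type} (κ : Ker X)

theorem form_eq (f : X →₀ ℂ) :
    κ.form f f = ∑ a ∈ f.support, ∑ b ∈ f.support, star (f a) * f b * κ.K a b := rfl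

/-- the operator of a map of points -/
def mapOp (φ : X → X) (C : ℝ)
    (h : ∀ (s : Finset X) (c : X → ℂ),
      0 ≤ ∑ a ∈ s, ∑ b ∈ s, star (c a) * c b * (((C ^ 2 : ℝ) : ℂ) * κ.K a b - κ.K (φ a) (φ b))) :
    κ.H →L[ℂ] κ.H :=
  κ.op (fun x => Finsupp.single (φ x) 1) C (by
    intro f
    rw [form_lin_single, form_eq]
    have h1 := (Complex.le_def.1 (h f.support f)).1
    have h2 : ∑ a ∈ f.support, ∑ b ∈ f.support,
        star (f a) * f b * (((C ^ 2 : ℝ) : ℂ) * κ.K a b - κ.K (φ a) (φ b)) =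
        ((C ^ 2 : ℝ) : ℂ) * (∑ a ∈ f.support, ∑ b ∈ f.support, star (f a) * f b * κ.K a b) -
        ∑ a ∈ f.support, ∑ b ∈ f.support, star (f a) * f b * κ.K (φ a) (φ b) := by
      rw [Finset.mul_sum, ← Finset.sum_sub_distrib]
      refine Finset.sum_congr rfl fun a _ => ?_
      rw [Finset.mul_sum, ← Finset.sum_sub_distrib]
      refine Finset.sum_congr rfl fun b _ => ?_
      ring
    rw [h2, Complex.sub_re, Complex.re_ofReal_mul, Complex.zero_re] at h1
    linarith)

theorem mapOp_e (φ : X → X) (C : ℝ)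
    (h : ∀ (s : Finset X) (c : X → ℂ),
      0 ≤ ∑ a ∈ s, ∑ b ∈ s, star (c a) * c b * (((C ^ 2 : ℝ) : ℂ) * κ.K a b - κ.K (φ a) (φ b)))
    (x : X) : κ.mapOp φ C h (κ.e x) = κ.e (φ x) := by
  rw [mapOp, op_e]; rfl

theorem norm_mapOp_le (φ : X → X) (C : ℝ) (hC : 0 ≤ C)
    (h : ∀ (s : Finset X) (c : X → ℂ),
      0 ≤ ∑ a ∈ s, ∑ b ∈ s, star (c a) * c b * (((C ^ 2 : ℝ) : ℂ) * κ.K a b - κ.K (φ a) (φ b))) :
    ‖κ.mapOp φ C h‖ ≤ C := norm_op_le _ _ _ hC _

end Ker

theorem TVN.exists_compl (M : TVN) (x : M) :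
    ∃ h : M, star h * h = ((‖x‖ ^ 2 : ℝ) : ℂ) • (1 : M) - star x * x := by
  letI : PartialOrder M := CStarAlgebra.spectralOrder M
  letI : StarOrderedRing M := CStarAlgebra.spectralOrderedRing M
  have h1 : star x * x ≤ algebraMap ℝ M (‖x‖ ^ 2) := CStarAlgebra.star_mul_le_algebraMap_norm_sq
  obtain ⟨h, hh⟩ := CStarAlgebra.nonneg_iff_eq_star_mul_self.1 (sub_nonneg.2 h1)
  refine ⟨h, ?_⟩
  rw [← hh, Algebra.algebraMap_eq_smul_one, Complex.coe_smul]

namespace Fock

variable (E : CondExp M A)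

/-- left multiplication -/
def lam (m : M) : (ker E).H →L[ℂ] (ker E).H :=
  (ker E).mapOp (fun x => (m * x.1, x.2)) ‖m‖ (by
    intro s c
    obtain ⟨h, hh⟩ := M.exists_compl m
    have := kk_pos' E M.tr M.tr_nonneg s (fun x => h * x.1) (fun x => x.2) c
    convert this using 1
    refine Finset.sum_congr rfl fun a _ => Finset.sum_congr rfl fun b _ => ?_
    congr 1
    rw [ker_K, ker_K]
    simp only
    rw [← smul_eq_mul, ← map_smul, ← map_sub]
    congr 1
    have e : star (h * a.1) * (h * b.1) = star a.1 * (star h * h) * b.1 := by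
      rw [star_mul]; noncomm_ring
    rw [e, hh, star_mul, mul_sub, sub_mul, mul_smul_comm, mul_one, smul_mul_assoc]
    congr 1
    noncomm_ring)

theorem lam_e (m a : M) (L : List M) : lam E m ((ker E).e (a, L)) = (ker E).e (m * a, L) :=
  (ker E).mapOp_e _ _ _ _

/-- right multiplication -/
def rho (m : M) : (ker E).H →L[ℂ] (ker E).H :=
  (ker E).mapOp (fun x => ml m x.1 x.2) ‖m‖ (by
    intro s c
    obtain ⟨h, hh⟩ := M.exists_compl (star m)
    rw [norm_star, star_star] at hh
    have := kk_pos' E (tm M.tr (star h) (star h)) (by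
      intro x
      rw [tm_apply, star_star]
      have := M.tr_nonneg (x * star h)
      rw [star_mul, star_star] at this
      convert this using 2
      noncomm_ring) s (fun x => x.1) (fun x => x.2) c
    convert this using 1
    refine Finset.sum_congr rfl fun a _ => Finset.sum_congr rfl fun b _ => ?_
    congr 1
    rw [ker_K, ker_K]
    have e1 := kk_ml E.E M.tr m m a.2 b.2 a.1 b.1 1
    rw [mul_one, mul_one] at e1
    rw [e1]
    have e2 : tm M.tr (star h) (star h) = ((‖m‖ ^ 2 : ℝ) : ℂ) • M.tr - tm M.tr m m := by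
      refine LinearMap.ext fun c => ?_
      rw [LinearMap.sub_apply, LinearMap.smul_apply, tm_apply, tm_apply, star_star,
        mul_assoc, M.tr_comm, mul_assoc, hh, mul_sub, mul_smul_comm, mul_one, map_sub, map_smul]
      congr 1
      rw [← mul_assoc, ← M.tr_comm, mul_assoc]
    rw [e2, kk_lin_t])

theorem rho_e (m a : M) (L : List M) : rho E m ((ker E).e (a, L)) = (ker E).e (ml m a L) :=
  (ker E).mapOp_e _ _ _ _

/-- left creation -/
def cl : (ker E).H →L[ℂ] (ker E).H :=
  (ker E).mapOp (fun x => (1, x.1 :: x.2)) 1 (by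
    intro s c
    refine le_of_eq ?_
    symm
    refine Finset.sum_eq_zero fun a _ => Finset.sum_eq_zero fun b _ => ?_
    rw [ker_K, ker_K]
    simp [E.E_one])

theorem cl_e (a : M) (L : List M) : cl E ((ker E).e (a, L)) = (ker E).e (1, a :: L) :=
  (ker E).mapOp_e _ _ _ _

theorem norm_cl : ‖cl E‖ ≤ 1 := (ker E).norm_mapOp_le _ _ zero_le_one _

/-- right creation -/
def cr : (ker E).H →L[ℂ] (ker E).H :=
  (ker E).mapOp (fun x => (x.1, x.2 ++ [1])) 1 (by
    intro s c
    refine le_of_eq ?_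
    symm
    refine Finset.sum_eq_zero fun a _ => Finset.sum_eq_zero fun b _ => ?_
    rw [ker_K, ker_K]
    simp only [kk_append]
    have e : te E.E M.tr 1 1 = M.tr := by
      refine LinearMap.ext fun c => ?_
      rw [te_apply, star_one, one_mul, mul_one, E.tr_E]
    rw [e]
    simp)

theorem cr_e (a : M) (L : List M) : cr E ((ker E).e (a, L)) = (ker E).e (a, L ++ [1]) :=
  (ker E).mapOp_e _ _ _ _

/-! adjoints -/

theorem star_lam (m : M) : star (lam E m) = lam E (star m) := by
  refine (ker E).star_eq_of ?_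
  rintro ⟨a, L⟩ ⟨b, L'⟩
  rw [lam_e, lam_e, Ker.inner_e, Ker.inner_e, ker_K, ker_K]
  simp only
  rw [star_mul, mul_assoc]

theorem star_rho (m : M) : star (rho E m) = rho E (star m) := by
  refine (ker E).star_eq_of ?_
  rintro ⟨a, L⟩ ⟨b, L'⟩
  rw [rho_e, rho_e, Ker.inner_e, Ker.inner_e, ker_K, ker_K]
  simp only
  have e1 := kk_ml E.E M.tr m 1 L L' a b 1
  have e2 := kk_ml E.E M.tr 1 (star m) L L' a b 1
  simp only [ml_one, mul_one] at e1 e2
  rw [e1, e2]
  congr 2
  refine LinearMap.ext fun c => ?_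
  rw [tm_apply, tm_apply, star_one, one_mul, mul_one, M.tr_comm]

theorem star_cl_e_nil (a : M) : star (cl E) ((ker E).e (a, [])) = 0 := by
  refine (ker E).ext_inner ?_
  rintro ⟨x, L⟩
  rw [star_eq_adjoint, adjoint_inner_right, cl_e, Ker.inner_e, ker_K, inner_zero_right]
  simp

theorem star_cl_e_cons (a b : M) (L : List M) :
    star (cl E) ((ker E).e (a, b :: L)) = (ker E).e (E.E a * b, L) := by
  refine (ker E).ext_inner ?_
  rintro ⟨x, L1⟩
  rw [star_eq_adjoint, adjoint_inner_right, cl_e, Ker.inner_e, Ker.inner_e, ker_K, ker_K]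
  simp only [star_one, one_mul, kk_cons]
  rw [mul_assoc]

theorem star_cr_e_nil (a : M) : star (cr E) ((ker E).e (a, [])) = 0 := by
  refine (ker E).ext_inner ?_
  rintro ⟨x, L⟩
  rw [star_eq_adjoint, adjoint_inner_right, cr_e, Ker.inner_e, ker_K, inner_zero_right]
  cases L <;> simp

theorem star_cr_e_append (a b : M) (L : List M) :
    star (cr E) ((ker E).e (a, L ++ [b])) = (ker E).e (ml (E.E b) a L) := by
  refine (ker E).ext_inner ?_
  rintro ⟨x, L1⟩
  rw [star_eq_adjoint, adjoint_inner_right, cr_e, Ker.inner_e, Ker.inner_e, ker_K, ker_K]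
  simp only [kk_append]
  have e1 := kk_ml E.E M.tr 1 (E.E b) L1 L x a 1
  simp only [ml_one, mul_one] at e1
  rw [e1]
  congr 2
  refine LinearMap.ext fun c => ?_
  rw [te_apply, tm_apply, star_one, one_mul, one_mul, E.tr_mul]

/-! commutation relations -/

theorem mA {H : Type} [NormedAddCommGroup H] [InnerProductSpace ℂ H] (S T : H →L[ℂ] H) (x : H) :
    (S * T) x = S (T x) := rfl

theorem comm_lam_rho (m m' : M) : lam E m * rho E m' = rho E m' * lam E m := by
  refine (ker E).ext_e ?_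
  rintro ⟨a, L⟩
  rw [mA, mA, lam_e E m a L, rho_e, rho_e]
  cases L with
  | nil => rw [ml_nil, ml_nil, lam_e, mul_assoc]
  | cons b L => rw [ml_cons, ml_cons, lam_e]

theorem comm_lam_cr (m : M) : lam E m * cr E = cr E * lam E m := by
  refine (ker E).ext_e ?_
  rintro ⟨a, L⟩
  rw [mA, mA, cr_e, lam_e, lam_e, cr_e]

theorem comm_cl_rho (m : M) : cl E * rho E m = rho E m * cl E := by
  refine (ker E).ext_e ?_
  rintro ⟨a, L⟩
  rw [mA, mA, cl_e, rho_e, rho_e]
  rw [ml_cons]
  exact cl_e E _ _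

theorem comm_cl_cr : cl E * cr E = cr E * cl E := by
  refine (ker E).ext_e ?_
  rintro ⟨a, L⟩
  rw [mA, mA, cl_e, cr_e, cr_e, cl_e]
  rfl

theorem comm_lam_star_cr (m : M) : lam E m * star (cr E) = star (cr E) * lam E m := by
  have := congrArg star (comm_lam_cr E (star m))
  rw [star_mul, star_mul, star_lam, star_star] at this
  exact this.symm

theorem comm_star_cl_rho (m : M) : star (cl E) * rho E m = rho E m * star (cl E) := by
  have := congrArg star (comm_cl_rho E (star m))
  rw [star_mul, star_mul, star_rho, star_star] at this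
  exact this.symm

theorem comm_star_cl_star_cr : star (cl E) * star (cr E) = star (cr E) * star (cl E) := by
  have := congrArg star (comm_cl_cr E)
  rw [star_mul, star_mul] at this
  exact this.symm

/-- left semicircular -/
def Xl : (ker E).H →L[ℂ] (ker E).H := cl E + star (cl E)

/-- right semicircular -/
def Xr : (ker E).H →L[ℂ] (ker E).H := cr E + star (cr E)

theorem star_Xl : star (Xl E) = Xl E := by
  rw [Xl, star_add, star_star, add_comm]

theorem star_Xr : star (Xr E) = Xr E := by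
  rw [Xr, star_add, star_star, add_comm]

theorem comm_lam_Xr (m : M) : lam E m * Xr E = Xr E * lam E m := by
  rw [Xr, mul_add, add_mul, comm_lam_cr, comm_lam_star_cr]

theorem comm_Xl_rho (m : M) : Xl E * rho E m = rho E m * Xl E := by
  rw [Xl, mul_add, add_mul, comm_cl_rho, comm_star_cl_rho]

theorem comm_Xl_Xr : Xl E * Xr E = Xr E * Xl E := by
  have key : cl E * star (cr E) + star (cl E) * cr E =
      cr E * star (cl E) + star (cr E) * cl E := by
    refine (ker E).ext_e ?_
    rintro ⟨a, L⟩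
    simp only [add_apply, mA]
    rcases List.eq_nil_or_concat L with rfl | ⟨L2, b, rfl⟩
    · have h1 : star (cr E) ((ker E).e (1, [a])) = (ker E).e (ml (E.E a) 1 []) :=
        star_cr_e_append E 1 a []
      rw [star_cr_e_nil, star_cl_e_nil, cl_e, cr_e, h1, map_zero, map_zero, List.nil_append,
        star_cl_e_cons, ml_nil, one_mul, mul_one]
    · have h1 : cl E (star (cr E) ((ker E).e (a, L2.concat b))) =
          star (cr E) (cl E ((ker E).e (a, L2.concat b))) := by
        rw [List.concat_eq_append, star_cr_e_append, cl_e E a]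
        have h2 : star (cr E) ((ker E).e (1, a :: (L2 ++ [b]))) =
            (ker E).e (ml (E.E b) 1 (a :: L2)) := star_cr_e_append E 1 b (a :: L2)
        have h3 : cl E ((ker E).e (ml (E.E b) a L2)) =
            (ker E).e (1, (ml (E.E b) a L2).1 :: (ml (E.E b) a L2).2) := cl_e E _ _
        rw [h2, h3, ml_cons]
      have h2 : star (cl E) (cr E ((ker E).e (a, L2.concat b))) =
          cr E (star (cl E) ((ker E).e (a, L2.concat b))) := by
        rw [List.concat_eq_append]
        rcases hL : L2 ++ [b] with _ | ⟨b1, L1⟩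
        · simp at hL
        · rw [cr_e, star_cl_e_cons, cr_e, List.cons_append, star_cl_e_cons]
      rw [h1, h2]
      abel
  rw [Xl, Xr, mul_add, add_mul, add_mul, mul_add, add_mul, add_mul, comm_cl_cr,
    comm_star_cl_star_cr]
  have e1 : cr E * cl E + star (cl E) * cr E + (cl E * star (cr E) + star (cr E) * star (cl E)) =
      (cl E * star (cr E) + star (cl E) * cr E) + (cr E * cl E + star (cr E) * star (cl E)) := by
    abel
  rw [e1, key]
  abel

/-- elements of the algebra commute with the semicircular -/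
theorem comm_lam_cl {m : M} (hm : m ∈ A) : lam E m * cl E = cl E * lam E m := by
  refine (ker E).ext_e ?_
  rintro ⟨a, L⟩
  rw [mA, mA, cl_e, lam_e, lam_e, cl_e]
  refine (ker E).ext_inner ?_
  rintro ⟨x, L1⟩
  rw [Ker.inner_e, Ker.inner_e, ker_K, ker_K]
  cases L1 with
  | nil => simp
  | cons x1 L1 =>
    simp only [kk_cons, mul_one]
    have e : E.E (star x * m) = E.E (star x) * m := by
      have h1 := E.mul_right (star x) m
      rw [E.of_mem m hm] at h1
      exact h1
    rw [e]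
    congr 1
    noncomm_ring

theorem comm_lam_Xl {m : M} (hm : m ∈ A) : lam E m * Xl E = Xl E * lam E m := by
  have h1 : lam E m * star (cl E) = star (cl E) * lam E m := by
    have := congrArg star (comm_lam_cl E (star_mem hm))
    rw [star_mul, star_mul, star_lam, star_star] at this
    exact this.symm
  rw [Xl, mul_add, add_mul, comm_lam_cl E hm, h1]

/-! `lam` is a star homomorphism -/

theorem e_add (a b : M) (L : List M) :
    (ker E).e (a + b, L) = (ker E).e (a, L) + (ker E).e (b, L) := by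
  refine (ker E).ext_inner ?_
  rintro ⟨x, L1⟩
  rw [inner_add_right, Ker.inner_e, Ker.inner_e, Ker.inner_e, ker_K, ker_K, ker_K]
  simp only [mul_add, map_add]

theorem e_smul (r : ℂ) (a : M) (L : List M) :
    (ker E).e (r • a, L) = r • (ker E).e (a, L) := by
  refine (ker E).ext_inner ?_
  rintro ⟨x, L1⟩
  rw [inner_smul_right, Ker.inner_e, Ker.inner_e, ker_K, ker_K]
  simp only [mul_smul_comm, map_smul, smul_eq_mul]

theorem e_zero (L : List M) : (ker E).e (0, L) = 0 := by
  have := e_smul E 0 0 L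
  rwa [zero_smul, zero_smul] at this

/-- the star homomorphism -/
def lamHom : M →⋆ₐ[ℂ] ((ker E).H →L[ℂ] (ker E).H) where
  toFun := lam E
  map_one' := by
    refine (ker E).ext_e ?_
    rintro ⟨a, L⟩
    rw [lam_e, one_mul]; rfl
  map_mul' x y := by
    refine (ker E).ext_e ?_
    rintro ⟨a, L⟩
    rw [mA, lam_e, lam_e, lam_e, mul_assoc]
  map_zero' := by
    refine (ker E).ext_e ?_
    rintro ⟨a, L⟩
    rw [lam_e, zero_mul, e_zero]; rfl
  map_add' x y := by
    refine (ker E).ext_e ?_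
    rintro ⟨a, L⟩
    rw [add_apply, lam_e, lam_e, lam_e, add_mul, e_add]
  commutes' r := by
    refine (ker E).ext_e ?_
    rintro ⟨a, L⟩
    rw [lam_e, Algebra.algebraMap_eq_smul_one, smul_mul_assoc, one_mul, e_smul,
      Algebra.algebraMap_eq_smul_one]
    rfl
  map_star' x := (star_lam E x).symm

theorem lamHom_apply (m : M) : lamHom E m = lam E m := rfl

/-- the vacuum -/
def Om : (ker E).H := (ker E).e (1, [])

theorem lam_Om (m : M) : lam E m (Om E) = (ker E).e (m, []) := by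
  rw [Om, lam_e, mul_one]

theorem rho_Om (m : M) : rho E m (Om E) = (ker E).e (m, []) := by
  rw [Om, rho_e, ml_nil, one_mul]

theorem Xl_Om : Xl E (Om E) = (ker E).e (1, [1]) := by
  rw [Om, Xl, add_apply, star_cl_e_nil, add_zero, cl_e]

theorem Xr_Om : Xr E (Om E) = (ker E).e (1, [1]) := by
  rw [Om, Xr, add_apply, star_cr_e_nil, add_zero, cr_e]; rfl

theorem norm_Om : ‖Om E‖ = 1 := by
  have h := inner_self_eq_norm_sq_to_K (𝕜 := ℂ) (Om E)
  rw [Om, Ker.inner_e, ker_K] at h
  simp only [star_one, mul_one, kk_nil, M.tr_one] at h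
  have h2 : ‖(ker E).e ((1 : M), [])‖ ^ 2 = 1 := by
    have h5 : ((‖(ker E).e ((1 : M), [])‖ ^ 2 : ℝ) : ℂ) = 1 := by
      rw [Complex.ofReal_pow]; exact h.symm
    exact_mod_cast h5
  have h3 : ‖(ker E).e ((1 : M), [])‖ = 1 := by
    have := norm_nonneg ((ker E).e ((1 : M), []))
    nlinarith
  exact h3

/-- the left algebra -/
def LA : StarSubalgebra ℂ ((ker E).H →L[ℂ] (ker E).H) :=
  StarSubalgebra.centralizer ℂ (Set.range (rho E) ∪ {Xr E})

/-- the right algebra -/
def RA : StarSubalgebra ℂ ((ker E).H →L[ℂ] (ker E).H) :=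
  StarSubalgebra.centralizer ℂ (LA E : Set ((ker E).H →L[ℂ] (ker E).H))

theorem lam_mem_LA (m : M) : lam E m ∈ LA E := by
  rw [LA, StarSubalgebra.mem_centralizer_iff]
  rintro g (⟨m', rfl⟩ | rfl)
  · rw [star_rho]
    exact ⟨(comm_lam_rho E m m').symm, (comm_lam_rho E m (star m')).symm⟩
  · rw [star_Xr]
    exact ⟨(comm_lam_Xr E m).symm, (comm_lam_Xr E m).symm⟩

theorem Xl_mem_LA : Xl E ∈ LA E := by
  rw [LA, StarSubalgebra.mem_centralizer_iff]
  rintro g (⟨m', rfl⟩ | rfl)
  · rw [star_rho]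
    exact ⟨(comm_Xl_rho E m').symm, (comm_Xl_rho E (star m')).symm⟩
  · rw [star_Xr]
    exact ⟨(comm_Xl_Xr E).symm, (comm_Xl_Xr E).symm⟩

theorem mem_RA_of {T : (ker E).H →L[ℂ] (ker E).H} (hT : ∀ U ∈ LA E, U * T = T * U) :
    T ∈ RA E := by
  rw [RA, StarSubalgebra.mem_centralizer_iff]
  intro g hg
  exact ⟨hT g hg, hT _ (star_mem hg)⟩

theorem rho_mem_RA (m : M) : rho E m ∈ RA E := by
  refine mem_RA_of E fun U hU => ?_
  rw [LA, StarSubalgebra.mem_centralizer_iff] at hU
  exact ((hU (rho E m) (Or.inl ⟨m, rfl⟩)).1).symm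

theorem Xr_mem_RA : Xr E ∈ RA E := by
  refine mem_RA_of E fun U hU => ?_
  rw [LA, StarSubalgebra.mem_centralizer_iff] at hU
  exact ((hU (Xr E) (Or.inr rfl)).1).symm

/-- index type of the standard form -/
def Idx : Type := {p : ((ker E).H →L[ℂ] (ker E).H) × ((ker E).H →L[ℂ] (ker E).H) //
  p.1 ∈ LA E ∧ p.2 ∈ RA E ∧ p.1 (Om E) = p.2 (Om E) ∧ (star p.1) (Om E) = (star p.2) (Om E)}

/-- index of left multiplication -/
def iLam (m : M) : Idx E := ⟨(lam E m, rho E m), lam_mem_LA E m, rho_mem_RA E m, by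
  rw [lam_Om, rho_Om], by rw [star_lam, star_rho, lam_Om, rho_Om]⟩

/-- index of the semicircular -/
def iX : Idx E := ⟨(Xl E, Xr E), Xl_mem_LA E, Xr_mem_RA E, by
  rw [Xl_Om, Xr_Om], by rw [star_Xl, star_Xr, Xl_Om, Xr_Om]⟩

theorem comm_LR {T U : (ker E).H →L[ℂ] (ker E).H} (hT : T ∈ LA E) (hU : U ∈ RA E) :
    T * U = U * T := by
  rw [RA, StarSubalgebra.mem_centralizer_iff] at hU
  exact (hU T hT).1

theorem comm_LR_apply {T U : (ker E).H →L[ℂ] (ker E).H} (hT : T ∈ LA E) (hU : U ∈ RA E)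
    (x : (ker E).H) : T (U x) = U (T x) :=
  congrArg (fun f : (ker E).H →L[ℂ] (ker E).H => f x) (comm_LR E hT hU)

/-- the orbit of the vacuum -/
def orb : Submodule ℂ (ker E).H where
  carrier := Set.range fun p : Idx E => p.1.1 (Om E)
  zero_mem' := ⟨⟨(0, 0), zero_mem _, zero_mem _, rfl, by simp⟩, rfl⟩
  add_mem' := by
    rintro _ _ ⟨⟨⟨T1, U1⟩, h1, h2, h3, h4⟩, rfl⟩ ⟨⟨⟨T2, U2⟩, h5, h6, h7, h8⟩, rfl⟩
    simp only at h1 h2 h3 h4 h5 h6 h7 h8
    refine ⟨⟨(T1 + T2, U1 + U2), add_mem h1 h5, add_mem h2 h6, ?_, ?_⟩, rfl⟩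
    · simp only [add_apply, h3, h7]
    · simp only [star_add, add_apply, h4, h8]
  smul_mem' := by
    rintro c _ ⟨⟨⟨T1, U1⟩, h1, h2, h3, h4⟩, rfl⟩
    simp only at h1 h2 h3 h4
    refine ⟨⟨(c • T1, c • U1), SMulMemClass.smul_mem c h1, SMulMemClass.smul_mem c h2, ?_, ?_⟩, rfl⟩
    · simp only [smul_apply, h3]
    · simp only [star_smul, smul_apply, h4]

theorem orb_mul (p : Idx E) {v : (ker E).H} (hv : v ∈ orb E) : p.1.1 v ∈ orb E := by
  obtain ⟨⟨⟨T1, U1⟩, h1, h2, h3, h4⟩, rfl⟩ := hv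
  obtain ⟨⟨T2, U2⟩, h5, h6, h7, h8⟩ := p
  simp only at h1 h2 h3 h4 h5 h6 h7 h8
  refine ⟨⟨(T2 * T1, U1 * U2), mul_mem h5 h1, mul_mem h2 h6, ?_, ?_⟩, rfl⟩
  · simp only [mA]
    rw [h3, comm_LR_apply E h5 h2, h7]
  · simp only [star_mul, mA]
    rw [h8, comm_LR_apply E (star_mem h1) (star_mem h6), h4]

theorem e_mem_orb (n : ℕ) : ∀ (a : M) (L : List M), L.length ≤ n → (ker E).e (a, L) ∈ orb E := by
  induction n with
  | zero =>
    intro a L hL
    rw [List.length_eq_zero_iff.1 (Nat.le_zero.1 hL)]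
    exact ⟨iLam E a, lam_Om E a⟩
  | succ n ih =>
    intro a L hL
    cases L with
    | nil => exact ⟨iLam E a, lam_Om E a⟩
    | cons b L =>
      have hL' : L.length ≤ n := by simpa using hL
      have h1 : (ker E).e (1, b :: L) ∈ orb E := by
        have h2 : (ker E).e (1, b :: L) = Xl E ((ker E).e (b, L)) -
            star (cl E) ((ker E).e (b, L)) := by
          rw [Xl, add_apply, cl_e, add_sub_cancel_right]
        rw [h2]
        refine sub_mem (orb_mul E (iX E) (ih b L hL')) ?_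
        cases L with
        | nil => rw [star_cl_e_nil]; exact zero_mem _
        | cons c L =>
          rw [star_cl_e_cons]
          exact ih _ _ (by simp at hL'; omega)
      have h3 := orb_mul E (iLam E a) h1
      have h4 : (iLam E a).1.1 ((ker E).e (1, b :: L)) = (ker E).e (a, b :: L) := by
        show lam E a _ = _
        rw [lam_e, mul_one]
      rwa [h4] at h3

theorem dense_orb : DenseRange fun p : Idx E => p.1.1 (Om E) := by
  have h1 := (ker E).denseRange_emb
  refine Dense.mono ?_ h1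
  rintro _ ⟨f, rfl⟩
  rw [Ker.emb_eq_sum]
  show _ ∈ orb E
  refine Submodule.sum_mem _ fun x _ => Submodule.smul_mem _ _ ?_
  exact e_mem_orb E x.2.length x.1 x.2 le_rfl

/-- the standard form -/
def std : StdData (ker E).H (Idx E) where
  l p := p.1.1
  r p := p.1.2
  inv p := ⟨(star p.1.1, star p.1.2), star_mem p.2.1, star_mem p.2.2.1, p.2.2.2.2, by
    rw [star_star, star_star]; exact p.2.2.2.1⟩
  Ω := Om E
  norm_Ω := norm_Om E
  hl _ := rfl
  hr _ := rfl
  comm a b := comm_LR E a.2.1 b.2.2.1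
  vac a := a.2.2.2.1
  dense := dense_orb E

end Fock

open Fock in
theorem exists_semicircular (M : TVN) (A : StarSubalgebra ℂ M) (E : CondExp M A) :
    ∃ (P : TVN) (ι : M →⋆ₐ[ℂ] P) (y : P), (∀ x, P.tr (ι x) = M.tr x) ∧ ‖y‖ ≤ 1 ∧
      (∀ a ∈ A, ι a * y = y * ι a) ∧
      ∀ x, M.n2 (x - E.E x) ^ 2 = 2 * P.n2 (ι x * y - y * ι x) ^ 2 := by
  have hlam : ∀ m, lamHom E m ∈ (std E).alg := fun m => (std E).l_mem (iLam E m)
  have hX : (2⁻¹ : ℂ) • Xl E ∈ (std E).alg :=
    SMulMemClass.smul_mem _ ((std E).l_mem (iX E))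
  obtain ⟨y, hy⟩ := (std E).exists_incl hX
  have hincl : ∀ x, (std E).incl ((std E).lift (lamHom E) hlam x) = lam E x := fun x => rfl
  refine ⟨(std E).tvn, (std E).lift (lamHom E) hlam, y, ?_, ?_, ?_, ?_⟩
  · intro x
    rw [StdData.tr_eq, hincl]
    show ⟪Om E, lam E x (Om E)⟫_ℂ = _
    rw [lam_Om, Om, Ker.inner_e, ker_K]
    simp
  · rw [← StdData.norm_incl, hy, norm_smul]
    have h1 : ‖Xl E‖ ≤ 2 := by
      rw [Xl]
      refine (norm_add_le _ _).trans ?_
      have h3 : ‖star (cl E)‖ = ‖cl E‖ := by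
        rw [star_eq_adjoint]; exact LinearIsometryEquiv.norm_map _ _
      rw [h3]
      linarith [norm_cl E]
    have h2 : ‖(2⁻¹ : ℂ)‖ = 2⁻¹ := by simp
    rw [h2]
    linarith
  · intro a ha
    apply (std E).incl_injective
    rw [map_mul, map_mul, hincl, hy, mul_smul_comm, smul_mul_assoc, comm_lam_Xl E ha]
  · intro x
    have h1 : (std E).tvn.n2 ((std E).lift (lamHom E) hlam x * y -
        y * (std E).lift (lamHom E) hlam x) ^ 2 =
        4⁻¹ * ‖(ker E).e (x, [1]) - (ker E).e (1, [x])‖ ^ 2 := by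
      rw [StdData.n2_eq, map_sub, map_mul, map_mul, hincl, hy]
      have e1 : (lam E x * (2⁻¹ : ℂ) • Xl E - ((2⁻¹ : ℂ) • Xl E) * lam E x) (Om E) =
          (2⁻¹ : ℂ) • ((ker E).e (x, [1]) - (ker E).e (1, [x])) := by
        rw [sub_apply, mA, mA, smul_apply, smul_apply, map_smul, Xl_Om, lam_e,
          lam_Om, Xl, add_apply, cl_e, star_cl_e_nil, add_zero, mul_one, smul_sub]
      have e2 : (std E).Ω = Om E := rfl
      rw [e2, e1, norm_smul]
      have h2 : ‖(2⁻¹ : ℂ)‖ = 2⁻¹ := by simp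
      rw [h2, mul_pow]
      norm_num
    rw [h1]
    have h2 : ∀ v w : (ker E).H, ‖v - w‖ ^ 2 = (⟪v, v⟫_ℂ).re - 2 * (⟪v, w⟫_ℂ).re + (⟪w, w⟫_ℂ).re := by
      intro v w
      have := @norm_sub_sq ℂ _ _ _ _ v w
      rw [this, inner_self_eq_norm_sq_to_K, inner_self_eq_norm_sq_to_K]
      simp [← Complex.ofReal_pow]
    have hEx : M.tr (E.E (star x) * x) = ((M.n2 (E.E x) ^ 2 : ℝ) : ℂ) := by
      rw [← E.tr_E, E.mul_left, E.map_star, TVN.tr_star_mul_self]
    rw [h2, Ker.inner_e, Ker.inner_e, Ker.inner_e, ker_K, ker_K, ker_K]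
    simp only [kk_cons, kk_nil, star_one, one_mul, mul_one, E.E_one, E.tr_E]
    rw [hEx, TVN.tr_star_mul_self, M.n2_sub_sq]
    have hxE : M.tr (star x * E.E x) = ((M.n2 (E.E x) ^ 2 : ℝ) : ℂ) := by
      rw [← E.tr_mul, hEx]
    rw [hxE]
    simp only [Complex.ofReal_re]
    ring

end Pool.Agent.Lib.EcII
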