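import Pool.Agent.Lib.EcII.Basic

/-!
# Star polynomials and moments
-/

open scoped ComplexOrder

noncomputable section

namespace Pool.Agent.Lib.EcII

namespace TVN

variable {M : TVN} {J : Type*}

/-- evaluation of a star polynomial -/
def evp (v : J → M) (Q : List (J × Bool) →₀ ℂ) : M := Q.sum fun w c => c • ev v w

@[simp] theorem evp_zero (v : J → M) : evp v 0 = 0 := by simp [evp]

theorem evp_single (v : J → M) (w : List (J × Bool)) (c : ℂ) :
    evp v (Finsupp.single w c) = c • ev v w := by simp [evp]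

theorem evp_add (v : J → M) (P Q : List (J × Bool) →₀ ℂ) : evp v (P + Q) = evp v P + evp v Q := by
  classical
  unfold evp
  rw [Finsupp.sum_add_index'] <;> simp [add_smul]

theorem evp_smul (v : J → M) (c : ℂ) (Q : List (J × Bool) →₀ ℂ) :
    evp v (c • Q) = c • evp v Q := by
  unfold evp
  rw [Finsupp.sum_smul_index (by simp), Finsupp.smul_sum]
  refine Finsupp.sum_congr fun w _ => ?_
  rw [smul_smul]

theorem evp_neg (v : J → M) (Q : List (J × Bool) →₀ ℂ) : evp v (-Q) = -evp v Q := by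
  have := evp_smul v (-1) Q
  simpa using this

theorem evp_sub (v : J → M) (P Q : List (J × Bool) →₀ ℂ) : evp v (P - Q) = evp v P - evp v Q := by
  rw [sub_eq_add_neg, evp_add, evp_neg, sub_eq_add_neg]

theorem evp_sum (v : J → M) {I : Type*} (s : Finset I) (Q : I → List (J × Bool) →₀ ℂ) :
    evp v (∑ i ∈ s, Q i) = ∑ i ∈ s, evp v (Q i) := by
  classical
  induction s using Finset.induction_on with
  | empty => simp
  | insert a s ha ih => rw [Finset.sum_insert ha, Finset.sum_insert ha, evp_add, ih]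

/-- product of star polynomials -/
def pmul (P Q : List (J × Bool) →₀ ℂ) : List (J × Bool) →₀ ℂ :=
  P.sum fun a x => Q.sum fun b y => Finsupp.single (a ++ b) (x * y)

theorem evp_pmul (v : J → M) (P Q : List (J × Bool) →₀ ℂ) :
    evp v (pmul P Q) = evp v P * evp v Q := by
  unfold pmul
  simp only [Finsupp.sum]
  rw [evp_sum]
  conv_rhs => rw [evp, evp]
  simp only [Finsupp.sum]
  rw [Finset.sum_mul_sum]
  refine Finset.sum_congr rfl fun a _ => ?_
  rw [evp_sum]
  refine Finset.sum_congr rfl fun b _ => ?_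
  rw [evp_single, ev_append, smul_mul_smul_comm]

/-- adjoint of a star polynomial -/
def pstar (P : List (J × Bool) →₀ ℂ) : List (J × Bool) →₀ ℂ :=
  P.sum fun a x => Finsupp.single (wstar a) (star x)

theorem evp_pstar (v : J → M) (P : List (J × Bool) →₀ ℂ) : evp v (pstar P) = star (evp v P) := by
  unfold pstar
  simp only [Finsupp.sum]
  rw [evp_sum]
  conv_rhs => rw [evp]
  simp only [Finsupp.sum]
  rw [star_sum]
  refine Finset.sum_congr rfl fun a _ => ?_
  rw [evp_single, ev_wstar, star_smul]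

/-- the polynomial of a letter -/
def X (j : J) : List (J × Bool) →₀ ℂ := Finsupp.single [(j, false)] 1

theorem evp_X (v : J → M) (j : J) : evp v (X j) = v j := by
  rw [X, evp_single, one_smul, ev_cons, ev_nil, mul_one, letter_false]

theorem evp_one (v : J → M) : evp v (Finsupp.single [] 1) = 1 := by
  rw [evp_single, ev_nil, one_smul]

/-- commutator polynomial -/
def pcomm (P Q : List (J × Bool) →₀ ℂ) : List (J × Bool) →₀ ℂ := pmul P Q - pmul Q P

theorem evp_pcomm (v : J → M) (P Q : List (J × Bool) →₀ ℂ) :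
    evp v (pcomm P Q) = evp v P * evp v Q - evp v Q * evp v P := by
  rw [pcomm, evp_sub, evp_pmul, evp_pmul]

theorem evp_comp {K : Type*} (f : K → J) (v : J → M) (Q : List (K × Bool) →₀ ℂ) :
    evp (v ∘ f) Q = evp v (Q.mapDomain (fun w => w.map (Prod.map f id))) := by
  unfold evp
  rw [Finsupp.sum_mapDomain_index (by simp) (by simp [add_smul])]
  refine Finsupp.sum_congr fun w _ => ?_
  rw [ev_map]

theorem map_evp {P : TVN} (ι : M →⋆ₐ[ℂ] P) (v : J → M) (Q : List (J × Bool) →₀ ℂ) :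
    ι (evp v Q) = evp (fun j => ι (v j)) Q := by
  unfold evp
  rw [map_finsuppSum]
  refine Finsupp.sum_congr fun w _ => ?_
  rw [map_smul, map_ev]

theorem tr_evp (v : J → M) (Q : List (J × Bool) →₀ ℂ) :
    M.tr (evp v Q) = Q.sum fun w c => c * M.law v w := by
  unfold evp
  rw [map_finsuppSum]
  refine Finsupp.sum_congr fun w _ => ?_
  rw [map_smul, smul_eq_mul]; rfl

/-- moments of polynomials are close if finitely many moments are close -/
theorem exists_tr_evp_close (Q : List (J × Bool) →₀ ℂ) {ε : ℝ} (hε : 0 < ε) :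
    ∃ δ > 0, ∀ (M M' : TVN) (v : J → M) (v' : J → M'),
      (∀ w ∈ Q.support, ‖M.law v w - M'.law v' w‖ ≤ δ) →
      ‖M.tr (evp v Q) - M'.tr (evp v' Q)‖ < ε := by
  have hS : 0 ≤ ∑ w ∈ Q.support, ‖Q w‖ := Finset.sum_nonneg fun _ _ => norm_nonneg _
  refine ⟨ε / (2 * (∑ w ∈ Q.support, ‖Q w‖ + 1)), by positivity, fun M M' v v' h => ?_⟩
  rw [tr_evp, tr_evp, Finsupp.sum, Finsupp.sum, ← Finset.sum_sub_distrib]
  calc ‖∑ w ∈ Q.support, (Q w * M.law v w - Q w * M'.law v' w)‖
      ≤ ∑ w ∈ Q.support, ‖Q w‖ * (ε / (2 * (∑ w ∈ Q.support, ‖Q w‖ + 1))) := by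
        refine norm_sum_le_of_le _ fun w hw => ?_
        rw [← mul_sub, norm_mul]
        exact mul_le_mul_of_nonneg_left (h w hw) (norm_nonneg _)
    _ = (∑ w ∈ Q.support, ‖Q w‖) * (ε / (2 * (∑ w ∈ Q.support, ‖Q w‖ + 1))) := by
        rw [Finset.sum_mul]
    _ < ε := by
        rw [mul_div_assoc', div_lt_iff₀ (by positivity)]
        nlinarith

/-- trace norms of polynomials are close if finitely many moments are close -/
theorem exists_n2_evp_close (Q : List (J × Bool) →₀ ℂ) {ε : ℝ} (hε : 0 < ε) :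
    ∃ (W : Finset (List (J × Bool))) (δ : ℝ), 0 < δ ∧ ∀ (M M' : TVN) (v : J → M) (v' : J → M'),
      (∀ w ∈ W, ‖M.law v w - M'.law v' w‖ ≤ δ) →
      |M.n2 (evp v Q) - M'.n2 (evp v' Q)| < ε := by
  obtain ⟨δ, hδ, h⟩ := exists_tr_evp_close (pmul (pstar Q) Q) (ε := ε ^ 2) (by positivity)
  refine ⟨(pmul (pstar Q) Q).support, δ, hδ, fun M M' v v' hw => ?_⟩
  have h1 := h M M' v v' hw
  rw [evp_pmul, evp_pstar, evp_pmul, evp_pstar, tr_star_mul_self, tr_star_mul_self,
    ← Complex.ofReal_sub, Complex.norm_real, Real.norm_eq_abs] at h1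
  set a := M.n2 (evp v Q) with ha
  set b := M'.n2 (evp v' Q) with hb
  have ha0 : 0 ≤ a := M.n2_nonneg _
  have hb0 : 0 ≤ b := M'.n2_nonneg _
  by_contra hlt
  push Not at hlt
  have h2 : ε ^ 2 ≤ |a - b| ^ 2 := pow_le_pow_left₀ hε.le hlt 2
  have h3 : |a - b| ^ 2 ≤ |a ^ 2 - b ^ 2| := by
    have : a ^ 2 - b ^ 2 = (a - b) * (a + b) := by ring
    rw [this, abs_mul, sq]
    refine mul_le_mul_of_nonneg_left ?_ (abs_nonneg _)
    rw [abs_of_nonneg (add_nonneg ha0 hb0)]
    rw [abs_le]; constructor <;> linarith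
  linarith

/-- several polynomials at once -/
theorem exists_n2_evp_close' (S : Finset (List (J × Bool) →₀ ℂ)) {ε : ℝ} (hε : 0 < ε) :
    ∃ (W : Finset (List (J × Bool))) (δ : ℝ), 0 < δ ∧ ∀ (M M' : TVN) (v : J → M) (v' : J → M'),
      (∀ w ∈ W, ‖M.law v w - M'.law v' w‖ ≤ δ) →
      ∀ Q ∈ S, |M.n2 (evp v Q) - M'.n2 (evp v' Q)| < ε := by
  classical
  induction S using Finset.induction_on with
  | empty => exact ⟨∅, 1, one_pos, fun _ _ _ _ _ Q hQ => by simp at hQ⟩
  | insert Q S hQ ih =>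
    obtain ⟨W₁, δ₁, hδ₁, h₁⟩ := ih
    obtain ⟨W₂, δ₂, hδ₂, h₂⟩ := exists_n2_evp_close Q hε
    refine ⟨W₁ ∪ W₂, min δ₁ δ₂, lt_min hδ₁ hδ₂, fun M M' v v' h Q' hQ' => ?_⟩
    rcases Finset.mem_insert.1 hQ' with rfl | hQ'
    · exact h₂ M M' v v' fun w hw =>
        (h w (Finset.mem_union_right _ hw)).trans (min_le_right _ _)
    · exact h₁ M M' v v' (fun w hw =>
        (h w (Finset.mem_union_left _ hw)).trans (min_le_left _ _)) Q' hQ'

/-- words of close bounded tuples are close -/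
theorem n2_ev_sub_le {v v' : J → M} {r η : ℝ} (hr : 1 ≤ r) (hη : 0 ≤ η) (hv : ∀ j, ‖v j‖ ≤ r)
    (hv' : ∀ j, ‖v' j‖ ≤ r) (h : ∀ j, M.n2 (v j - v' j) ≤ η) (w : List (J × Bool)) :
    M.n2 (ev v w - ev v' w) ≤ w.length * r ^ w.length * η ∧ ‖ev v w‖ ≤ r ^ w.length := by
  induction w with
  | nil => simp [n2_zero]
  | cons x w ih =>
    obtain ⟨ih1, ih2⟩ := ih
    have hl : ‖letter v x‖ ≤ r := by
      rcases x with ⟨j, e⟩; cases e <;> simp [hv j]
    have hl' : ‖letter v' x‖ ≤ r := by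
      rcases x with ⟨j, e⟩; cases e <;> simp [hv' j]
    have hd : M.n2 (letter v x - letter v' x) ≤ η := by
      rcases x with ⟨j, e⟩
      cases e
      · simpa using h j
      · simp only [letter_true]
        rw [← star_sub, n2_star]; exact h j
    have hr0 : 0 ≤ r := by linarith
    have hr1 : 0 ≤ r ^ w.length := pow_nonneg hr0 _
    constructor
    · rw [ev_cons, ev_cons]
      have e : letter v x * ev v w - letter v' x * ev v' w =
          (letter v x - letter v' x) * ev v w + letter v' x * (ev v w - ev v' w) := by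
        noncomm_ring
      rw [e]
      refine (M.n2_add_le _ _).trans ?_
      have h1 : M.n2 ((letter v x - letter v' x) * ev v w) ≤ η * r ^ w.length :=
        (M.n2_mul_le' _ _).trans (mul_le_mul hd ih2 (norm_nonneg _) hη)
      have h2 : M.n2 (letter v' x * (ev v w - ev v' w)) ≤ r * (w.length * r ^ w.length * η) :=
        (M.n2_mul_le _ _).trans (mul_le_mul hl' ih1 (M.n2_nonneg _) hr0)
      have h3 : r ^ w.length ≤ r ^ (w.length + 1) := pow_le_pow_right₀ hr (Nat.le_succ _)
      rw [List.length_cons]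
      push_cast
      calc _ ≤ η * r ^ w.length + r * (w.length * r ^ w.length * η) := add_le_add h1 h2
        _ ≤ η * r ^ (w.length + 1) + r * (w.length * r ^ w.length * η) := by gcongr
        _ = _ := by ring
    · rw [ev_cons, List.length_cons, pow_succ, mul_comm (r ^ w.length)]
      exact (norm_mul_le _ _).trans (mul_le_mul hl ih2 (norm_nonneg _) hr0)

/-- weights of words -/
def wt (ρ : J → ℝ) (w : List (J × Bool)) : ℝ := (w.map (fun x => ρ x.1)).prod

theorem ev_smul (ρ : J → ℝ) (v : J → M) (w : List (J × Bool)) :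
    ev (fun j => ((ρ j : ℝ) : ℂ) • v j) w = ((wt ρ w : ℝ) : ℂ) • ev v w := by
  induction w with
  | nil => simp [wt]
  | cons x w ih =>
    have h1 : wt ρ (x :: w) = ρ x.1 * wt ρ w := by simp [wt]
    have h2 : letter (fun j => ((ρ j : ℝ) : ℂ) • v j) x = ((ρ x.1 : ℝ) : ℂ) • letter v x := by
      rcases x with ⟨j, e⟩
      cases e
      · simp
      · simp [star_smul]
    rw [ev_cons, ev_cons, ih, h1, h2, smul_mul_smul_comm, Complex.ofReal_mul]

theorem law_smul (ρ : J → ℝ) (v : J → M) (w : List (J × Bool)) :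
    M.law (fun j => ((ρ j : ℝ) : ℂ) • v j) w = ((wt ρ w : ℝ) : ℂ) * M.law v w := by
  unfold law
  rw [ev_smul, map_smul, smul_eq_mul]

end TVN

end Pool.Agent.Lib.EcII
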