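import Pool.Agent.Lib.EcII.Cond
import Pool.Agent.Lib.EcII.Poly

/-!
# Kaplansky density for a generating tuple
-/

open scoped ComplexOrder

noncomputable section

namespace Pool.Agent.Lib.EcII

namespace TVN

variable {M : TVN} {J : Type*}

/-- the star subalgebra of values of star polynomials -/
def polyAlg (v : J → M) : StarSubalgebra ℂ M where
  carrier := Set.range (evp v)
  mul_mem' := by
    rintro _ _ ⟨P, rfl⟩ ⟨Q, rfl⟩
    exact ⟨pmul P Q, evp_pmul v P Q⟩
  one_mem' := ⟨Finsupp.single [] 1, evp_one v⟩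
  add_mem' := by
    rintro _ _ ⟨P, rfl⟩ ⟨Q, rfl⟩
    exact ⟨P + Q, evp_add v P Q⟩
  zero_mem' := ⟨0, evp_zero v⟩
  algebraMap_mem' := fun c => ⟨Finsupp.single [] c, by
    rw [evp_single, ev_nil, Algebra.algebraMap_eq_smul_one]⟩
  star_mem' := by
    rintro _ ⟨P, rfl⟩
    exact ⟨pstar P, evp_pstar v P⟩

/-- the norm closed star algebra generated by a tuple -/
def cAlg (v : J → M) : StarSubalgebra ℂ M := (polyAlg v).topologicalClosure

theorem isClosed_cAlg (v : J → M) : IsClosed (cAlg v : Set M) :=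
  StarSubalgebra.isClosed_topologicalClosure _

theorem evp_mem (v : J → M) (Q : List (J × Bool) →₀ ℂ) : evp v Q ∈ cAlg v :=
  StarSubalgebra.le_topologicalClosure _ ⟨Q, rfl⟩

theorem mem_cAlg_self (v : J → M) (j : J) : v j ∈ cAlg v := by
  rw [← evp_X v j]; exact evp_mem v _

theorem ev_mem (v : J → M) (w : List (J × Bool)) : ev v w ∈ cAlg v := by
  have := evp_mem v (Finsupp.single w 1)
  rwa [evp_single, one_smul] at this

/-- elements of the closed algebra are norm limits of polynomials with no larger norm bound -/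
theorem exists_evp_near (v : J → M) {a : M} (ha : a ∈ cAlg v) (h1 : ‖a‖ ≤ 1) {ε : ℝ}
    (hε : 0 < ε) : ∃ Q : List (J × Bool) →₀ ℂ, ‖evp v Q‖ ≤ 1 ∧ M.n2 (a - evp v Q) < ε := by
  have hcl : a ∈ closure (Set.range (evp v)) := ha
  obtain ⟨_, ⟨Q, rfl⟩, hQ⟩ := Metric.mem_closure_iff.1 hcl (ε / 2) (by positivity)
  rw [dist_eq_norm] at hQ
  have h2 : ‖evp v Q‖ ≤ 1 + ε / 2 := by
    have := norm_le_insert a (evp v Q)
    linarith
  have hpos : 0 < 1 + ε / 2 := by positivity
  refine ⟨(((1 + ε / 2)⁻¹ : ℝ) : ℂ) • Q, ?_, ?_⟩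
  · rw [evp_smul, norm_smul, Complex.norm_real, Real.norm_of_nonneg (by positivity),
      inv_mul_le_iff₀ hpos, mul_one]
    exact h2
  · rw [evp_smul]
    have e : a - (((1 + ε / 2)⁻¹ : ℝ) : ℂ) • evp v Q =
        (a - evp v Q) + ((1 - (1 + ε / 2)⁻¹ : ℝ) : ℂ) • evp v Q := by
      push_cast
      rw [sub_smul, one_smul]; abel
    rw [e]
    refine lt_of_le_of_lt (M.n2_add_le _ _) ?_
    have h3 : M.n2 (a - evp v Q) < ε / 2 := lt_of_le_of_lt (M.n2_le_norm _) hQ
    have h4 : M.n2 (((1 - (1 + ε / 2)⁻¹ : ℝ) : ℂ) • evp v Q) ≤ ε / 2 := by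
      refine (M.n2_le_norm _).trans ?_
      have h5 : 0 ≤ 1 - (1 + ε / 2)⁻¹ := by
        rw [sub_nonneg]; exact inv_le_one_of_one_le₀ (by linarith)
      rw [norm_smul, Complex.norm_real, Real.norm_of_nonneg h5]
      calc (1 - (1 + ε / 2)⁻¹) * ‖evp v Q‖ ≤ (1 - (1 + ε / 2)⁻¹) * (1 + ε / 2) :=
            mul_le_mul_of_nonneg_left h2 h5
        _ = ε / 2 := by field_simp; ring
    linarith

/-- the conditional expectation onto the trace norm closure of the generated algebra -/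
def condE (v : J → M) : CondExp M (cAlg v) :=
  Classical.choice (exists_condExp M (cAlg v) (isClosed_cAlg v))

/-- elements of the range of the conditional expectation are trace norm limits of polynomials -/
theorem condE_approx (v : J → M) {x : M} (h1 : ‖x‖ ≤ 1) {ε : ℝ} (hε : 0 < ε) :
    ∃ Q : List (J × Bool) →₀ ℂ, ‖evp v Q‖ ≤ 1 ∧ M.n2 ((condE v).E x - evp v Q) < ε := by
  obtain ⟨a, ha, ha1, ha2⟩ := (condE v).approx x (ε / 2) (by positivity)
  obtain ⟨Q, hQ1, hQ2⟩ := exists_evp_near v ha (ha1.trans h1) (ε := ε / 2) (by positivity)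
  refine ⟨Q, hQ1, ?_⟩
  have := M.n2_tri ((condE v).E x) a (evp v Q)
  linarith

theorem condE_eq_self {v : J → M} (hv : M.Gen v) (x : M) : (condE v).E x = x := by
  have : x - (condE v).E x = 0 := by
    refine hv _ fun w => ?_
    rw [mul_sub, map_sub, sub_eq_zero]
    have h1 := (condE v).tr_mul (star (ev v w)) x
    rw [(condE v).of_mem _ (star_mem (ev_mem v w))] at h1
    exact h1
  exact (sub_eq_zero.1 this).symm

/-- **Kaplansky density** for a generating tuple. -/
theorem Gen.approx {v : J → M} (hv : M.Gen v) {x : M} (h1 : ‖x‖ ≤ 1) {ε : ℝ} (hε : 0 < ε) :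
    ∃ Q : List (J × Bool) →₀ ℂ, ‖evp v Q‖ ≤ 1 ∧ M.n2 (x - evp v Q) < ε := by
  have := condE_approx v h1 hε
  rwa [condE_eq_self hv] at this

end TVN

end Pool.Agent.Lib.EcII
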