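import Pool.Agent.Lib.EcII.KMS

/-!
# A Kazhdan type inequality for three elements of order five with Heisenberg relations
-/

open scoped commutatorElement

noncomputable section

namespace Pool.Agent.Lib.EcII

namespace Kaz

section alg

variable {G : Type*} [Group G] {V : Type*} [AddCommGroup V] [Module ℂ V]
  (ρ : G →* (V →ₗ[ℂ] V))

/-- average over the powers of an element -/
def av (w : G) : V →ₗ[ℂ] V := (1 / 5 : ℂ) • ∑ k ∈ Finset.range 5, ρ (w ^ k)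

theorem five_smul_av (w : G) : (5 : ℂ) • av ρ w = ∑ k ∈ Finset.range 5, ρ (w ^ k) := by
  rw [av, smul_smul]; norm_num

theorem rho_mul_av {w : G} (hw : w ^ 5 = 1) : ρ w * av ρ w = av ρ w := by
  unfold av
  rw [mul_smul_comm, Finset.mul_sum]
  congr 1
  simp only [← map_mul, ← pow_succ']
  rw [Finset.sum_range_succ, hw, Finset.sum_range_succ' (fun k => ρ (w ^ k)), pow_zero]

theorem rho_pow_mul_av {w : G} (hw : w ^ 5 = 1) (k : ℕ) : ρ (w ^ k) * av ρ w = av ρ w := by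
  induction k with
  | zero => simp
  | succ k ih => rw [pow_succ, map_mul, mul_assoc, rho_mul_av ρ hw, ih]

theorem av_mul_av {w : G} (hw : w ^ 5 = 1) : av ρ w * av ρ w = av ρ w := by
  nth_rw 1 [av]
  rw [smul_mul_assoc, Finset.sum_mul, Finset.sum_congr rfl fun k _ => rho_pow_mul_av ρ hw k,
    Finset.sum_const, Finset.card_range, ← Nat.cast_smul_eq_nsmul ℂ, smul_smul]
  norm_num

theorem commute_av {x w : G} (h : Commute x w) : Commute (ρ x) (av ρ w) := by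
  unfold av
  refine Commute.smul_right ?_ _
  refine Commute.sum_right _ _ _ fun k _ => ?_
  exact (h.pow_right k).map ρ

theorem commute_av_av {x w : G} (h : Commute x w) : Commute (av ρ x) (av ρ w) := by
  unfold av
  refine Commute.smul_left ?_ _
  refine Commute.sum_left _ _ _ fun k _ => ?_
  exact commute_av ρ (h.pow_left k)

theorem pow_mod {H : Type*} [Monoid H] {z : H} (hz : z ^ 5 = 1) (n : ℕ) :
    z ^ n = z ^ (n % 5) := by
  conv_lhs => rw [← Nat.mod_add_div n 5]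
  rw [pow_add, pow_mul, hz, one_pow, mul_one]

theorem av_pow {z : G} (hz : z ^ 5 = 1) {b : ℕ} (hb : b ∈ ({1, 2, 3, 4} : Finset ℕ)) :
    av ρ (z ^ b) = av ρ z := by
  unfold av
  congr 1
  simp only [← pow_mul]
  have hz' : ρ z ^ 5 = 1 := by rw [← map_pow, hz, map_one]
  simp only [Finset.mem_insert, Finset.mem_singleton] at hb
  rcases hb with rfl | rfl | rfl | rfl
  · simp
  · simp only [Finset.sum_range_succ, Finset.sum_range_zero]
    norm_num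
    rw [pow_mod hz' 6, pow_mod hz' 8]
    norm_num
    abel
  · simp only [Finset.sum_range_succ, Finset.sum_range_zero]
    norm_num
    rw [pow_mod hz' 6, pow_mod hz' 9, pow_mod hz' 12]
    norm_num
    abel
  · simp only [Finset.sum_range_succ, Finset.sum_range_zero]
    norm_num
    rw [pow_mod hz' 8, pow_mod hz' 12, pow_mod hz' 16]
    norm_num
    abel

/-- the relations in a pair -/
structure Pair (u v z : G) : Prop where
  u5 : u ^ 5 = 1
  v5 : v ^ 5 = 1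
  z5 : z ^ 5 = 1
  uz : Commute u z
  vz : Commute v z
  rel : u * v = z * v * u

variable {u v z : G}

theorem Pair.rel1 (h : Pair u v z) (a : ℕ) : u ^ a * v = z ^ a * v * u ^ a := by
  induction a with
  | zero => simp
  | succ a ih =>
    rw [pow_succ' u, mul_assoc, ih, ← mul_assoc, ← mul_assoc, (h.uz.pow_right a).eq,
      mul_assoc _ u v, h.rel, pow_succ z]
    simp only [mul_assoc]

theorem Pair.rel2 (h : Pair u v z) (a b : ℕ) : u ^ a * v ^ b = z ^ (a * b) * v ^ b * u ^ a := by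
  induction b with
  | zero => simp
  | succ b ih =>
    rw [pow_succ v, ← mul_assoc, ih, mul_assoc _ (u ^ a) v, h.rel1, Nat.mul_succ, pow_add]
    have := ((h.vz.pow_pow b a).eq)
    calc z ^ (a * b) * v ^ b * (z ^ a * v * u ^ a)
        = z ^ (a * b) * (v ^ b * z ^ a) * v * u ^ a := by simp only [mul_assoc]
      _ = z ^ (a * b) * (z ^ a * v ^ b) * v * u ^ a := by rw [this]
      _ = _ := by simp only [mul_assoc]

theorem Pair.comm (h : Pair u v z) :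
    av ρ z * av ρ u * av ρ v = av ρ z * av ρ v * av ρ u := by
  have key : av ρ z * ((∑ k ∈ Finset.range 5, ρ (u ^ k)) * ∑ k ∈ Finset.range 5, ρ (v ^ k)) =
      av ρ z * ((∑ k ∈ Finset.range 5, ρ (v ^ k)) * ∑ k ∈ Finset.range 5, ρ (u ^ k)) := by
    rw [Finset.sum_mul_sum, Finset.sum_mul_sum, Finset.sum_comm, Finset.mul_sum, Finset.mul_sum]
    refine Finset.sum_congr rfl fun b _ => ?_
    rw [Finset.mul_sum, Finset.mul_sum]
    refine Finset.sum_congr rfl fun a _ => ?_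
    rw [← map_mul, h.rel2, map_mul, map_mul, ← mul_assoc, ← mul_assoc, ← mul_assoc]
    have : av ρ z * ρ (z ^ (a * b)) = av ρ z := by
      rw [← (commute_av ρ ((Commute.refl z).pow_left (a * b))).eq, rho_pow_mul_av ρ h.z5]
    rw [this]
  rw [mul_assoc, mul_assoc]
  have hu : av ρ u = (1 / 5 : ℂ) • ∑ k ∈ Finset.range 5, ρ (u ^ k) := rfl
  have hv : av ρ v = (1 / 5 : ℂ) • ∑ k ∈ Finset.range 5, ρ (v ^ k) := rfl
  rw [hu, hv, smul_mul_smul_comm, smul_mul_smul_comm, mul_smul_comm, mul_smul_comm, key]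

theorem Pair.main (h : Pair u v z) :
    av ρ u * av ρ v * av ρ u = (1 / 5 : ℂ) • (av ρ u - av ρ z * av ρ u)
      + av ρ z * av ρ v * av ρ u := by
  have key : (5 : ℂ) • ((5 : ℂ) • (av ρ u * av ρ v * av ρ u)) =
      (5 : ℂ) • av ρ u + (5 : ℂ) • (av ρ z * ((5 : ℂ) • av ρ v - 1) * av ρ u) := by
    have e0 : (5 : ℂ) • ((5 : ℂ) • (av ρ u * av ρ v * av ρ u)) =
        ((5 : ℂ) • av ρ u) * ((5 : ℂ) • av ρ v) * av ρ u := by
      rw [smul_mul_smul_comm, smul_mul_assoc, smul_smul]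
    have e00 : ((5 : ℂ) • av ρ u) * ((5 : ℂ) • av ρ v) * av ρ u =
        ∑ b ∈ Finset.range 5, (∑ a ∈ Finset.range 5, ρ (u ^ a) * ρ (v ^ b)) * av ρ u := by
      rw [five_smul_av, five_smul_av, Finset.sum_mul_sum, Finset.sum_comm, Finset.sum_mul]
    rw [e0, e00]
    have e1 : ∀ b, (∑ a ∈ Finset.range 5, ρ (u ^ a) * ρ (v ^ b)) * av ρ u =
        ((5 : ℂ) • av ρ (z ^ b)) * ρ (v ^ b) * av ρ u := by
      intro b
      rw [five_smul_av, Finset.sum_mul, Finset.sum_mul, Finset.sum_mul]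
      refine Finset.sum_congr rfl fun a _ => ?_
      rw [← map_mul, h.rel2, map_mul, map_mul, mul_assoc _ (ρ (u ^ a)), rho_pow_mul_av ρ h.u5,
        mul_comm a b, pow_mul]
    rw [Finset.sum_congr rfl fun b _ => e1 b]
    have e2 : ∀ b ∈ Finset.range 4, (5 : ℂ) • av ρ (z ^ (b + 1)) * ρ (v ^ (b + 1)) * av ρ u =
        (5 : ℂ) • av ρ z * ρ (v ^ (b + 1)) * av ρ u := by
      intro b hb
      rw [av_pow ρ h.z5]
      simp only [Finset.mem_range] at hb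
      simp only [Finset.mem_insert, Finset.mem_singleton]
      omega
    rw [Finset.sum_range_succ', Finset.sum_congr rfl e2]
    have e3 : av ρ (z ^ 0) = 1 := by
      rw [av]; simp [← Nat.cast_smul_eq_nsmul ℂ]
    have e4 : (5 : ℂ) • av ρ v - 1 = ∑ b ∈ Finset.range 4, ρ (v ^ (b + 1)) := by
      rw [five_smul_av, Finset.sum_range_succ']; simp
    rw [e3, e4, pow_zero, map_one, mul_one, Finset.mul_sum, Finset.sum_mul, Finset.smul_sum,
      add_comm]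
    simp only [smul_mul_assoc, one_mul]
  have k2 : av ρ u * av ρ v * av ρ u = (1 / 25 : ℂ) • ((5 : ℂ) • ((5 : ℂ) •
      (av ρ u * av ρ v * av ρ u))) := by
    rw [smul_smul, smul_smul]; norm_num
  rw [k2, key, mul_sub, sub_mul, mul_smul_comm, mul_one, smul_mul_assoc]
  module

end alg

section inner

variable {V : Type*} [NormedAddCommGroup V] [InnerProductSpace ℂ V]


/-- an orthogonal projection -/
structure Proj (P : V →ₗ[ℂ] V) : Prop where
  idem : ∀ x, P (P x) = P x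
  sym : ∀ x y, (inner ℂ (P x) y) = (inner ℂ x (P y))

theorem Proj.re_inner {P : V →ₗ[ℂ] V} (h : Proj P) (x : V) : ((inner ℂ (P x) x) : ℂ).re = ‖P x‖ ^ 2 := by
  rw [← h.idem x, h.sym, h.idem]
  exact inner_self_eq_norm_sq (𝕜 := ℂ) (P x)

theorem Proj.norm_sub_sq {P : V →ₗ[ℂ] V} (h : Proj P) (x : V) :
    ‖x - P x‖ ^ 2 = ‖x‖ ^ 2 - ‖P x‖ ^ 2 := by
  have h1 := @_root_.norm_sub_sq ℂ _ _ _ _ x (P x)
  rw [← h.sym] at h1
  have h2 := h.re_inner x
  change (‖x - P x‖ ^ 2 : ℝ) = ‖x‖ ^ 2 - 2 * ((inner ℂ (P x) x) : ℂ).re + ‖P x‖ ^ 2 at h1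
  rw [h1, h2]; ring

theorem Proj.norm_sub_le {P : V →ₗ[ℂ] V} (h : Proj P) (x : V) : ‖x - P x‖ ^ 2 ≤ ‖x‖ ^ 2 := by
  rw [h.norm_sub_sq]
  nlinarith [sq_nonneg ‖P x‖]

theorem scalar_ineq {N s t : ℝ} (hN : 0 ≤ N) (hs : 0 ≤ s) (ht : t ≤ 9 / 20 * s)
    (ht' : -(9 / 20) * s ≤ t) (h : s ^ 2 ≤ (s + t) * N) :
    0 ≤ (2 + 9 / 10) * N - (2 + 9 / 20) * s + t := by
  rcases eq_or_lt_of_le hs with rfl | hs
  · have : t = 0 := by linarith
    subst this
    linarith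
  have hst : 0 < s + t := by linarith
  have h1 : 0 ≤ (s - t) * (9 / 20 * s - t) := by
    apply mul_nonneg <;> linarith
  have h2 : 0 ≤ (s + t) * ((2 + 9 / 10) * N - (2 + 9 / 20) * s + t) := by nlinarith
  exact nonneg_of_mul_nonneg_right h2 hst

theorem pair_ineq {P P' E : V →ₗ[ℂ] V} (hP : Proj P) (hP' : Proj P') (hE : Proj E)
    (c1 : ∀ x, E (P x) = P (E x)) (c2 : ∀ x, E (P' x) = P' (E x))
    (c3 : ∀ x, E (P (P' x)) = E (P' (P x)))
    (main : ∀ x, P (P' (P x)) = (1 / 5 : ℂ) • (P x - E (P x)) + E (P' (P x))) (ξ : V) :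
    -(9 / 20) * (‖ξ - P ξ‖ ^ 2 + ‖ξ - P' ξ‖ ^ 2) ≤ 2 * ((inner ℂ (ξ - P ξ) (ξ - P' ξ)) : ℂ).re := by
  set r := E (P (P' ξ)) with hr
  have r1 : P r = r := by rw [hr, ← c1, hP.idem]
  have r2 : P' r = r := by rw [hr, ← c2, ← c3, hP'.idem]
  have r3 : E r = r := by rw [hr, hE.idem]
  set η := ξ - r with hη
  have q1 : ξ - P ξ = η - P η := by rw [hη, map_sub, r1]; abel
  have q2 : ξ - P' ξ = η - P' η := by rw [hη, map_sub, r2]; abel
  have z : E (P (P' η)) = 0 := by rw [hη, map_sub, map_sub, map_sub, r2, r1, r3, ← hr, sub_self]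
  rw [q1, q2]
  clear_value η
  clear q1 q2 hη r1 r2 r3 hr
  set x := P η with hx
  set y := P' η with hy
  have px : P x = x := hP.idem η
  have py : P' y = y := hP'.idem η
  have e1 : (inner ℂ (E x) (E y)) = 0 := by
    rw [← hE.sym, hE.idem, hE.sym, hx, hP.sym, ← c1, z, inner_zero_right]
  set x1 := x - E x with hx1
  set y1 := y - E y with hy1
  have e2 : (inner ℂ x y) = (inner ℂ x1 y1) := by
    rw [hx1, hy1, inner_sub_left, inner_sub_right, inner_sub_right, e1]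
    have h1 : (inner ℂ x (E y)) = 0 := by rw [← hE.idem, ← hE.sym, e1]
    have h2 : (inner ℂ (E x) y) = 0 := by rw [← hE.idem, hE.sym, e1]
    rw [h1, h2]; simp
  have px1 : P x1 = x1 := by rw [hx1, map_sub, ← c1, px]
  have py1 : P' y1 = y1 := by rw [hy1, map_sub, ← c2, py]
  have ex1 : E x1 = 0 := by rw [hx1, map_sub, hE.idem, sub_self]
  have m1 : P (P' x1) = (1 / 5 : ℂ) • x1 := by
    have := main x1
    rw [px1, ex1, c2, ex1, map_zero, sub_zero, add_zero] at this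
    exact this
  have m2 : ‖P' x1‖ ^ 2 = 1 / 5 * ‖x1‖ ^ 2 := by
    rw [← hP'.re_inner]
    have : (inner ℂ (P' x1) x1) = (inner ℂ (P (P' x1)) x1) := by rw [hP.sym, px1]
    rw [this, m1, inner_smul_left]
    have h3 : (inner ℂ x1 x1) = ((‖x1‖ ^ 2 : ℝ) : ℂ) := by
      rw [inner_self_eq_norm_sq_to_K]; norm_cast
    have h4 : (starRingEnd ℂ) (1 / 5 : ℂ) = ((1 / 5 : ℝ) : ℂ) := by simp [map_ofNat]
    rw [h3, h4, ← Complex.ofReal_mul, Complex.ofReal_re]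
  have m3 : ‖(inner ℂ x y)‖ ≤ ‖P' x1‖ * ‖y1‖ := by
    have : (inner ℂ x y) = (inner ℂ (P' x1) y1) := by rw [e2, hP'.sym, py1]
    rw [this]
    exact norm_inner_le_norm _ _
  have n1 : ‖x1‖ ^ 2 ≤ ‖x‖ ^ 2 := hE.norm_sub_le x
  have n2 : ‖y1‖ ^ 2 ≤ ‖y‖ ^ 2 := hE.norm_sub_le y
  have m4 : ‖(inner ℂ x y)‖ ^ 2 ≤ 1 / 5 * (‖x‖ ^ 2 * ‖y‖ ^ 2) := by
    calc ‖(inner ℂ x y)‖ ^ 2 ≤ (‖P' x1‖ * ‖y1‖) ^ 2 := pow_le_pow_left₀ (norm_nonneg _) m3 2
      _ = 1 / 5 * (‖x1‖ ^ 2 * ‖y1‖ ^ 2) := by rw [mul_pow, m2]; ring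
      _ ≤ 1 / 5 * (‖x‖ ^ 2 * ‖y‖ ^ 2) := by
        apply mul_le_mul_of_nonneg_left _ (by norm_num)
        exact mul_le_mul n1 n2 (sq_nonneg _) (sq_nonneg _)
  have m5 : ((inner ℂ x y) : ℂ).re ^ 2 ≤ 1 / 5 * (‖x‖ ^ 2 * ‖y‖ ^ 2) := by
    refine le_trans ?_ m4
    rw [← sq_abs]
    exact pow_le_pow_left₀ (abs_nonneg _) (Complex.abs_re_le_norm _) 2
  have b1 : |2 * ((inner ℂ x y) : ℂ).re| ≤ 9 / 20 * (‖x‖ ^ 2 + ‖y‖ ^ 2) := by
    apply abs_le_of_sq_le_sq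
    · nlinarith [sq_nonneg (‖x‖ ^ 2 - ‖y‖ ^ 2), sq_nonneg ‖x‖, sq_nonneg ‖y‖]
    · positivity
  rw [abs_le] at b1
  have g1 : ((inner ℂ x η) : ℂ).re = ‖x‖ ^ 2 := hP.re_inner η
  have g2 : ((inner ℂ y η) : ℂ).re = ‖y‖ ^ 2 := hP'.re_inner η
  have g3 : (‖x‖ ^ 2 + ‖y‖ ^ 2) ^ 2 ≤ ((‖x‖ ^ 2 + ‖y‖ ^ 2) + 2 * ((inner ℂ x y) : ℂ).re) * ‖η‖ ^ 2 := by
    have h1 : ((inner ℂ (x + y) η) : ℂ).re = ‖x‖ ^ 2 + ‖y‖ ^ 2 := by
      rw [inner_add_left, Complex.add_re, g1, g2]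
    have h2 : ‖x + y‖ ^ 2 = (‖x‖ ^ 2 + ‖y‖ ^ 2) + 2 * ((inner ℂ x y) : ℂ).re := by
      have := @norm_add_sq ℂ _ _ _ _ x y
      change ‖x + y‖ ^ 2 = ‖x‖ ^ 2 + 2 * ((inner ℂ x y) : ℂ).re + ‖y‖ ^ 2 at this
      rw [this]; ring
    rw [← h2, ← h1, ← mul_pow]
    apply pow_le_pow_left₀
    · rw [h1]; positivity
    · exact (Complex.re_le_norm _).trans (norm_inner_le_norm _ _)
  have fin := scalar_ineq (sq_nonneg ‖η‖) (by positivity) b1.2 (by linarith [b1.1]) g3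
  have f1 : ((inner ℂ (η - x) (η - y)) : ℂ).re = ‖η‖ ^ 2 - ‖x‖ ^ 2 - ‖y‖ ^ 2 + ((inner ℂ x y) : ℂ).re := by
    rw [inner_sub_left, inner_sub_right, inner_sub_right]
    have h1 : ((inner ℂ η η) : ℂ).re = ‖η‖ ^ 2 := inner_self_eq_norm_sq (𝕜 := ℂ) η
    have h2 : ((inner ℂ η y) : ℂ).re = ‖y‖ ^ 2 := by rw [← g2, hy, hP'.sym]
    simp only [Complex.sub_re, h1, h2, g1]
    ring
  rw [f1, hP.norm_sub_sq, hP'.norm_sub_sq]
  linarith

/-- three projections with pairwise angle at least `arccos (9/20)` -/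
structure Tri (P : Fin 3 → V →ₗ[ℂ] V) : Prop where
  proj : ∀ i, Proj (P i)
  pair : ∀ i j, i ≠ j → ∀ ξ, -(9 / 20) * (‖ξ - P i ξ‖ ^ 2 + ‖ξ - P j ξ‖ ^ 2) ≤
    2 * ((inner ℂ (ξ - P i ξ) (ξ - P j ξ)) : ℂ).re

variable {P : Fin 3 → V →ₗ[ℂ] V}

/-- the energy -/
def en (P : Fin 3 → V →ₗ[ℂ] V) (ξ : V) : ℝ := ∑ i, ‖ξ - P i ξ‖ ^ 2

/-- the Laplacian -/
def lap (P : Fin 3 → V →ₗ[ℂ] V) (ξ : V) : V := ∑ i, (ξ - P i ξ)

theorem en_nonneg (ξ : V) : 0 ≤ en P ξ := Finset.sum_nonneg fun _ _ => sq_nonneg _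

theorem lap_lower (h : Tri P) (ξ : V) : 1 / 10 * en P ξ ≤ ‖lap P ξ‖ ^ 2 := by
  have e : ‖lap P ξ‖ ^ 2 = en P ξ + 2 * ((inner ℂ (ξ - P 0 ξ) (ξ - P 1 ξ)) : ℂ).re +
      2 * ((inner ℂ (ξ - P 0 ξ) (ξ - P 2 ξ)) : ℂ).re + 2 * ((inner ℂ (ξ - P 1 ξ) (ξ - P 2 ξ)) : ℂ).re := by
    unfold lap en
    rw [Fin.sum_univ_three, Fin.sum_univ_three]
    set a := ξ - P 0 ξ
    set b := ξ - P 1 ξ
    set c := ξ - P 2 ξ
    have h1 := @norm_add_sq ℂ _ _ _ _ (a + b) c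
    have h2 := @norm_add_sq ℂ _ _ _ _ a b
    change ‖a + b + c‖ ^ 2 = ‖a + b‖ ^ 2 + 2 * ((inner ℂ (a + b) c) : ℂ).re + ‖c‖ ^ 2 at h1
    change ‖a + b‖ ^ 2 = ‖a‖ ^ 2 + 2 * ((inner ℂ a b) : ℂ).re + ‖b‖ ^ 2 at h2
    rw [h1, h2, inner_add_left, Complex.add_re]
    ring
  have h01 := h.pair 0 1 (by decide) ξ
  have h02 := h.pair 0 2 (by decide) ξ
  have h12 := h.pair 1 2 (by decide) ξ
  have e2 : en P ξ = ‖ξ - P 0 ξ‖ ^ 2 + ‖ξ - P 1 ξ‖ ^ 2 + ‖ξ - P 2 ξ‖ ^ 2 := by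
    unfold en; rw [Fin.sum_univ_three]
  rw [e]
  linarith

theorem lap_upper (ξ : V) : ‖lap P ξ‖ ^ 2 ≤ 3 * en P ξ := by
  have h1 : ‖lap P ξ‖ ≤ ∑ i, ‖ξ - P i ξ‖ := norm_sum_le _ _
  have h2 : (∑ i : Fin 3, ‖ξ - P i ξ‖) ^ 2 ≤ 3 * ∑ i, ‖ξ - P i ξ‖ ^ 2 := by
    have := sq_sum_le_card_mul_sum_sq (s := (Finset.univ : Finset (Fin 3)))
      (f := fun i => ‖ξ - P i ξ‖)
    simpa using this
  exact (pow_le_pow_left₀ (norm_nonneg _) h1 2).trans h2

theorem re_inner_lap (h : Tri P) (ξ : V) : ((inner ℂ (lap P ξ) ξ) : ℂ).re = en P ξ := by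
  unfold lap en
  rw [sum_inner, Complex.re_sum]
  refine Finset.sum_congr rfl fun i _ => ?_
  rw [inner_sub_left, Complex.sub_re, (h.proj i).re_inner, (h.proj i).norm_sub_sq]
  congr 1
  exact inner_self_eq_norm_sq (𝕜 := ℂ) ξ

theorem lap_sym (h : Tri P) (ξ η : V) : (inner ℂ (lap P ξ) η) = (inner ℂ ξ (lap P η)) := by
  unfold lap
  rw [sum_inner, inner_sum]
  refine Finset.sum_congr rfl fun i _ => ?_
  rw [inner_sub_left, inner_sub_right, (h.proj i).sym]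

/-- one step of the gradient descent -/
def stp (P : Fin 3 → V →ₗ[ℂ] V) (ξ : V) : V := ξ - (1 / 3 : ℂ) • lap P ξ

theorem lap_sub_smul (c : ℂ) (ξ η : V) : lap P (ξ - c • η) = lap P ξ - c • lap P η := by
  unfold lap
  rw [Finset.smul_sum, ← Finset.sum_sub_distrib]
  refine Finset.sum_congr rfl fun i _ => ?_
  rw [map_sub, map_smul, smul_sub]
  abel

theorem lap_stp (ξ : V) : lap P (stp P ξ) = lap P ξ - (1 / 3 : ℂ) • lap P (lap P ξ) :=
  lap_sub_smul _ _ _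

theorem en_stp (h : Tri P) (ξ : V) : en P (stp P ξ) ≤ 29 / 30 * en P ξ := by
  have e1 : en P (stp P ξ) = en P ξ - 2 / 3 * ‖lap P ξ‖ ^ 2 + 1 / 9 * en P (lap P ξ) := by
    have c3 : (starRingEnd ℂ) (1 / 3 : ℂ) = ((1 / 3 : ℝ) : ℂ) := by simp [map_ofNat]
    have c3' : (1 / 3 : ℂ) = ((1 / 3 : ℝ) : ℂ) := by simp
    rw [← re_inner_lap h (stp P ξ), lap_stp, stp, inner_sub_left, inner_sub_right, inner_sub_right,
      inner_smul_left, inner_smul_left, inner_smul_right, inner_smul_right, lap_sym h (lap P ξ) ξ,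
      c3, c3']
    simp only [Complex.sub_re, Complex.re_ofReal_mul]
    rw [re_inner_lap h, re_inner_lap h]
    have : ((inner ℂ (lap P ξ) (lap P ξ)) : ℂ).re = ‖lap P ξ‖ ^ 2 := inner_self_eq_norm_sq (𝕜 := ℂ) _
    rw [this]
    ring
  have e2 : en P (lap P ξ) ≤ 3 * ‖lap P ξ‖ ^ 2 := by
    unfold en
    refine (Finset.sum_le_sum fun i _ => (h.proj i).norm_sub_le (lap P ξ)).trans ?_
    simp
  have e3 := lap_lower h ξ
  rw [e1]
  linarith

theorem sqrt_en_stp (h : Tri P) (ξ : V) :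
    √(en P (stp P ξ)) ≤ 9832 / 10000 * √(en P ξ) := by
  have h1 := en_stp h ξ
  have h2 : √(en P (stp P ξ)) ≤ √((9832 / 10000) ^ 2 * en P ξ) := by
    apply Real.sqrt_le_sqrt
    have := en_nonneg (P := P) ξ
    nlinarith
  rwa [Real.sqrt_mul (by positivity), Real.sqrt_sq (by norm_num)] at h2

theorem norm_sub_stp (h : Tri P) (ξ : V) :
    ‖ξ - stp P ξ‖ ≤ 40 * (√(en P ξ) - √(en P (stp P ξ))) := by
  have h1 := sqrt_en_stp h ξ
  have h2 : ‖ξ - stp P ξ‖ = 1 / 3 * ‖lap P ξ‖ := by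
    rw [stp, sub_sub_cancel, norm_smul]; norm_num
  have h3 : ‖lap P ξ‖ ≤ √3 * √(en P ξ) := by
    rw [← Real.sqrt_mul (by norm_num)]
    exact Real.le_sqrt_of_sq_le (lap_upper ξ)
  have h4 : √3 ≤ 2 := by
    rw [Real.sqrt_le_left (by norm_num)]; norm_num
  have h5 := Real.sqrt_nonneg (en P ξ)
  rw [h2]
  nlinarith

/-- the iteration -/
def it (P : Fin 3 → V →ₗ[ℂ] V) (ξ : V) (n : ℕ) : V := (stp P)^[n] ξ

theorem it_succ (ξ : V) (n : ℕ) : it P ξ (n + 1) = stp P (it P ξ n) :=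
  Function.iterate_succ_apply' _ _ _

theorem norm_sub_it (h : Tri P) (ξ : V) (n : ℕ) :
    ‖ξ - it P ξ n‖ ≤ 40 * (√(en P ξ) - √(en P (it P ξ n))) := by
  induction n with
  | zero => simp [it]
  | succ n ih =>
    have h1 := norm_sub_stp h (it P ξ n)
    rw [← it_succ] at h1
    have h2 : ξ - it P ξ (n + 1) = (ξ - it P ξ n) + (it P ξ n - it P ξ (n + 1)) := by abel
    rw [h2]
    refine (norm_add_le _ _).trans ?_
    linarith

theorem sqrt_en_it (h : Tri P) (ξ : V) (n : ℕ) :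
    √(en P (it P ξ n)) ≤ (9832 / 10000) ^ n * √(en P ξ) := by
  induction n with
  | zero => simp [it]
  | succ n ih =>
    rw [it_succ]
    refine (sqrt_en_stp h _).trans ?_
    rw [pow_succ', mul_assoc]
    exact mul_le_mul_of_nonneg_left ih (by norm_num)

theorem tendsto_sqrt_en_it (h : Tri P) (ξ : V) :
    Filter.Tendsto (fun n => √(en P (it P ξ n))) Filter.atTop (nhds 0) := by
  have h1 : Filter.Tendsto (fun n : ℕ => (9832 / 10000 : ℝ) ^ n * √(en P ξ)) Filter.atTop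
      (nhds (0 * √(en P ξ))) :=
    (tendsto_pow_atTop_nhds_zero_of_lt_one (by norm_num) (by norm_num)).mul_const _
  rw [zero_mul] at h1
  exact squeeze_zero (fun n => Real.sqrt_nonneg _) (fun n => sqrt_en_it h ξ n) h1

theorem norm_sub_le_sqrt_en (ξ : V) (i : Fin 3) : ‖ξ - P i ξ‖ ≤ √(en P ξ) := by
  apply Real.le_sqrt_of_sq_le
  unfold en
  exact Finset.single_le_sum (f := fun i => ‖ξ - P i ξ‖ ^ 2) (fun _ _ => sq_nonneg _)
    (Finset.mem_univ i)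

theorem sqrt_en_le_sum (ξ : V) : √(en P ξ) ≤ ∑ i, ‖ξ - P i ξ‖ := by
  rw [Real.sqrt_le_left (Finset.sum_nonneg fun _ _ => norm_nonneg _)]
  unfold en
  rw [Fin.sum_univ_three, Fin.sum_univ_three]
  have h0 := norm_nonneg (ξ - P 0 ξ)
  have h1 := norm_nonneg (ξ - P 1 ξ)
  have h2 := norm_nonneg (ξ - P 2 ξ)
  nlinarith [mul_nonneg h0 h1, mul_nonneg h0 h2, mul_nonneg h1 h2]

end inner

section fin

variable {G : Type*} [Group G] {V : Type*} [NormedAddCommGroup V] [InnerProductSpace ℂ V]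
  (ρ : G →* (V →ₗ[ℂ] V)) (hρ : ∀ g x, ‖ρ g x‖ = ‖x‖)


include hρ in
theorem inner_rho (g : G) (x y : V) : (inner ℂ (ρ g x) (ρ g y)) = (inner ℂ x y) :=
  (⟨ρ g, hρ g⟩ : V →ₗᵢ[ℂ] V).inner_map_map x y

include hρ in
theorem inner_rho_left {g g' : G} (h : g * g' = 1) (x y : V) : (inner ℂ (ρ g x) y) = (inner ℂ x (ρ g' y)) := by
  rw [← inner_rho ρ hρ g x (ρ g' y)]
  congr 1
  change y = (ρ g * ρ g') y
  rw [← map_mul, h, map_one]
  rfl

theorem av_apply (w : G) (x : V) : av ρ w x = (1 / 5 : ℂ) • ∑ k ∈ Finset.range 5, ρ (w ^ k) x := by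
  simp [av]

include hρ in
theorem proj_av {w : G} (hw : w ^ 5 = 1) : Proj (av ρ w) where
  idem x := by
    change (av ρ w * av ρ w) x = _
    rw [av_mul_av ρ hw]
  sym x y := by
    have c5 : (starRingEnd ℂ) (1 / 5 : ℂ) = (1 / 5 : ℂ) := by simp [map_ofNat]
    rw [av_apply, av_apply, inner_smul_left, inner_smul_right, sum_inner, inner_sum, c5]
    congr 1
    have h1 : ∀ k ∈ Finset.range 5, (inner ℂ (ρ (w ^ k) x) y) = (inner ℂ x (ρ (w ^ (5 - k)) y)) := by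
      intro k hk
      rw [Finset.mem_range] at hk
      apply inner_rho_left ρ hρ
      rw [← pow_add, Nat.add_sub_cancel' hk.le, hw]
    rw [Finset.sum_congr rfl h1]
    simp only [Finset.sum_range_succ, Finset.sum_range_zero]
    norm_num
    have : ρ w ^ 5 = 1 := by rw [← map_pow, hw, map_one]
    rw [this]
    simp
    ring

include hρ in
theorem norm_rho_pow_sub (w : G) (k : ℕ) (x : V) : ‖ρ (w ^ k) x - x‖ ≤ k * ‖ρ w x - x‖ := by
  induction k with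
  | zero => simp
  | succ k ih =>
    have h1 : ρ (w ^ (k + 1)) x - x = ρ (w ^ k) (ρ w x - x) + (ρ (w ^ k) x - x) := by
      rw [pow_succ, map_mul, map_sub]; simp
    rw [h1]
    refine (norm_add_le _ _).trans ?_
    rw [hρ]
    push_cast
    linarith

include hρ in
theorem norm_sub_av_le (w : G) (x : V) : ‖x - av ρ w x‖ ≤ 2 * ‖ρ w x - x‖ := by
  have h1 : x - av ρ w x = -(1 / 5 : ℂ) • ∑ k ∈ Finset.range 5, (ρ (w ^ k) x - x) := by
    rw [av_apply, Finset.sum_sub_distrib, Finset.sum_const, Finset.card_range,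
      ← Nat.cast_smul_eq_nsmul ℂ]
    module
  rw [h1, norm_smul]
  have h2 : ‖∑ k ∈ Finset.range 5, (ρ (w ^ k) x - x)‖ ≤ 10 * ‖ρ w x - x‖ := by
    refine (norm_sum_le _ _).trans ?_
    refine (Finset.sum_le_sum fun k _ => norm_rho_pow_sub ρ hρ w k x).trans ?_
    rw [← Finset.sum_mul]
    apply le_of_eq
    congr 1
    simp [Finset.sum_range_succ]
    norm_num
  have h3 : ‖-(1 / 5 : ℂ)‖ = 1 / 5 := by simp
  rw [h3]
  linarith

include hρ in
theorem norm_rho_sub_le {w : G} (hw : w ^ 5 = 1) (x : V) :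
    ‖ρ w x - x‖ ≤ 2 * ‖x - av ρ w x‖ := by
  have h1 : ρ w x - x = ρ w (x - av ρ w x) - (x - av ρ w x) := by
    rw [map_sub]
    have : ρ w (av ρ w x) = av ρ w x := by
      change (ρ w * av ρ w) x = _
      rw [rho_mul_av ρ hw]
    rw [this]; abel
  rw [h1]
  refine (norm_sub_le _ _).trans ?_
  rw [hρ]
  linarith

theorem pair_of_kms {u : Fin 3 → G} (hu : KMS u) (i j : Fin 3) :
    Pair (u i) (u j) ⁅u i, u j⁆ := by
  have hz2 : Commute (u j) ⁅u i, u j⁆ := by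
    have := hu.comm j i
    rw [← commutatorElement_inv]
    exact this.inv_right
  have rel : u i * u j = ⁅u i, u j⁆ * u j * u i := by
    rw [commutatorElement_def]; group
  have z5 : ⁅u i, u j⁆ ^ 5 = 1 := by
    have h1 : u i * u j * (u i)⁻¹ = ⁅u i, u j⁆ * u j := by rw [rel]; group
    have h2 : (u i * u j * (u i)⁻¹) ^ 5 = 1 := by
      rw [conj_pow, hu.pow5, mul_one, mul_inv_cancel]
    rw [h1, hz2.symm.mul_pow, hu.pow5, mul_one] at h2
    exact h2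
  exact ⟨hu.pow5 i, hu.pow5 j, z5, hu.comm i j, hz2, rel⟩

include hρ in
theorem tri {u : Fin 3 → G} (hu : KMS u) : Tri (fun i => av ρ (u i)) where
  proj i := proj_av ρ hρ (hu.pow5 i)
  pair i j _ ξ := by
    have hp := pair_of_kms hu i j
    refine pair_ineq (E := av ρ ⁅u i, u j⁆) (proj_av ρ hρ hp.u5) (proj_av ρ hρ hp.v5)
      (proj_av ρ hρ hp.z5) ?_ ?_ ?_ ?_ ξ
    · intro x
      exact congrArg (fun T : V →ₗ[ℂ] V => T x) (commute_av_av ρ hp.uz).symm.eq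
    · intro x
      exact congrArg (fun T : V →ₗ[ℂ] V => T x) (commute_av_av ρ hp.vz).symm.eq
    · intro x
      exact congrArg (fun T : V →ₗ[ℂ] V => T x) (hp.comm ρ)
    · intro x
      exact congrArg (fun T : V →ₗ[ℂ] V => T x) (hp.main ρ)

include hρ in
theorem tendsto_word {u : Fin 3 → G} (ξ : ℕ → V)
    (h : ∀ i, Filter.Tendsto (fun n => ‖ρ (u i) (ξ n) - ξ n‖) Filter.atTop (nhds 0))
    {g : G} (hg : g ∈ Subgroup.closure (Set.range u)) :
    Filter.Tendsto (fun n => ‖ρ g (ξ n) - ξ n‖) Filter.atTop (nhds 0) := by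
  induction hg using Subgroup.closure_induction with
  | mem x hx => obtain ⟨i, rfl⟩ := hx; exact h i
  | one => simp
  | mul x y _ _ hx hy =>
    have h1 := hx.add hy
    rw [add_zero] at h1
    refine squeeze_zero (fun _ => norm_nonneg _) (fun n => ?_) h1
    have h2 : ρ (x * y) (ξ n) - ξ n = (ρ x (ξ n) - ξ n) + ρ x (ρ y (ξ n) - ξ n) := by
      rw [map_mul, map_sub]; simp
    rw [h2]
    refine (norm_add_le _ _).trans ?_
    rw [hρ]
  | inv x _ hx =>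
    refine squeeze_zero (fun _ => norm_nonneg _) (fun n => ?_) hx
    have h2 : ρ x (ρ x⁻¹ (ξ n) - ξ n) = -(ρ x (ξ n) - ξ n) := by
      have : ρ x (ρ x⁻¹ (ξ n)) = ξ n := by
        change (ρ x * ρ x⁻¹) (ξ n) = _
        rw [← map_mul, mul_inv_cancel, map_one]; rfl
      rw [map_sub, this]; abel
    rw [← hρ x, h2, norm_neg]

end fin

end Kaz

open Kaz in
theorem kazhdan {G : Type*} [Group G] (u : Fin 3 → G) (hu : KMS u) {V : Type*}
    [NormedAddCommGroup V] [InnerProductSpace ℂ V] (ρ : G →* (V →ₗ[ℂ] V))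
    (hρ : ∀ g x, ‖ρ g x‖ = ‖x‖) (g : G) (hg : g ∈ Subgroup.closure (Set.range u)) (x : V) :
    ‖ρ g x - x‖ ≤ 200 * ∑ i, ‖ρ (u i) x - x‖ := by
  have ht := tri ρ hρ hu
  set P : Fin 3 → V →ₗ[ℂ] V := fun i => av ρ (u i) with hP
  have h0 := tendsto_sqrt_en_it ht x
  have h1 : ∀ i, Filter.Tendsto (fun n => ‖ρ (u i) (it P x n) - it P x n‖) Filter.atTop
      (nhds 0) := by
    intro i
    have h2 := h0.const_mul 2
    rw [mul_zero] at h2
    refine squeeze_zero (fun _ => norm_nonneg _) (fun n => ?_) h2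
    refine (norm_rho_sub_le ρ hρ (hu.pow5 i) _).trans ?_
    have := norm_sub_le_sqrt_en (P := P) (it P x n) i
    linarith
  have h2 := tendsto_word ρ hρ (it P x) h1 hg
  have h3 : ∀ n, ‖ρ g x - x‖ ≤ 80 * √(en P x) + ‖ρ g (it P x n) - it P x n‖ := by
    intro n
    have h4 : ρ g x - x = ρ g (x - it P x n) + (ρ g (it P x n) - it P x n) +
        -(x - it P x n) := by
      rw [map_sub]; abel
    have h5 := norm_sub_it ht x n
    have h6 := Real.sqrt_nonneg (en P (it P x n))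
    rw [h4]
    refine (norm_add_le _ _).trans ?_
    rw [norm_neg]
    refine (add_le_add_left (norm_add_le _ _) _).trans ?_
    rw [hρ]
    linarith
  have h7 : ‖ρ g x - x‖ ≤ 80 * √(en P x) + 0 := by
    refine ge_of_tendsto' (h2.const_add _) h3
  have h8 := sqrt_en_le_sum (P := P) x
  have h9 : ∑ i, ‖x - P i x‖ ≤ 2 * ∑ i, ‖ρ (u i) x - x‖ := by
    rw [Finset.mul_sum]
    exact Finset.sum_le_sum fun i _ => norm_sub_av_le ρ hρ (u i) x
  have h10 : 0 ≤ ∑ i, ‖ρ (u i) x - x‖ := Finset.sum_nonneg fun _ _ => norm_nonneg _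
  linarith

end Pool.Agent.Lib.EcII
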