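import Pool.Agent.Lib.EcII.Lip

/-!
# Lipschitz estimates, continued
-/

noncomputable section

namespace Pool.Agent.Lib.EcII

namespace TVN

variable {M : TVN}

/-! ### `Psi` -/

theorem psiT_nonneg (β : ℝ) (b x s : M) (u : Fin 3 → M) (w h c s' : M) :
    0 ≤ M.psiT β b x s u w h c s' := le_max_left _ _

theorem psiT_le_one {β : ℝ} (hβ : 0 ≤ β) (b x s : M) (u : Fin 3 → M) (w h c s' : M) :
    M.psiT β b x s u w h c s' ≤ 1 := by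
  refine max_le zero_le_one ?_
  have h1 := gh_le_one b x s s' w h c
  have h2 := mul_nonneg hβ (GD_nonneg s' u w c)
  linarith

theorem bdd_psiT {β : ℝ} (hβ : 0 ≤ β) (b x s : M) (u : Fin 3 → M) (w h c : M) :
    BddAbove (Set.range fun s' : M.Ball => M.psiT β b x s u w h c s') :=
  ⟨1, by rintro _ ⟨y, rfl⟩; exact psiT_le_one hβ _ _ _ _ _ _ _ _⟩

theorem psiS_nonneg {α : ℝ} (hα : 0 ≤ α) (β : ℝ) (b x : M) (u : Fin 3 → M) (w h c s : M) :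
    0 ≤ M.psiS α β b x u w h c s :=
  add_nonneg (mul_nonneg hα (GD_nonneg _ _ _ _)) (Real.iSup_nonneg fun s' => psiT_nonneg _ _ _ _ _ _ _ _ _)

theorem bdd_psiS {α : ℝ} (hα : 0 ≤ α) (β : ℝ) (b x : M) (u : Fin 3 → M) (w h c : M) :
    BddBelow (Set.range fun s : M.Ball => M.psiS α β b x u w h c s) :=
  ⟨0, by rintro _ ⟨y, rfl⟩; exact psiS_nonneg hα _ _ _ _ _ _ _ _⟩

theorem Psi_nonneg {α : ℝ} (hα : 0 ≤ α) (β : ℝ) (b x : M) (u : Fin 3 → M) (w h c : M) :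
    0 ≤ M.Psi α β b x u w h c :=
  le_min zero_le_one (Real.iInf_nonneg fun s => psiS_nonneg hα _ _ _ _ _ _ _ _)

theorem Psi_le_one (α β : ℝ) (b x : M) (u : Fin 3 → M) (w h c : M) :
    M.Psi α β b x u w h c ≤ 1 := min_le_left _ _

theorem Psi_le {α : ℝ} (hα : 0 ≤ α) (β : ℝ) (b x : M) (u : Fin 3 → M) (w h c : M) {s : M}
    (hs : ‖s‖ ≤ 1) : M.Psi α β b x u w h c ≤ M.psiS α β b x u w h c s :=
  (min_le_right _ _).trans (ciInf_le (bdd_psiS hα β b x u w h c) ⟨s, hs⟩)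

theorem le_Psi {α β : ℝ} {b x : M} {u : Fin 3 → M} {w h c : M} {r : ℝ} (hr : r ≤ 1)
    (h1 : ∀ s : M, ‖s‖ ≤ 1 → r ≤ M.psiS α β b x u w h c s) : r ≤ M.Psi α β b x u w h c :=
  le_min hr (le_ciInf fun s => h1 s.1 s.2)

theorem psiS_le {α β : ℝ} {b x : M} {u : Fin 3 → M} {w h c s : M} {r : ℝ}
    (h0 : α * M.GD s u w c ≤ r)
    (h1 : ∀ s' : M, ‖s'‖ ≤ 1 → α * M.GD s u w c +
      (M.gh b x s s' w h c - β * M.GD s' u w c) ≤ r) : M.psiS α β b x u w h c s ≤ r := by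
  unfold psiS
  have : (⨆ s' : M.Ball, M.psiT β b x s u w h c s') ≤ r - α * M.GD s u w c := by
    refine ciSup_le fun s' => max_le (by linarith) ?_
    have := h1 s'.1 s'.2
    linarith
  linarith

theorem le_psiS {α β : ℝ} (hβ : 0 ≤ β) {b x : M} {u : Fin 3 → M} {w h c s s' : M}
    (hs' : ‖s'‖ ≤ 1) : α * M.GD s u w c + (M.gh b x s s' w h c - β * M.GD s' u w c) ≤
      M.psiS α β b x u w h c s := by
  unfold psiS
  have h1 := le_ciSup (bdd_psiT hβ b x s u w h c) ⟨s', hs'⟩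
  have h2 : M.gh b x s s' w h c - β * M.GD s' u w c ≤ M.psiT β b x s u w h c s' :=
    le_max_right _ _
  have h3 : M.psiT β b x s u w h c s' ≤ ⨆ s' : M.Ball, M.psiT β b x s u w h c s' := h1
  linarith

theorem mul_GD_le_psiS {α β : ℝ} {b x : M} {u : Fin 3 → M} {w h c s : M} :
    α * M.GD s u w c ≤ M.psiS α β b x u w h c s := by
  unfold psiS
  have : 0 ≤ ⨆ s' : M.Ball, M.psiT β b x s u w h c s' :=
    Real.iSup_nonneg fun s' => psiT_nonneg _ _ _ _ _ _ _ _ _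
  linarith

theorem Psi_lip {α β : ℝ} (hα : 0 ≤ α) (hβ : 0 ≤ β) {b b' x x' : M} {u u' : Fin 3 → M}
    {w w' h h' c c' : M} (hb : ‖b‖ ≤ 1) (hb' : ‖b'‖ ≤ 1)
    (hx : ‖x‖ ≤ 1) (hx' : ‖x'‖ ≤ 1) (hw : ‖w‖ ≤ 1) (hw' : ‖w'‖ ≤ 1) (hh : ‖h‖ ≤ 1)
    (hh' : ‖h'‖ ≤ 1) (hc : ‖c‖ ≤ 1) (hc' : ‖c'‖ ≤ 1) :
    M.Psi α β b x u w h c ≤ M.Psi α β b' x' u' w' h' c' + (4 * M.n2 (b - b') +
      4 * M.n2 (x - x') + (12 * M.n2 (h - h') + 2 * M.n2 (w - w') + 2 * M.n2 (c - c')) +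
      (α + β) * (400 * ∑ i, M.n2 (u i - u' i) + 2 * M.n2 (w - w') + 2 * M.n2 (c - c'))) := by
  have n : ∀ z : M, 0 ≤ M.n2 z := M.n2_nonneg
  have n1 := n (b - b')
  have n3 := n (x - x')
  have n4 := n (h - h')
  have n5 := n (w - w')
  have n6 := n (c - c')
  have n7 : 0 ≤ ∑ i, M.n2 (u i - u' i) := Finset.sum_nonneg fun i _ => n _
  set D := 400 * ∑ i, M.n2 (u i - u' i) + 2 * M.n2 (w - w') + 2 * M.n2 (c - c') with hD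
  have hD0 : 0 ≤ D := by positivity
  refine min_one_le_add (by positivity) (iInf_le_iInf_add (bdd_psiS hα _ _ _ _ _ _ _) ?_)
  intro s
  unfold psiS
  have e1 := GD_lip_par (c := c) s.2 u u' (w := w) (w' := w') hw hc'
  rw [← hD] at e1
  have e2 : (⨆ s' : M.Ball, M.psiT β b x s u w h c s') ≤
      (⨆ s' : M.Ball, M.psiT β b' x' s u' w' h' c' s') + (4 * M.n2 (b - b') +
      4 * M.n2 (x - x') + (12 * M.n2 (h - h') + 2 * M.n2 (w - w') + 2 * M.n2 (c - c')) +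
      β * D) := by
    refine iSup_le_iSup_add (bdd_psiT hβ _ _ _ _ _ _ _) fun s' => ?_
    refine max_zero_le_add (by positivity) ?_
    have e3 := gh_lip (s := s.1) (s' := s.1) (t := s'.1) (t' := s'.1) hb hb' hx hx' s.2 s.2 s'.2
      s'.2 (w := w) (w' := w') hw hh hh' (c := c) hc'
    have e4 := GD_lip_par (M := M) (x := s'.1) (c := c') (c' := c) s'.2 u' u (w := w') (w' := w)
      hw' hc
    have e5 : 400 * ∑ i, M.n2 (u' i - u i) + 2 * M.n2 (w' - w) + 2 * M.n2 (c' - c) = D := by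
      rw [hD, M.n2_sub_comm w', M.n2_sub_comm c']
      congr 3
      refine Finset.sum_congr rfl fun i _ => ?_
      rw [M.n2_sub_comm]
    rw [e5] at e4
    have e6 := mul_le_mul_of_nonneg_left e4 hβ
    rw [sub_self, n2_zero, sub_self, n2_zero] at e3
    linarith
  have e7 := mul_le_mul_of_nonneg_left e1 hα
  linarith

theorem Psi_lip_left {α β : ℝ} (hα : 0 ≤ α) (hβ : 0 ≤ β) {b b' x x' : M} {u : Fin 3 → M}
    {w h c : M} (hb : ‖b‖ ≤ 1) (hb' : ‖b'‖ ≤ 1)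
    (hx : ‖x‖ ≤ 1) (hx' : ‖x'‖ ≤ 1) (hw : ‖w‖ ≤ 1) (hh : ‖h‖ ≤ 1) (hc : ‖c‖ ≤ 1) :
    M.Psi α β b x u w h c ≤ M.Psi α β b' x' u w h c + (4 * M.n2 (b - b') +
      4 * M.n2 (x - x')) := by
  have := Psi_lip hα hβ hb hb' hx hx' hw hw hh hh hc hc (u := u) (u' := u)
  simp only [sub_self, n2_zero, mul_zero, Finset.sum_const_zero, add_zero] at this
  exact this

theorem Psi_smul (α β : ℝ) (t₁ t₂ : ℂ) (h₁ : ‖t₁‖ = 1) (h₂ : ‖t₂‖ = 1) (b x : M)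
    (u : Fin 3 → M) (w h c : M) :
    M.Psi α β (t₁ • b) (t₂ • x) u w h c = M.Psi α β b x u w h c := by
  unfold Psi psiS psiT
  have : ∀ s s' : M, M.gh (t₁ • b) (t₂ • x) s s' w h c = M.gh b x s s' w h c := by
    intro s s'
    have := gh_smul t₁ t₂ 1 1 h₁ h₂ (by simp) (by simp) b x s s' w h c
    rwa [one_smul, one_smul] at this
  simp only [this]

/-! ### `F` -/

theorem FT_nonneg (x : M) (u : Fin 3 → M) (z w v : M) : 0 ≤ M.FT x u z w v := by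
  unfold FT
  have h1 := cm_nonneg w (x * (v * z * star v))
  have h2 := M.n2_nonneg (1 - star v * v)
  have h3 := gap_nonneg v u
  positivity

theorem bdd_FT (x : M) (u : Fin 3 → M) (z w : M) :
    BddBelow (Set.range fun v : M.Ball => M.FT x u z w v) :=
  ⟨0, by rintro _ ⟨y, rfl⟩; exact FT_nonneg _ _ _ _ _⟩

theorem F_nonneg (x : M) (u : Fin 3 → M) (z w : M) : 0 ≤ M.F x u z w :=
  Real.iInf_nonneg fun _ => FT_nonneg _ _ _ _ _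

theorem F_le (x : M) (u : Fin 3 → M) (z w : M) {v : M} (hv : ‖v‖ ≤ 1) :
    M.F x u z w ≤ M.FT x u z w v := ciInf_le (bdd_FT x u z w) ⟨v, hv⟩

theorem le_F {x : M} {u : Fin 3 → M} {z w : M} {r : ℝ}
    (h : ∀ v : M, ‖v‖ ≤ 1 → r ≤ M.FT x u z w v) : r ≤ M.F x u z w :=
  le_ciInf fun v => h v.1 v.2

theorem F_lip {x x' : M} {u u' : Fin 3 → M} {z z' w w' : M} (hx : ‖x‖ ≤ 1) (hx' : ‖x'‖ ≤ 1)
    (hz : ‖z‖ ≤ 1) (hw' : ‖w'‖ ≤ 1) :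
    M.F x u z w ≤ M.F x' u' z' w' + (2 * M.n2 (x - x') + 4800 * ∑ i, M.n2 (u i - u' i) +
      2 * M.n2 (z - z') + 2 * M.n2 (w - w')) := by
  refine iInf_le_iInf_add (bdd_FT _ _ _ _) fun v => ?_
  unfold FT
  have h1 := gap_lip_u v.1 u u'
  have h2 := n2_conj_sub_le (x := v.1) (x' := v.1) (w := z) (w' := z') v.2 v.2 hz
  rw [sub_self, n2_zero] at h2
  have h3 := n2_mul_sub_mul_le (x := x) (x' := x') (y := v.1 * z * star v.1)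
    (y' := v.1 * z' * star v.1) (norm_conj_le v.2 hz) hx'
  have h4 := cm_lip (x := w) (x' := w') (y := x * (v.1 * z * star v.1))
    (y' := x' * (v.1 * z' * star v.1)) (norm_mul_le_one hx (norm_conj_le v.2 hz)) hw'
  linarith

theorem F1_nonneg (x : M) (u : Fin 3 → M) (z w : M) : 0 ≤ M.F1 x u z w :=
  le_min zero_le_one (mul_nonneg (by norm_num) (F_nonneg _ _ _ _))

theorem F1_le_one (x : M) (u : Fin 3 → M) (z w : M) : M.F1 x u z w ≤ 1 := min_le_left _ _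

theorem F1_lip {x x' : M} {u u' : Fin 3 → M} {z z' w w' : M} (hx : ‖x‖ ≤ 1) (hx' : ‖x'‖ ≤ 1)
    (hz : ‖z‖ ≤ 1) (hw' : ‖w'‖ ≤ 1) :
    M.F1 x u z w ≤ M.F1 x' u' z' w' + (64 * M.n2 (x - x') + 153600 * ∑ i, M.n2 (u i - u' i) +
      64 * M.n2 (z - z') + 64 * M.n2 (w - w')) := by
  have n : ∀ z : M, 0 ≤ M.n2 z := M.n2_nonneg
  have n1 := n (x - x')
  have n4 := n (z - z')
  have n5 := n (w - w')
  have n7 : 0 ≤ ∑ i, M.n2 (u i - u' i) := Finset.sum_nonneg fun i _ => n _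
  refine min_one_le_add (by positivity) ?_
  have := F_lip (u := u) (u' := u') (z' := z') (w := w) hx hx' hz hw'
  linarith

end TVN

/-! ### the error function -/

theorem cut0_nonneg (f : ℝ) : 0 ≤ cut0 f := le_max_left _ _
theorem cut1_nonneg (f : ℝ) : 0 ≤ cut1 f := le_max_left _ _
theorem cut0_le_one (f : ℝ) : cut0 f ≤ 1 := max_le zero_le_one (min_le_left _ _)
theorem cut1_le_one (f : ℝ) : cut1 f ≤ 1 := max_le zero_le_one (min_le_left _ _)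

theorem cut0_eq_one {f : ℝ} (h : f ≤ 1 / 8) : cut0 f = 1 := by
  unfold cut0; rw [min_eq_left (by linarith), max_eq_right zero_le_one]

theorem cut0_eq_zero {f : ℝ} (h : 1 / 4 ≤ f) : cut0 f = 0 := by
  unfold cut0; exact max_eq_left ((min_le_right _ _).trans (by linarith))

theorem cut1_eq_one {f : ℝ} (h : 7 / 8 ≤ f) : cut1 f = 1 := by
  unfold cut1; rw [min_eq_left (by linarith), max_eq_right zero_le_one]

theorem cut1_eq_zero {f : ℝ} (h : f ≤ 3 / 4) : cut1 f = 0 := by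
  unfold cut1; exact max_eq_left ((min_le_right _ _).trans (by linarith))

theorem cut0_lip (f g : ℝ) : cut0 f ≤ cut0 g + 8 * |f - g| := by
  unfold cut0
  have h := neg_abs_le (f - g)
  exact max_zero_le_add (by positivity) (min_one_le_add (by positivity) (by linarith))

theorem cut1_lip (f g : ℝ) : cut1 f ≤ cut1 g + 8 * |f - g| := by
  unfold cut1
  have h := le_abs_self (f - g)
  exact max_zero_le_add (by positivity) (min_one_le_add (by positivity) (by linarith))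

theorem EE_le_one (f ph pl : ℝ) : EE f ph pl ≤ 1 :=
  max_le ((min_le_left _ _).trans (cut0_le_one f)) ((min_le_left _ _).trans (cut1_le_one f))

theorem EE_nonneg {f ph pl : ℝ} (h : 0 ≤ ph) : 0 ≤ EE f ph pl :=
  (le_min (cut0_nonneg f) h).trans (le_max_left _ _)

/-- Lipschitz estimate for the error function -/
theorem EE_lip {f g ph qh pl ql a b : ℝ} (h1 : |f - g| ≤ a) (ha : 0 ≤ a) (hb : 0 ≤ b)
    (h2 : ph ≤ qh + b) (h3 : ql ≤ pl + b) : EE f ph pl ≤ EE g qh ql + max (8 * a) b := by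
  unfold EE
  have e0 := cut0_lip f g
  have e1 := cut1_lip f g
  have m1 := le_max_left (8 * a) b
  have m2 := le_max_right (8 * a) b
  have key : ∀ {p q r s t : ℝ}, p ≤ q + t → r ≤ s + t → min p r ≤ min q s + t := by
    intro p q r s t h h'
    rw [min_add]
    exact min_le_min h h'
  have key2 : ∀ {p q r s t : ℝ}, p ≤ q + t → r ≤ s + t → max p r ≤ max q s + t := by
    intro p q r s t h h'
    rw [max_add]
    exact max_le_max h h'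
  refine key2 (key ?_ ?_) (key ?_ ?_) <;> linarith

namespace TVN

variable {M : TVN}

/-! ### the remaining functions -/

theorem thX_nonneg (u : Fin 3 → M) (w h c : M) (u' : Fin 3 → M) (z w' b x : M) :
    0 ≤ M.thX u w h c u' z w' b x := le_max_left _ _

theorem thX_le_one (u : Fin 3 → M) (w h c : M) (u' : Fin 3 → M) (z w' b x : M) :
    M.thX u w h c u' z w' b x ≤ 1 := by
  refine max_le zero_le_one ?_
  have h1 := EE_le_one (M.F1 x u' z w') (M.Psi 112000 280 b x u w h c)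
    (M.Psi 280 112000 b x u w h c)
  have h2 := GD_nonneg x u w c
  linarith

theorem bdd_thX (u : Fin 3 → M) (w h c : M) (u' : Fin 3 → M) (z w' b : M) :
    BddAbove (Set.range fun x : M.Ball => M.thX u w h c u' z w' b x) :=
  ⟨1, by rintro _ ⟨y, rfl⟩; exact thX_le_one _ _ _ _ _ _ _ _ _⟩

theorem thB_nonneg (u : Fin 3 → M) (w h c : M) (u' : Fin 3 → M) (z w' b : M) :
    0 ≤ M.thB u w h c u' z w' b :=
  le_max_of_le_left (mul_nonneg (by norm_num) (GD_nonneg _ _ _ _))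

theorem bdd_thB (u : Fin 3 → M) (w h c : M) (u' : Fin 3 → M) (z w' : M) :
    BddBelow (Set.range fun b : M.Ball => M.thB u w h c u' z w' b) :=
  ⟨0, by rintro _ ⟨y, rfl⟩; exact thB_nonneg _ _ _ _ _ _ _ _⟩

theorem thC_nonneg (u : Fin 3 → M) (w h c : M) (u' : Fin 3 → M) (z w' : M) :
    0 ≤ M.thC u w h c u' z w' := Real.iInf_nonneg fun _ => thB_nonneg _ _ _ _ _ _ _ _

theorem thC_le (u : Fin 3 → M) (w h c : M) (u' : Fin 3 → M) (z w' : M) {b : M} (hb : ‖b‖ ≤ 1) :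
    M.thC u w h c u' z w' ≤ M.thB u w h c u' z w' b := ciInf_le (bdd_thB _ _ _ _ _ _ _) ⟨b, hb⟩

theorem thC_le_const (u : Fin 3 → M) (w h c : M) (u' : Fin 3 → M) (z w' : M) :
    M.thC u w h c u' z w' ≤ 40000 := by
  refine (thC_le u w h c u' z w' (b := 0) (by simp)).trans (max_le ?_ ?_)
  · rw [GD_zero]; norm_num
  · exact (ciSup_le fun x => thX_le_one _ _ _ _ _ _ _ _ _).trans (by norm_num)

/-- distance of parameters -/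
def dPar (u u' : Fin 3 → M) (w w' h h' c c' : M) : ℝ :=
  ∑ i, M.n2 (u i - u' i) + M.n2 (w - w') + M.n2 (h - h') + M.n2 (c - c')

/-- distance of codes -/
def dCod (u u' : Fin 3 → M) (z z' w w' : M) : ℝ :=
  ∑ i, M.n2 (u i - u' i) + M.n2 (z - z') + M.n2 (w - w')

theorem dPar_nonneg (u u' : Fin 3 → M) (w w' h h' c c' : M) : 0 ≤ M.dPar u u' w w' h h' c c' := by
  have n : ∀ z : M, 0 ≤ M.n2 z := M.n2_nonneg
  have n7 : 0 ≤ ∑ i, M.n2 (u i - u' i) := Finset.sum_nonneg fun i _ => n _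
  have := n (w - w'); have := n (h - h'); have := n (c - c')
  unfold dPar; positivity

theorem dCod_nonneg (u u' : Fin 3 → M) (z z' w w' : M) : 0 ≤ M.dCod u u' z z' w w' := by
  have n : ∀ z : M, 0 ≤ M.n2 z := M.n2_nonneg
  have n7 : 0 ≤ ∑ i, M.n2 (u i - u' i) := Finset.sum_nonneg fun i _ => n _
  have := n (z - z'); have := n (w - w')
  unfold dCod; positivity

/-- `thX` is Lipschitz in the parameters and codes. -/
theorem thX_lip {u₁ u₂ : Fin 3 → M} {w₁ w₂ h₁ h₂ c₁ c₂ : M} {v₁ v₂ : Fin 3 → M}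
    {z₁ z₂ y₁ y₂ b x : M} (hw₁ : ‖w₁‖ ≤ 1) (hw₂ : ‖w₂‖ ≤ 1) (hh₁ : ‖h₁‖ ≤ 1) (hh₂ : ‖h₂‖ ≤ 1)
    (hc₁ : ‖c₁‖ ≤ 1) (hc₂ : ‖c₂‖ ≤ 1) (hz₁ : ‖z₁‖ ≤ 1) (hz₂ : ‖z₂‖ ≤ 1) (hy₁ : ‖y₁‖ ≤ 1)
    (hy₂ : ‖y₂‖ ≤ 1) (hb : ‖b‖ ≤ 1) (hx : ‖x‖ ≤ 1) :
    M.thX u₁ w₁ h₁ c₁ v₁ z₁ y₁ b x ≤ M.thX u₂ w₂ h₂ c₂ v₂ z₂ y₂ b x +
      (100000000 * dPar u₁ u₂ w₁ w₂ h₁ h₂ c₁ c₂ + 2000000 * dCod v₁ v₂ z₁ z₂ y₁ y₂) := by
  have n : ∀ z : M, 0 ≤ M.n2 z := M.n2_nonneg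
  have nu : 0 ≤ ∑ i, M.n2 (u₁ i - u₂ i) := Finset.sum_nonneg fun i _ => n _
  have nv : 0 ≤ ∑ i, M.n2 (v₁ i - v₂ i) := Finset.sum_nonneg fun i _ => n _
  have nw := n (w₁ - w₂)
  have nh := n (h₁ - h₂)
  have nc := n (c₁ - c₂)
  have nz := n (z₁ - z₂)
  have ny := n (y₁ - y₂)
  have dp := dPar_nonneg u₁ u₂ w₁ w₂ h₁ h₂ c₁ c₂
  have dc := dCod_nonneg v₁ v₂ z₁ z₂ y₁ y₂
  unfold thX
  refine max_zero_le_add (by positivity) ?_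
  have g1 := GD_lip_par (M := M) (c := c₂) (c' := c₁) hx u₂ u₁ (w := w₂) (w' := w₁) hw₂ hc₁
  have f1 := F1_lip (M := M) (u := v₁) (u' := v₂) (z := z₁) (z' := z₂) (w := y₁) (w' := y₂) hx hx
    hz₁ hy₂
  have f2 := F1_lip (M := M) (u := v₂) (u' := v₁) (z := z₂) (z' := z₁) (w := y₂) (w' := y₁) hx hx
    hz₂ hy₁
  have p1 := Psi_lip (M := M) (α := 112000) (β := 280) (by norm_num) (by norm_num) (b := b)
    (b' := b) (x := x) (x' := x) (u := u₁) (u' := u₂) hb hb hx hx hw₁ hw₂ hh₁ hh₂ hc₁ hc₂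
  have p2 := Psi_lip (M := M) (α := 280) (β := 112000) (by norm_num) (by norm_num) (b := b)
    (b' := b) (x := x) (x' := x) (u := u₂) (u' := u₁) hb hb hx hx hw₂ hw₁ hh₂ hh₁ hc₂ hc₁
  have sym : ∀ (p q : Fin 3 → M), ∑ i, M.n2 (p i - q i) = ∑ i, M.n2 (q i - p i) := fun p q =>
    Finset.sum_congr rfl fun i _ => M.n2_sub_comm _ _
  rw [sym u₂ u₁, M.n2_sub_comm w₂, M.n2_sub_comm c₂] at g1
  rw [sym v₂ v₁, M.n2_sub_comm z₂, M.n2_sub_comm y₂, sub_self, n2_zero] at f2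
  rw [sub_self, n2_zero] at f1
  rw [sym u₂ u₁, M.n2_sub_comm w₂, M.n2_sub_comm c₂, M.n2_sub_comm h₂, sub_self, n2_zero,
    sub_self, n2_zero] at p2
  rw [sub_self, n2_zero, sub_self, n2_zero] at p1
  have hf : |M.F1 x v₁ z₁ y₁ - M.F1 x v₂ z₂ y₂| ≤ 153600 * dCod v₁ v₂ z₁ z₂ y₁ y₂ := by
    unfold dCod
    rw [abs_le]
    constructor <;> linarith
  have hE := EE_lip (ph := M.Psi 112000 280 b x u₁ w₁ h₁ c₁) (qh := M.Psi 112000 280 b x u₂ w₂ h₂ c₂)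
    (pl := M.Psi 280 112000 b x u₁ w₁ h₁ c₁) (ql := M.Psi 280 112000 b x u₂ w₂ h₂ c₂)
    (b := 50000000 * dPar u₁ u₂ w₁ w₂ h₁ h₂ c₁ c₂) hf (by positivity) (by positivity)
    (by unfold dPar; linarith) (by unfold dPar; linarith)
  have hm : max (8 * (153600 * dCod v₁ v₂ z₁ z₂ y₁ y₂))
      (50000000 * dPar u₁ u₂ w₁ w₂ h₁ h₂ c₁ c₂) ≤
      50000000 * dPar u₁ u₂ w₁ w₂ h₁ h₂ c₁ c₂ + 2000000 * dCod v₁ v₂ z₁ z₂ y₁ y₂ :=
    max_le (by linarith) (by linarith)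
  have hg : 40000 * (400 * ∑ i, M.n2 (u₁ i - u₂ i) + 2 * M.n2 (w₁ - w₂) + 2 * M.n2 (c₁ - c₂)) ≤
      50000000 * dPar u₁ u₂ w₁ w₂ h₁ h₂ c₁ c₂ := by
    unfold dPar; linarith
  linarith

theorem thB_lip {u₁ u₂ : Fin 3 → M} {w₁ w₂ h₁ h₂ c₁ c₂ : M} {v₁ v₂ : Fin 3 → M}
    {z₁ z₂ y₁ y₂ b : M} (hw₁ : ‖w₁‖ ≤ 1) (hw₂ : ‖w₂‖ ≤ 1) (hh₁ : ‖h₁‖ ≤ 1) (hh₂ : ‖h₂‖ ≤ 1)
    (hc₁ : ‖c₁‖ ≤ 1) (hc₂ : ‖c₂‖ ≤ 1) (hz₁ : ‖z₁‖ ≤ 1) (hz₂ : ‖z₂‖ ≤ 1) (hy₁ : ‖y₁‖ ≤ 1)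
    (hy₂ : ‖y₂‖ ≤ 1) (hb : ‖b‖ ≤ 1) :
    M.thB u₁ w₁ h₁ c₁ v₁ z₁ y₁ b ≤ M.thB u₂ w₂ h₂ c₂ v₂ z₂ y₂ b +
      (100000000 * dPar u₁ u₂ w₁ w₂ h₁ h₂ c₁ c₂ + 2000000 * dCod v₁ v₂ z₁ z₂ y₁ y₂) := by
  have dp := dPar_nonneg u₁ u₂ w₁ w₂ h₁ h₂ c₁ c₂
  have dc := dCod_nonneg v₁ v₂ z₁ z₂ y₁ y₂
  have n : ∀ z : M, 0 ≤ M.n2 z := M.n2_nonneg
  have nu : 0 ≤ ∑ i, M.n2 (u₁ i - u₂ i) := Finset.sum_nonneg fun i _ => n _
  have nw := n (w₁ - w₂)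
  have nh := n (h₁ - h₂)
  have nc := n (c₁ - c₂)
  unfold thB
  rw [max_add]
  refine max_le_max ?_ ?_
  · have g1 := GD_lip_par (M := M) (c := c₁) (c' := c₂) hb u₁ u₂ (w := w₁) (w' := w₂) hw₁ hc₂
    have hg : 40000 * (400 * ∑ i, M.n2 (u₁ i - u₂ i) + 2 * M.n2 (w₁ - w₂) + 2 * M.n2 (c₁ - c₂)) ≤
        50000000 * dPar u₁ u₂ w₁ w₂ h₁ h₂ c₁ c₂ := by
      unfold dPar; linarith
    linarith
  · exact iSup_le_iSup_add (bdd_thX _ _ _ _ _ _ _ _) fun x =>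
      thX_lip hw₁ hw₂ hh₁ hh₂ hc₁ hc₂ hz₁ hz₂ hy₁ hy₂ hb x.2

theorem thC_lip {u₁ u₂ : Fin 3 → M} {w₁ w₂ h₁ h₂ c₁ c₂ : M} {v₁ v₂ : Fin 3 → M}
    {z₁ z₂ y₁ y₂ : M} (hw₁ : ‖w₁‖ ≤ 1) (hw₂ : ‖w₂‖ ≤ 1) (hh₁ : ‖h₁‖ ≤ 1) (hh₂ : ‖h₂‖ ≤ 1)
    (hc₁ : ‖c₁‖ ≤ 1) (hc₂ : ‖c₂‖ ≤ 1) (hz₁ : ‖z₁‖ ≤ 1) (hz₂ : ‖z₂‖ ≤ 1) (hy₁ : ‖y₁‖ ≤ 1)
    (hy₂ : ‖y₂‖ ≤ 1) :
    M.thC u₁ w₁ h₁ c₁ v₁ z₁ y₁ ≤ M.thC u₂ w₂ h₂ c₂ v₂ z₂ y₂ +
      (100000000 * dPar u₁ u₂ w₁ w₂ h₁ h₂ c₁ c₂ + 2000000 * dCod v₁ v₂ z₁ z₂ y₁ y₂) :=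
  iInf_le_iInf_add (bdd_thB _ _ _ _ _ _ _) fun b =>
    thB_lip hw₁ hw₂ hh₁ hh₂ hc₁ hc₂ hz₁ hz₂ hy₁ hy₂ b.2

end TVN

end Pool.Agent.Lib.EcII
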