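import Pool.Agent.Lib.EcII.Crit
import Pool.Agent.Lib.EcII.Kap
import Pool.Agent.Lib.EcII.Fock
import Pool.Agent.Lib.EcII.Kaz
import Pool.Agent.Lib.EcII.Lip2

/-!
# The gap in algebras satisfying the moment criterion
-/

open scoped ComplexOrder

noncomputable section

namespace Pool.Agent.Lib.EcII

namespace TVN

variable {M : TVN}

/-- approximate solutions of commutator conditions -/
theorem EC'.comm_approx (h : M.EC') {P : TVN} (ι : M →⋆ₐ[ℂ] P) (hι : ∀ x, P.tr (ι x) = M.tr x)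
    (x : M) (u : Fin 3 → M) (y : P) (hy : ‖y‖ ≤ 1) {ε : ℝ} (hε : 0 < ε) :
    ∃ y' : M, ‖y'‖ ≤ 1 ∧ |P.cm (ι x) y - M.cm x y'| < ε ∧
      ∀ i, |P.cm (ι (u i)) y - M.cm (u i) y'| < ε := by
  classical
  let a : Option (Fin 3) → M := fun o => o.elim x u
  let Qf : Option (Fin 3) → (List ((Option (Fin 3) ⊕ Unit) × Bool) →₀ ℂ) := fun o =>
    pcomm (X (Sum.inl o)) (X (Sum.inr ()))
  obtain ⟨y', hy', hQ⟩ := h.n2 ι hι a (fun _ : Unit => y) (fun _ => hy)
    (Finset.univ.image Qf) ε hε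
  have key : ∀ o, |P.cm (ι (a o)) y - M.cm (a o) (y' ())| < ε := by
    intro o
    have := hQ (Qf o) (Finset.mem_image_of_mem _ (Finset.mem_univ _))
    simp only [Qf] at this
    rw [evp_pcomm, evp_pcomm, evp_X, evp_X, evp_X, evp_X] at this
    exact this
  exact ⟨y' (), hy' (), key none, fun i => key (some i)⟩

theorem gap_le_gap_map {P : TVN} (ι : M →⋆ₐ[ℂ] P) (hι : ∀ x, P.tr (ι x) = M.tr x)
    (x : M) (u : Fin 3 → M) : M.gap x u ≤ P.gap (ι x) (fun i => ι (u i)) := by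
  refine gap_le_of x u (gap_nonneg _ _) fun y hy => ?_
  have h1 := le_gap (ι x) (fun i => ι (u i)) (y := ι y) (by rw [norm_map ι hι]; exact hy)
  simp only [cm_map ι hι] at h1
  exact h1

theorem EC'.gap_map (h : M.EC') {P : TVN} (ι : M →⋆ₐ[ℂ] P) (hι : ∀ x, P.tr (ι x) = M.tr x)
    (x : M) (u : Fin 3 → M) : P.gap (ι x) (fun i => ι (u i)) = M.gap x u := by
  refine le_antisymm ?_ (gap_le_gap_map ι hι x u)
  refine gap_le_of _ _ (gap_nonneg _ _) fun y hy => ?_
  refine le_of_forall_pos_le_add fun ε hε => ?_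
  obtain ⟨y', hy', h1, h2⟩ := h.comm_approx ι hι x u y hy (ε := ε / 601) (by positivity)
  have h3 := le_gap x u hy'
  have h4 : ∑ i, M.cm (u i) y' ≤ ∑ i, P.cm (ι (u i)) y + 3 * (ε / 601) := by
    have : ∑ i : Fin 3, M.cm (u i) y' ≤ ∑ i : Fin 3, (P.cm (ι (u i)) y + ε / 601) := by
      refine Finset.sum_le_sum fun i _ => ?_
      have := abs_lt.1 (h2 i)
      linarith [this.1]
    rw [Finset.sum_add_distrib, Finset.sum_const, Finset.card_univ, Fintype.card_fin,
      nsmul_eq_mul] at this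
    push_cast at this
    linarith
  have h5 := abs_lt.1 h1
  have h6 : ε = 601 * (ε / 601) := by field_simp
  linarith [h5.2]

theorem EC'.GD_map (h : M.EC') {P : TVN} (ι : M →⋆ₐ[ℂ] P) (hι : ∀ x, P.tr (ι x) = M.tr x)
    (x : M) (u : Fin 3 → M) (w c : M) :
    P.GD (ι x) (fun i => ι (u i)) (ι w) (ι c) = M.GD x u w c := by
  unfold GD
  rw [h.gap_map ι hι, ← map_star, ← map_mul, ← map_mul, ← map_mul, cm_map ι hι, ← n2_map ι hι,
    map_sub, map_one]

theorem gh_map {P : TVN} (ι : M →⋆ₐ[ℂ] P) (hι : ∀ x, P.tr (ι x) = M.tr x)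
    (b x s s' w h c : M) :
    P.gh (ι b) (ι x) (ι s) (ι s') (ι w) (ι h) (ι c) = M.gh b x s s' w h c := by
  unfold gh
  simp only [← map_mul, ← map_star, cm_map ι hι]

/-- **The double commutant estimate.** -/
theorem EC'.n2_sub_condE_le (h : M.EC') (x : M) (u : Fin 3 → M) :
    M.n2 (x - (condE u).E x) ≤ 3 / 2 * M.gap x u := by
  obtain ⟨P, ι, y, hι, hy, hcomm, hn⟩ := exists_semicircular M (cAlg u) (condE u)
  have hu : ∀ i, P.cm (ι (u i)) y = 0 := by
    intro i
    unfold cm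
    rw [hcomm _ (mem_cAlg_self u i), sub_self, n2_zero]
  have h1 := le_gap (ι x) (fun i => ι (u i)) hy
  simp only [hu, Finset.sum_const_zero, mul_zero, sub_zero] at h1
  rw [h.gap_map ι hι] at h1
  have h2 := hn x
  have h3 : P.cm (ι x) y = P.n2 (ι x * y - y * ι x) := rfl
  rw [h3] at h1
  have h4 := P.n2_nonneg (ι x * y - y * ι x)
  have h5 := M.n2_nonneg (x - (condE u).E x)
  have h6 : M.n2 (x - (condE u).E x) ^ 2 ≤ (3 / 2 * M.gap x u) ^ 2 := by
    rw [h2]
    nlinarith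
  exact (abs_le_of_sq_le_sq' h6 (by have := gap_nonneg x u; positivity)).2

theorem evp_one_tuple (Q : List (Fin 3 × Bool) →₀ ℂ) :
    ∃ r : ℂ, evp (fun _ : Fin 3 => (1 : M)) Q = r • 1 := by
  have h1 : ∀ w : List (Fin 3 × Bool), ev (fun _ : Fin 3 => (1 : M)) w = 1 := by
    intro w
    induction w with
    | nil => rfl
    | cons a w ih =>
      rw [ev_cons, ih, mul_one]
      rcases a with ⟨j, e⟩
      cases e <;> simp
  refine ⟨Q.sum fun _ c => c, ?_⟩
  unfold evp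
  simp only [h1, Finsupp.sum, Finset.sum_smul]

/-- The centre is trivial. -/
theorem EC'.centre_trivial (h : M.EC') (z : M) (hz : ∀ x : M, z * x = x * z) :
    ∃ c : ℂ, z = c • (1 : M) := by
  have hg : M.gap z (fun _ => 1) = 0 := by
    refine le_antisymm (gap_le_of _ _ le_rfl fun y _ => ?_) (gap_nonneg _ _)
    have : M.cm z y = 0 := by unfold cm; rw [hz, sub_self, n2_zero]
    rw [this]
    have h2 : 0 ≤ ∑ i : Fin 3, M.cm (1 : M) y := Finset.sum_nonneg fun i _ => cm_nonneg _ _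
    linarith
  have h1 := h.n2_sub_condE_le z (fun _ => 1)
  rw [hg, mul_zero] at h1
  have h2 : z = (condE (fun _ : Fin 3 => (1 : M))).E z := by
    have := M.n2_eq_zero.1 (le_antisymm h1 (M.n2_nonneg _))
    exact sub_eq_zero.1 this
  refine ⟨M.tr z, ?_⟩
  rw [← sub_eq_zero, ← M.n2_eq_zero]
  refine le_antisymm (le_of_forall_pos_le_add fun ε hε => ?_) (M.n2_nonneg _)
  obtain ⟨a, ha, -, ha2⟩ := (condE (fun _ : Fin 3 => (1 : M))).approx z (ε / 4) (by positivity)
  have hcl : a ∈ closure (Set.range (evp (fun _ : Fin 3 => (1 : M)))) := ha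
  obtain ⟨_, ⟨Q, rfl⟩, hQ⟩ := Metric.mem_closure_iff.1 hcl (ε / 4) (by positivity)
  obtain ⟨r, hr⟩ := evp_one_tuple (M := M) Q
  rw [dist_eq_norm, hr] at hQ
  have h3 : M.n2 (z - r • 1) ≤ ε / 2 := by
    have e1 := M.n2_tri z a (r • 1)
    have e2 := M.n2_le_norm (a - r • 1)
    rw [← h2] at ha2
    linarith
  have h4 : ‖M.tr z - r‖ ≤ ε / 2 := by
    have e1 : M.tr (z - r • 1) = M.tr z - r := by
      rw [map_sub, map_smul, M.tr_one, smul_eq_mul, mul_one]
    rw [← e1]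
    exact (M.norm_tr_le_n2 _).trans h3
  have e : z - M.tr z • 1 = (z - r • 1) - (M.tr z - r) • 1 := by
    rw [sub_smul]; abel
  rw [e, zero_add]
  refine (M.n2_sub_le _ _).trans ?_
  rw [n2_smul, n2_one, mul_one]
  linarith

/-- conjugation by a unitary representation -/
def conjRep {Λ : Type*} [Group Λ] (l : Λ → M) (h1 : l 1 = 1)
    (hm : ∀ g g', l (g * g') = l g * l g') : Λ →* (M.L2 →ₗ[ℂ] M.L2) where
  toFun g := M.toL2.toLinearMap ∘ₗ
    (LinearMap.mulRight ℂ (star (l g)) ∘ₗ LinearMap.mulLeft ℂ (l g)) ∘ₗ M.toL2.symm.toLinearMap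
  map_one' := by
    ext x
    simp [h1]
  map_mul' g g' := by
    ext x
    simp [hm, mul_assoc]

/-- Kazhdan elements have zero gap. -/
theorem gap_eq_zero_of_kms {Λ : Type*} [Group Λ] {u : Fin 3 → Λ} (hu : KMS u)
    (hgen : Subgroup.closure (Set.range u) = ⊤) (l : Λ → M) (h1 : l 1 = 1)
    (hm : ∀ g g', l (g * g') = l g * l g') (hl : ∀ g, l g ∈ unitary M) (g : Λ) :
    M.gap (l g) (fun i => l (u i)) = 0 := by
  refine le_antisymm (gap_le_of _ _ le_rfl fun y _ => ?_) (gap_nonneg _ _)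
  have key : ∀ (g : Λ) (y : M), ‖conjRep l h1 hm g (M.toL2 y) - M.toL2 y‖ = M.cm (l g) y := by
    intro g y
    have e1 : conjRep l h1 hm g (M.toL2 y) - M.toL2 y = M.toL2 (l g * y * star (l g) - y) := by
      rw [map_sub]; rfl
    rw [e1, norm_toL2]
    unfold cm
    have e2 : l g * y - y * l g = (l g * y * star (l g) - y) * l g := by
      rw [sub_mul, mul_assoc (l g * y), Unitary.star_mul_self_of_mem (hl g), mul_one]
    rw [e2, M.n2_mul_unitary (hl g)]
  have hiso : ∀ (g : Λ) (x : M.L2), ‖conjRep l h1 hm g x‖ = ‖x‖ := by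
    intro g x
    have e1 : conjRep l h1 hm g x = M.toL2 (l g * M.toL2.symm x * star (l g)) := rfl
    rw [e1, norm_toL2, M.n2_mul_unitary (Unitary.star_mem (hl g)), M.n2_unitary_mul (hl g)]
    rfl
  have := kazhdan u hu (conjRep l h1 hm) hiso g (by rw [hgen]; trivial) (M.toL2 y)
  rw [key] at this
  simp only [key] at this
  linarith

end TVN

end Pool.Agent.Lib.EcII
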