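import Mathlib

/-!
# Tracial von Neumann algebras as metric structures, existentially closed II_1 factors

Basic definitions used in the statement: tracial von Neumann algebras, II_1 factors, terms and
formulas of the continuous language of tracial von Neumann algebras, existential formulas and
existentially closed II_1 factors.
-/

open scoped ComplexOrder

namespace Pool.Agent.Lib.EcII

/-- A tracial von Neumann algebra: a unital C-star algebra with a faithful tracial state `tr`
whose operator norm unit ball is complete for the metric of the trace norm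
`‖x‖₂ = tr (x^* x) ^ (1/2)`.  (A C-star algebra with a faithful tracial state is a von Neumann
algebra with a faithful normal tracial state exactly when its unit ball is complete in this
metric.) -/
structure TVN where
  /-- the underlying type -/
  carrier : Type
  /-- the C-star algebra structure -/
  [inst : CStarAlgebra carrier]
  /-- the trace -/
  tr : carrier →ₗ[ℂ] ℂ
  tr_one : tr 1 = 1
  tr_nonneg : ∀ x, 0 ≤ tr (star x * x)
  tr_comm : ∀ x y, tr (x * y) = tr (y * x)
  tr_faithful : ∀ x, tr (star x * x) = 0 → x = 0
  complete_ball : ∀ s : ℕ → carrier, (∀ n, ‖s n‖ ≤ 1) →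
    (∀ ε > 0, ∃ N, ∀ m ≥ N, ∀ n ≥ N, (tr (star (s m - s n) * (s m - s n))).re < ε) →
    ∃ x, ‖x‖ ≤ 1 ∧ ∀ ε > 0, ∃ N, ∀ n ≥ N, (tr (star (s n - x) * (s n - x))).re < ε

namespace TVN

instance : CoeSort TVN Type := ⟨TVN.carrier⟩

noncomputable instance (M : TVN) : CStarAlgebra M := M.inst

/-- The trace norm `‖x‖₂ = tr (x^* x) ^ (1/2)`. -/
noncomputable def n2 (M : TVN) (x : M) : ℝ := √(M.tr (star x * x)).re

/-- A II_1 factor: trivial centre and infinite dimension (a tracial von Neumann algebra which is
an infinite dimensional factor). -/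
structure IsII1Factor (M : TVN) : Prop where
  centre_trivial : ∀ z : M, (∀ x : M, z * x = x * z) → ∃ c : ℂ, z = c • (1 : M)
  infinite_dim : ¬ FiniteDimensional ℂ M

end TVN

/-- Terms in `n` variables of the language of tracial von Neumann algebras: star polynomials. -/
inductive Term (n : ℕ) : Type
  | var (i : Fin n) : Term n
  | one : Term n
  | add (s t : Term n) : Term n
  | mul (s t : Term n) : Term n
  | star (t : Term n) : Term n
  | smul (c : ℂ) (t : Term n) : Term n

/-- Formulas with `n` free variables of continuous logic in the language of tracial von Neumann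
algebras.  Atomic formulas are real and imaginary parts of traces of terms and distances
`‖s - t‖₂` of terms; connectives are arbitrary continuous functions `ℝ^k → ℝ`; the quantifiers
`inf r` and `sup r` range over the operator norm ball of radius `r`, the quantified variable is
the variable with index `0`. -/
inductive Formula : ℕ → Type
  | trRe {n : ℕ} (t : Term n) : Formula n
  | trIm {n : ℕ} (t : Term n) : Formula n
  | dist {n : ℕ} (s t : Term n) : Formula n
  | conn {n k : ℕ} (f : C(Fin k → ℝ, ℝ)) (φ : Fin k → Formula n) : Formula n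
  | inf {n : ℕ} (r : ℕ) (φ : Formula (n + 1)) : Formula n
  | sup {n : ℕ} (r : ℕ) (φ : Formula (n + 1)) : Formula n

/-- The value of a term in a tracial von Neumann algebra at a tuple. -/
noncomputable def Term.eval (M : TVN) {n : ℕ} (v : Fin n → M) : Term n → M
  | .var i => v i
  | .one => 1
  | .add s t => s.eval M v + t.eval M v
  | .mul s t => s.eval M v * t.eval M v
  | .star t => Star.star (t.eval M v)
  | .smul c t => c • t.eval M v

/-- The value of a formula in a tracial von Neumann algebra at a tuple. -/
noncomputable def Formula.eval (M : TVN) : {n : ℕ} → Formula n → (Fin n → M) → ℝ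
  | _, .trRe t, v => (M.tr (t.eval M v)).re
  | _, .trIm t, v => (M.tr (t.eval M v)).im
  | _, .dist s t, v => M.n2 (s.eval M v - t.eval M v)
  | _, .conn f φ, v => f (fun i => (φ i).eval M v)
  | _, .inf r φ, v => ⨅ x : {x : M // ‖x‖ ≤ (r : ℝ)}, φ.eval M (Fin.cons x.1 v)
  | _, .sup r φ, v => ⨆ x : {x : M // ‖x‖ ≤ (r : ℝ)}, φ.eval M (Fin.cons x.1 v)

/-- Quantifier free formulas. -/
inductive Formula.IsQF : {n : ℕ} → Formula n → Prop
  | trRe {n : ℕ} (t : Term n) : IsQF (.trRe t)
  | trIm {n : ℕ} (t : Term n) : IsQF (.trIm t)
  | dist {n : ℕ} (s t : Term n) : IsQF (.dist s t)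
  | conn {n k : ℕ} (f : C(Fin k → ℝ, ℝ)) (φ : Fin k → Formula n) (h : ∀ i, IsQF (φ i)) :
      IsQF (.conn f φ)

/-- Existential formulas: an `inf` over some variables of a quantifier free formula. -/
inductive Formula.IsExistential : {n : ℕ} → Formula n → Prop
  | qf {n : ℕ} (φ : Formula n) (h : φ.IsQF) : IsExistential φ
  | inf {n : ℕ} (r : ℕ) (φ : Formula (n + 1)) (h : IsExistential φ) : IsExistential (.inf r φ)

/-- `M` is an existentially closed II_1 factor: for every II_1 factor `P` and every trace
preserving inclusion `ι : M → P`, every existential formula with parameters from `M` has the same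
value in `M` and in `P`. -/
structure TVN.IsEC (M : TVN) : Prop where
  factor : M.IsII1Factor
  ec : ∀ P : TVN, P.IsII1Factor → ∀ ι : M →⋆ₐ[ℂ] P, (∀ x, P.tr (ι x) = M.tr x) →
    ∀ (n : ℕ) (φ : Formula n), φ.IsExistential → ∀ v : Fin n → M,
      φ.eval M v = φ.eval P (fun i => ι (v i))

/-- Elementary equivalence: every sentence has the same value. -/
def TVN.ElemEquiv (M N : TVN) : Prop :=
  ∀ φ : Formula 0, φ.eval M (fun i => i.elim0) = φ.eval N (fun i => i.elim0)

end Pool.Agent.Lib.EcII
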