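import Pool.Agent.Lib.EcII.GNS

/-!
# Compactness of the space of laws
-/

open scoped ComplexOrder

noncomputable section

namespace Pool.Agent.Lib.EcII

/-- the set of laws -/
def LawSet (J : Type) : Set (List (J × Bool) → ℂ) := {μ | IsPosLaw μ}

theorem isClosed_le_complex {X : Type*} [TopologicalSpace X] {f g : X → ℂ} (hf : Continuous f)
    (hg : Continuous g) : IsClosed {x | f x ≤ g x} := by
  have : {x | f x ≤ g x} = {x | (f x).re ≤ (g x).re} ∩ {x | (f x).im = (g x).im} := by
    ext x; simp [Complex.le_def]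
  rw [this]
  exact (isClosed_le (Complex.continuous_re.comp hf) (Complex.continuous_re.comp hg)).inter
    (isClosed_eq (Complex.continuous_im.comp hf) (Complex.continuous_im.comp hg))

theorem isClosed_lawSet (J : Type) : IsClosed (LawSet J) := by
  have : LawSet J = {μ | μ [] = 1} ∩ (⋂ a, ⋂ b, {μ | μ (a ++ b) = μ (b ++ a)}) ∩
      (⋂ s : Finset (List (J × Bool)), ⋂ c : List (J × Bool) → ℂ,
        {μ | 0 ≤ ∑ a ∈ s, ∑ b ∈ s, star (c a) * c b * μ (wstar a ++ b)}) ∩
      (⋂ x : J, ⋂ s : Finset (List (J × Bool)), ⋂ c : List (J × Bool) → ℂ,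
        {μ | ∑ a ∈ s, ∑ b ∈ s, star (c a) * c b * μ (wstar a ++ (x, true) :: (x, false) :: b) ≤
          ∑ a ∈ s, ∑ b ∈ s, star (c a) * c b * μ (wstar a ++ b)}) := by
    ext μ
    simp only [LawSet, Set.mem_setOf_eq, Set.mem_inter_iff, Set.mem_iInter]
    constructor
    · intro h
      exact ⟨⟨⟨h.one, h.tracial⟩, h.pos⟩, h.contr⟩
    · rintro ⟨⟨⟨h1, h2⟩, h3⟩, h4⟩
      exact ⟨h1, h2, h3, h4⟩
  rw [this]
  refine ((IsClosed.inter ?_ ?_).inter ?_).inter ?_
  · exact isClosed_eq (continuous_apply _) continuous_const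
  · exact isClosed_iInter fun a => isClosed_iInter fun b =>
      isClosed_eq (continuous_apply _) (continuous_apply _)
  · refine isClosed_iInter fun s => isClosed_iInter fun c => isClosed_le_complex continuous_const ?_
    fun_prop
  · refine isClosed_iInter fun x => isClosed_iInter fun s => isClosed_iInter fun c =>
      isClosed_le_complex ?_ ?_ <;> fun_prop

theorem IsPosLaw.norm_le {J : Type} {μ : List (J × Bool) → ℂ} (h : IsPosLaw μ)
    (w : List (J × Bool)) : ‖μ w‖ ≤ 1 := by
  obtain ⟨M, v, hv, hμ, -⟩ := h.exists_tvn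
  rw [← hμ]
  exact (M.norm_tr_le _).trans (TVN.norm_ev_le hv w)

theorem isCompact_lawSet (J : Type) : IsCompact (LawSet J) := by
  have h1 : IsCompact (Set.pi Set.univ fun _ : List (J × Bool) => Metric.closedBall (0 : ℂ) 1) :=
    isCompact_univ_pi fun _ => isCompact_closedBall _ _
  refine h1.of_isClosed_subset (isClosed_lawSet J) fun μ hμ => ?_
  rw [Set.mem_univ_pi]
  intro w
  rw [mem_closedBall_zero_iff]
  exact IsPosLaw.norm_le hμ w

end Pool.Agent.Lib.EcII
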