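import Pool.Agent.Lib.EcII.Emb2
import Pool.Agent.Lib.EcII.LawSet
import Pool.Agent.Lib.EcII.Kap
import Pool.Agent.Lib.EcII.Crit

/-!
# Direct limits of sequences of tracial von Neumann algebras
-/

open scoped ComplexOrder

noncomputable section

namespace Pool.Agent.Lib.EcII

open TVN

namespace DirLim

variable (M : ℕ → TVN) (ι : ∀ t, M t →⋆ₐ[ℂ] M (t + 1))

/-- letters: elements of unit balls of all stages -/
abbrev Let : Type := Σ t, (M t).Ball

/-- the letters at stage `s` (zero for letters of later stages) -/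
def lf : ∀ s, Let M → M s
  | 0, x => if h : x.1 = 0 then h ▸ x.2.1 else 0
  | s + 1, x => if h : x.1 = s + 1 then h ▸ x.2.1 else ι s (lf s x)

theorem lf_self (s : ℕ) (y : (M s).Ball) : lf M ι s ⟨s, y⟩ = y.1 := by
  cases s with
  | zero => simp [lf]
  | succ s => simp [lf]

theorem lf_succ {s : ℕ} {x : Let M} (h : x.1 ≠ s + 1) : lf M ι (s + 1) x = ι s (lf M ι s x) := by
  rw [lf, dif_neg h]

theorem norm_lf_le (hι : ∀ t x, (M (t + 1)).tr (ι t x) = (M t).tr x) (s : ℕ) (x : Let M) :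
    ‖lf M ι s x‖ ≤ 1 := by
  induction s with
  | zero =>
    rw [lf]
    split_ifs with h
    · rcases x with ⟨t, y⟩
      simp only at h
      subst h
      exact y.2
    · simp
  | succ s ih =>
    by_cases h : x.1 = s + 1
    · rcases x with ⟨t, y⟩
      simp only at h
      subst h
      rw [lf_self]
      exact y.2
    · rw [lf_succ M ι h, norm_map (ι s) (hι s)]
      exact ih

/-- level of a word -/
def lev (w : List (Let M × Bool)) : ℕ := (w.map (fun x => x.1.1)).foldr max 0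

theorem le_lev {w : List (Let M × Bool)} {x : Let M × Bool} (hx : x ∈ w) : x.1.1 ≤ lev M w := by
  induction w with
  | nil => simp at hx
  | cons a w ih =>
    have e : lev M (a :: w) = max a.1.1 (lev M w) := rfl
    rw [e]
    rcases List.mem_cons.1 hx with rfl | hx
    · exact le_max_left _ _
    · exact (ih hx).trans (le_max_right _ _)

theorem law_succ (hι : ∀ t x, (M (t + 1)).tr (ι t x) = (M t).tr x) {s : ℕ}
    {w : List (Let M × Bool)} (hw : ∀ x ∈ w, x.1.1 ≤ s) :
    (M (s + 1)).law (lf M ι (s + 1)) w = (M s).law (lf M ι s) w := by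
  unfold law
  rw [← hι s, map_ev]
  congr 1
  unfold ev
  congr 1
  refine List.map_congr_left fun x hx => ?_
  unfold letter
  have h1 : x.1.1 ≠ s + 1 := by have := hw x hx; omega
  rw [lf_succ M ι h1]

theorem law_eq (hι : ∀ t x, (M (t + 1)).tr (ι t x) = (M t).tr x) {s t : ℕ} (hst : s ≤ t)
    {w : List (Let M × Bool)} (hw : ∀ x ∈ w, x.1.1 ≤ s) :
    (M t).law (lf M ι t) w = (M s).law (lf M ι s) w := by
  induction t, hst using Nat.le_induction with
  | base => rfl
  | succ t ht ih => rw [law_succ M ι hι (fun x hx => (hw x hx).trans ht), ih]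

/-- the limit law -/
def lim (w : List (Let M × Bool)) : ℂ := (M (lev M w)).law (lf M ι (lev M w)) w

theorem lim_eq (hι : ∀ t x, (M (t + 1)).tr (ι t x) = (M t).tr x) {s : ℕ}
    {w : List (Let M × Bool)} (hw : ∀ x ∈ w, x.1.1 ≤ s) : lim M ι w = (M s).law (lf M ι s) w := by
  have hlev : lev M w ≤ s := by
    clear hι
    induction w with
    | nil => exact Nat.zero_le _
    | cons a w ih =>
      have e : lev M (a :: w) = max a.1.1 (lev M w) := rfl
      rw [e]
      exact max_le (hw a List.mem_cons_self) (ih fun x hx => hw x (List.mem_cons_of_mem _ hx))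
  exact (law_eq M ι hι hlev fun x hx => le_lev M hx).symm

theorem isPosLaw_lim (hι : ∀ t x, (M (t + 1)).tr (ι t x) = (M t).tr x) :
    IsPosLaw (lim M ι) := by
  have h1 : Filter.Tendsto (fun s => (M s).law (lf M ι s)) Filter.atTop (nhds (lim M ι)) := by
    rw [tendsto_pi_nhds]
    intro w
    refine tendsto_const_nhds.congr' ?_
    filter_upwards [Filter.eventually_ge_atTop (lev M w)] with s hs
    exact lim_eq M ι hι fun x hx => (le_lev M hx).trans hs
  exact (isClosed_lawSet (Let M)).mem_of_tendsto h1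
    (Filter.Eventually.of_forall fun s => isPosLaw_law (norm_lf_le M ι hι s))

end DirLim

open DirLim in
/-- Direct limits. -/
theorem exists_dirlim (M : ℕ → TVN) (ι : ∀ t, M t →⋆ₐ[ℂ] M (t + 1))
    (hι : ∀ t x, (M (t + 1)).tr (ι t x) = (M t).tr x) :
    ∃ (L : TVN) (κ : ∀ t, M t →⋆ₐ[ℂ] L), (∀ t x, L.tr (κ t x) = (M t).tr x) ∧
      (∀ t x, κ (t + 1) (ι t x) = κ t x) ∧
      ∀ x : L, ‖x‖ ≤ 1 → ∀ ε > 0, ∃ t, ∃ y : M t, ‖y‖ ≤ 1 ∧ L.n2 (x - κ t y) < ε := by
  obtain ⟨L, v, hv, hlaw, hgen⟩ := (isPosLaw_lim M ι hι).exists_tvn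
  have hlaw' : ∀ (s : ℕ) (w : List (Let M × Bool)), (∀ x ∈ w, x.1.1 ≤ s) →
      L.law v w = (M s).law (lf M ι s) w := by
    intro s w hw
    rw [hlaw]; exact lim_eq M ι hι hw
  -- embeddings
  have hemb : ∀ t, ∃ κ : M t →⋆ₐ[ℂ] L, (∀ x, L.tr (κ x) = (M t).tr x) ∧
      ∀ y : (M t).Ball, κ y.1 = v ⟨t, y⟩ := by
    intro t
    refine exists_embedding (M := M t) (fun y : (M t).Ball => y.1) ?_
      (fun y => v ⟨t, y⟩) ?_
    · intro x hx
      by_contra hne
      have hpos : 0 < ‖x‖ := norm_pos_iff.2 hne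
      have h1 := hx [(⟨((‖x‖⁻¹ : ℝ) : ℂ) • x, by
        rw [norm_smul, Complex.norm_real, Real.norm_of_nonneg (by positivity),
          inv_mul_cancel₀ hpos.ne']⟩, false)]
      rw [ev_cons, ev_nil, mul_one, letter_false, star_smul, smul_mul_assoc, map_smul,
        smul_eq_mul, mul_eq_zero] at h1
      rcases h1 with h1 | h1
      · simp at h1
        exact hne h1
      · exact hne ((M t).tr_faithful x h1)
    · intro w
      have h1 := hlaw' t (w.map (Prod.map (fun y => (⟨t, y⟩ : Let M)) id)) (by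
        intro x hx
        simp only [List.mem_map] at hx
        obtain ⟨y, -, rfl⟩ := hx
        exact le_rfl)
      unfold law at h1 ⊢
      rw [ev_map, ev_map] at h1
      rw [show (fun y : (M t).Ball => v ⟨t, y⟩) = v ∘ (fun y => (⟨t, y⟩ : Let M)) from rfl, h1]
      congr 2
      funext y
      exact lf_self M ι t y
  choose κ hκ hκv using hemb
  -- letters of earlier stages
  have hkey : ∀ (s : ℕ) (x : Let M), x.1 ≤ s → v x = κ s (lf M ι s x) := by
    intro s x hx
    have hy : ‖lf M ι s x‖ ≤ 1 := norm_lf_le M ι hι s x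
    rw [hκv s ⟨_, hy⟩, ← sub_eq_zero, ← L.n2_eq_zero]
    set x' : Let M := ⟨s, ⟨lf M ι s x, hy⟩⟩ with hx'
    have hx's : x'.1 ≤ s := le_rfl
    have h2 : ∀ a b : Let M, a.1 ≤ s → b.1 ≤ s → L.tr (star (v a) * v b) =
        (M s).tr (star (lf M ι s a) * lf M ι s b) := by
      intro a b ha hb
      have := hlaw' s [(a, true), (b, false)] (by
        intro y hy
        simp only [List.mem_cons, List.not_mem_nil, or_false] at hy
        rcases hy with rfl | rfl
        · exact ha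
        · exact hb)
      simpa [law, ev] using this
    have h3 : L.n2 (v x - v x') ^ 2 = 0 := by
      rw [n2_sub_sq, n2_sq, n2_sq, h2 x x hx hx, h2 x x' hx hx's, h2 x' x' hx's hx's]
      have h4 : lf M ι s x' = lf M ι s x := lf_self M ι s _
      rw [h4]
      ring
    exact pow_eq_zero_iff two_ne_zero |>.1 h3
  refine ⟨L, κ, hκ, fun t x => ?_, fun x hx ε hε => ?_⟩
  · -- compatibility
    have hball : ∀ y : (M t).Ball, κ (t + 1) (ι t y.1) = κ t y.1 := by
      intro y
      have h1 := hkey (t + 1) ⟨t, y⟩ (Nat.le_succ t)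
      rw [lf_succ M ι (show (⟨t, y⟩ : Let M).1 ≠ t + 1 by simp), lf_self] at h1
      rw [← h1, hκv]
    rcases eq_or_ne x 0 with rfl | hne
    · simp
    have hpos : 0 < ‖x‖ := norm_pos_iff.2 hne
    have h1 := hball ⟨((‖x‖⁻¹ : ℝ) : ℂ) • x, by
        rw [norm_smul, Complex.norm_real, Real.norm_of_nonneg (by positivity),
          inv_mul_cancel₀ hpos.ne']⟩
    simp only [map_smul] at h1
    have h2 : (((‖x‖⁻¹ : ℝ) : ℂ)) ≠ 0 := by
      rw [Complex.ofReal_ne_zero]; exact inv_ne_zero hpos.ne'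
    exact smul_right_injective _ h2 h1
  · -- density
    obtain ⟨Q, hQ1, hQ2⟩ := hgen.approx hx hε
    obtain ⟨s, hs⟩ : ∃ s, ∀ w ∈ Q.support, ∀ x ∈ w, x.1.1 ≤ s := by
      refine ⟨Q.support.sup (lev M), fun w hw x hx => ?_⟩
      exact (le_lev M hx).trans (Finset.le_sup hw)
    have h1 : evp v Q = κ s (evp (lf M ι s) Q) := by
      rw [map_evp]
      unfold evp
      refine Finsupp.sum_congr fun w hw => ?_
      congr 1
      unfold ev
      congr 1
      refine List.map_congr_left fun x hx => ?_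
      unfold letter
      rw [hkey s x.1 (hs w hw x hx)]
    refine ⟨s, evp (lf M ι s) Q, ?_, ?_⟩
    · rw [← norm_map (κ s) (hκ s), ← h1]; exact hQ1
    · rw [← h1]; exact hQ2

/-- The limit satisfies the moment criterion. -/
theorem ec'_of_dirlim {M : ℕ → TVN} {ι : ∀ t, M t →⋆ₐ[ℂ] M (t + 1)} {L : TVN}
    {κ : ∀ t, M t →⋆ₐ[ℂ] L} (hκ : ∀ t x, L.tr (κ t x) = (M t).tr x)
    (hκι : ∀ t x, κ (t + 1) (ι t x) = κ t x)
    (hd : ∀ x : L, ‖x‖ ≤ 1 → ∀ ε > 0, ∃ t, ∃ y : M t, ‖y‖ ≤ 1 ∧ L.n2 (x - κ t y) < ε)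
    (hι : ∀ t x, (M (t + 1)).tr (ι t x) = (M t).tr x)
    (hM : ∀ t, (M t).EC') : L.EC' := by
  -- raising the level
  have hraise : ∀ (t : ℕ) (y : M t) (s : ℕ), t ≤ s → ‖y‖ ≤ 1 → ∃ y' : M s, ‖y'‖ ≤ 1 ∧
      κ s y' = κ t y := by
    intro t y s hts hy
    induction s, hts using Nat.le_induction with
    | base => exact ⟨y, hy, rfl⟩
    | succ s _ ih =>
      obtain ⟨y', hy', h⟩ := ih
      exact ⟨ι s y', by rw [norm_map (ι s) (hι s)]; exact hy', by rw [hκι, h]⟩
  intro P π hπ A K _ _ a y hy W ε hε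
  obtain ⟨r, hr1, hr⟩ : ∃ r : ℝ, 1 ≤ r ∧ ∀ i, ‖a i‖ ≤ r := by
    obtain ⟨R, hR⟩ := (Set.finite_range fun i => ‖a i‖).bddAbove
    exact ⟨max R 1, le_max_right _ _, fun i => (hR ⟨i, rfl⟩).trans (le_max_left _ _)⟩
  have hr0 : 0 < r := by linarith
  obtain ⟨C, hC0, hC⟩ : ∃ C : ℝ, 0 < C ∧ ∀ w ∈ W, (w.length : ℝ) * r ^ w.length ≤ C := by
    classical
    obtain ⟨C, hC⟩ := (W.image fun w => (w.length : ℝ) * r ^ w.length).bddAbove
    exact ⟨max C 1, by positivity, fun w hw => le_max_of_le_left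
      (hC (by simpa using ⟨w, hw, rfl⟩))⟩
  have hnear : ∀ i, ∃ t, ∃ y : M t, ‖y‖ ≤ 1 ∧
      L.n2 (((r⁻¹ : ℝ) : ℂ) • a i - κ t y) < ε / (4 * C * r) := by
    intro i
    refine hd _ ?_ _ (by positivity)
    rw [norm_smul, Complex.norm_real, Real.norm_of_nonneg (by positivity),
      inv_mul_le_iff₀ hr0, mul_one]
    exact hr i
  choose t z hz1 hz2 using hnear
  obtain ⟨s, hs⟩ : ∃ s, ∀ i, t i ≤ s := by
    obtain ⟨R, hR⟩ := (Set.finite_range t).bddAbove
    exact ⟨R, fun i => hR ⟨i, rfl⟩⟩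
  choose z' hz'1 hz'2 using fun i => hraise (t i) (z i) s (hs i) (hz1 i)
  let b : A → M s := fun i => ((r : ℝ) : ℂ) • z' i
  have hb : ∀ i, L.n2 (a i - κ s (b i)) ≤ ε / (4 * C) := by
    intro i
    have e : a i - κ s (b i) = ((r : ℝ) : ℂ) • (((r⁻¹ : ℝ) : ℂ) • a i - κ (t i) (z i)) := by
      rw [smul_sub, smul_smul, ← Complex.ofReal_mul, mul_inv_cancel₀ hr0.ne',
        Complex.ofReal_one, one_smul, ← hz'2, ← map_smul]
    rw [e, TVN.n2_smul, Complex.norm_real, Real.norm_of_nonneg hr0.le]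
    have h2 := hz2 i
    calc r * _ ≤ r * (ε / (4 * C * r)) := by gcongr
      _ = ε / (4 * C) := by field_simp
  have hbr : ∀ i, ‖κ s (b i)‖ ≤ r := by
    intro i
    rw [norm_map (κ s) (hκ s), norm_smul, Complex.norm_real, Real.norm_of_nonneg hr0.le]
    exact mul_le_of_le_one_right hr0.le (hz'1 _)
  have hbound : ∀ w ∈ W, ∀ (P' : TVN) (a' b' : A → P') (z : K → P'), (∀ i, ‖a' i‖ ≤ r) →
      (∀ i, ‖b' i‖ ≤ r) → (∀ i, ‖z i‖ ≤ 1) → (∀ i, P'.n2 (a' i - b' i) ≤ ε / (4 * C)) →
      ‖P'.law (Sum.elim a' z) w - P'.law (Sum.elim b' z) w‖ ≤ ε / 4 := by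
    intro w hw P' a' b' z ha' hb' hz hd
    unfold TVN.law
    rw [← map_sub]
    refine (P'.norm_tr_le_n2 _).trans ?_
    have h1 := (TVN.n2_ev_sub_le (v := Sum.elim a' z) (v' := Sum.elim b' z) hr1
      (η := ε / (4 * C)) (by positivity) (by
        rintro (i | i)
        · exact ha' i
        · exact (hz i).trans hr1) (by
        rintro (i | i)
        · exact hb' i
        · exact (hz i).trans hr1) (by
        rintro (i | i)
        · exact hd i
        · simp only [Sum.elim_inr, sub_self, TVN.n2_zero]; positivity) w).1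
    refine h1.trans ?_
    calc (w.length : ℝ) * r ^ w.length * (ε / (4 * C)) ≤ C * (ε / (4 * C)) := by
          gcongr; exact hC w hw
      _ = ε / 4 := by field_simp
  obtain ⟨y', hy', hclose⟩ := hM s P (π.comp (κ s)) (fun x => by
    rw [StarAlgHom.comp_apply, hπ, hκ]) A K b y hy W (ε / 4) (by positivity)
  refine ⟨fun i => κ s (y' i), fun i => by rw [norm_map (κ s) (hκ s)]; exact hy' i,
    fun w hw => ?_⟩
  have h1 := hbound w hw P (fun i => π (a i)) (fun i => π (κ s (b i))) y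
    (fun i => by rw [norm_map π hπ]; exact hr i)
    (fun i => by rw [norm_map π hπ]; exact hbr i) hy
    (fun i => by rw [← map_sub, n2_map π hπ]; exact hb i)
  have h2 := hbound w hw L a (fun i => κ s (b i)) (fun i => κ s (y' i)) hr hbr
    (fun i => by rw [norm_map (κ s) (hκ s)]; exact hy' i) hb
  have h3 := hclose w hw
  have e1 : (M s).law (Sum.elim b y') w =
      L.law (Sum.elim (fun i => κ s (b i)) (fun i => κ s (y' i))) w := by
    unfold law
    rw [← hκ s, map_ev]
    congr 2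
    funext j
    rcases j with j | j <;> rfl
  have e2 : P.law (Sum.elim (fun i => (π.comp (κ s)) (b i)) y) w =
      P.law (Sum.elim (fun i => π (κ s (b i))) y) w := rfl
  rw [e1, e2] at h3
  have e5 : P.law (Sum.elim (fun i => π (a i)) y) w -
      L.law (Sum.elim a (fun i => κ s (y' i))) w =
      (P.law (Sum.elim (fun i => π (a i)) y) w - P.law (Sum.elim (fun i => π (κ s (b i))) y) w) +
      (P.law (Sum.elim (fun i => π (κ s (b i))) y) w -
        L.law (Sum.elim (fun i => κ s (b i)) (fun i => κ s (y' i))) w) -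
      (L.law (Sum.elim a (fun i => κ s (y' i))) w -
        L.law (Sum.elim (fun i => κ s (b i)) (fun i => κ s (y' i))) w) := by ring
  rw [e5]
  refine (norm_sub_le _ _).trans ?_
  have := norm_add_le (P.law (Sum.elim (fun i => π (a i)) y) w -
    P.law (Sum.elim (fun i => π (κ s (b i))) y) w)
    (P.law (Sum.elim (fun i => π (κ s (b i))) y) w -
        L.law (Sum.elim (fun i => κ s (b i)) (fun i => κ s (y' i))) w)
  linarith

end Pool.Agent.Lib.EcII
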