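import Pool.Agent.Lib.EcII.Embed
import Pool.Agent.Lib.EcII.Cond

/-!
# The embedding lemma
-/

noncomputable section

namespace Pool.Agent.Lib.EcII

/-- A tuple with the same law as a generating tuple gives a trace preserving homomorphism. -/
theorem TVN.exists_embedding {M P : TVN} {J : Type} (v : J → M) (hv : M.Gen v) (v' : J → P)
    (h : ∀ w, P.law v' w = M.law v w) :
    ∃ ι : M →⋆ₐ[ℂ] P, (∀ x, P.tr (ι x) = M.tr x) ∧ ∀ j, ι (v j) = v' j :=
  TVN.exists_embed_of v hv v' h (exists_condExp M)

end Pool.Agent.Lib.EcII
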