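import Pool.Agent.Lib.EcII.Basic

/-!
# The functions entering the sentence
-/

noncomputable section

namespace Pool.Agent.Lib.EcII

namespace TVN

variable (M : TVN)

/-- trace norm of the commutator -/
def cm (x y : M) : ℝ := M.n2 (x * y - y * x)

/-- the integrand of the gap -/
def gapT (x : M) (u : Fin 3 → M) (y : M) : ℝ := max 0 (M.cm x y - 200 * ∑ i, M.cm (u i) y)

/-- `Gap(x; u)`: how much `x` fails to commute with elements almost commuting with `u`. -/
def gap (x : M) (u : Fin 3 → M) : ℝ := ⨆ y : M.Ball, M.gapT x u y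

/-- The function whose zero set is the coded copy of the discrete group. -/
def GD (x : M) (u : Fin 3 → M) (w c : M) : ℝ :=
  M.n2 (1 - star x * x) + M.gap x u + M.cm c (x * w * star x)

/-- the coded bit -/
def gh (b x s s' w h c : M) : ℝ :=
  min 1 (M.cm c ((b * h * x * h * s * h * s') * w * star (b * h * x * h * s * h * s')))

/-- the inner integrand of `Psi` -/
def psiT (β : ℝ) (b x s : M) (u : Fin 3 → M) (w h c s' : M) : ℝ :=
  max 0 (M.gh b x s s' w h c - β * M.GD s' u w c)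

/-- `α GD(s) + sup_{s'} (gh(b,x,s,s') - β GD(s'))_+` -/
def psiS (α β : ℝ) (b x : M) (u : Fin 3 → M) (w h c s : M) : ℝ :=
  α * M.GD s u w c + ⨆ s' : M.Ball, M.psiT β b x s u w h c s'

/-- the Sigma_2 relation -/
def Psi (α β : ℝ) (b x : M) (u : Fin 3 → M) (w h c : M) : ℝ :=
  min 1 (⨅ s : M.Ball, M.psiS α β b x u w h c s)

/-- the integrand of the coded distance -/
def FT (x : M) (u' : Fin 3 → M) (z w' v : M) : ℝ :=
  M.cm w' (x * (v * z * star v)) + 2 * M.n2 (1 - star v * v) + 12 * M.gap v u'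

/-- the coded distance -/
def F (x : M) (u' : Fin 3 → M) (z w' : M) : ℝ := ⨅ v : M.Ball, M.FT x u' z w' v

/-- the truncated coded distance -/
def F1 (x : M) (u' : Fin 3 → M) (z w' : M) : ℝ := min 1 (32 * M.F x u' z w')

end TVN

/-- `1` for `f ≤ 1/8` and `0` for `f ≥ 1/4` -/
def cut0 (f : ℝ) : ℝ := max 0 (min 1 (2 - 8 * f))

/-- `1` for `f ≥ 7/8` and `0` for `f ≤ 3/4` -/
def cut1 (f : ℝ) : ℝ := max 0 (min 1 (8 * f - 6))

/-- the error function -/
def EE (f ph pl : ℝ) : ℝ := max (min (cut0 f) ph) (min (cut1 f) (1 - pl))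

namespace TVN

variable (M : TVN)

/-- the integrand over `x` -/
def thX (u : Fin 3 → M) (w h c : M) (u' : Fin 3 → M) (z w' b x : M) : ℝ :=
  max 0 (EE (M.F1 x u' z w') (M.Psi 112000 280 b x u w h c) (M.Psi 280 112000 b x u w h c) -
    40000 * M.GD x u w c)

/-- the integrand over `b` -/
def thB (u : Fin 3 → M) (w h c : M) (u' : Fin 3 → M) (z w' b : M) : ℝ :=
  max (40000 * M.GD b u w c) (⨆ x : M.Ball, M.thX u w h c u' z w' b x)

/-- the integrand over the codes -/
def thC (u : Fin 3 → M) (w h c : M) (u' : Fin 3 → M) (z w' : M) : ℝ :=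
  ⨅ b : M.Ball, M.thB u w h c u' z w' b

/-- the integrand over the parameters -/
def thA (u : Fin 3 → M) (w h c : M) : ℝ :=
  ⨆ u0 : M.Ball, ⨆ u1 : M.Ball, ⨆ u2 : M.Ball, ⨆ z : M.Ball, ⨆ w' : M.Ball,
    M.thC u w h c ![u0.1, u1.1, u2.1] z w'

/-- The sentence. -/
def Theta : ℝ :=
  ⨅ u0 : M.Ball, ⨅ u1 : M.Ball, ⨅ u2 : M.Ball, ⨅ w : M.Ball, ⨅ h : M.Ball, ⨅ c : M.Ball,
    M.thA ![u0.1, u1.1, u2.1] w h c

end TVN

end Pool.Agent.Lib.EcII
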