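import Pool.Agent.Lib.EcII.Generic
import Pool.Agent.Lib.EcII.Crit
import Pool.Agent.Lib.EcII.Kap

/-!
# The algebra of a generic law is existentially closed
-/

open scoped ComplexOrder

noncomputable section

namespace Pool.Agent.Lib.EcII

namespace Gen

/-- Templates of cylinder tasks. -/
structure Tpl (B : Type) where
  /-- number of parameters -/
  m : ℕ
  /-- number of new letters -/
  k : ℕ
  /-- the parameters -/
  par : Fin m → B ⊕ ℕ
  /-- words with targets -/
  W : Finset (List ((Fin m ⊕ Fin k) × Bool) × (ℚ × ℚ))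
  /-- the tolerance -/
  δ : ℚ

theorem countable_tpl (B : Type) [Countable B] : Countable (Tpl B) := by
  let f : Tpl B → Σ p : ℕ × ℕ, (Fin p.1 → B ⊕ ℕ) ×
      Finset (List ((Fin p.1 ⊕ Fin p.2) × Bool) × (ℚ × ℚ)) × ℚ :=
    fun t => ⟨(t.m, t.k), t.par, t.W, t.δ⟩
  refine Function.Injective.countable (f := f) ?_
  rintro ⟨m, k, par, W, δ⟩ ⟨m', k', par', W', δ'⟩ h
  simp only [f, Sigma.mk.injEq, Prod.mk.injEq] at h
  obtain ⟨⟨rfl, rfl⟩, h⟩ := h
  simp only [heq_eq_eq, Prod.mk.injEq] at h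
  obtain ⟨rfl, rfl, rfl⟩ := h
  rfl

namespace Tpl

variable {B : Type} (t : Tpl B)

/-- the letters of the template -/
def emb (N : ℕ) : Fin t.m ⊕ Fin t.k → B ⊕ ℕ := Sum.elim t.par (fun j => Sum.inr (N + j))

/-- level of a letter -/
def lev : B ⊕ ℕ → ℕ
  | .inl _ => 0
  | .inr i => i + 1

theorem low_of_lev {N : ℕ} {x : B ⊕ ℕ} (h : lev x ≤ N) : low N x := by
  rcases x with x | i
  · trivial
  · exact h

/-- the task of a template -/
def task : GTask B where
  V N := {μ | ∀ p ∈ t.W, ‖μ (p.1.map (Prod.map (t.emb N) id)) - ⟨p.2.1, p.2.2⟩‖ ≤ t.δ}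
  bd := Finset.univ.sup fun i => lev (t.par i)
  k := t.k
  closed N := by
    have : {μ : Wd B → ℂ | ∀ p ∈ t.W, ‖μ (p.1.map (Prod.map (t.emb N) id)) -
        ⟨p.2.1, p.2.2⟩‖ ≤ t.δ} = ⋂ p ∈ t.W, {μ : Wd B → ℂ |
        ‖μ (p.1.map (Prod.map (t.emb N) id)) - ⟨p.2.1, p.2.2⟩‖ ≤ t.δ} := by
      ext μ; simp
    rw [this]
    refine isClosed_biInter fun p _ => isClosed_le ?_ continuous_const
    fun_prop
  dep N hN μ ν ha h p hp := by
    have h1 := h p hp
    rw [← ha]
    · exact h1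
    · intro x hx
      simp only [List.mem_map] at hx
      obtain ⟨y, -, rfl⟩ := hx
      rcases y with ⟨i | j, e⟩
      · refine low_of_lev (le_trans ?_ (hN.trans (Nat.le_add_right _ _)))
        exact Finset.le_sup (f := fun i => lev (t.par i)) (Finset.mem_univ i)
      · show N + (j : ℕ) < N + t.k
        have := j.2
        omega

end Tpl

variable {B : Type} {M : TVN} {v : B ⊕ ℕ → M}

/-- approximation by rational complex numbers -/
theorem exists_cx_rat_near (z : ℂ) {ε : ℝ} (hε : 0 < ε) :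
    ∃ q : ℚ × ℚ, ‖z - ⟨q.1, q.2⟩‖ < ε := by
  obtain ⟨a, ha⟩ := exists_rat_near z.re (show (0 : ℝ) < ε / 2 by positivity)
  obtain ⟨b, hb⟩ := exists_rat_near z.im (show (0 : ℝ) < ε / 2 by positivity)
  refine ⟨(a, b), ?_⟩
  refine lt_of_le_of_lt (Complex.norm_le_abs_re_add_abs_im _) ?_
  simp only [Complex.sub_re, Complex.sub_im]
  linarith

/-- The letters version of the extension property. -/
theorem letters (hv : ∀ j, ‖v j‖ ≤ 1)
    (hT : ∀ t : Tpl B, ∃ N, t.task.bd ≤ N ∧ (M.law v ∈ t.task.V N ∨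
      ∀ ν, IsPosLaw ν → agree N (M.law v) ν → ν ∉ t.task.V N))
    {P : TVN} (ι : M →⋆ₐ[ℂ] P) (hι : ∀ x, P.tr (ι x) = M.tr x) {m k : ℕ} (par : Fin m → B ⊕ ℕ)
    (y : Fin k → P) (hy : ∀ i, ‖y i‖ ≤ 1) (W : Finset (List ((Fin m ⊕ Fin k) × Bool))) {ε : ℝ}
    (hε : 0 < ε) :
    ∃ N : ℕ, ∀ w ∈ W, ‖P.law (Sum.elim (fun i => ι (v (par i))) y) w -
      M.law (Sum.elim (fun i => v (par i)) (fun j : Fin k => v (Sum.inr (N + j)))) w‖ ≤ ε := by
  classical
  choose q hq using fun w : List ((Fin m ⊕ Fin k) × Bool) =>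
    exists_cx_rat_near (P.law (Sum.elim (fun i => ι (v (par i))) y) w)
      (show (0 : ℝ) < ε / 4 by positivity)
  obtain ⟨δ, hδ1, hδ2⟩ := exists_rat_btwn (show ε / 4 < ε / 2 by linarith)
  let t : Tpl B := ⟨m, k, par, W.image fun w => (w, q w), δ⟩
  obtain ⟨N, hN, hreal | hforb⟩ := hT t
  · refine ⟨N, fun w hw => ?_⟩
    have h1 := hreal (w, q w) (Finset.mem_image_of_mem _ hw)
    have h2 : M.law v (w.map (Prod.map (t.emb N) id)) =
        M.law (Sum.elim (fun i => v (par i)) (fun j : Fin k => v (Sum.inr (N + j)))) w := by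
      unfold TVN.law
      rw [TVN.ev_map]
      congr 2
      funext i
      rcases i with i | i <;> rfl
    simp only at h1
    rw [h2] at h1
    have h3 := hq w
    have e : P.law (Sum.elim (fun i => ι (v (par i))) y) w -
      M.law (Sum.elim (fun i => v (par i)) (fun j : Fin k => v (Sum.inr (N + j)))) w =
      (P.law (Sum.elim (fun i => ι (v (par i))) y) w - ⟨(q w).1, (q w).2⟩) -
      (M.law (Sum.elim (fun i => v (par i)) (fun j : Fin k => v (Sum.inr (N + j)))) w -
        ⟨(q w).1, (q w).2⟩) := by ring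
    rw [e]
    refine (norm_sub_le _ _).trans ?_
    have h4 : (t.δ : ℝ) = (δ : ℝ) := rfl
    rw [h4] at h1
    linarith
  · exfalso
    let z : B ⊕ ℕ → P := fun x => match x with
      | .inl b => ι (v (.inl b))
      | .inr i => if i < N then ι (v (.inr i)) else
          if h : i - N < k then y ⟨i - N, h⟩ else 0
    have hz : ∀ x, ‖z x‖ ≤ 1 := by
      rintro (b | i)
      · show ‖ι _‖ ≤ 1
        rw [TVN.norm_map ι hι]; exact hv _
      · show ‖if i < N then ι (v (.inr i)) else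
          if h : i - N < k then y ⟨i - N, h⟩ else 0‖ ≤ 1
        split_ifs
        · rw [TVN.norm_map ι hι]; exact hv _
        · exact hy _
        · simp
    have hlow : ∀ x : B ⊕ ℕ, low N x → z x = ι (v x) := by
      rintro (b | i) hx
      · rfl
      · show (if i < N then ι (v (.inr i)) else
          if h : i - N < k then y ⟨i - N, h⟩ else 0) = _
        rw [if_pos (show i < N from hx)]
    refine hforb (P.law z) (TVN.isPosLaw_law hz) ?_ ?_
    · intro w hw
      unfold TVN.law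
      rw [← hι, TVN.map_ev]
      congr 1
      unfold TVN.ev
      congr 1
      refine List.map_congr_left fun x hx => ?_
      unfold TVN.letter
      rw [hlow _ (hw x hx)]
    · intro p hp
      obtain ⟨w, hw, rfl⟩ := Finset.mem_image.1 hp
      have h2 : P.law z (w.map (Prod.map (t.emb N) id)) =
          P.law (Sum.elim (fun i => ι (v (par i))) y) w := by
        unfold TVN.law
        rw [TVN.ev_map]
        congr 2
        funext i
        rcases i with i | i
        · refine hlow _ (Tpl.low_of_lev (le_trans ?_ hN))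
          exact Finset.le_sup (f := fun i => Tpl.lev (par i)) (Finset.mem_univ i)
        · show (if N + (i : ℕ) < N then ι (v (.inr (N + i))) else
            if h : N + (i : ℕ) - N < k then y ⟨N + i - N, h⟩ else 0) = y i
          have hik : (i : ℕ) < k := i.2
          rw [if_neg (by omega), dif_pos (by omega)]
          congr 1
          exact Fin.ext (by simp)
      simp only
      rw [h2]
      have h4 : (t.δ : ℝ) = (δ : ℝ) := rfl
      rw [h4]
      exact ((hq w).trans hδ1).le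

/-- Named letters are dense in the unit ball. -/
theorem dense_letters (hv : ∀ j, ‖v j‖ ≤ 1) (hgen : M.Gen v)
    (hT : ∀ t : Tpl B, ∃ N, t.task.bd ≤ N ∧ (M.law v ∈ t.task.V N ∨
      ∀ ν, IsPosLaw ν → agree N (M.law v) ν → ν ∉ t.task.V N))
    (x : M) (hx : ‖x‖ ≤ 1) (ε : ℝ) (hε : 0 < ε) : ∃ j : ℕ, M.n2 (x - v (Sum.inr j)) < ε := by
  classical
  obtain ⟨Q, hQ1, hQ2⟩ := hgen.approx hx (ε := ε / 3) (by positivity)
  -- the finitely many letters of `Q`
  let Lt : Finset (B ⊕ ℕ) := Q.support.biUnion fun w => (w.map Prod.fst).toFinset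
  let e : Fin Lt.card ≃ Lt := Lt.equivFin.symm
  let par : Fin Lt.card → B ⊕ ℕ := fun i => (e i : B ⊕ ℕ)
  have hword : ∀ w ∈ Q.support, ∃ w' : List (Fin Lt.card × Bool),
      w'.map (Prod.map par id) = w := by
    intro w hw
    have hmem : ∀ x ∈ w, x.1 ∈ Lt := by
      intro x hx
      refine Finset.mem_biUnion.2 ⟨w, hw, ?_⟩
      rw [List.mem_toFinset]
      exact List.mem_map_of_mem hx
    clear hw
    induction w with
    | nil => exact ⟨[], rfl⟩
    | cons a w ih =>
      obtain ⟨w', hw'⟩ := ih fun x hx => hmem x (List.mem_cons_of_mem _ hx)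
      refine ⟨(e.symm ⟨a.1, hmem a (List.mem_cons_self)⟩, a.2) :: w', ?_⟩
      simp [hw', par, Prod.map]
  choose! wd hwd using hword
  let Q' : List (Fin Lt.card × Bool) →₀ ℂ := ∑ w ∈ Q.support, Finsupp.single (wd w) (Q w)
  have hQ' : TVN.evp (fun i => v (par i)) Q' = TVN.evp v Q := by
    simp only [Q']
    rw [TVN.evp_sum, TVN.evp, Finsupp.sum]
    refine Finset.sum_congr rfl fun w hw => ?_
    rw [TVN.evp_single]
    congr 1
    conv_rhs => rw [← hwd w hw, TVN.ev_map]
    rfl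
  let Q2 : List ((Fin Lt.card ⊕ Fin 1) × Bool) →₀ ℂ :=
    TVN.X (Sum.inr 0) - Q'.mapDomain (fun w => w.map (Prod.map Sum.inl id))
  have hQ2' : ∀ (P : TVN) (a : Fin Lt.card → P) (y : Fin 1 → P),
      TVN.evp (Sum.elim a y) Q2 = y 0 - TVN.evp a Q' := by
    intro P a y
    simp only [Q2]
    rw [TVN.evp_sub, TVN.evp_X, ← TVN.evp_comp]
    rfl
  obtain ⟨W, δ, hδ, hW⟩ := TVN.exists_n2_evp_close Q2 (ε := ε / 3) (by positivity)
  obtain ⟨N, hN⟩ := letters hv hT (StarAlgHom.id ℂ M) (fun _ => rfl) par (fun _ : Fin 1 => x)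
    (fun _ => hx) W hδ
  refine ⟨N + (0 : Fin 1), ?_⟩
  have h1 := hW _ _ _ _ hN
  rw [hQ2', hQ2'] at h1
  have e1 : TVN.evp (fun i => (StarAlgHom.id ℂ M) (v (par i))) Q' = TVN.evp v Q := hQ'
  rw [e1, hQ'] at h1
  have h2 : M.n2 (x - v (Sum.inr (N + (0 : Fin 1)))) ≤
      M.n2 (x - TVN.evp v Q) + M.n2 (TVN.evp v Q - v (Sum.inr (N + (0 : Fin 1)))) :=
    M.n2_tri _ _ _
  rw [M.n2_sub_comm (TVN.evp v Q)] at h2
  rw [abs_lt] at h1
  linarith [h1.1, h1.2]

/-- The algebra of a generic law satisfies the moment criterion. -/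
theorem ec' (hv : ∀ j, ‖v j‖ ≤ 1) (hgen : M.Gen v)
    (hT : ∀ t : Tpl B, ∃ N, t.task.bd ≤ N ∧ (M.law v ∈ t.task.V N ∨
      ∀ ν, IsPosLaw ν → agree N (M.law v) ν → ν ∉ t.task.V N)) : M.EC' := by
  intro P ι hι A K _ _ a y hy W ε hε
  classical
  -- common bound for the parameters
  obtain ⟨r, hr1, hr⟩ : ∃ r : ℝ, 1 ≤ r ∧ ∀ i, ‖a i‖ ≤ r := by
    obtain ⟨R, hR⟩ := (Set.finite_range fun i => ‖a i‖).bddAbove
    exact ⟨max R 1, le_max_right _ _, fun i => (hR ⟨i, rfl⟩).trans (le_max_left _ _)⟩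
  have hr0 : 0 < r := by linarith
  -- a bound for word errors
  obtain ⟨C, hC0, hC⟩ : ∃ C : ℝ, 0 < C ∧ ∀ w ∈ W, (w.length : ℝ) * r ^ w.length ≤ C ∧
      r ^ w.length ≤ C := by
    obtain ⟨C, hC⟩ := (W.image fun w => (w.length : ℝ) * r ^ w.length + r ^ w.length).bddAbove
    refine ⟨max C 1, by positivity, fun w hw => ?_⟩
    have h1 : (w.length : ℝ) * r ^ w.length + r ^ w.length ≤ C :=
      hC (by simpa using ⟨w, hw, rfl⟩)
    have h2 : 0 ≤ (w.length : ℝ) * r ^ w.length := by positivity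
    have h3 : 0 ≤ r ^ w.length := by positivity
    constructor
    · exact le_max_of_le_left (by linarith)
    · exact le_max_of_le_left (by linarith)
  -- choose letters near the parameters
  have hnear : ∀ i, ∃ j : ℕ, M.n2 (((r⁻¹ : ℝ) : ℂ) • a i - v (Sum.inr j)) < ε / (4 * C * r) := by
    intro i
    refine dense_letters hv hgen hT _ ?_ _ (by positivity)
    rw [norm_smul, Complex.norm_real, Real.norm_of_nonneg (by positivity),
      inv_mul_le_iff₀ hr0, mul_one]
    exact hr i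
  choose j hj using hnear
  obtain ⟨m, ⟨eA⟩⟩ := Finite.exists_equiv_fin A
  obtain ⟨k, ⟨eK⟩⟩ := Finite.exists_equiv_fin K
  let par : Fin m → B ⊕ ℕ := fun i => Sum.inr (j (eA.symm i))
  let φ : A ⊕ K → Fin m ⊕ Fin k := Sum.map eA eK
  obtain ⟨N, hN⟩ := letters hv hT ι hι par (fun i => y (eK.symm i)) (fun i => hy _)
    (W.image fun w => w.map (Prod.map φ id)) (ε := ε / (4 * C)) (by positivity)
  refine ⟨fun i => v (Sum.inr (N + (eK i : ℕ))), fun i => hv _, fun w hw => ?_⟩
  -- compare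
  let b : A → M := fun i => ((r : ℝ) : ℂ) • v (Sum.inr (j i))
  have hb : ∀ i, M.n2 (a i - b i) ≤ ε / (4 * C) := by
    intro i
    have e : a i - b i = ((r : ℝ) : ℂ) • (((r⁻¹ : ℝ) : ℂ) • a i - v (Sum.inr (j i))) := by
      rw [smul_sub, smul_smul, ← Complex.ofReal_mul, mul_inv_cancel₀ hr0.ne',
        Complex.ofReal_one, one_smul]
    rw [e, TVN.n2_smul, Complex.norm_real, Real.norm_of_nonneg hr0.le]
    have h2 := hj i
    calc r * _ ≤ r * (ε / (4 * C * r)) := by gcongr
      _ = ε / (4 * C) := by field_simp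
  have hbr : ∀ i, ‖b i‖ ≤ r := by
    intro i
    rw [norm_smul, Complex.norm_real, Real.norm_of_nonneg hr0.le]
    exact mul_le_of_le_one_right hr0.le (hv _)
  have hbound : ∀ (P' : TVN) (a' b' : A → P') (z : K → P'), (∀ i, ‖a' i‖ ≤ r) →
      (∀ i, ‖b' i‖ ≤ r) → (∀ i, ‖z i‖ ≤ 1) → (∀ i, P'.n2 (a' i - b' i) ≤ ε / (4 * C)) →
      ‖P'.law (Sum.elim a' z) w - P'.law (Sum.elim b' z) w‖ ≤ ε / 4 := by
    intro P' a' b' z ha' hb' hz hd
    unfold TVN.law
    rw [← map_sub]
    refine (P'.norm_tr_le_n2 _).trans ?_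
    have h1 := (TVN.n2_ev_sub_le (v := Sum.elim a' z) (v' := Sum.elim b' z) hr1
      (η := ε / (4 * C)) (by positivity) (by
        rintro (i | i)
        · exact ha' i
        · exact (hz i).trans hr1) (by
        rintro (i | i)
        · exact hb' i
        · exact (hz i).trans hr1) (by
        rintro (i | i)
        · exact hd i
        · simp only [Sum.elim_inr, sub_self, TVN.n2_zero]; positivity) w).1
    refine h1.trans ?_
    calc (w.length : ℝ) * r ^ w.length * (ε / (4 * C)) ≤ C * (ε / (4 * C)) := by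
          gcongr; exact (hC w hw).1
      _ = ε / 4 := by field_simp
  have h1 := hbound P (fun i => ι (a i)) (fun i => ι (b i)) y
    (fun i => by rw [TVN.norm_map ι hι]; exact hr i)
    (fun i => by rw [TVN.norm_map ι hι]; exact hbr i) hy
    (fun i => by rw [← map_sub, TVN.n2_map ι hι]; exact hb i)
  have h2 := hbound M a b (fun i => v (Sum.inr (N + (eK i : ℕ)))) hr hbr (fun i => hv _) hb
  -- the middle comparison
  let ρ : A ⊕ K → ℝ := Sum.elim (fun _ => r) (fun _ => 1)
  have hρ : ∀ w : List ((A ⊕ K) × Bool), 0 ≤ TVN.wt ρ w ∧ TVN.wt ρ w ≤ r ^ w.length := by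
    intro w
    induction w with
    | nil => simp [TVN.wt]
    | cons x w ih =>
      have h3 : TVN.wt ρ (x :: w) = ρ x.1 * TVN.wt ρ w := by simp [TVN.wt]
      have h4 : 0 ≤ ρ x.1 ∧ ρ x.1 ≤ r := by
        rcases x with ⟨i | i, e⟩
        · exact ⟨hr0.le, le_rfl⟩
        · exact ⟨zero_le_one, hr1⟩
      rw [h3, List.length_cons, pow_succ, mul_comm (r ^ w.length)]
      exact ⟨mul_nonneg h4.1 ih.1, mul_le_mul h4.2 ih.2 ih.1 hr0.le⟩
  have e1 : (Sum.elim (fun i => ι (b i)) y) = fun x : A ⊕ K =>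
      ((ρ x : ℝ) : ℂ) • (Sum.elim (fun i => ι (v (Sum.inr (j i)))) y) x := by
    funext x
    rcases x with i | i
    · show ι (((r : ℝ) : ℂ) • v (Sum.inr (j i))) = ((r : ℝ) : ℂ) • ι (v (Sum.inr (j i)))
      rw [map_smul]
    · simp [ρ]
  have e2 : (Sum.elim b (fun i => v (Sum.inr (N + (eK i : ℕ))))) = fun x : A ⊕ K =>
      ((ρ x : ℝ) : ℂ) • (Sum.elim (fun i => v (Sum.inr (j i)))
        (fun i => v (Sum.inr (N + (eK i : ℕ))))) x := by
    funext x
    rcases x with i | i
    · simp [ρ, b]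
    · simp [ρ]
  have h3 : ‖P.law (Sum.elim (fun i => ι (b i)) y) w -
      M.law (Sum.elim b (fun i => v (Sum.inr (N + (eK i : ℕ))))) w‖ ≤ ε / 4 := by
    rw [e1, e2, TVN.law_smul, TVN.law_smul, ← mul_sub, norm_mul, Complex.norm_real,
      Real.norm_of_nonneg (hρ w).1]
    have h4 := hN (w.map (Prod.map φ id)) (Finset.mem_image_of_mem _ hw)
    unfold TVN.law at h4 ⊢
    rw [TVN.ev_map, TVN.ev_map] at h4
    have e3 : (Sum.elim (fun i => ι (v (par i))) fun i => y (eK.symm i)) ∘ φ =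
        Sum.elim (fun i => ι (v (Sum.inr (j i)))) y := by
      funext x
      rcases x with i | i <;> simp [φ, par]
    have e4 : (Sum.elim (fun i => v (par i)) fun j : Fin k => v (Sum.inr (N + (j : ℕ)))) ∘ φ =
        Sum.elim (fun i => v (Sum.inr (j i))) (fun i => v (Sum.inr (N + (eK i : ℕ)))) := by
      funext x
      rcases x with i | i <;> simp [φ, par]
    rw [e3, e4] at h4
    calc _ ≤ C * (ε / (4 * C)) :=
          mul_le_mul ((hρ w).2.trans (hC w hw).2) h4 (norm_nonneg _) hC0.le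
      _ = ε / 4 := by field_simp
  have e5 : P.law (Sum.elim (fun i => ι (a i)) y) w -
      M.law (Sum.elim a (fun i => v (Sum.inr (N + (eK i : ℕ))))) w =
      (P.law (Sum.elim (fun i => ι (a i)) y) w - P.law (Sum.elim (fun i => ι (b i)) y) w) +
      (P.law (Sum.elim (fun i => ι (b i)) y) w -
        M.law (Sum.elim b (fun i => v (Sum.inr (N + (eK i : ℕ))))) w) -
      (M.law (Sum.elim a (fun i => v (Sum.inr (N + (eK i : ℕ))))) w -
        M.law (Sum.elim b (fun i => v (Sum.inr (N + (eK i : ℕ))))) w) := by ring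
  rw [e5]
  refine (norm_sub_le _ _).trans ?_
  have := norm_add_le (P.law (Sum.elim (fun i => ι (a i)) y) w -
    P.law (Sum.elim (fun i => ι (b i)) y) w) (P.law (Sum.elim (fun i => ι (b i)) y) w -
        M.law (Sum.elim b (fun i => v (Sum.inr (N + (eK i : ℕ))))) w)
  linarith

end Gen

end Pool.Agent.Lib.EcII
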