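import Pool.Agent.Lib.EcII.LawSet

/-!
# Generic laws: compactness forcing with coded bits
-/

open scoped ComplexOrder

noncomputable section

namespace Pool.Agent.Lib.EcII

namespace Gen

/-- words in the base letters and the generic letters -/
abbrev Wd (B : Type) : Type := List ((B ⊕ ℕ) × Bool)

/-- letters of level below `n` -/
def low {B : Type} (n : ℕ) : B ⊕ ℕ → Prop
  | .inl _ => True
  | .inr i => i < n

/-- two functions agree on words in letters below `n` -/
def agree {B : Type} (n : ℕ) (μ ν : Wd B → ℂ) : Prop :=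
  ∀ w : Wd B, (∀ x ∈ w, low n x.1) → μ w = ν w

theorem agree.mono {B : Type} {m n : ℕ} (h : m ≤ n) {μ ν : Wd B → ℂ} (ha : agree n μ ν) :
    agree m μ ν := by
  intro w hw
  refine ha w fun x hx => ?_
  have := hw x hx
  rcases x with ⟨x | i, e⟩
  · trivial
  · exact lt_of_lt_of_le this h

theorem agree.symm {B : Type} {n : ℕ} {μ ν : Wd B → ℂ} (ha : agree n μ ν) : agree n ν μ :=
  fun w hw => (ha w hw).symm

/-- restriction to base letters -/
def base {B : Type} (μ : Wd B → ℂ) : List (B × Bool) → ℂ := fun w => μ (w.map (Prod.map Sum.inl id))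

theorem agree.base {B : Type} {n : ℕ} {μ ν : Wd B → ℂ} (ha : agree n μ ν) :
    Gen.base μ = Gen.base ν := by
  funext w
  refine ha _ fun x hx => ?_
  simp only [List.mem_map] at hx
  obtain ⟨y, -, rfl⟩ := hx
  trivial

/-- A task: for each large `N` a closed set of laws depending on the letters below `N + k`. -/
structure GTask (B : Type) where
  /-- the sets -/
  V : ℕ → Set (Wd B → ℂ)
  /-- bound for the parameters -/
  bd : ℕ
  /-- number of new letters -/
  k : ℕ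
  closed : ∀ N, IsClosed (V N)
  dep : ∀ N, bd ≤ N → ∀ μ ν : Wd B → ℂ, agree (N + k) μ ν → μ ∈ V N → ν ∈ V N

variable {B Qn S : Type} (β : ((Qn × S × S) → Bool) → (List (B × Bool) → ℂ))

/-- A condition. -/
structure Cnd where
  /-- domain of the decided bits -/
  D : Set (Qn × S × S)
  /-- the decided bits -/
  s : Qn × S × S → Bool
  /-- the closed set of admissible pairs -/
  U : Set (((Qn × S × S) → Bool) × (Wd B → ℂ))
  /-- bound for the letters -/
  n : ℕ
  closed : IsClosed U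
  sub : ∀ R μ, (R, μ) ∈ U → IsPosLaw μ ∧ base μ = β R
  dep : ∀ R μ ν, (R, μ) ∈ U → IsPosLaw ν → agree n μ ν → (R, ν) ∈ U
  full : ∀ R, (∀ q ∈ D, R q = s q) → ∃ μ, (R, μ) ∈ U
  /-- the committed rows -/
  C : Set (Qn × S)
  /-- finitely many bits outside the committed rows -/
  fin : {q ∈ D | (q.1, q.2.1) ∉ C}.Finite
  finC : C.Finite
  rows : ∀ q s', q ∈ C → (q.1, q.2, s') ∈ D ∧ s (q.1, q.2, s') = true

namespace Cnd

variable {β}

/-- compatibility -/
def compat (c : Cnd β) (R : (Qn × S × S) → Bool) : Prop := ∀ q ∈ c.D, R q = c.s q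

/-- extension of conditions -/
structure le (c' c : Cnd β) : Prop where
  D : c.D ⊆ c'.D
  s : ∀ q ∈ c.D, c'.s q = c.s q
  U : c'.U ⊆ c.U
  C : c.C ⊆ c'.C

theorem le.refl (c : Cnd β) : c.le c := ⟨subset_rfl, fun _ _ => rfl, subset_rfl, subset_rfl⟩

theorem le.trans {c₁ c₂ c₃ : Cnd β} (h : c₁.le c₂) (h' : c₂.le c₃) : c₁.le c₃ :=
  ⟨h'.D.trans h.D, fun q hq => (h.s q (h'.D hq)).trans (h'.s q hq), h.U.trans h'.U,
    h'.C.trans h.C⟩

theorem le.compat {c' c : Cnd β} (h : c'.le c) {R : (Qn × S × S) → Bool} (hR : c'.compat R) :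
    c.compat R := fun q hq => (hR q (h.D hq)).trans (h.s q hq)

/-- the task is realized -/
def real (c : Cnd β) (T : GTask B) : Prop :=
  ∃ N, T.bd ≤ N ∧ ∀ R μ, (R, μ) ∈ c.U → μ ∈ T.V N

/-- the task is forbidden -/
def forb (c : Cnd β) (T : GTask B) : Prop :=
  ∃ N, T.bd ≤ N ∧ ∀ R μ ν, c.compat R → (R, μ) ∈ c.U → IsPosLaw ν → agree N μ ν → ν ∉ T.V N

theorem real.mono {c' c : Cnd β} (h : c'.le c) {T : GTask B} (hr : c.real T) : c'.real T := by
  obtain ⟨N, hN, hr⟩ := hr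
  exact ⟨N, hN, fun R μ hμ => hr R μ (h.U hμ)⟩

theorem forb.mono {c' c : Cnd β} (h : c'.le c) {T : GTask B} (hr : c.forb T) : c'.forb T := by
  obtain ⟨N, hN, hr⟩ := hr
  exact ⟨N, hN, fun R μ ν hR hμ => hr R μ ν (h.compat hR) (h.U hμ)⟩

theorem isCompact_U (c : Cnd β) : IsCompact c.U := by
  refine (isCompact_univ.prod (isCompact_lawSet (B ⊕ ℕ))).of_isClosed_subset c.closed ?_
  rintro ⟨R, μ⟩ h
  exact ⟨trivial, (c.sub R μ h).1⟩

open Classical in
/-- decide a task -/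
theorem decide (c : Cnd β) (T : GTask B) : ∃ c' : Cnd β, c'.le c ∧ c'.C = c.C ∧
    (c'.real T ∨ c'.forb T) := by
  set N := max c.n T.bd with hN
  by_cases h : ∀ R, c.compat R → ∃ μ, (R, μ) ∈ c.U ∧ μ ∈ T.V N
  · refine ⟨{ D := c.D, s := c.s, U := c.U ∩ {p | p.2 ∈ T.V N}, n := N + T.k,
              closed := c.closed.inter ((T.closed N).preimage continuous_snd),
              sub := fun R μ hμ => c.sub R μ hμ.1, dep := ?_, full := ?_, C := c.C, fin := c.fin,
              finC := c.finC, rows := c.rows }, ?_, rfl, Or.inl ?_⟩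
    · intro R μ ν hμ hν ha
      refine ⟨c.dep R μ ν hμ.1 hν (ha.mono ?_), T.dep N (le_max_right _ _) μ ν ha hμ.2⟩
      exact (le_max_left _ _).trans (Nat.le_add_right _ _)
    · intro R hR
      obtain ⟨μ, h1, h2⟩ := h R hR
      exact ⟨μ, h1, h2⟩
    · exact ⟨subset_rfl, fun _ _ => rfl, Set.inter_subset_left, subset_rfl⟩
    · exact ⟨N, le_max_right _ _, fun R μ hμ => hμ.2⟩
  · push Not at h
    obtain ⟨R₀, hR₀, hno⟩ := h
    -- the closed projection
    have hK : IsCompact (c.U ∩ {p | p.2 ∈ T.V N}) :=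
      c.isCompact_U.inter_right ((T.closed N).preimage continuous_snd)
    have hK1 : IsClosed (Prod.fst '' (c.U ∩ {p | p.2 ∈ T.V N})) :=
      (hK.image continuous_fst).isClosed
    have hmem : R₀ ∈ (Prod.fst '' (c.U ∩ {p | p.2 ∈ T.V N}))ᶜ := by
      rintro ⟨⟨R, μ⟩, ⟨h1, h2⟩, rfl⟩
      exact hno μ h1 h2
    have hopen := hK1.isOpen_compl
    rw [isOpen_pi_iff] at hopen
    obtain ⟨F, u, hu, hsub⟩ := hopen R₀ hmem
    have hF : ∀ R : (Qn × S × S) → Bool, (∀ q ∈ F, R q = R₀ q) →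
        R ∉ Prod.fst '' (c.U ∩ {p | p.2 ∈ T.V N}) := by
      intro R hR
      refine hsub ?_
      intro q hq
      rw [hR q hq]
      exact (hu q hq).2
    refine ⟨{ D := c.D ∪ F, s := R₀, U := c.U, n := c.n, closed := c.closed, sub := c.sub,
              dep := c.dep, full := fun R hR => c.full R fun q hq => ?_, C := c.C, fin := ?_,
              finC := c.finC, rows := fun q s' hq => ?_ }, ?_, rfl, Or.inr ?_⟩
    · rw [hR q (Or.inl hq), hR₀ q hq]
    · refine (c.fin.union F.finite_toSet).subset ?_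
      rintro q ⟨hq | hq, hC⟩
      · exact Or.inl ⟨hq, hC⟩
      · exact Or.inr hq
    · obtain ⟨h1, h2⟩ := c.rows q s' hq
      exact ⟨Or.inl h1, by rw [hR₀ _ h1, h2]⟩
    · exact ⟨Set.subset_union_left, fun q hq => hR₀ q hq, subset_rfl, subset_rfl⟩
    · refine ⟨N, le_max_right _ _, fun R μ ν hR hμ hν ha hV => ?_⟩
      refine hF R (fun q hq => hR q (Or.inr hq)) ⟨(R, ν), ⟨?_, hV⟩, rfl⟩
      exact c.dep R μ ν hμ hν (ha.mono (le_max_left _ _))

open Classical in
/-- commit a fresh row for a question -/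
theorem commit [Infinite S] (c : Cnd β) (q : Qn) :
    ∃ c' : Cnd β, c'.le c ∧ (∃ s, c'.C = insert (q, s) c.C) ∧ (∃ s, (q, s) ∈ c'.C) := by
  -- a fresh row
  obtain ⟨s, hs⟩ : ∃ s : S, (∀ s', (q, s, s') ∉ c.D) := by
    have h1 : {s : S | ∃ s', (q, s, s') ∈ c.D}.Finite := by
      refine ((c.fin.image fun p => p.2.1).union (c.finC.image fun p => p.2)).subset ?_
      rintro s ⟨s', hs'⟩
      by_cases hC : (q, s) ∈ c.C
      · exact Or.inr ⟨(q, s), hC, rfl⟩
      · exact Or.inl ⟨(q, s, s'), ⟨hs', hC⟩, rfl⟩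
    obtain ⟨s, hs⟩ := h1.exists_notMem
    exact ⟨s, fun s' h => hs ⟨s', h⟩⟩
  refine ⟨{ D := c.D ∪ {p | p.1 = q ∧ p.2.1 = s},
            s := fun p => if p.1 = q ∧ p.2.1 = s then true else c.s p,
            U := c.U, n := c.n, closed := c.closed, sub := c.sub, dep := c.dep,
            full := fun R hR => c.full R fun p hp => ?_, C := insert (q, s) c.C, fin := ?_,
            finC := c.finC.insert _, rows := fun p s' hp => ?_ }, ?_, ⟨s, rfl⟩, ⟨s, Or.inl rfl⟩⟩
  · rw [hR p (Or.inl hp), if_neg]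
    rintro ⟨rfl, rfl⟩
    exact hs p.2.2 hp
  · refine c.fin.subset ?_
    rintro p ⟨hp | hp, hC⟩
    · exact ⟨hp, fun h => hC (Or.inr h)⟩
    · exact absurd (Or.inl (Prod.ext hp.1 hp.2)) hC
  · rcases hp with hp | hp
    · obtain ⟨rfl, rfl⟩ := Prod.ext_iff.1 hp
      exact ⟨Or.inr ⟨rfl, rfl⟩, by simp⟩
    · obtain ⟨h1, h2⟩ := c.rows p s' hp
      refine ⟨Or.inl h1, ?_⟩
      rw [if_neg, h2]
      rintro ⟨h3, h4⟩
      simp only at h3 h4
      subst h3 h4
      exact hs s' h1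
  · refine ⟨Set.subset_union_left, fun p hp => ?_, subset_rfl, Set.subset_insert _ _⟩
    show (if p.1 = q ∧ p.2.1 = s then true else c.s p) = c.s p
    rw [if_neg]
    rintro ⟨rfl, rfl⟩
    exact hs p.2.2 hp

open Classical in
/-- put a zero in a row which is not committed -/
theorem putZero [Infinite S] (c : Cnd β) (r : Qn × S) (hr : r ∉ c.C) :
    ∃ c' : Cnd β, c'.le c ∧ c'.C = c.C ∧ ∃ s', (r.1, r.2, s') ∈ c'.D ∧
      c'.s (r.1, r.2, s') = false := by
  obtain ⟨s', hs'⟩ : ∃ s' : S, (r.1, r.2, s') ∉ c.D := by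
    have h1 : {s' : S | (r.1, r.2, s') ∈ c.D}.Finite := by
      refine (c.fin.image fun p => p.2.2).subset ?_
      intro s' hs'
      exact ⟨(r.1, r.2, s'), ⟨hs', hr⟩, rfl⟩
    exact h1.exists_notMem
  refine ⟨{ D := insert (r.1, r.2, s') c.D,
            s := fun p => if p = (r.1, r.2, s') then false else c.s p,
            U := c.U, n := c.n, closed := c.closed, sub := c.sub, dep := c.dep,
            full := fun R hR => c.full R fun p hp => ?_, C := c.C, fin := ?_,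
            finC := c.finC, rows := fun p t hp => ?_ }, ?_, rfl, ⟨s', Or.inl rfl, by simp⟩⟩
  · rw [hR p (Or.inr hp), if_neg]
    rintro rfl
    exact hs' hp
  · refine (c.fin.insert (r.1, r.2, s')).subset ?_
    rintro p ⟨hp | hp, hC⟩
    · exact Or.inl hp
    · exact Or.inr ⟨hp, hC⟩
  · obtain ⟨h1, h2⟩ := c.rows p t hp
    refine ⟨Or.inr h1, ?_⟩
    rw [if_neg, h2]
    intro h3
    rw [h3] at h1
    exact hs' h1
  · refine ⟨Set.subset_insert _ _, fun p hp => ?_, subset_rfl, subset_rfl⟩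
    show (if p = (r.1, r.2, s') then false else c.s p) = c.s p
    rw [if_neg]
    rintro rfl
    exact hs' hp

end Cnd

/-- The invariant: a committed question has a forbidden task. -/
def Good {I : Type} (T₂ : Qn → I → GTask B) (c : Cnd β) : Prop :=
  ∀ r ∈ c.C, ∃ i, c.forb (T₂ r.1 i)

/-- The requirements. -/
inductive Req (𝒯 Qn S I : Type)
  | task (t : 𝒯)
  | quest (q : Qn) (i : I)
  | row (r : Qn × S)

variable {β}

/-- a condition meets a requirement -/
def meets {𝒯 I : Type} (T₁ : 𝒯 → GTask B) (T₂ : Qn → I → GTask B) (c : Cnd β) :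
    Req 𝒯 Qn S I → Prop
  | .task t => c.real (T₁ t) ∨ c.forb (T₁ t)
  | .quest q i => c.real (T₂ q i) ∨ ∃ s, (q, s) ∈ c.C
  | .row r => r ∈ c.C ∨ ∃ s', (r.1, r.2, s') ∈ c.D ∧ c.s (r.1, r.2, s') = false

theorem exists_meets {𝒯 I : Type} [Infinite S] (T₁ : 𝒯 → GTask B) (T₂ : Qn → I → GTask B)
    (c : Cnd β) (hc : Good β T₂ c) (ρ : Req 𝒯 Qn S I) :
    ∃ c' : Cnd β, c'.le c ∧ Good β T₂ c' ∧ meets T₁ T₂ c' ρ := by
  have hgood : ∀ c' : Cnd β, c'.le c → c'.C = c.C → Good β T₂ c' := by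
    intro c' h1 h2 r hr
    rw [h2] at hr
    obtain ⟨i, hi⟩ := hc r hr
    exact ⟨i, hi.mono h1⟩
  cases ρ with
  | task t =>
    obtain ⟨c', h1, h2, h3⟩ := c.decide (T₁ t)
    exact ⟨c', h1, hgood c' h1 h2, h3⟩
  | quest q i =>
    obtain ⟨c', h1, h2, h3 | h3⟩ := c.decide (T₂ q i)
    · exact ⟨c', h1, hgood c' h1 h2, Or.inl h3⟩
    · obtain ⟨c'', h4, ⟨s, h5⟩, h6⟩ := c'.commit q
      refine ⟨c'', h4.trans h1, ?_, Or.inr h6⟩
      intro r hr
      rw [h5] at hr
      rcases hr with rfl | hr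
      · exact ⟨i, h3.mono h4⟩
      · rw [h2] at hr
        obtain ⟨j, hj⟩ := hc r hr
        exact ⟨j, hj.mono (h4.trans h1)⟩
  | row r =>
    by_cases hr : r ∈ c.C
    · exact ⟨c, Cnd.le.refl c, hc, Or.inl hr⟩
    · obtain ⟨c', h1, h2, h3⟩ := c.putZero r hr
      exact ⟨c', h1, hgood c' h1 h2, Or.inr h3⟩

end Gen

open Gen in
/-- **Generic laws.** -/
theorem exists_generic {B Qn S 𝒯 I : Type} [Infinite S] [Countable S] [Countable Qn]
    [Countable 𝒯] [Countable I]
    (β : ((Qn × S × S) → Bool) → (List (B × Bool) → ℂ)) (hβ : Continuous β)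
    (hβ0 : ∀ R, ∃ μ : Wd B → ℂ, IsPosLaw μ ∧ base μ = β R)
    (T₁ : 𝒯 → GTask B) (T₂ : Qn → I → GTask B) :
    ∃ (R : (Qn × S × S) → Bool) (μ : Wd B → ℂ), IsPosLaw μ ∧ base μ = β R ∧
      (∀ t, ∃ N, (T₁ t).bd ≤ N ∧ (μ ∈ (T₁ t).V N ∨
        ∀ ν, IsPosLaw ν → agree N μ ν → ν ∉ (T₁ t).V N)) ∧
      ∀ q, ((∃ s, ∀ s', R (q, s, s') = true) ∧ ∃ i, ∃ N, (T₂ q i).bd ≤ N ∧
          ∀ ν, IsPosLaw ν → agree N μ ν → ν ∉ (T₂ q i).V N) ∨
        ((∀ s, ∃ s', R (q, s, s') = false) ∧ ∀ i, ∃ N, (T₂ q i).bd ≤ N ∧ μ ∈ (T₂ q i).V N) := by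
  classical
  -- the initial condition
  let c₀ : Cnd β :=
    { D := ∅, s := fun _ => true, U := {p | IsPosLaw p.2 ∧ base p.2 = β p.1}, n := 0,
      closed := by
        refine IsClosed.inter ((isClosed_lawSet (B ⊕ ℕ)).preimage continuous_snd) ?_
        refine isClosed_eq ?_ (hβ.comp continuous_fst)
        exact continuous_pi fun w => (continuous_apply _).comp continuous_snd
      sub := fun R μ h => h
      dep := fun R μ ν h hν ha => ⟨hν, by
        have h2 : base μ = β R := h.2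
        show base ν = β R
        rw [← h2, ha.base]⟩
      full := fun R _ => hβ0 R
      C := ∅
      fin := by simp
      finC := Set.finite_empty
      rows := fun q s' h => h.elim }
  have hc₀ : Good β T₂ c₀ := fun r hr => hr.elim
  -- enumerate the requirements
  have hcount : Countable (Req 𝒯 Qn S I) := by
    let f : Req 𝒯 Qn S I → 𝒯 ⊕ ((Qn × I) ⊕ (Qn × S)) := fun r => match r with
      | .task t => .inl t
      | .quest q i => .inr (.inl (q, i))
      | .row r => .inr (.inr r)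
    refine Function.Injective.countable (f := f) ?_
    intro a b hab
    cases a <;> cases b <;> simp_all [f]
  by_cases hne : Nonempty (Req 𝒯 Qn S I)
  swap
  · -- no requirements: no questions
    obtain ⟨μ, h1, h2⟩ := hβ0 (fun _ => true)
    refine ⟨fun _ => true, μ, h1, h2, fun t => (hne ⟨.task t⟩).elim, fun q => ?_⟩
    obtain ⟨s⟩ := (inferInstance : Nonempty S)
    exact (hne ⟨.row (q, s)⟩).elim
  obtain ⟨e, he⟩ := exists_surjective_nat (Req 𝒯 Qn S I)
  choose nx hnx using fun (c : {c : Cnd β // Good β T₂ c}) (ρ : Req 𝒯 Qn S I) =>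
    exists_meets T₁ T₂ c.1 c.2 ρ
  let seq : ℕ → {c : Cnd β // Good β T₂ c} := fun n => Nat.rec ⟨c₀, hc₀⟩
    (fun k c => ⟨nx c (e k), (hnx c (e k)).2.1⟩) n
  have hseq : ∀ n, (seq (n + 1)).1.le (seq n).1 ∧ meets T₁ T₂ (seq (n + 1)).1 (e n) := fun n =>
    ⟨(hnx (seq n) (e n)).1, (hnx (seq n) (e n)).2.2⟩
  have hmono : ∀ m n, m ≤ n → (seq n).1.le (seq m).1 := by
    intro m n hmn
    induction n, hmn using Nat.le_induction with
    | base => exact Cnd.le.refl _
    | succ n _ ih => exact (hseq n).1.trans ih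
  -- the limit bits
  let R : (Qn × S × S) → Bool := fun q => if h : ∃ n, q ∈ (seq n).1.D then (seq (Nat.find h)).1.s q
    else true
  have hR : ∀ n, (seq n).1.compat R := by
    intro n q hq
    have h : ∃ n, q ∈ (seq n).1.D := ⟨n, hq⟩
    have hR : R q = (seq (Nat.find h)).1.s q := dif_pos h
    rw [hR]
    exact ((hmono _ n (Nat.find_min' h hq)).s q (Nat.find_spec h)).symm
  -- the limit law
  have hlim : ∃ μ, ∀ n, (R, μ) ∈ (seq n).1.U := by
    let K : ℕ → Set (Wd B → ℂ) := fun n => {μ | (R, μ) ∈ (seq n).1.U}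
    have hne : (⋂ n, K n).Nonempty := by
      refine IsCompact.nonempty_iInter_of_sequence_nonempty_isCompact_isClosed K ?_ ?_ ?_ ?_
      · intro n μ hμ
        exact (hseq n).1.U hμ
      · intro n
        exact (seq n).1.full R (hR n)
      · refine (isCompact_lawSet (B ⊕ ℕ)).of_isClosed_subset ?_ ?_
        · exact (seq 0).1.closed.preimage (Continuous.prodMk_right R)
        · intro μ hμ
          exact ((seq 0).1.sub R μ hμ).1
      · intro n
        exact (seq n).1.closed.preimage (Continuous.prodMk_right R)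
    obtain ⟨μ, hμ⟩ := hne
    exact ⟨μ, fun n => Set.mem_iInter.1 hμ n⟩
  obtain ⟨μ, hμ⟩ := hlim
  have hforb : ∀ n (T : GTask B), (seq n).1.forb T → ∃ N, T.bd ≤ N ∧
      ∀ ν, IsPosLaw ν → agree N μ ν → ν ∉ T.V N := by
    rintro n T ⟨N, hN, h⟩
    exact ⟨N, hN, fun ν hν ha => h R μ ν (hR n) (hμ n) hν ha⟩
  have hreal : ∀ n (T : GTask B), (seq n).1.real T → ∃ N, T.bd ≤ N ∧ μ ∈ T.V N := by
    rintro n T ⟨N, hN, h⟩
    exact ⟨N, hN, h R μ (hμ n)⟩
  refine ⟨R, μ, ((seq 0).1.sub R μ (hμ 0)).1, ((seq 0).1.sub R μ (hμ 0)).2, ?_, ?_⟩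
  · intro t
    obtain ⟨n, hn⟩ := he (.task t)
    have := (hseq n).2
    rw [hn] at this
    rcases this with h | h
    · obtain ⟨N, hN, h⟩ := hreal (n + 1) _ h
      exact ⟨N, hN, Or.inl h⟩
    · obtain ⟨N, hN, h⟩ := hforb (n + 1) _ h
      exact ⟨N, hN, Or.inr h⟩
  · intro q
    by_cases hq : ∃ n s, (q, s) ∈ (seq n).1.C
    · left
      obtain ⟨n, s, hs⟩ := hq
      refine ⟨⟨s, fun s' => ?_⟩, ?_⟩
      · obtain ⟨h1, h2⟩ := (seq n).1.rows (q, s) s' hs
        rw [hR n _ h1, h2]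
      · obtain ⟨i, hi⟩ := (seq n).2 (q, s) hs
        exact ⟨i, hforb n _ hi⟩
    · right
      push Not at hq
      refine ⟨fun s => ?_, fun i => ?_⟩
      · obtain ⟨n, hn⟩ := he (.row (q, s))
        have := (hseq n).2
        rw [hn] at this
        rcases this with h | ⟨s', h1, h2⟩
        · exact absurd h (hq (n + 1) s)
        · exact ⟨s', by rw [hR (n + 1) _ h1]; exact h2⟩
      · obtain ⟨n, hn⟩ := he (.quest q i)
        have := (hseq n).2
        rw [hn] at this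
        rcases this with h | ⟨s, h⟩
        · exact hreal (n + 1) _ h
        · exact absurd h (hq (n + 1) s)

end Pool.Agent.Lib.EcII
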