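import Mathlib

/-!
# Three elements of order five with Heisenberg relations
-/

open scoped commutatorElement

namespace Pool.Agent.Lib.EcII

/-- three elements of order dividing 5 whose pairwise commutators commute with both elements -/
structure KMS {G : Type*} [Group G] (u : Fin 3 → G) : Prop where
  pow5 : ∀ i, u i ^ 5 = 1
  comm : ∀ i j, Commute (u i) ⁅u i, u j⁆

end Pool.Agent.Lib.EcII
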