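import Pool.Agent.Lib.EcII.KMS

/-!
# An infinite countable group with Heisenberg generators of order five

The subgroup of the units of `Matrix (Fin 3) (Fin 3) (ZMod 5)[X]` generated by the elementary
matrices `e₁₂(1)`, `e₂₃(1)`, `e₃₁(X)`.
-/

open scoped commutatorElement Polynomial

noncomputable section

namespace Pool.Agent.Lib.EcII

namespace Lam

/-- the coefficient ring -/
abbrev R : Type := (ZMod 5)[X]

/-- the elementary matrix `1 + f E_{ij}` as a unit -/
def el (i j : Fin 3) (h : i ≠ j) (f : R) : (Matrix (Fin 3) (Fin 3) R)ˣ where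
  val := Matrix.transvection i j f
  inv := Matrix.transvection i j (-f)
  val_inv := by
    rw [Matrix.transvection_mul_transvection_same i j h]; simp
  inv_val := by
    rw [Matrix.transvection_mul_transvection_same i j h]; simp

theorem el_mul (i j : Fin 3) (h : i ≠ j) (f g : R) :
    el i j h f * el i j h g = el i j h (f + g) := by
  apply Units.ext
  exact Matrix.transvection_mul_transvection_same i j h f g

theorem el_zero (i j : Fin 3) (h : i ≠ j) : el i j h 0 = 1 := by
  apply Units.ext
  simp [el]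

theorem el_pow (i j : Fin 3) (h : i ≠ j) (f : R) (n : ℕ) :
    el i j h f ^ n = el i j h (n • f) := by
  induction n with
  | zero => simp [el_zero]
  | succ n ih => rw [pow_succ, ih, el_mul, succ_nsmul]

theorem el_pow5 (i j : Fin 3) (h : i ≠ j) (f : R) : el i j h f ^ 5 = 1 := by
  rw [el_pow]
  have : (5 : ℕ) • f = 0 := by
    rw [nsmul_eq_mul]
    have h5 : ((5 : ℕ) : R) = 0 := CharP.cast_eq_zero R 5
    rw [h5, zero_mul]
  rw [this, el_zero]

theorem el_inj (i j : Fin 3) (h : i ≠ j) (f g : R) (hfg : el i j h f = el i j h g) : f = g := by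
  have h1 := congrArg (fun u : (Matrix (Fin 3) (Fin 3) R)ˣ => u.val i j) hfg
  simpa [el, Matrix.transvection, Matrix.one_apply, h] using h1

theorem el_comm_row (i j k : Fin 3) (hij : i ≠ j) (hik : i ≠ k) (f g : R) :
    Commute (el i j hij f) (el i k hik g) := by
  apply Units.ext
  simp only [el, Units.val_mul, Matrix.transvection, mul_add, add_mul, one_mul, mul_one]
  rw [Matrix.single_mul_single_of_ne _ _ _ _ hij.symm, Matrix.single_mul_single_of_ne _ _ _ _ hik.symm]
  abel

theorem el_comm_col (i j k : Fin 3) (hij : i ≠ j) (hkj : k ≠ j) (f g : R) :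
    Commute (el i j hij f) (el k j hkj g) := by
  apply Units.ext
  simp only [el, Units.val_mul, Matrix.transvection, mul_add, add_mul, one_mul, mul_one]
  rw [Matrix.single_mul_single_of_ne _ _ _ _ hkj.symm, Matrix.single_mul_single_of_ne _ _ _ _ hij.symm]
  abel

theorem el_bracket (i j k : Fin 3) (hij : i ≠ j) (hjk : j ≠ k) (hik : i ≠ k) (f g : R) :
    ⁅el i j hij f, el j k hjk g⁆ = el i k hik (f * g) := by
  rw [commutatorElement_def, mul_inv_eq_iff_eq_mul, mul_inv_eq_iff_eq_mul]
  apply Units.ext
  simp only [el, Units.val_mul, Matrix.transvection, mul_add, add_mul, one_mul, mul_one,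
    Matrix.single_mul_single_same]
  rw [Matrix.single_mul_single_of_ne _ _ _ _ hjk.symm,
    Matrix.single_mul_single_of_ne _ _ _ _ hik.symm,
    Matrix.single_mul_single_of_ne _ _ _ _ hik.symm, zero_mul]
  abel

theorem h01 : (0 : Fin 3) ≠ 1 := by decide
theorem h12 : (1 : Fin 3) ≠ 2 := by decide
theorem h20 : (2 : Fin 3) ≠ 0 := by decide
theorem h02 : (0 : Fin 3) ≠ 2 := by decide
theorem h10 : (1 : Fin 3) ≠ 0 := by decide
theorem h21 : (2 : Fin 3) ≠ 1 := by decide

/-- the three generators as matrices -/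
def U : Fin 3 → (Matrix (Fin 3) (Fin 3) R)ˣ :=
  ![el 0 1 h01 1, el 1 2 h12 1, el 2 0 h20 Polynomial.X]

theorem comm_of_bracket {G : Type*} [Group G] {a b c : G} (h : ⁅a, b⁆ = c) (ha : Commute a c)
    (hb : Commute b c) : Commute a ⁅a, b⁆ ∧ Commute b ⁅b, a⁆ := by
  constructor
  · rw [h]; exact ha
  · rw [← commutatorElement_inv, h]; exact hb.inv_right

theorem kms_U : KMS U := by
  constructor
  · intro i
    fin_cases i
    · exact el_pow5 0 1 h01 1
    · exact el_pow5 1 2 h12 1
    · exact el_pow5 2 0 h20 Polynomial.X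
  · have c01 := comm_of_bracket (el_bracket 0 1 2 h01 h12 h02 1 1)
      (el_comm_row _ _ _ _ _ _ _) (el_comm_col _ _ _ _ _ _ _)
    have c12 := comm_of_bracket (el_bracket 1 2 0 h12 h20 h10 1 Polynomial.X)
      (el_comm_row _ _ _ _ _ _ _) (el_comm_col _ _ _ _ _ _ _)
    have c20 := comm_of_bracket (el_bracket 2 0 1 h20 h01 h21 Polynomial.X 1)
      (el_comm_row _ _ _ _ _ _ _) (el_comm_col _ _ _ _ _ _ _)
    intro i j
    fin_cases i <;> fin_cases j
    · simp
    · exact c01.1
    · exact c20.2
    · exact c01.2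
    · simp
    · exact c12.1
    · exact c20.1
    · exact c12.2
    · simp

theorem mem0 : el 0 1 h01 1 ∈ Subgroup.closure (Set.range U) :=
  Subgroup.subset_closure ⟨0, rfl⟩

theorem mem1 : el 1 2 h12 1 ∈ Subgroup.closure (Set.range U) :=
  Subgroup.subset_closure ⟨1, rfl⟩

theorem mem2 : el 2 0 h20 Polynomial.X ∈ Subgroup.closure (Set.range U) :=
  Subgroup.subset_closure ⟨2, rfl⟩

theorem bracket_mem {G : Type*} [Group G] (H : Subgroup G) {a b : G} (ha : a ∈ H) (hb : b ∈ H) :
    ⁅a, b⁆ ∈ H := by
  rw [commutatorElement_def]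
  exact H.mul_mem (H.mul_mem (H.mul_mem ha hb) (H.inv_mem ha)) (H.inv_mem hb)

theorem mem21 : el 2 1 h21 Polynomial.X ∈ Subgroup.closure (Set.range U) := by
  have h := bracket_mem _ mem2 mem0
  rw [el_bracket 2 0 1 h20 h01 h21, mul_one] at h
  exact h

theorem mem_pow (n : ℕ) : el 0 1 h01 (Polynomial.X ^ n) ∈ Subgroup.closure (Set.range U) := by
  induction n with
  | zero => simpa using mem0
  | succ n ih =>
    have h := bracket_mem _ ih mem1
    rw [el_bracket 0 1 2 h01 h12 h02, mul_one] at h
    have h' := bracket_mem _ h mem21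
    rw [el_bracket 0 2 1 h02 h21 h01, ← pow_succ] at h'
    exact h'

end Lam

open Lam in
theorem exists_lambda : ∃ (G : Type) (_ : Group G) (u : Fin 3 → G), KMS u ∧ Countable G ∧
    Infinite G ∧ Subgroup.closure (Set.range u) = ⊤ := by
  refine ⟨Subgroup.closure (Set.range U), inferInstance,
    fun i => ⟨U i, Subgroup.subset_closure ⟨i, rfl⟩⟩, ?_, ?_, ?_, ?_⟩
  · constructor
    · intro i
      apply Subtype.ext
      simpa using kms_U.pow5 i
    · intro i j
      have h := kms_U.comm i j
      apply Subtype.ext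
      simpa [commutatorElement_def] using h.eq
  · have : Countable R := by
      rw [← Cardinal.mk_le_aleph0_iff]
      refine Polynomial.cardinalMk_le_max.trans (max_le ?_ le_rfl)
      exact Cardinal.mk_le_aleph0
    have : Countable (Matrix (Fin 3) (Fin 3) R) := by unfold Matrix; infer_instance
    have : Countable (Matrix (Fin 3) (Fin 3) R)ˣ := Units.val_injective.countable
    infer_instance
  · refine Infinite.of_injective (fun n : ℕ =>
      (⟨el 0 1 h01 (Polynomial.X ^ n), mem_pow n⟩ : Subgroup.closure (Set.range U))) ?_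
    intro m n hmn
    have h := el_inj 0 1 h01 _ _ (congrArg Subtype.val hmn)
    have h2 : ((Polynomial.X : R) ^ m).natDegree = ((Polynomial.X : R) ^ n).natDegree :=
      congrArg Polynomial.natDegree h
    have : Fact (Nat.Prime 5) := ⟨by norm_num⟩
    rwa [Polynomial.natDegree_X_pow, Polynomial.natDegree_X_pow] at h2
  · have h := Subgroup.closure_closure_coe_preimage (k := Set.range U)
    convert h using 2
    ext x
    constructor
    · rintro ⟨i, rfl⟩
      exact ⟨i, rfl⟩
    · rintro ⟨i, hi⟩
      exact ⟨i, Subtype.ext hi⟩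

end Pool.Agent.Lib.EcII
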