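import Pool.Agent.Lib.EcII.Funs

/-!
# Lipschitz estimates for the functions entering the sentence
-/

noncomputable section

namespace Pool.Agent.Lib.EcII

/-! ### suprema and infima -/

theorem iSup_le_iSup_add {I : Type*} [Nonempty I] {f g : I → ℝ} {c : ℝ}
    (hg : BddAbove (Set.range g)) (h : ∀ i, f i ≤ g i + c) : ⨆ i, f i ≤ (⨆ i, g i) + c :=
  ciSup_le fun i => (h i).trans (add_le_add (le_ciSup hg i) le_rfl)

theorem iInf_le_iInf_add {I : Type*} [Nonempty I] {f g : I → ℝ} {c : ℝ}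
    (hf : BddBelow (Set.range f)) (h : ∀ i, f i ≤ g i + c) : ⨅ i, f i ≤ (⨅ i, g i) + c := by
  rw [← sub_le_iff_le_add]
  exact le_ciInf fun i => sub_le_iff_le_add.2 ((ciInf_le hf i).trans (h i))

theorem max_zero_le_add {a b c : ℝ} (hc : 0 ≤ c) (h : a ≤ b + c) : max 0 a ≤ max 0 b + c := by
  rcases le_total a 0 with ha | ha
  · rw [max_eq_left ha]
    exact add_nonneg (le_max_left _ _) hc
  · rw [max_eq_right ha]
    exact h.trans (add_le_add (le_max_right _ _) le_rfl)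

theorem min_one_le_add {a b c : ℝ} (hc : 0 ≤ c) (h : a ≤ b + c) : min 1 a ≤ min 1 b + c := by
  rcases le_total 1 b with hb | hb
  · rw [min_eq_left hb]
    exact (min_le_left _ _).trans (by linarith)
  · rw [min_eq_right hb]
    exact (min_le_right _ _).trans h

namespace TVN

variable {M : TVN}

theorem cm_nonneg (x y : M) : 0 ≤ M.cm x y := M.n2_nonneg _

theorem cm_le {x y : M} (hy : ‖y‖ ≤ 1) : M.cm x y ≤ 2 * M.n2 x := by
  refine (M.n2_sub_le _ _).trans ?_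
  have h1 := M.n2_mul_le' x y
  have h2 := M.n2_mul_le y x
  nlinarith [M.n2_nonneg x, norm_nonneg y]

theorem cm_zero (y : M) : M.cm 0 y = 0 := by simp [cm, n2_zero]

theorem cm_zero' (y : M) : M.cm y 0 = 0 := by simp [cm, n2_zero]

theorem cm_comm (x y : M) : M.cm x y = M.cm y x := by
  unfold cm; rw [M.n2_sub_comm]

theorem cm_lip {x x' y y' : M} (hy : ‖y‖ ≤ 1) (hx' : ‖x'‖ ≤ 1) :
    M.cm x y ≤ M.cm x' y' + (2 * M.n2 (x - x') + 2 * M.n2 (y - y')) := by
  unfold cm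
  have e : x * y - y * x = (x' * y' - y' * x') +
      (((x - x') * y + x' * (y - y')) - (y * (x - x') + (y - y') * x')) := by noncomm_ring
  rw [e]
  refine (M.n2_add_le _ _).trans (add_le_add le_rfl ?_)
  refine (M.n2_sub_le _ _).trans ?_
  have h1 := M.n2_add_le ((x - x') * y) (x' * (y - y'))
  have h2 := M.n2_add_le (y * (x - x')) ((y - y') * x')
  have h3 := M.n2_mul_le' (x - x') y
  have h4 := M.n2_mul_le x' (y - y')
  have h5 := M.n2_mul_le y (x - x')
  have h6 := M.n2_mul_le' (y - y') x'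
  have h7 := M.n2_nonneg (x - x')
  have h8 := M.n2_nonneg (y - y')
  nlinarith [norm_nonneg y, norm_nonneg x']

theorem cm_lip_left {x x' y : M} (hy : ‖y‖ ≤ 1) :
    M.cm x y ≤ M.cm x' y + 2 * M.n2 (x - x') := by
  unfold cm
  have e : x * y - y * x = (x' * y - y * x') + ((x - x') * y - y * (x - x')) := by noncomm_ring
  rw [e]
  exact (M.n2_add_le _ _).trans (add_le_add le_rfl (cm_le hy))

theorem cm_smul_left (t : ℂ) (ht : ‖t‖ = 1) (x y : M) : M.cm (t • x) y = M.cm x y := by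
  unfold cm
  rw [smul_mul_assoc, mul_smul_comm, ← smul_sub, n2_smul, ht, one_mul]

theorem cm_map {P : TVN} (ι : M →⋆ₐ[ℂ] P) (hι : ∀ x, P.tr (ι x) = M.tr x) (x y : M) :
    P.cm (ι x) (ι y) = M.cm x y := by
  unfold cm
  rw [← map_mul, ← map_mul, ← map_sub, n2_map ι hι]

/-! ### the gap -/

theorem gapT_nonneg (x : M) (u : Fin 3 → M) (y : M) : 0 ≤ M.gapT x u y := le_max_left _ _

theorem gapT_le (x : M) (u : Fin 3 → M) (y : M.Ball) : M.gapT x u y ≤ 2 * M.n2 x := by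
  refine max_le (by have := M.n2_nonneg x; positivity) ?_
  have h1 := cm_le (x := x) y.2
  have h2 : 0 ≤ ∑ i, M.cm (u i) y := Finset.sum_nonneg fun i _ => cm_nonneg _ _
  linarith

theorem bdd_gapT (x : M) (u : Fin 3 → M) : BddAbove (Set.range fun y : M.Ball => M.gapT x u y) :=
  ⟨2 * M.n2 x, by rintro _ ⟨y, rfl⟩; exact gapT_le x u y⟩

theorem gap_nonneg (x : M) (u : Fin 3 → M) : 0 ≤ M.gap x u :=
  Real.iSup_nonneg fun y => gapT_nonneg x u y

theorem le_gap (x : M) (u : Fin 3 → M) {y : M} (hy : ‖y‖ ≤ 1) :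
    M.cm x y - 200 * ∑ i, M.cm (u i) y ≤ M.gap x u :=
  (le_max_right 0 _).trans (le_ciSup (bdd_gapT x u) ⟨y, hy⟩)

theorem gap_le_of (x : M) (u : Fin 3 → M) {c : ℝ} (hc : 0 ≤ c)
    (h : ∀ y : M, ‖y‖ ≤ 1 → M.cm x y - 200 * ∑ i, M.cm (u i) y ≤ c) : M.gap x u ≤ c :=
  ciSup_le fun y => max_le hc (h y.1 y.2)

theorem gap_le (x : M) (u : Fin 3 → M) : M.gap x u ≤ 2 * M.n2 x :=
  ciSup_le fun y => gapT_le x u y

theorem gap_zero (u : Fin 3 → M) : M.gap 0 u = 0 :=
  le_antisymm ((gap_le 0 u).trans (by rw [n2_zero]; simp)) (gap_nonneg 0 u)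

theorem gap_lip (x x' : M) (u : Fin 3 → M) : M.gap x u ≤ M.gap x' u + 2 * M.n2 (x - x') := by
  refine iSup_le_iSup_add (bdd_gapT x' u) fun y => ?_
  refine max_zero_le_add (by have := M.n2_nonneg (x - x'); positivity) ?_
  have := cm_lip_left (x := x) (x' := x') y.2
  linarith

theorem gap_lip_u (x : M) (u u' : Fin 3 → M) :
    M.gap x u ≤ M.gap x u' + 400 * ∑ i, M.n2 (u i - u' i) := by
  refine iSup_le_iSup_add (bdd_gapT x u') fun y => ?_
  refine max_zero_le_add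
    (mul_nonneg (by norm_num) (Finset.sum_nonneg fun i _ => M.n2_nonneg _)) ?_
  have h1 : ∑ i, M.cm (u' i) y ≤ ∑ i, M.cm (u i) y + ∑ i, 2 * M.n2 (u i - u' i) := by
    rw [← Finset.sum_add_distrib]
    refine Finset.sum_le_sum fun i _ => ?_
    rw [M.n2_sub_comm]
    exact cm_lip_left y.2
  rw [← Finset.mul_sum] at h1
  linarith

theorem gap_smul (t : ℂ) (ht : ‖t‖ = 1) (x : M) (u : Fin 3 → M) :
    M.gap (t • x) u = M.gap x u := by
  unfold gap gapT
  simp only [cm_smul_left t ht]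

/-! ### the function `GD` -/

theorem GD_nonneg (x : M) (u : Fin 3 → M) (w c : M) : 0 ≤ M.GD x u w c :=
  add_nonneg (add_nonneg (M.n2_nonneg _) (gap_nonneg _ _)) (cm_nonneg _ _)

theorem n2_one_sub_lip {x x' : M} (hx : ‖x‖ ≤ 1) (hx' : ‖x'‖ ≤ 1) :
    M.n2 (1 - star x * x) ≤ M.n2 (1 - star x' * x') + 2 * M.n2 (x - x') := by
  have e : 1 - star x * x = (1 - star x' * x') -
      (star (x - x') * x + star x' * (x - x')) := by
    rw [star_sub]; noncomm_ring
  rw [e]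
  refine (M.n2_sub_le _ _).trans (add_le_add le_rfl ?_)
  refine (M.n2_add_le _ _).trans ?_
  have h1 := M.n2_mul_le' (star (x - x')) x
  have h2 := M.n2_mul_le (star x') (x - x')
  rw [n2_star] at h1
  rw [norm_star] at h2
  have h3 := M.n2_nonneg (x - x')
  nlinarith [norm_nonneg x, norm_nonneg x']

/-- conjugation estimate -/
theorem n2_conj_sub_le {x x' w w' : M} (hx : ‖x‖ ≤ 1) (hx' : ‖x'‖ ≤ 1) (hw : ‖w‖ ≤ 1) :
    M.n2 (x * w * star x - x' * w' * star x') ≤ 2 * M.n2 (x - x') + M.n2 (w - w') := by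
  have e : x * w * star x - x' * w' * star x' =
      ((x - x') * (w * star x) + x' * w * star (x - x')) + x' * (w - w') * star x' := by
    rw [star_sub]; noncomm_ring
  rw [e]
  refine (M.n2_add_le _ _).trans (add_le_add ((M.n2_add_le _ _).trans ?_) ?_)
  · have h1 := M.n2_mul_le' (x - x') (w * star x)
    have h2 := M.n2_mul_le (x' * w) (star (x - x'))
    rw [n2_star] at h2
    have h3 : ‖w * star x‖ ≤ 1 := by
      refine (norm_mul_le _ _).trans ?_
      rw [norm_star]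
      nlinarith [norm_nonneg w, norm_nonneg x]
    have h4 : ‖x' * w‖ ≤ 1 := by
      refine (norm_mul_le _ _).trans ?_
      nlinarith [norm_nonneg w, norm_nonneg x']
    have h5 := M.n2_nonneg (x - x')
    nlinarith [norm_nonneg (w * star x), norm_nonneg (x' * w)]
  · have h1 := M.n2_mul_le' (x' * (w - w')) (star x')
    have h2 := M.n2_mul_le x' (w - w')
    rw [norm_star] at h1
    have h3 := M.n2_nonneg (w - w')
    have h4 := M.n2_nonneg (x' * (w - w'))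
    nlinarith [norm_nonneg x']

theorem norm_conj_le {x w : M} (hx : ‖x‖ ≤ 1) (hw : ‖w‖ ≤ 1) : ‖x * w * star x‖ ≤ 1 := by
  refine (norm_mul_le _ _).trans ?_
  rw [norm_star]
  have := norm_mul_le x w
  nlinarith [norm_nonneg x, norm_nonneg w, norm_nonneg (x * w)]

theorem GD_lip {x x' : M} (hx : ‖x‖ ≤ 1) (hx' : ‖x'‖ ≤ 1) (u : Fin 3 → M) {w c : M}
    (hw : ‖w‖ ≤ 1) (hc : ‖c‖ ≤ 1) : M.GD x u w c ≤ M.GD x' u w c + 8 * M.n2 (x - x') := by
  unfold GD
  have h1 := n2_one_sub_lip hx hx'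
  have h2 := gap_lip x x' u
  have h3 := cm_lip (x := c) (x' := c) (y := x * w * star x) (y' := x' * w * star x')
    (norm_conj_le hx hw) hc
  have h4 := n2_conj_sub_le (w' := w) hx hx' hw
  rw [sub_self, n2_zero] at h3 h4
  linarith

theorem GD_lip_par {x : M} (hx : ‖x‖ ≤ 1) (u u' : Fin 3 → M) {w w' c c' : M}
    (hw : ‖w‖ ≤ 1) (hc' : ‖c'‖ ≤ 1) : M.GD x u w c ≤ M.GD x u' w' c' +
      (400 * ∑ i, M.n2 (u i - u' i) + 2 * M.n2 (w - w') + 2 * M.n2 (c - c')) := by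
  unfold GD
  have h2 := gap_lip_u x u u'
  have h3 := cm_lip (x := c) (x' := c') (y := x * w * star x) (y' := x * w' * star x)
    (norm_conj_le hx hw) hc'
  have h4 := n2_conj_sub_le (x := x) (x' := x) (w := w) (w' := w') hx hx hw
  rw [sub_self, n2_zero] at h4
  linarith

theorem conj_smul {t : ℂ} (ht : ‖t‖ = 1) (x w : M) :
    (t • x) * w * star (t • x) = x * w * star x := by
  rw [star_smul, smul_mul_assoc, smul_mul_smul_comm]
  have : t * star t = 1 := by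
    rw [Complex.star_def, Complex.mul_conj, Complex.normSq_eq_norm_sq, ht]; simp
  rw [this, one_smul]

theorem GD_smul (t : ℂ) (ht : ‖t‖ = 1) (x : M) (u : Fin 3 → M) (w c : M) :
    M.GD (t • x) u w c = M.GD x u w c := by
  unfold GD
  rw [gap_smul t ht, conj_smul ht]
  have : star (t • x) * (t • x) = star x * x := by
    rw [star_smul, smul_mul_smul_comm]
    have : star t * t = 1 := by
      rw [mul_comm, Complex.star_def, Complex.mul_conj, Complex.normSq_eq_norm_sq, ht]; simp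
    rw [this, one_smul]
  rw [this]

theorem GD_zero (u : Fin 3 → M) (w c : M) : M.GD 0 u w c = 1 := by
  unfold GD
  simp [gap_zero, cm_zero', n2_one]

/-! ### the coded bits -/

theorem gh_nonneg (b x s s' w h c : M) : 0 ≤ M.gh b x s s' w h c :=
  le_min zero_le_one (cm_nonneg _ _)

theorem gh_le_one (b x s s' w h c : M) : M.gh b x s s' w h c ≤ 1 := min_le_left _ _

/-- products of contractions -/
theorem norm_mul_le_one {x y : M} (hx : ‖x‖ ≤ 1) (hy : ‖y‖ ≤ 1) : ‖x * y‖ ≤ 1 := by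
  refine (norm_mul_le _ _).trans ?_
  nlinarith [norm_nonneg x, norm_nonneg y]

theorem n2_mul_sub_mul_le {x x' y y' : M} (hy : ‖y‖ ≤ 1) (hx' : ‖x'‖ ≤ 1) :
    M.n2 (x * y - x' * y') ≤ M.n2 (x - x') + M.n2 (y - y') := by
  have e : x * y - x' * y' = (x - x') * y + x' * (y - y') := by noncomm_ring
  rw [e]
  refine (M.n2_add_le _ _).trans ?_
  have h1 := M.n2_mul_le' (x - x') y
  have h2 := M.n2_mul_le x' (y - y')
  have h3 := M.n2_nonneg (x - x')
  have h4 := M.n2_nonneg (y - y')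
  nlinarith [norm_nonneg y, norm_nonneg x']

theorem gh_lip {b b' x x' s s' t t' w w' h h' c c' : M} (hb : ‖b‖ ≤ 1) (hb' : ‖b'‖ ≤ 1)
    (hx : ‖x‖ ≤ 1) (hx' : ‖x'‖ ≤ 1) (hs : ‖s‖ ≤ 1) (hs' : ‖s'‖ ≤ 1) (ht : ‖t‖ ≤ 1)
    (ht' : ‖t'‖ ≤ 1) (hw : ‖w‖ ≤ 1) (hh : ‖h‖ ≤ 1) (hh' : ‖h'‖ ≤ 1)
    (hc' : ‖c'‖ ≤ 1) :
    M.gh b x s t w h c ≤ M.gh b' x' s' t' w' h' c' + (4 * M.n2 (b - b') + 4 * M.n2 (x - x') +
      4 * M.n2 (s - s') + 4 * M.n2 (t - t') + 12 * M.n2 (h - h') + 2 * M.n2 (w - w') +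
      2 * M.n2 (c - c')) := by
  have n : ∀ z : M, 0 ≤ M.n2 z := M.n2_nonneg
  unfold gh
  refine min_one_le_add (by
    have := n (b - b'); have := n (x - x'); have := n (s - s'); have := n (t - t')
    have := n (h - h'); have := n (w - w'); have := n (c - c'); positivity) ?_
  set Y := b * h * x * h * s * h * t with hY
  set Y' := b' * h' * x' * h' * s' * h' * t' with hY'
  have m := @norm_mul_le_one M
  have a1 : ‖b' * h'‖ ≤ 1 := m hb' hh'
  have a2 : ‖b' * h' * x'‖ ≤ 1 := m a1 hx'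
  have a3 : ‖b' * h' * x' * h'‖ ≤ 1 := m a2 hh'
  have a4 : ‖b' * h' * x' * h' * s'‖ ≤ 1 := m a3 hs'
  have a5 : ‖b' * h' * x' * h' * s' * h'‖ ≤ 1 := m a4 hh'
  have hY'1 : ‖Y'‖ ≤ 1 := m a5 ht'
  have hY1 : ‖Y‖ ≤ 1 := m (m (m (m (m (m hb hh) hx) hh) hs) hh) ht
  have d1 := n2_mul_sub_mul_le (x := b) (x' := b') (y := h) (y' := h') hh hb'
  have d2 := n2_mul_sub_mul_le (x := b * h) (x' := b' * h') (y := x) (y' := x') hx a1
  have d3 := n2_mul_sub_mul_le (x := b * h * x) (x' := b' * h' * x') (y := h) (y' := h') hh a2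
  have d4 := n2_mul_sub_mul_le (x := b * h * x * h) (x' := b' * h' * x' * h') (y := s) (y' := s')
    hs a3
  have d5 := n2_mul_sub_mul_le (x := b * h * x * h * s) (x' := b' * h' * x' * h' * s') (y := h)
    (y' := h') hh a4
  have d6 := n2_mul_sub_mul_le (x := b * h * x * h * s * h) (x' := b' * h' * x' * h' * s' * h')
    (y := t) (y' := t') ht a5
  have d7 := n2_conj_sub_le (x := Y) (x' := Y') (w := w) (w' := w') hY1 hY'1 hw
  have d8 := cm_lip (x := c) (x' := c') (y := Y * w * star Y) (y' := Y' * w' * star Y')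
    (norm_conj_le hY1 hw) hc'
  rw [← hY, ← hY'] at d6
  linarith

theorem gh_smul (t₁ t₂ t₃ t₄ : ℂ) (h₁ : ‖t₁‖ = 1) (h₂ : ‖t₂‖ = 1) (h₃ : ‖t₃‖ = 1)
    (h₄ : ‖t₄‖ = 1) (b x s s' w h c : M) :
    M.gh (t₁ • b) (t₂ • x) (t₃ • s) (t₄ • s') w h c = M.gh b x s s' w h c := by
  unfold gh
  have e : (t₁ • b) * h * (t₂ • x) * h * (t₃ • s) * h * (t₄ • s') =
      (t₄ * (t₃ * (t₂ * t₁))) • (b * h * x * h * s * h * s') := by
    simp only [smul_mul_assoc, mul_smul_comm, smul_smul]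
    
  rw [e, conj_smul]
  simp [h₁, h₂, h₃, h₄]

end TVN

end Pool.Agent.Lib.EcII
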