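import Pool.Agent.Lib.EcII.Lip2

/-!
# Bounds for `Theta`
-/

noncomputable section

namespace Pool.Agent.Lib.EcII

namespace TVN

variable {M : TVN}

theorem vec3_eta (u : Fin 3 → M) : ![u 0, u 1, u 2] = u := by
  funext i
  fin_cases i <;> rfl

theorem thA_le {u : Fin 3 → M} {w h c : M} {r : ℝ}
    (H : ∀ (u' : Fin 3 → M) (z w' : M), (∀ i, ‖u' i‖ ≤ 1) → ‖z‖ ≤ 1 → ‖w'‖ ≤ 1 →
      M.thC u w h c u' z w' ≤ r) : M.thA u w h c ≤ r := by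
  unfold thA
  refine ciSup_le fun u0 => ciSup_le fun u1 => ciSup_le fun u2 => ciSup_le fun z =>
    ciSup_le fun w' => H _ _ _ ?_ z.2 w'.2
  intro i
  fin_cases i
  · exact u0.2
  · exact u1.2
  · exact u2.2

theorem le_thA {u : Fin 3 → M} {w h c : M} {u' : Fin 3 → M} {z w' : M} (hu : ∀ i, ‖u' i‖ ≤ 1)
    (hz : ‖z‖ ≤ 1) (hw : ‖w'‖ ≤ 1) : M.thC u w h c u' z w' ≤ M.thA u w h c := by
  unfold thA
  have hb : ∀ {I : Type} [Nonempty I] {f : I → ℝ}, (∀ i, f i ≤ 40000) →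
      BddAbove (Set.range f) := by
    intro I _ f h
    exact ⟨40000, by rintro _ ⟨i, rfl⟩; exact h i⟩
  have hC := fun (u' : Fin 3 → M) (z w' : M) => thC_le_const u w h c u' z w'
  rw [← vec3_eta u']
  have e1 : M.thC u w h c ![u' 0, u' 1, u' 2] z w' ≤ ⨆ w' : M.Ball,
      M.thC u w h c ![u' 0, u' 1, u' 2] z w' :=
    le_ciSup (f := fun w' : M.Ball => M.thC u w h c ![u' 0, u' 1, u' 2] z w')
      (hb fun _ => hC _ _ _) ⟨w', hw⟩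
  refine e1.trans ?_
  have e2 := le_ciSup (f := fun z : M.Ball => ⨆ w' : M.Ball,
      M.thC u w h c ![u' 0, u' 1, u' 2] z w') (hb fun _ => ciSup_le fun _ => hC _ _ _) ⟨z, hz⟩
  refine e2.trans ?_
  have e3 := le_ciSup (f := fun u2 : M.Ball => ⨆ z : M.Ball, ⨆ w' : M.Ball,
      M.thC u w h c ![u' 0, u' 1, u2.1] z w')
      (hb fun _ => ciSup_le fun _ => ciSup_le fun _ => hC _ _ _) ⟨u' 2, hu 2⟩
  refine e3.trans ?_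
  have e4 := le_ciSup (f := fun u1 : M.Ball => ⨆ u2 : M.Ball, ⨆ z : M.Ball, ⨆ w' : M.Ball,
      M.thC u w h c ![u' 0, u1.1, u2.1] z w')
      (hb fun _ => ciSup_le fun _ => ciSup_le fun _ => ciSup_le fun _ => hC _ _ _) ⟨u' 1, hu 1⟩
  refine e4.trans ?_
  exact le_ciSup (f := fun u0 : M.Ball => ⨆ u1 : M.Ball, ⨆ u2 : M.Ball, ⨆ z : M.Ball,
      ⨆ w' : M.Ball, M.thC u w h c ![u0.1, u1.1, u2.1] z w')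
      (hb fun _ => ciSup_le fun _ => ciSup_le fun _ => ciSup_le fun _ => ciSup_le fun _ =>
        hC _ _ _) ⟨u' 0, hu 0⟩

theorem thA_nonneg (u : Fin 3 → M) (w h c : M) : 0 ≤ M.thA u w h c :=
  Real.iSup_nonneg fun _ => Real.iSup_nonneg fun _ => Real.iSup_nonneg fun _ =>
    Real.iSup_nonneg fun _ => Real.iSup_nonneg fun _ => thC_nonneg _ _ _ _ _ _ _

theorem Theta_nonneg : 0 ≤ M.Theta :=
  Real.iInf_nonneg fun _ => Real.iInf_nonneg fun _ => Real.iInf_nonneg fun _ =>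
    Real.iInf_nonneg fun _ => Real.iInf_nonneg fun _ => Real.iInf_nonneg fun _ =>
      thA_nonneg _ _ _ _

theorem Theta_le {u : Fin 3 → M} {w h c : M} (hu : ∀ i, ‖u i‖ ≤ 1) (hw : ‖w‖ ≤ 1)
    (hh : ‖h‖ ≤ 1) (hc : ‖c‖ ≤ 1) : M.Theta ≤ M.thA u w h c := by
  have hb : ∀ {f : M.Ball → ℝ} (_ : ∀ i, 0 ≤ f i) (i : M.Ball), ⨅ i, f i ≤ f i := by
    intro f h i
    exact ciInf_le ⟨0, by rintro _ ⟨i, rfl⟩; exact h i⟩ i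
  rw [← vec3_eta u]
  have g6 : ∀ u0 u1 u2 w h : M.Ball, 0 ≤ ⨅ c : M.Ball, M.thA ![u0.1, u1.1, u2.1] w h c :=
    fun _ _ _ _ _ => Real.iInf_nonneg fun _ => thA_nonneg _ _ _ _
  have g5 : ∀ u0 u1 u2 w : M.Ball, 0 ≤ ⨅ h : M.Ball, ⨅ c : M.Ball,
      M.thA ![u0.1, u1.1, u2.1] w h c := fun _ _ _ _ => Real.iInf_nonneg fun _ => g6 _ _ _ _ _
  have g4 : ∀ u0 u1 u2 : M.Ball, 0 ≤ ⨅ w : M.Ball, ⨅ h : M.Ball, ⨅ c : M.Ball,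
      M.thA ![u0.1, u1.1, u2.1] w h c := fun _ _ _ => Real.iInf_nonneg fun _ => g5 _ _ _ _
  have g3 : ∀ u0 u1 : M.Ball, 0 ≤ ⨅ u2 : M.Ball, ⨅ w : M.Ball, ⨅ h : M.Ball, ⨅ c : M.Ball,
      M.thA ![u0.1, u1.1, u2.1] w h c := fun _ _ => Real.iInf_nonneg fun _ => g4 _ _ _
  have g2 : ∀ u0 : M.Ball, 0 ≤ ⨅ u1 : M.Ball, ⨅ u2 : M.Ball, ⨅ w : M.Ball, ⨅ h : M.Ball,
      ⨅ c : M.Ball, M.thA ![u0.1, u1.1, u2.1] w h c := fun _ => Real.iInf_nonneg fun _ => g3 _ _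
  have s1 : M.Theta ≤ ⨅ u1 : M.Ball, ⨅ u2 : M.Ball, ⨅ w : M.Ball, ⨅ h : M.Ball,
      ⨅ c : M.Ball, M.thA ![u 0, u1.1, u2.1] w h c := hb g2 ⟨u 0, hu 0⟩
  have s2 : (⨅ u1 : M.Ball, ⨅ u2 : M.Ball, ⨅ w : M.Ball, ⨅ h : M.Ball,
      ⨅ c : M.Ball, M.thA ![u 0, u1.1, u2.1] w h c) ≤ ⨅ u2 : M.Ball, ⨅ w : M.Ball, ⨅ h : M.Ball,
      ⨅ c : M.Ball, M.thA ![u 0, u 1, u2.1] w h c := hb (g3 ⟨u 0, hu 0⟩) ⟨u 1, hu 1⟩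
  have s3 : (⨅ u2 : M.Ball, ⨅ w : M.Ball, ⨅ h : M.Ball,
      ⨅ c : M.Ball, M.thA ![u 0, u 1, u2.1] w h c) ≤ ⨅ w : M.Ball, ⨅ h : M.Ball,
      ⨅ c : M.Ball, M.thA ![u 0, u 1, u 2] w h c := hb (g4 ⟨u 0, hu 0⟩ ⟨u 1, hu 1⟩) ⟨u 2, hu 2⟩
  have s4 : (⨅ w : M.Ball, ⨅ h : M.Ball, ⨅ c : M.Ball, M.thA ![u 0, u 1, u 2] w h c) ≤
      ⨅ h : M.Ball, ⨅ c : M.Ball, M.thA ![u 0, u 1, u 2] w h c :=
    hb (g5 ⟨u 0, hu 0⟩ ⟨u 1, hu 1⟩ ⟨u 2, hu 2⟩) ⟨w, hw⟩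
  have s5 : (⨅ h : M.Ball, ⨅ c : M.Ball, M.thA ![u 0, u 1, u 2] w h c) ≤
      ⨅ c : M.Ball, M.thA ![u 0, u 1, u 2] w h c :=
    hb (g6 ⟨u 0, hu 0⟩ ⟨u 1, hu 1⟩ ⟨u 2, hu 2⟩ ⟨w, hw⟩) ⟨h, hh⟩
  have s6 : (⨅ c : M.Ball, M.thA ![u 0, u 1, u 2] w h c) ≤ M.thA ![u 0, u 1, u 2] w h c :=
    hb (fun c => thA_nonneg _ _ _ _) ⟨c, hc⟩
  exact s1.trans (s2.trans (s3.trans (s4.trans (s5.trans s6))))

theorem exists_of_Theta_lt {r : ℝ} (hr : M.Theta < r) :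
    ∃ (u : Fin 3 → M) (w h c : M), (∀ i, ‖u i‖ ≤ 1) ∧ ‖w‖ ≤ 1 ∧ ‖h‖ ≤ 1 ∧ ‖c‖ ≤ 1 ∧
      M.thA u w h c < r := by
  unfold Theta at hr
  obtain ⟨u0, hr⟩ := exists_lt_of_ciInf_lt hr
  obtain ⟨u1, hr⟩ := exists_lt_of_ciInf_lt hr
  obtain ⟨u2, hr⟩ := exists_lt_of_ciInf_lt hr
  obtain ⟨w, hr⟩ := exists_lt_of_ciInf_lt hr
  obtain ⟨h, hr⟩ := exists_lt_of_ciInf_lt hr
  obtain ⟨c, hr⟩ := exists_lt_of_ciInf_lt hr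
  have hu : ∀ i, ‖(![u0.1, u1.1, u2.1] : Fin 3 → M) i‖ ≤ 1 := by
    intro i
    fin_cases i
    · exact u0.2
    · exact u1.2
    · exact u2.2
  exact ⟨![u0.1, u1.1, u2.1], w.1, h.1, c.1, hu, w.2, h.2, c.2, hr⟩

end TVN

end Pool.Agent.Lib.EcII
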