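import Pool.Agent.Lib.EcII.Basic

/-!
# Contractions which are almost unitary in trace norm are close to unitaries
-/

noncomputable section

namespace Pool.Agent.Lib.EcII

namespace NearU

variable {A : Type*} [CStarAlgebra A]

/-- `1 + S` is a sum of two unitaries when `‖S‖ < 1`. -/
theorem one_add_eq (S : A) (hS : ‖S‖ < 1) :
    ∃ v₁ ∈ unitary A, ∃ v₂ ∈ unitary A, 1 + S = v₁ + v₂ := by
  obtain (hsub | hnt) := subsingleton_or_nontrivial A
  · exact ⟨1, one_mem _, 1, one_mem _, Subsingleton.elim _ _⟩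
  let _ : PartialOrder A := CStarAlgebra.spectralOrder A
  let _ : StarOrderedRing A := CStarAlgebra.spectralOrderedRing A
  set y : A := (1 / 2 : ℝ) • (1 + S) with hy
  have hyu : IsUnit y := by
    have h1 : IsUnit (1 - (-S)) := isUnit_one_sub_of_norm_lt_one (by rwa [norm_neg])
    rw [sub_neg_eq_add] at h1
    have h2 : y = algebraMap ℝ A (1 / 2) * (1 + S) := by
      rw [hy, Algebra.smul_def]
    rw [h2]
    refine IsUnit.mul ?_ h1
    exact (isUnit_iff_ne_zero.2 (by norm_num)).map _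
  have hyn : ‖y‖ ≤ 1 := by
    rw [hy, norm_smul]
    have : ‖1 + S‖ ≤ 2 := (norm_add_le _ _).trans (by rw [CStarRing.norm_one]; linarith)
    rw [Real.norm_of_nonneg (by norm_num)]
    linarith
  set b : A := CFC.sqrt (star y * y) with hb
  have hb0 : 0 ≤ b := CFC.sqrt_nonneg _
  have hbs : IsSelfAdjoint b := hb0.isSelfAdjoint
  have hbb : b * b = star y * y := CFC.sqrt_mul_sqrt_self _ (star_mul_self_nonneg y)
  have hbn : ‖b‖ ≤ 1 := by
    have h1 : ‖b‖ * ‖b‖ = ‖y‖ * ‖y‖ := by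
      rw [← CStarRing.norm_star_mul_self, ← CStarRing.norm_star_mul_self, hbs.star_eq, hbb]
    nlinarith [norm_nonneg b, norm_nonneg y]
  have hbbu : IsUnit (b * b) := by rw [hbb]; exact (hyu.star).mul hyu
  have hbu : IsUnit b := by
    obtain ⟨c, hc⟩ := hbbu
    refine isUnit_iff_exists_and_exists.2 ⟨⟨b * (c⁻¹ : Aˣ), ?_⟩, ⟨(c⁻¹ : Aˣ) * b, ?_⟩⟩
    · rw [← mul_assoc, ← hc, Units.mul_inv]
    · rw [mul_assoc, ← hc, Units.inv_mul]
  obtain ⟨c, hc⟩ := hbu
  set w : A := y * (c⁻¹ : Aˣ) with hw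
  have hwb : w * b = y := by rw [hw, mul_assoc, ← hc, Units.inv_mul, mul_one]
  have hcs : star ((c⁻¹ : Aˣ) : A) = ((c⁻¹ : Aˣ) : A) := by
    have h1 : star b * star ((c⁻¹ : Aˣ) : A) = 1 := by
      rw [← star_mul, ← hc, Units.inv_mul, star_one]
    rw [hbs.star_eq, ← hc] at h1
    calc star ((c⁻¹ : Aˣ) : A) = ((c⁻¹ : Aˣ) : A) * ((c : A) * star ((c⁻¹ : Aˣ) : A)) := by
          rw [← mul_assoc, Units.inv_mul, one_mul]
      _ = _ := by rw [h1, mul_one]
  have hww : star w * w = 1 := by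
    rw [hw, star_mul, hcs]
    calc ((c⁻¹ : Aˣ) : A) * star y * (y * ((c⁻¹ : Aˣ) : A))
        = ((c⁻¹ : Aˣ) : A) * (star y * y) * ((c⁻¹ : Aˣ) : A) := by simp only [mul_assoc]
      _ = 1 := by
        rw [← hbb, ← hc, ← mul_assoc, Units.inv_mul, one_mul, Units.mul_inv]
  have hwu : IsUnit w := hyu.mul (Units.isUnit _)
  have hw' : w ∈ unitary A := by
    rw [Unitary.mem_iff]
    refine ⟨hww, ?_⟩
    obtain ⟨d, hd⟩ := hwu
    have h1 : star w = ((d⁻¹ : Aˣ) : A) := by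
      calc star w = star w * ((d : A) * ((d⁻¹ : Aˣ) : A)) := by rw [Units.mul_inv, mul_one]
        _ = _ := by rw [← mul_assoc, hd, hww, one_mul]
    rw [h1, ← hd, Units.mul_inv]
  have hv := hbs.self_add_I_smul_cfcSqrt_sub_sq_mem_unitary b hbn
  set v : A := b + Complex.I • CFC.sqrt (1 - b ^ 2) with hvdef
  have hvs : star v = b - Complex.I • CFC.sqrt (1 - b ^ 2) := by
    have h1 : star (CFC.sqrt (1 - b ^ 2)) = CFC.sqrt (1 - b ^ 2) :=
      (CFC.sqrt_nonneg (1 - b ^ 2)).isSelfAdjoint.star_eq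
    rw [hvdef, star_add, hbs.star_eq, star_smul, h1, Complex.star_def, Complex.conj_I, neg_smul,
      ← sub_eq_add_neg]
  refine ⟨w * v, mul_mem hw' hv, w * star v, mul_mem hw' (Unitary.star_mem hv), ?_⟩
  rw [← mul_add, hvs, hvdef]
  have : b + Complex.I • CFC.sqrt (1 - b ^ 2) + (b - Complex.I • CFC.sqrt (1 - b ^ 2)) =
      (2 : ℝ) • b := by
    rw [two_smul]; abel
  rw [this, mul_smul_comm, hwb, hy, smul_smul]
  norm_num

theorem add_eq {U : A} (hU : U ∈ unitary A) (T : A) (hT : ‖T‖ < 1) :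
    ∃ v₁ ∈ unitary A, ∃ v₂ ∈ unitary A, U + T = v₁ + v₂ := by
  have h0 : ‖star U * T‖ < 1 := by
    rw [CStarRing.norm_mem_unitary_mul _ (Unitary.star_mem hU)]
    exact hT
  obtain ⟨v₁, h1, v₂, h2, h⟩ := one_add_eq (star U * T) h0
  refine ⟨U * v₁, mul_mem hU h1, U * v₂, mul_mem hU h2, ?_⟩
  rw [← mul_add, ← h, mul_add, mul_one, ← mul_assoc, Unitary.mul_star_self_of_mem hU, one_mul]

theorem add_smul_eq (T : A) (hT : ‖T‖ < 1) (n : ℕ) : ∀ {U : A} (_ : U ∈ unitary A),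
    ∃ u : Fin (n + 1) → A, (∀ i, u i ∈ unitary A) ∧ U + n • T = ∑ i, u i := by
  induction n with
  | zero => exact fun {U} hU => ⟨fun _ => U, fun _ => hU, by simp⟩
  | succ n ih =>
    intro U hU
    obtain ⟨v₁, h1, v₂, h2, h⟩ := add_eq hU T hT
    obtain ⟨u, hu, h'⟩ := ih h2
    refine ⟨Fin.cons v₁ u, fun i => ?_, ?_⟩
    · refine Fin.cases ?_ (fun i => ?_) i
      · simpa using h1
      · simpa using hu i
    · rw [Fin.sum_cons, ← h', succ_nsmul, ← add_assoc, ← add_assoc, ← h]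
      abel

end NearU

open NearU in
theorem TVN.exists_unitary_near (M : TVN) (x : M) (hx : ‖x‖ ≤ 1) (ε : ℝ) (hε : 0 < ε) :
    ∃ u ∈ unitary M, M.n2 (x - u) ^ 2 ≤ M.n2 (1 - star x * x) + ε := by
  obtain ⟨n, hn⟩ := exists_nat_gt (max 3 (6 / ε))
  have hn3 : (3 : ℝ) < n := (le_max_left _ _).trans_lt hn
  have hn6 : 6 / ε < n := (le_max_right _ _).trans_lt hn
  have hn0 : (0 : ℝ) < n := by linarith
  -- `N = n + 1`
  set N : ℝ := (n : ℝ) + 1 with hN
  have hNpos : 0 < N := by linarith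
  set T : M := (1 / (n : ℝ)) • ((N - 3) • x - 1) with hT
  have hTn : ‖T‖ < 1 := by
    rw [hT, norm_smul, Real.norm_of_nonneg (by positivity)]
    have h1 : ‖(N - 3) • x - 1‖ ≤ (N - 3) + 1 := by
      refine (norm_sub_le _ _).trans ?_
      rw [CStarRing.norm_one, norm_smul, Real.norm_of_nonneg (by linarith)]
      nlinarith
    have h2 : 1 / (n : ℝ) * ‖(N - 3) • x - 1‖ ≤ 1 / (n : ℝ) * ((N - 3) + 1) :=
      mul_le_mul_of_nonneg_left h1 (by positivity)
    refine h2.trans_lt ?_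
    rw [one_div, inv_mul_lt_iff₀ hn0]
    linarith
  obtain ⟨u, hu, hsum⟩ := add_smul_eq T hTn n (one_mem (unitary M))
  have hsum' : ∑ i, u i = (N - 3) • x := by
    rw [← hsum, hT, ← Nat.cast_smul_eq_nsmul ℝ, smul_smul, mul_one_div_cancel hn0.ne', one_smul]
    abel
  have hre : ∑ i, (M.tr (star x * u i)).re = (N - 3) * M.n2 x ^ 2 := by
    rw [← Complex.re_sum, ← map_sum, ← Finset.mul_sum, hsum', mul_smul_comm, n2_sq]
    have : (N - 3) • (star x * x) = ((N - 3 : ℝ) : ℂ) • (star x * x) := by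
      rw [Complex.coe_smul]
    rw [this, map_smul, smul_eq_mul, Complex.re_ofReal_mul]
  have hx1 : M.n2 x ^ 2 ≤ 1 := by
    have h1 := M.n2_le_norm x
    have h2 := M.n2_nonneg x
    nlinarith
  have hx2 : 1 - M.n2 x ^ 2 ≤ M.n2 (1 - star x * x) := by
    have h1 : (M.tr (1 - star x * x)).re = 1 - M.n2 x ^ 2 := by
      rw [map_sub, M.tr_one, n2_sq]; simp
    rw [← h1]
    exact (Complex.re_le_norm _).trans (M.norm_tr_le_n2 _)
  have htot : ∑ i, M.n2 (x - u i) ^ 2 ≤ ∑ _i : Fin (n + 1), (M.n2 (1 - star x * x) + ε) := by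
    have h1 : ∀ i, M.n2 (x - u i) ^ 2 = (M.n2 x ^ 2 + 1) - 2 * (M.tr (star x * u i)).re := by
      intro i
      rw [n2_sub_sq, n2_of_unitary M (hu i)]
      ring
    rw [Finset.sum_congr rfl fun i _ => h1 i, Finset.sum_sub_distrib, ← Finset.mul_sum, hre,
      Finset.sum_const, Finset.sum_const, Finset.card_univ, Fintype.card_fin, nsmul_eq_mul,
      nsmul_eq_mul]
    push_cast
    rw [← hN]
    have h2 : 6 ≤ N * ε := by
      rw [div_lt_iff₀ hε] at hn6
      nlinarith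
    nlinarith
  obtain ⟨i, -, hi⟩ := Finset.exists_le_of_sum_le (Finset.univ_nonempty) htot
  exact ⟨u i, hu i, hi⟩

end Pool.Agent.Lib.EcII
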