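import Pool.Agent.Lib.EcII.Step
import Pool.Agent.Lib.EcII.DirLim
import Pool.Agent.Lib.EcII.ThetaLem
import Pool.Agent.Lib.EcII.Unit

/-!
# The model with diagonal codes
-/

open scoped ComplexOrder

noncomputable section

namespace Pool.Agent.Lib.EcII

open TVN

/-- A stage inside a larger algebra. -/
structure Inc (M L : TVN) where
  /-- the inclusion -/
  κ : M →⋆ₐ[ℂ] L
  tr : ∀ x, L.tr (κ x) = M.tr x
  ecM : M.EC'
  ecL : L.EC'

namespace Inc

variable {M L : TVN} (I : Inc M L)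

theorem norm_le {x : M} (hx : ‖x‖ ≤ 1) : ‖I.κ x‖ ≤ 1 := by
  rw [norm_map I.κ I.tr]; exact hx

/-- conditional expectations of the large algebra onto algebras generated by elements of the small
algebra take values in the small algebra -/
theorem exists_pre (u : Fin 3 → M) {x : L} (hx : ‖x‖ ≤ 1) :
    ∃ y : M, ‖y‖ ≤ 1 ∧ I.κ y = (condE (fun i => I.κ (u i))).E x := by
  choose Q hQ1 hQ2 using fun n : ℕ => condE_approx (fun i => I.κ (u i)) hx
    (ε := 1 / (n + 1 : ℝ)) (by positivity)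
  set e := (condE (fun i => I.κ (u i))).E x with he
  have hk : ∀ n, evp (fun i => I.κ (u i)) (Q n) = I.κ (evp u (Q n)) := fun n => by rw [map_evp]
  have hcl : ∀ n, L.n2 (e - I.κ (evp u (Q n))) < 1 / (n + 1 : ℝ) := fun n => by
    rw [← hk]; exact hQ2 n
  obtain ⟨y, hy, hlim⟩ := M.exists_lim (s := fun n => evp u (Q n)) zero_le_one (fun n => by
      rw [← norm_map I.κ I.tr, ← hk]; exact hQ1 n) (fun ε hε => by
    obtain ⟨N, hN⟩ := exists_nat_one_div_lt (show (0 : ℝ) < ε / 2 by positivity)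
    refine ⟨N, fun m hm n hn => ?_⟩
    rw [← n2_map I.κ I.tr, map_sub]
    have h1 := L.n2_tri (I.κ (evp u (Q m))) e (I.κ (evp u (Q n)))
    have h2 := hcl m
    have h3 := hcl n
    rw [L.n2_sub_comm] at h2
    have h4 : 1 / (m + 1 : ℝ) ≤ 1 / (N + 1 : ℝ) := by
      apply one_div_le_one_div_of_le (by positivity)
      have : (N : ℝ) ≤ m := by exact_mod_cast hm
      linarith
    have h5 : 1 / (n + 1 : ℝ) ≤ 1 / (N + 1 : ℝ) := by
      apply one_div_le_one_div_of_le (by positivity)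
      have : (N : ℝ) ≤ n := by exact_mod_cast hn
      linarith
    linarith)
  refine ⟨y, hy, ?_⟩
  rw [← sub_eq_zero, ← L.n2_eq_zero]
  refine le_antisymm (le_of_forall_pos_le_add fun ε hε => ?_) (L.n2_nonneg _)
  obtain ⟨N, hN⟩ := hlim (ε / 2) (by positivity)
  obtain ⟨N', hN'⟩ := exists_nat_one_div_lt (show (0 : ℝ) < ε / 2 by positivity)
  have h1 := hN (max N N') (le_max_left _ _)
  have h2 := hcl (max N N')
  have h4 : 1 / ((max N N' : ℕ) + 1 : ℝ) ≤ 1 / (N' + 1 : ℝ) := by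
    apply one_div_le_one_div_of_le (by positivity)
    have : (N' : ℝ) ≤ (max N N' : ℕ) := by exact_mod_cast le_max_right _ _
    linarith
  have h3 := L.n2_tri (I.κ y) (I.κ (evp u (Q (max N N')))) e
  have h5 : L.n2 (I.κ y - I.κ (evp u (Q (max N N')))) = M.n2 (evp u (Q (max N N')) - y) := by
    rw [← map_sub, n2_map I.κ I.tr, M.n2_sub_comm]
  rw [h5, L.n2_sub_comm (I.κ (evp u (Q (max N N')))) e] at h3
  rw [zero_add]
  linarith

/-- elements of the large algebra with small `GD` are near elements of the small algebra -/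
theorem exists_near (u : Fin 3 → M) {w c : M} (hw : ‖w‖ ≤ 1) (hc : ‖c‖ ≤ 1) {x : L}
    (hx : ‖x‖ ≤ 1) : ∃ y : M, ‖y‖ ≤ 1 ∧
      L.n2 (x - I.κ y) ≤ 2 * L.GD x (fun i => I.κ (u i)) (I.κ w) (I.κ c) ∧
      M.GD y u w c ≤ 17 * L.GD x (fun i => I.κ (u i)) (I.κ w) (I.κ c) := by
  obtain ⟨y, hy, hκ⟩ := I.exists_pre u hx
  have h1 := I.ecL.n2_sub_condE_le x (fun i => I.κ (u i))
  rw [← hκ] at h1
  have h2 : L.gap x (fun i => I.κ (u i)) ≤ L.GD x (fun i => I.κ (u i)) (I.κ w) (I.κ c) := by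
    unfold GD
    have := L.n2_nonneg (1 - star x * x)
    have := cm_nonneg (I.κ c) (x * I.κ w * star x)
    linarith
  have h0 := GD_nonneg x (fun i => I.κ (u i)) (I.κ w) (I.κ c)
  have h3 : L.n2 (x - I.κ y) ≤ 2 * L.GD x (fun i => I.κ (u i)) (I.κ w) (I.κ c) := by linarith
  refine ⟨y, hy, h3, ?_⟩
  rw [← I.ecM.GD_map I.κ I.tr]
  have h4 := GD_lip (I.norm_le hy) hx (fun i => I.κ (u i)) (I.norm_le hw) (I.norm_le hc)
  rw [L.n2_sub_comm] at h4
  linarith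

variable {u : Fin 3 → M} {w h c : M}

/-- absoluteness, lower estimate -/
theorem Psi_mid_le_hi (hw : ‖w‖ ≤ 1) (hh : ‖h‖ ≤ 1) (hc : ‖c‖ ≤ 1) {b x : M} (hb : ‖b‖ ≤ 1)
    (hx : ‖x‖ ≤ 1) : M.Psi 5600 5600 b x u w h c ≤
      L.Psi 112000 280 (I.κ b) (I.κ x) (fun i => I.κ (u i)) (I.κ w) (I.κ h) (I.κ c) := by
  refine le_Psi (Psi_le_one _ _ _ _ _ _ _ _) fun s hs => ?_
  obtain ⟨t, ht, h1, h2⟩ := I.exists_near u hw hc hs
  set G := L.GD s (fun i => I.κ (u i)) (I.κ w) (I.κ c) with hG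
  have hG0 : 0 ≤ G := GD_nonneg _ _ _ _
  refine (Psi_le (by norm_num) 5600 b x u w h c ht).trans ?_
  refine psiS_le ?_ fun s' hs' => ?_
  · refine le_trans ?_ mul_GD_le_psiS
    rw [← hG]
    linarith
  · refine le_trans ?_ (le_psiS (by norm_num) (s' := I.κ s') (I.norm_le hs'))
    rw [← hG, I.ecM.GD_map I.κ I.tr, ← gh_map I.κ I.tr]
    have h3 := gh_lip (M := L) (b := I.κ b) (b' := I.κ b) (x := I.κ x) (x' := I.κ x)
      (s := I.κ t) (s' := s) (t := I.κ s') (t' := I.κ s') (w := I.κ w) (w' := I.κ w)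
      (h := I.κ h) (h' := I.κ h) (c := I.κ c) (c' := I.κ c) (I.norm_le hb) (I.norm_le hb)
      (I.norm_le hx) (I.norm_le hx) (I.norm_le ht) hs (I.norm_le hs') (I.norm_le hs')
      (I.norm_le hw) (I.norm_le hh) (I.norm_le hh) (I.norm_le hc)
    simp only [sub_self, n2_zero] at h3
    rw [L.n2_sub_comm] at h3
    have h4 := GD_nonneg s' u w c
    linarith

/-- absoluteness, upper estimate -/
theorem Psi_lo_le_mid (hw : ‖w‖ ≤ 1) (hh : ‖h‖ ≤ 1) (hc : ‖c‖ ≤ 1) {b x : M} (hb : ‖b‖ ≤ 1)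
    (hx : ‖x‖ ≤ 1) :
    L.Psi 280 112000 (I.κ b) (I.κ x) (fun i => I.κ (u i)) (I.κ w) (I.κ h) (I.κ c) ≤
      M.Psi 5600 5600 b x u w h c := by
  refine le_Psi (Psi_le_one _ _ _ _ _ _ _ _) fun s hs => ?_
  have hG0 := GD_nonneg s u w c
  refine (Psi_le (by norm_num) 112000 _ _ _ _ _ _ (I.norm_le hs)).trans ?_
  refine psiS_le ?_ fun s' hs' => ?_
  · refine le_trans ?_ mul_GD_le_psiS
    rw [I.ecM.GD_map I.κ I.tr]
    linarith
  · obtain ⟨t, ht, h1, h2⟩ := I.exists_near u hw hc hs'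
    set G := L.GD s' (fun i => I.κ (u i)) (I.κ w) (I.κ c) with hG
    have hG1 : 0 ≤ G := GD_nonneg _ _ _ _
    refine le_trans ?_ (le_psiS (by norm_num) (s' := t) ht)
    rw [I.ecM.GD_map I.κ I.tr, ← gh_map I.κ I.tr]
    have h3 := gh_lip (M := L) (b := I.κ b) (b' := I.κ b) (x := I.κ x) (x' := I.κ x)
      (s := I.κ s) (s' := I.κ s) (t := s') (t' := I.κ t) (w := I.κ w) (w' := I.κ w)
      (h := I.κ h) (h' := I.κ h) (c := I.κ c) (c' := I.κ c) (I.norm_le hb) (I.norm_le hb)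
      (I.norm_le hx) (I.norm_le hx) (I.norm_le hs) (I.norm_le hs) hs' (I.norm_le ht)
      (I.norm_le hw) (I.norm_le hh) (I.norm_le hh) (I.norm_le hc)
    simp only [sub_self, n2_zero] at h3
    linarith

end Inc

/-! ### The coded distance -/

section code

variable {M M' L : TVN} {Λ : Type} [Group Λ] {v : Fin 3 → Λ} (hv : KMS v)
  (hgen : Subgroup.closure (Set.range v) = ⊤)
  {ι : M →⋆ₐ[ℂ] M'} (hι : ∀ y, M'.tr (ι y) = M.tr y)
  {u : Fin 3 → M} {w h c : M} {x : Λ → Option (unitary M)} {l : Λ → M'} {z w' : M'}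
  (hC : CodeFor ι u w h c x l z w')
  {κ : M' →⋆ₐ[ℂ] L} (hκ : ∀ y, L.tr (κ y) = M'.tr y) (hL : L.EC')

include hC hκ

theorem form_map (y : unitary M) (s : Finset Λ) (a : Λ → ℂ) :
    L.cm (κ w') (κ (ι y) * ((∑ g ∈ s, a g • κ (l g)) * κ z * star (∑ g ∈ s, a g • κ (l g)))) ^ 2 =
      2 * ((∑ g ∈ s, ‖a g‖ ^ 2) ^ 2 - ∑ g ∈ s, ‖a g‖ ^ 4 * ovl M (x g) y) := by
  rw [← hC.form y s a, ← cm_map κ hκ, map_mul, map_mul, map_mul, map_star, map_sum]
  simp only [map_smul]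

include hv hgen in
theorem F_eq_zero {g : Λ} {b : unitary M} (hb : x g = some b) :
    L.F (κ (ι b)) (fun i => κ (l (v i))) (κ z) (κ w') = 0 := by
  have hcopy := Copy.map κ hκ hC.copy
  refine le_antisymm ?_ (F_nonneg _ _ _ _)
  refine (F_le _ _ _ _ (hcopy.norm_le g)).trans (le_of_eq ?_)
  unfold FT
  have h1 := form_map hC hκ b {g} (fun _ => 1)
  simp only [Finset.sum_singleton, one_smul, norm_one, one_pow, one_mul] at h1
  have h2 : ovl M (x g) b = 1 := by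
    rw [hb]
    show ‖M.tr (star (b : M) * (b : M))‖ ^ 2 = 1
    rw [Unitary.star_mul_self_of_mem b.2, M.tr_one]; simp
  rw [h2, sub_self, mul_zero] at h1
  rw [pow_eq_zero_iff two_ne_zero |>.1 h1, Unitary.star_mul_self_of_mem (hcopy.unit g), sub_self,
    n2_zero, gap_eq_zero_of_kms hv hgen (fun g => κ (l g)) hcopy.one hcopy.mul hcopy.unit g]
  simp

include hL in
theorem le_F_of_ovl {y : unitary M} {Q : ℝ} (hQ0 : 0 ≤ Q) (hQ1 : Q ≤ 1)
    (hQ : ∀ g, ovl M (x g) y ≤ Q) :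
    √(2 * (1 - Q)) ≤ L.F (κ (ι y)) (fun i => κ (l (v i))) (κ z) (κ w') := by
  have hcopy := Copy.map κ hκ hC.copy
  set r := √(2 * (1 - Q)) with hr
  have hr0 : 0 ≤ r := Real.sqrt_nonneg _
  have hr2 : r ^ 2 = 2 * (1 - Q) := Real.sq_sqrt (by linarith)
  have hr1 : r ≤ 3 / 2 := by nlinarith
  refine le_F fun t ht => le_of_forall_pos_le_add fun ε hε => ?_
  obtain ⟨s, a, hs1, hs2⟩ := hcopy.approx hL v ht (ε := ε / 7) (by positivity)
  set T := ∑ g ∈ s, a g • κ (l g) with hT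
  set g0 := L.gap t (fun i => κ (l (v i))) with hg0
  have hg00 : 0 ≤ g0 := gap_nonneg _ _
  set δ := L.n2 (t - T) with hδ
  have hδ0 : 0 ≤ δ := L.n2_nonneg _
  have hyn : ‖κ (ι y)‖ ≤ 1 := by
    have h1 : (ι y : M') ∈ unitary M' := by
      have := y.2
      rw [Unitary.mem_iff] at this ⊢
      rw [← map_star, ← map_mul, ← map_mul, this.1, this.2, map_one]
      exact ⟨rfl, rfl⟩
    rw [norm_map κ hκ]
    exact M'.norm_le_one_of_unitary h1
  have hzn : ‖κ z‖ ≤ 1 := by rw [norm_map κ hκ]; exact hC.hz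
  have hwn : ‖κ w'‖ ≤ 1 := by rw [norm_map κ hκ]; exact hC.hw
  -- the exact formula
  have hf := form_map hC hκ y s a
  rw [← hT] at hf
  set S2 := ∑ g ∈ s, ‖a g‖ ^ 2 with hS2
  have hS20 : 0 ≤ S2 := Finset.sum_nonneg fun _ _ => sq_nonneg _
  have hS4 : ∑ g ∈ s, ‖a g‖ ^ 4 * ovl M (x g) y ≤ Q * S2 ^ 2 := by
    have h1 : ∀ g ∈ s, ‖a g‖ ^ 4 * ovl M (x g) y ≤ Q * S2 * ‖a g‖ ^ 2 := by
      intro g hg
      have h2 : ‖a g‖ ^ 2 ≤ S2 := Finset.single_le_sum (f := fun g => ‖a g‖ ^ 2)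
        (fun _ _ => sq_nonneg _) hg
      have h3 : ‖a g‖ ^ 4 = ‖a g‖ ^ 2 * ‖a g‖ ^ 2 := by ring
      calc ‖a g‖ ^ 4 * ovl M (x g) y ≤ ‖a g‖ ^ 4 * Q := by
            gcongr; exact hQ g
        _ = Q * ‖a g‖ ^ 2 * ‖a g‖ ^ 2 := by rw [h3]; ring
        _ ≤ Q * S2 * ‖a g‖ ^ 2 := by gcongr
    refine (Finset.sum_le_sum h1).trans (le_of_eq ?_)
    rw [← Finset.mul_sum, ← hS2]; ring
  have hcm : r * S2 ≤ L.cm (κ w') (κ (ι y) * (T * κ z * star T)) := by
    have h1 : (r * S2) ^ 2 ≤ L.cm (κ w') (κ (ι y) * (T * κ z * star T)) ^ 2 := by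
      rw [hf, mul_pow, hr2]
      nlinarith
    exact (abs_le_of_sq_le_sq' h1 (cm_nonneg _ _)).2
  -- S2 is near one
  have hS2T : L.n2 T ^ 2 = S2 := hcopy.n2_sum_sq s a
  have hS2ge : 1 - L.n2 (1 - star T * T) ≤ S2 := by
    have e1 : L.tr (1 - star T * T) = ((1 - S2 : ℝ) : ℂ) := by
      rw [map_sub, L.tr_one, tr_star_mul_self, hS2T]; push_cast; rfl
    have e2 := L.norm_tr_le_n2 (1 - star T * T)
    rw [e1, Complex.norm_real, Real.norm_eq_abs] at e2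
    have := le_abs_self (1 - S2)
    linarith
  have h5 := n2_one_sub_lip (M := L) hs1 ht
  rw [L.n2_sub_comm T t, ← hδ] at h5
  have h6 := n2_conj_sub_le (x := T) (x' := t) (w := κ z) (w' := κ z) hs1 ht hzn
  have h7 := n2_mul_sub_mul_le (x := κ (ι y)) (x' := κ (ι y)) (y := T * κ z * star T)
    (y' := t * κ z * star t) (norm_conj_le hs1 hzn) hyn
  have h8 := cm_lip (x := κ w') (x' := κ w') (y := κ (ι y) * (T * κ z * star T))
    (y' := κ (ι y) * (t * κ z * star t)) (norm_mul_le_one hyn (norm_conj_le hs1 hzn)) hwn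
  rw [sub_self, n2_zero] at h6 h7 h8
  rw [L.n2_sub_comm T t, ← hδ] at h6
  have h9 : r * (1 - (L.n2 (1 - star t * t) + 2 * δ)) ≤ r * S2 := by
    refine mul_le_mul_of_nonneg_left ?_ hr0
    linarith
  have h10 : 0 ≤ L.n2 (1 - star t * t) := L.n2_nonneg _
  have h11 : r * L.n2 (1 - star t * t) ≤ 3 / 2 * L.n2 (1 - star t * t) :=
    mul_le_mul_of_nonneg_right hr1 h10
  have h12 : r * δ ≤ 3 / 2 * δ := mul_le_mul_of_nonneg_right hr1 hδ0
  unfold FT
  rw [← hg0]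
  have h13 : r * (1 - (L.n2 (1 - star t * t) + 2 * δ)) =
      r - r * L.n2 (1 - star t * t) - 2 * (r * δ) := by ring
  linarith

end code

end Pool.Agent.Lib.EcII
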