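import Pool.Agent.Lib.EcII.Generic
import Pool.Agent.Lib.EcII.Poly
import Pool.Agent.Lib.EcII.Lip2

/-!
# The tasks tied to the coded bits
-/

open scoped ComplexOrder

noncomputable section

namespace Pool.Agent.Lib.EcII

namespace Gen

open TVN

/-- trace norm of a polynomial computed from a law -/
def n2law {J : Type*} (ν : List (J × Bool) → ℂ) (Q : List (J × Bool) →₀ ℂ) : ℝ :=
  √((pmul (pstar Q) Q).sum fun w c => c * ν w).re

theorem n2law_law {J : Type*} {M : TVN} (v : J → M) (Q : List (J × Bool) →₀ ℂ) :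
    n2law (M.law v) Q = M.n2 (evp v Q) := by
  unfold n2law TVN.n2
  rw [← tr_evp, evp_pmul, evp_pstar]

theorem continuous_n2law {J : Type*} (Q : List (J × Bool) →₀ ℂ) :
    Continuous fun ν : List (J × Bool) → ℂ => n2law ν Q := by
  unfold n2law
  refine Real.continuous_sqrt.comp (Complex.continuous_re.comp ?_)
  unfold Finsupp.sum
  fun_prop

/-- pulling back a law along a map of letters -/
def pull {J K : Type*} (f : K → J) (μ : List (J × Bool) → ℂ) : List (K × Bool) → ℂ :=
  fun w => μ (w.map (Prod.map f id))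

theorem continuous_pull {J K : Type*} (f : K → J) :
    Continuous (pull f : (List (J × Bool) → ℂ) → List (K × Bool) → ℂ) :=
  continuous_pi fun _ => continuous_apply _

theorem pull_law {J K : Type*} {M : TVN} (f : K → J) (v : J → M) :
    pull f (M.law v) = M.law (v ∘ f) := by
  funext w
  unfold pull law
  rw [ev_map]

/-- The letters: `0` is `v`, `1` is `y`, `2` is `w'`, `3` is `z`, `4,5,6` are `u'`, `7` is `g`. -/
def thLaw (ν : List (Fin 8 × Bool) → ℂ) : ℝ :=
  n2law ν (pcomm (X 2) (pmul (X 7) (pmul (pmul (X 0) (X 3)) (pstar (X 0))))) +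
    2 * n2law ν (Finsupp.single [] 1 - pmul (pstar (X 0)) (X 0)) +
    12 * max 0 (n2law ν (pcomm (X 0) (X 1)) -
      200 * (n2law ν (pcomm (X 4) (X 1)) + n2law ν (pcomm (X 5) (X 1)) +
        n2law ν (pcomm (X 6) (X 1))))

theorem continuous_thLaw : Continuous thLaw := by
  unfold thLaw
  have h := fun Q : List (Fin 8 × Bool) →₀ ℂ => continuous_n2law Q
  have h1 := h (pcomm (X 2) (pmul (X 7) (pmul (pmul (X 0) (X 3)) (pstar (X 0)))))
  have h2 := h (Finsupp.single [] 1 - pmul (pstar (X 0)) (X 0))
  have h3 := h (pcomm (X 0) (X 1))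
  have h4 := h (pcomm (X 4) (X 1))
  have h5 := h (pcomm (X 5) (X 1))
  have h6 := h (pcomm (X 6) (X 1))
  exact (h1.add (continuous_const.mul h2)).add
    (continuous_const.mul (continuous_const.max (h3.sub (continuous_const.mul
      ((h4.add h5).add h6)))))

theorem thLaw_law {M : TVN} (k : Fin 8 → M) :
    thLaw (M.law k) = M.cm (k 2) (k 7 * (k 0 * k 3 * star (k 0))) +
      2 * M.n2 (1 - star (k 0) * k 0) + 12 * M.gapT (k 0) ![k 4, k 5, k 6] (k 1) := by
  unfold thLaw
  simp only [n2law_law, evp_pcomm, evp_pmul, evp_pstar, evp_X, evp_sub, evp_one]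
  unfold gapT
  rw [Fin.sum_univ_three]
  rfl

/-- the letters of the task of a question -/
def asg {B : Type} (g : B) (cod : Fin 5 → ℕ) (i N : ℕ) : Fin 8 → B ⊕ ℕ :=
  ![.inr i, .inr N, .inr (cod 4), .inr (cod 3), .inr (cod 0), .inr (cod 1), .inr (cod 2), .inl g]

/-- The task of a question: `theta(y_i, y_new) ≥ 1/64`. -/
def qTask {B : Type} (g : B) (cod : Fin 5 → ℕ) (i : ℕ) : GTask B where
  V N := {μ | 1 / 64 ≤ thLaw (pull (asg g cod i N) μ)}
  bd := (i + 1) + ∑ j, (cod j + 1)
  k := 1
  closed N := isClosed_le continuous_const (continuous_thLaw.comp (continuous_pull _))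
  dep N hN μ ν ha h := by
    have hlow : ∀ j, low (N + 1) (asg g cod i N j) := by
      have hc : ∀ j, cod j < N + 1 := by
        intro j
        have := Finset.single_le_sum (f := fun j => cod j + 1) (fun _ _ => Nat.zero_le _)
          (Finset.mem_univ j)
        omega
      intro j
      fin_cases j
      · show i < N + 1
        omega
      · show N < N + 1
        omega
      · exact hc 4
      · exact hc 3
      · exact hc 0
      · exact hc 1
      · exact hc 2
      · trivial
    have : pull (asg g cod i N) μ = pull (asg g cod i N) ν := by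
      funext w
      refine ha _ fun x hx => ?_
      simp only [List.mem_map] at hx
      obtain ⟨y, -, rfl⟩ := hx
      exact hlow _
    simp only [Set.mem_setOf_eq] at h ⊢
    rwa [← this]

/-- replacing one letter -/
theorem exists_replace {B : Type} {M : TVN} {v : B ⊕ ℕ → M} (hv : ∀ j, ‖v j‖ ≤ 1) (N : ℕ)
    (y : M) (hy : ‖y‖ ≤ 1) : ∃ v' : B ⊕ ℕ → M, (∀ j, ‖v' j‖ ≤ 1) ∧
      agree N (M.law v) (M.law v') ∧ v' (.inr N) = y ∧ (∀ b, v' (.inl b) = v (.inl b)) ∧
      ∀ i, i < N → v' (.inr i) = v (.inr i) := by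
  classical
  refine ⟨Function.update v (.inr N) y, ?_, ?_, by simp, by simp, ?_⟩
  · intro j
    by_cases h : j = .inr N
    · rw [h]; simpa using hy
    · rw [Function.update_of_ne h]; exact hv j
  · intro w hw
    unfold law ev
    congr 2
    refine List.map_congr_left fun x hx => ?_
    unfold letter
    have : x.1 ≠ .inr N := by
      intro h
      have h2 := hw x hx
      rw [h] at h2
      exact lt_irrefl _ h2
    rw [Function.update_of_ne this]
  · intro i hi
    rw [Function.update_of_ne]
    intro h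
    have := Sum.inr.inj h
    omega

end Gen

end Pool.Agent.Lib.EcII
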