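import Pool.Agent.Lib.EcII.GenEC
import Pool.Agent.Lib.EcII.ThetaTask
import Pool.Agent.Lib.EcII.ThetaLem
import Pool.Agent.Lib.EcII.Copy
import Pool.Agent.Lib.EcII.BaseAlg
import Pool.Agent.Lib.EcII.Lam

/-!
# The generic model in which `Theta` vanishes
-/

open scoped ComplexOrder

noncomputable section

namespace Pool.Agent.Lib.EcII

open Gen TVN

namespace TVN

variable {M : TVN}

theorem FT_lip_v {x : M} (hx : ‖x‖ ≤ 1) (u : Fin 3 → M) {z w v v' : M} (hz : ‖z‖ ≤ 1)
    (hw : ‖w‖ ≤ 1) (hv : ‖v‖ ≤ 1) (hv' : ‖v'‖ ≤ 1) :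
    M.FT x u z w v ≤ M.FT x u z w v' + 32 * M.n2 (v - v') := by
  unfold FT
  have h1 := gap_lip v v' u
  have h2 := n2_one_sub_lip hv hv'
  have h3 := n2_conj_sub_le (x := v) (x' := v') (w := z) (w' := z) hv hv' hz
  have h4 := n2_mul_sub_mul_le (x := x) (x' := x) (y := v * z * star v)
    (y' := v' * z * star v') (norm_conj_le hv hz) hx
  have h5 := cm_lip (x := w) (x' := w) (y := x * (v * z * star v))
    (y' := x * (v' * z * star v')) (norm_mul_le_one hx (norm_conj_le hv hz)) hw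
  rw [sub_self, n2_zero] at h3 h4 h5
  linarith

theorem F_smul (t : ℂ) (ht : ‖t‖ = 1) (x : M) (u : Fin 3 → M) (z w : M) :
    M.F (t • x) u z w = M.F x u z w := by
  unfold F FT
  have : ∀ y : M, M.cm w ((t • x) * y) = M.cm w (x * y) := by
    intro y
    rw [cm_comm, cm_comm w, smul_mul_assoc, cm_smul_left t ht]
  simp only [this]

theorem F1_smul (t : ℂ) (ht : ‖t‖ = 1) (x : M) (u : Fin 3 → M) (z w : M) :
    M.F1 (t • x) u z w = M.F1 x u z w := by
  unfold F1; rw [F_smul t ht]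

/-- a tracial von Neumann algebra with an infinite orthonormal family is infinite dimensional -/
theorem infinite_dim_of_copy {Λ : Type} [Group Λ] [Infinite Λ] {l : Λ → M} (hl : Copy M l) :
    ¬ FiniteDimensional ℂ M := by
  intro hfd
  have hli : LinearIndependent ℂ l := by
    rw [linearIndependent_iff']
    intro s a hs g hg
    have := hl.tr_sum_mul s a hg
    rw [hs, mul_zero, map_zero] at this
    exact this.symm
  haveI := hli.finite
  exact not_finite Λ

end TVN

/-- abstract properties of the generic model -/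
structure TwoModel (Λ : Type) [Group Λ] (u : Fin 3 → Λ) (M : TVN) (l : Λ → M) (w h c : M)
    (R : ((Λ × Λ) × Λ × Λ) → Bool) : Prop where
  ec : M.EC'
  kms : KMS u
  gen : Subgroup.closure (Set.range u) = ⊤
  copy : Copy M l
  hw : ‖w‖ ≤ 1
  hh : ‖h‖ ≤ 1
  hc : ‖c‖ ≤ 1
  hf : ∀ (s : Finset Λ) (a : Λ → ℂ), M.cm c ((∑ g ∈ s, a g • l g) * w *
      star (∑ g ∈ s, a g • l g)) ^ 2 = 2 * ((∑ g ∈ s, ‖a g‖ ^ 2) ^ 2 - ∑ g ∈ s, ‖a g‖ ^ 4)
  bits : ∀ b x s s' : Λ, M.gh (l b) (l x) (l s) (l s') w h c = if R ((b, x), s, s') then 0 else 1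

namespace TwoModel

variable {Λ : Type} [Group Λ] {u : Fin 3 → Λ} {M : TVN} {l : Λ → M} {w h c : M}
    {R : ((Λ × Λ) × Λ × Λ) → Bool} (T : TwoModel Λ u M l w h c R)

include T

theorem gap_zero (g : Λ) : M.gap (l g) (fun i => l (u i)) = 0 :=
  gap_eq_zero_of_kms T.kms T.gen l T.copy.one T.copy.mul T.copy.unit g

theorem GD_zero (g : Λ) : M.GD (l g) (fun i => l (u i)) w c = 0 := by
  unfold GD
  have h1 : M.cm c (l g * w * star (l g)) = 0 := by
    have := T.hf {g} (fun _ => 1)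
    simp only [Finset.sum_singleton, one_smul, norm_one, one_pow, sub_self, mul_zero] at this
    exact pow_eq_zero_iff two_ne_zero |>.1 this
  rw [T.gap_zero, h1, Unitary.star_mul_self_of_mem (T.copy.unit g), sub_self, n2_zero]
  simp

theorem dist (x : M) (hx : ‖x‖ ≤ 1) {ε : ℝ} (hε : 0 < ε) : ∃ (t : ℂ) (g : Λ), ‖t‖ = 1 ∧
    M.n2 (x - t • l g) ≤ 70 * M.GD x (fun i => l (u i)) w c + ε :=
  T.copy.dist_le T.ec T.hw T.hc T.hf u hx hε

theorem norm_smul_le {t : ℂ} (ht : ‖t‖ = 1) (g : Λ) : ‖t • l g‖ ≤ 1 := by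
  rw [norm_smul, ht, one_mul]; exact T.copy.norm_le g

theorem Psi_eq_zero {α β : ℝ} (hα : 0 ≤ α) (hβ : 280 ≤ β) {b g : Λ}
    (hR : ∃ s, ∀ s', R ((b, g), s, s') = true) :
    M.Psi α β (l b) (l g) (fun i => l (u i)) w h c = 0 := by
  obtain ⟨s, hs⟩ := hR
  refine le_antisymm (le_of_forall_pos_le_add fun ε hε => ?_) (Psi_nonneg hα _ _ _ _ _ _ _)
  refine (Psi_le hα β _ _ _ _ _ _ (T.copy.norm_le s)).trans ?_
  refine psiS_le ?_ fun s' hs' => ?_
  · rw [T.GD_zero]; linarith
  · rw [T.GD_zero]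
    obtain ⟨t, g', ht, hg'⟩ := T.dist s' hs' (ε := ε / 4) (by positivity)
    have h1 := gh_lip (M := M) (b := l b) (b' := l b) (x := l g) (x' := l g) (s := l s)
      (s' := l s) (t := s') (t' := t • l g') (w := w) (w' := w) (h := h) (h' := h) (c := c)
      (c' := c) (T.copy.norm_le _) (T.copy.norm_le _) (T.copy.norm_le _) (T.copy.norm_le _)
      (T.copy.norm_le _) (T.copy.norm_le _) hs' (T.norm_smul_le ht g') T.hw T.hh T.hh T.hc
    have h2 := gh_smul (M := M) 1 1 1 t (by simp) (by simp) (by simp) ht (l b) (l g) (l s) (l g')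
      w h c
    rw [one_smul, one_smul, one_smul] at h2
    have h3 : M.gh (l b) (l g) (l s) (l g') w h c = 0 := by
      rw [T.bits, hs]; simp
    rw [h2, h3] at h1
    simp only [sub_self, n2_zero] at h1
    have h4 := GD_nonneg s' (fun i => l (u i)) w c
    nlinarith

theorem Psi_eq_one {α β : ℝ} (hα : 280 ≤ α) (hβ : 0 ≤ β) {b g : Λ}
    (hR : ∀ s, ∃ s', R ((b, g), s, s') = false) :
    M.Psi α β (l b) (l g) (fun i => l (u i)) w h c = 1 := by
  refine le_antisymm (Psi_le_one _ _ _ _ _ _ _ _) (le_of_forall_pos_le_add fun ε hε => ?_)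
  rw [← sub_le_iff_le_add]
  refine le_Psi (by linarith) fun s hs => ?_
  obtain ⟨t, g₁, ht, hg₁⟩ := T.dist s hs (ε := ε / 4) (by positivity)
  obtain ⟨s', hs'⟩ := hR g₁
  refine le_trans ?_ (le_psiS hβ (s' := l s') (T.copy.norm_le s'))
  rw [T.GD_zero]
  have h1 := gh_lip (M := M) (b := l b) (b' := l b) (x := l g) (x' := l g) (s := t • l g₁)
      (s' := s) (t := l s') (t' := l s') (w := w) (w' := w) (h := h) (h' := h) (c := c)
      (c' := c) (T.copy.norm_le _) (T.copy.norm_le _) (T.copy.norm_le _) (T.copy.norm_le _)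
      (T.norm_smul_le ht g₁) hs (T.copy.norm_le _) (T.copy.norm_le _) T.hw T.hh T.hh T.hc
  have h2 := gh_smul (M := M) 1 1 t 1 (by simp) (by simp) ht (by simp) (l b) (l g) (l g₁) (l s')
      w h c
  rw [one_smul, one_smul, one_smul] at h2
  have h3 : M.gh (l b) (l g) (l g₁) (l s') w h c = 1 := by
    rw [T.bits, hs']; simp
  rw [h2, h3] at h1
  simp only [sub_self, n2_zero] at h1
  rw [M.n2_sub_comm] at h1
  have h4 := GD_nonneg s (fun i => l (u i)) w c
  nlinarith

/-- the key estimate: if the code is enumerated by `b` then the sentence function vanishes -/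
theorem thB_le {u' : Fin 3 → M} {z w' : M} (hz : ‖z‖ ≤ 1) (hw' : ‖w'‖ ≤ 1) (b : Λ)
    (H : ∀ g : Λ, ((∃ s, ∀ s', R ((b, g), s, s') = true) ∧ M.F1 (l g) u' z w' ≤ 1 / 2) ∨
      ((∀ s, ∃ s', R ((b, g), s, s') = false) ∧ 1 / 2 ≤ M.F1 (l g) u' z w')) :
    M.thB (fun i => l (u i)) w h c u' z w' (l b) ≤ 0 := by
  have hEE : ∀ g, EE (M.F1 (l g) u' z w') (M.Psi 112000 280 (l b) (l g) (fun i => l (u i)) w h c)
      (M.Psi 280 112000 (l b) (l g) (fun i => l (u i)) w h c) = 0 := by
    intro g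
    rcases H g with ⟨hR, hF⟩ | ⟨hR, hF⟩
    · rw [T.Psi_eq_zero (by norm_num) (by norm_num) hR, T.Psi_eq_zero (by norm_num) (by norm_num) hR]
      unfold EE
      rw [cut1_eq_zero (by linarith), min_eq_right (cut0_nonneg _), sub_zero,
        min_eq_left zero_le_one, max_self]
    · rw [T.Psi_eq_one (by norm_num) (by norm_num) hR, T.Psi_eq_one (by norm_num) (by norm_num) hR]
      unfold EE
      rw [cut0_eq_zero (by linarith), sub_self, min_eq_left zero_le_one,
        min_eq_right (cut1_nonneg _), max_self]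
  unfold thB
  rw [T.GD_zero, mul_zero]
  refine max_le le_rfl ?_
  refine ciSup_le fun x => le_of_forall_pos_le_add fun ε hε => ?_
  rw [zero_add]
  refine max_le hε.le ?_
  obtain ⟨t, g, ht, hg⟩ := T.dist x.1 x.2 (ε := ε / 512) (by positivity)
  set D := M.n2 (x.1 - t • l g) with hD
  have hD0 : 0 ≤ D := M.n2_nonneg _
  have hn := T.norm_smul_le ht g
  have f1 := F1_lip (M := M) (x := x.1) (x' := t • l g) (u := u') (u' := u') (z := z) (z' := z)
    (w := w') (w' := w') x.2 hn hz hw'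
  have f2 := F1_lip (M := M) (x := t • l g) (x' := x.1) (u := u') (u' := u') (z := z) (z' := z)
    (w := w') (w' := w') hn x.2 hz hw'
  simp only [sub_self, n2_zero, mul_zero, add_zero, Finset.sum_const_zero] at f1 f2
  rw [M.n2_sub_comm, ← hD] at f2
  rw [← hD] at f1
  rw [F1_smul t ht] at f1 f2
  have p1 := Psi_lip_left (M := M) (α := 112000) (β := 280) (b := l b) (b' := l b) (x := x.1)
    (x' := t • l g) (u := fun i => l (u i)) (w := w) (h := h) (c := c) (by norm_num)
    (by norm_num) (T.copy.norm_le b) (T.copy.norm_le b) x.2 hn T.hw T.hh T.hc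
  have p2 := Psi_lip_left (M := M) (α := 280) (β := 112000) (b := l b) (b' := l b) (x := t • l g)
    (x' := x.1) (u := fun i => l (u i)) (w := w) (h := h) (c := c) (by norm_num)
    (by norm_num) (T.copy.norm_le b) (T.copy.norm_le b) hn x.2 T.hw T.hh T.hc
  have q1 := Psi_smul (M := M) 112000 280 1 t (by simp) ht (l b) (l g) (fun i => l (u i)) w h c
  have q2 := Psi_smul (M := M) 280 112000 1 t (by simp) ht (l b) (l g) (fun i => l (u i)) w h c
  rw [one_smul] at q1 q2
  rw [q1, ← hD, sub_self, n2_zero] at p1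
  rw [q2, M.n2_sub_comm (t • l g), ← hD, sub_self, n2_zero] at p2
  have hE := EE_lip (f := M.F1 x.1 u' z w') (g := M.F1 (l g) u' z w') (a := 64 * D)
    (b := 4 * D) (ph := M.Psi 112000 280 (l b) x.1 (fun i => l (u i)) w h c)
    (qh := M.Psi 112000 280 (l b) (l g) (fun i => l (u i)) w h c)
    (pl := M.Psi 280 112000 (l b) x.1 (fun i => l (u i)) w h c)
    (ql := M.Psi 280 112000 (l b) (l g) (fun i => l (u i)) w h c)
    (by rw [abs_le]; constructor <;> linarith) (by positivity) (by positivity) (by linarith)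
    (by linarith)
  rw [hEE g] at hE
  have hm : max (8 * (64 * D)) (4 * D) = 512 * D := by
    rw [max_eq_left (by linarith)]; ring
  rw [hm] at hE
  have h4 := GD_nonneg x.1 (fun i => l (u i)) w c
  linarith

end TwoModel

/-- The generic model. -/
theorem exists_model_two : ∃ M : TVN, M.EC' ∧ M.IsII1Factor ∧ M.Theta ≤ 0 := by
  classical
  obtain ⟨Λ, hgrp, u, hkms, hcount, hinf, hgen⟩ := exists_lambda
  obtain ⟨β, hβ, hβR⟩ := exists_base Λ
  -- enumeration of the codes
  obtain ⟨cod, hcod⟩ : ∃ cod : Λ → (Fin 5 → ℕ), Function.Surjective cod := by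
    obtain ⟨e, he⟩ := exists_surjective_nat (Fin 5 → ℕ)
    let f : ℕ ↪ Λ := Infinite.natEmbedding Λ
    refine ⟨e ∘ Function.invFun f, he.comp (Function.invFun_surjective f.injective)⟩
  haveI := countable_tpl (Λ ⊕ Fin 3)
  obtain ⟨R, μ, hμ, hbase, hT, hQ⟩ := exists_generic (B := Λ ⊕ Fin 3) (Qn := Λ × Λ) (S := Λ)
    (𝒯 := Tpl (Λ ⊕ Fin 3)) (I := ℕ) β hβ (by
      intro R
      obtain ⟨M, v, hv, hlaw, -⟩ := (hβR R).1.exists_tvn
      refine ⟨M.law (Sum.elim v (fun _ => 0)), isPosLaw_law ?_, ?_⟩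
      · rintro (j | j)
        · exact hv j
        · simp
      · rw [← hlaw]
        funext w
        unfold base law
        rw [ev_map]; rfl)
    (fun t => t.task) (fun q i => qTask (Sum.inl q.2) (cod q.1) i)
  obtain ⟨M, v, hv, hlaw, hGen⟩ := hμ.exists_tvn
  subst hlaw
  have hEC : M.EC' := ec' hv hGen hT
  have hdense := dense_letters hv hGen hT
  -- the base elements
  obtain ⟨-, hβM⟩ := hβR R
  obtain ⟨hunit, hmul, hone, horth, hf, hbits⟩ := hβM M (fun j => v (.inl j)) (by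
    intro w
    have := congrFun hbase w
    rw [← this]
    unfold base law
    rw [ev_map]; rfl)
  set l : Λ → M := fun g => v (.inl (.inl g)) with hl
  set w : M := v (.inl (.inr 0)) with hw
  set h : M := v (.inl (.inr 1)) with hh
  set c : M := v (.inl (.inr 2)) with hc
  have hcopy : Copy M l := ⟨fun g => hunit _, hmul, hone, horth⟩
  have T : TwoModel Λ u M l w h c R := by
    refine ⟨hEC, hkms, hgen, hcopy, hv _, hv _, hv _, hf, fun b x s s' => ?_⟩
    unfold gh
    have := hbits b x s s' _ rfl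
    rw [hl, hw, hh, hc]
    simp only
    rw [this]
    split_ifs
    · simp
    · norm_num
  refine ⟨M, hEC, ⟨hEC.centre_trivial, infinite_dim_of_copy hcopy⟩, ?_⟩
  refine (Theta_le (u := fun i => l (u i)) (fun i => hcopy.norm_le _) T.hw T.hh T.hc).trans ?_
  refine thA_le fun u' z w' hu' hz hw' => le_of_forall_pos_le_add fun ε hε => ?_
  -- approximate the code by letters
  choose j hj using fun i => hdense (u' i) (hu' i) (ε / 10000000) (by positivity)
  obtain ⟨j3, hj3⟩ := hdense z hz (ε / 10000000) (by positivity)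
  obtain ⟨j4, hj4⟩ := hdense w' hw' (ε / 10000000) (by positivity)
  obtain ⟨b, hb⟩ := hcod ![j 0, j 1, j 2, j3, j4]
  set k : Fin 5 → M := fun i => v (.inr (cod b i)) with hk
  have hk0 : k 0 = v (.inr (j 0)) := by rw [hk]; simp [hb]
  have hk1 : k 1 = v (.inr (j 1)) := by rw [hk]; simp [hb]
  have hk2 : k 2 = v (.inr (j 2)) := by rw [hk]; simp [hb]
  have hk3 : k 3 = v (.inr j3) := by rw [hk]; simp [hb]
  have hk4 : k 4 = v (.inr j4) := by rw [hk]; simp [hb]
  have hkn : ∀ i, ‖k i‖ ≤ 1 := fun i => hv _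
  have hcl := thC_lip (M := M) (u₁ := fun i => l (u i)) (u₂ := fun i => l (u i)) (w₁ := w)
    (w₂ := w) (h₁ := h) (h₂ := h) (c₁ := c) (c₂ := c) (v₁ := u') (v₂ := ![k 0, k 1, k 2])
    (z₁ := z) (z₂ := k 3) (y₁ := w') (y₂ := k 4) T.hw T.hw T.hh T.hh T.hc T.hc hz (hkn 3) hw'
    (hkn 4)
  have hdp : M.dPar (fun i => l (u i)) (fun i => l (u i)) w w h h c c = 0 := by
    unfold dPar; simp [n2_zero]
  have hdc : M.dCod u' ![k 0, k 1, k 2] z (k 3) w' (k 4) ≤ 5 * (ε / 10000000) := by
    unfold dCod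
    rw [Fin.sum_univ_three]
    have e0 := hj 0
    have e1 := hj 1
    have e2 := hj 2
    rw [← hk0] at e0
    rw [← hk1] at e1
    rw [← hk2] at e2
    rw [← hk3] at hj3
    rw [← hk4] at hj4
    simp only [Matrix.cons_val_zero, Matrix.cons_val_one, Matrix.cons_val]
    linarith
  rw [hdp] at hcl
  have hmain : M.thC (fun i => l (u i)) w h c ![k 0, k 1, k 2] (k 3) (k 4) ≤ 0 := by
    refine (thC_le _ _ _ _ _ _ _ (hcopy.norm_le b)).trans
      (T.thB_le (hkn 3) (hkn 4) b fun g => ?_)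
    -- values of the theta function
    have hval : ∀ (v' : (Λ ⊕ Fin 3) ⊕ ℕ → M) (i N : ℕ),
        (∀ j, v' (.inr (cod b j)) = k j) → v' (.inl (.inl g)) = l g →
        thLaw (pull (asg (Sum.inl g) (cod b) i N) (M.law v')) =
          M.cm (k 4) (l g * (v' (.inr i) * k 3 * star (v' (.inr i)))) +
          2 * M.n2 (1 - star (v' (.inr i)) * v' (.inr i)) +
          12 * M.gapT (v' (.inr i)) ![k 0, k 1, k 2] (v' (.inr N)) := by
      intro v' i N h1 h2
      rw [pull_law, thLaw_law]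
      have a0 : (v' ∘ asg (Sum.inl g) (cod b) i N) 0 = v' (.inr i) := rfl
      have a1 : (v' ∘ asg (Sum.inl g) (cod b) i N) 1 = v' (.inr N) := rfl
      have a2 : (v' ∘ asg (Sum.inl g) (cod b) i N) 2 = k 4 := h1 4
      have a3 : (v' ∘ asg (Sum.inl g) (cod b) i N) 3 = k 3 := h1 3
      have a4 : (v' ∘ asg (Sum.inl g) (cod b) i N) 4 = k 0 := h1 0
      have a5 : (v' ∘ asg (Sum.inl g) (cod b) i N) 5 = k 1 := h1 1
      have a6 : (v' ∘ asg (Sum.inl g) (cod b) i N) 6 = k 2 := h1 2
      have a7 : (v' ∘ asg (Sum.inl g) (cod b) i N) 7 = l g := h2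
      rw [a0, a1, a2, a3, a4, a5, a6, a7]
    rcases hQ (b, g) with ⟨hR, i, N, hN, hforb⟩ | ⟨hR, hreal⟩
    · left
      refine ⟨hR, ?_⟩
      have hNb : ∀ j, cod b j < N := by
        intro j
        have h1 := Finset.single_le_sum (f := fun j => cod b j + 1) (fun _ _ => Nat.zero_le _)
          (Finset.mem_univ j)
        have h2 : (i + 1) + ∑ j, (cod b j + 1) ≤ N := hN
        omega
      have hNi : i < N := by
        have h2 : (i + 1) + ∑ j, (cod b j + 1) ≤ N := hN
        omega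
      have hbound : M.FT (l g) ![k 0, k 1, k 2] (k 3) (k 4) (v (.inr i)) ≤ 1 / 64 := by
        unfold FT
        set A := M.cm (k 4) (l g * (v (.inr i) * k 3 * star (v (.inr i)))) +
          2 * M.n2 (1 - star (v (.inr i)) * v (.inr i)) with hA
        have hy : ∀ y : M, ‖y‖ ≤ 1 → A + 12 * M.gapT (v (.inr i)) ![k 0, k 1, k 2] y ≤ 1 / 64 := by
          intro y hy
          obtain ⟨v', hv', hag, h1, h2, h3⟩ := exists_replace hv N y hy
          have h4 := hforb (M.law v') (isPosLaw_law hv') hag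
          have h5 : ¬ (1 / 64 ≤ thLaw (pull (asg (Sum.inl g) (cod b) i N) (M.law v'))) := h4
          rw [hval v' i N (fun j => h3 _ (hNb j)) (h2 _), h1, h3 i hNi] at h5
          push Not at h5
          exact h5.le
        have h6 : M.gap (v (.inr i)) ![k 0, k 1, k 2] ≤ (1 / 64 - A) / 12 := by
          refine ciSup_le fun y => ?_
          have := hy y.1 y.2
          linarith
        linarith
      have h7 := F_le (l g) ![k 0, k 1, k 2] (k 3) (k 4) (hv (.inr i))
      exact (min_le_right _ _).trans (by linarith)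
    · right
      refine ⟨hR, le_min (by norm_num) ?_⟩
      have h8 : 1 / 64 ≤ M.F (l g) ![k 0, k 1, k 2] (k 3) (k 4) := by
        refine le_F fun y hy => le_of_forall_pos_le_add fun δ hδ => ?_
        obtain ⟨i, hi⟩ := hdense y hy (δ / 32) (by positivity)
        obtain ⟨N, hN, hVN⟩ := hreal i
        have h5 : 1 / 64 ≤ thLaw (pull (asg (Sum.inl g) (cod b) i N) (M.law v)) := hVN
        rw [hval v i N (fun j => rfl) rfl] at h5
        have h6 : M.gapT (v (.inr i)) ![k 0, k 1, k 2] (v (.inr N)) ≤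
            M.gap (v (.inr i)) ![k 0, k 1, k 2] :=
          le_ciSup (bdd_gapT _ _) ⟨v (.inr N), hv _⟩
        have h7 := FT_lip_v (M := M) (x := l g) (hcopy.norm_le g) ![k 0, k 1, k 2] (z := k 3)
          (w := k 4) (v := v (.inr i)) (v' := y) (hkn 3) (hkn 4) (hv _) hy
        rw [M.n2_sub_comm] at h7
        have h8 : M.FT (l g) ![k 0, k 1, k 2] (k 3) (k 4) (v (.inr i)) =
          M.cm (k 4) (l g * (v (.inr i) * k 3 * star (v (.inr i)))) +
          2 * M.n2 (1 - star (v (.inr i)) * v (.inr i)) +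
          12 * M.gap (v (.inr i)) ![k 0, k 1, k 2] := rfl
        linarith
      linarith
  linarith

end Pool.Agent.Lib.EcII
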