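import Pool.Agent.Lib.EcII.MOne
import Pool.Agent.Lib.EcII.MTwo

/-!
# `Theta` is bounded below in the model with diagonal codes
-/

open scoped ComplexOrder

noncomputable section

namespace Pool.Agent.Lib.EcII

open TVN Gen

section main

variable {M M' L : TVN} {Λ : Type} [Group Λ] {v : Fin 3 → Λ} (hv : KMS v)
  (hgen : Subgroup.closure (Set.range v) = ⊤)
  {ι : M →⋆ₐ[ℂ] M'} (hι : ∀ y, M'.tr (ι y) = M.tr y)
  {u : Fin 3 → M} {w h c : M} {x : Λ → Option (unitary M)} {l : Λ → M'} {z w' : M'}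
  (hC : CodeFor ι u w h c x l z w')
  {κ : M' →⋆ₐ[ℂ] L} (hκ : ∀ y, L.tr (κ y) = M'.tr y) (hL : L.EC') (hM : M.EC')
  (hw : ‖w‖ ≤ 1) (hh : ‖h‖ ≤ 1) (hc : ‖c‖ ≤ 1)

include hv hgen hι hC hκ hL hM hw hh hc

/-- **The diagonal argument.** -/
theorem thC_ge : (1 / 100000000000 : ℝ) ≤ L.thC (fun i => κ (ι (u i))) (κ (ι w)) (κ (ι h))
    (κ (ι c)) (fun i => κ (l (v i))) (κ z) (κ w') := by
  by_contra hlt
  push Not at hlt
  obtain ⟨⟨b, hb⟩, hB⟩ := exists_lt_of_ciInf_lt hlt
  simp only at hB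
  let I : Inc M L := ⟨κ.comp ι, fun y => by rw [StarAlgHom.comp_apply, hκ, hι], hM, hL⟩
  have hIκ : ∀ y, I.κ y = κ (ι y) := fun y => rfl
  simp only [← hIκ] at hB
  -- consequences of the bound
  have hGb : 40000 * L.GD b (fun i => I.κ (u i)) (I.κ w) (I.κ c) < 1 / 100000000000 :=
    lt_of_le_of_lt (le_max_left _ _) hB
  have hX : ∀ y : L, ‖y‖ ≤ 1 → EE (L.F1 y (fun i => κ (l (v i))) (κ z) (κ w'))
      (L.Psi 112000 280 b y (fun i => I.κ (u i)) (I.κ w) (I.κ h) (I.κ c))
      (L.Psi 280 112000 b y (fun i => I.κ (u i)) (I.κ w) (I.κ h) (I.κ c)) -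
      40000 * L.GD y (fun i => I.κ (u i)) (I.κ w) (I.κ c) < 1 / 100000000000 := by
    intro y hy
    refine lt_of_le_of_lt ?_ hB
    refine le_trans ?_ (le_max_right _ _)
    refine le_trans ?_ (le_ciSup (bdd_thX _ _ _ _ _ _ _ _) ⟨y, hy⟩)
    exact le_max_right _ _
  have hzn : ‖κ z‖ ≤ 1 := by rw [norm_map κ hκ]; exact hC.hz
  have hwn : ‖κ w'‖ ≤ 1 := by rw [norm_map κ hκ]; exact hC.hw
  have hG0 := GD_nonneg b (fun i => I.κ (u i)) (I.κ w) (I.κ c)
  -- a nearby unitary of the small algebra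
  obtain ⟨y, hy, hy1, hy2⟩ := I.exists_near u hw hc hb
  have hy3 : M.n2 (1 - star y * y) ≤ M.GD y u w c := by
    unfold GD
    have := gap_nonneg y u
    have := cm_nonneg c (y * w * star y)
    linarith
  obtain ⟨b', hb', hb'1⟩ := M.exists_unitary_near y hy (1 / 1000000000000000) (by norm_num)
  have hb'n : ‖b'‖ ≤ 1 := M.norm_le_one_of_unitary hb'
  have hd1 : M.n2 (y - b') ≤ 1 / 10000000 := by
    have h1 : M.n2 (y - b') ^ 2 ≤ (1 / 10000000 : ℝ) ^ 2 := by
      refine hb'1.trans ?_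
      norm_num
      linarith
    exact (abs_le_of_sq_le_sq' h1 (by norm_num)).2
  have hd2 : L.n2 (b - I.κ b') ≤ 2 / 10000000 := by
    have h1 := L.n2_tri b (I.κ y) (I.κ b')
    rw [← map_sub I.κ y b', n2_map I.κ I.tr] at h1
    linarith
  have hGb' : M.GD b' u w c ≤ 1 / 640000 := by
    have h1 := GD_lip hb'n hy u hw hc
    rw [M.n2_sub_comm] at h1
    linarith
  by_cases hcase : 7 / 8 ≤ L.F1 b (fun i => κ (l (v i))) (κ z) (κ w')
  · -- case A
    have h1 := hX b hb
    have h2 : 1 - L.Psi 280 112000 b b (fun i => I.κ (u i)) (I.κ w) (I.κ h) (I.κ c) ≤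
        EE (L.F1 b (fun i => κ (l (v i))) (κ z) (κ w'))
      (L.Psi 112000 280 b b (fun i => I.κ (u i)) (I.κ w) (I.κ h) (I.κ c))
      (L.Psi 280 112000 b b (fun i => I.κ (u i)) (I.κ w) (I.κ h) (I.κ c)) := by
      unfold EE
      refine le_trans ?_ (le_max_right _ _)
      rw [cut1_eq_one hcase]
      refine le_min ?_ le_rfl
      have := Psi_nonneg (M := L) (α := 280) (by norm_num) 112000 b b (fun i => I.κ (u i)) (I.κ w)
        (I.κ h) (I.κ c)
      linarith
    have h3 := Psi_lip_left (M := L) (α := 280) (β := 112000) (by norm_num) (by norm_num)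
      (b := b) (b' := I.κ b') (x := b) (x' := I.κ b') (u := fun i => I.κ (u i)) (w := I.κ w)
      (h := I.κ h) (c := I.κ c) hb (I.norm_le hb'n) hb (I.norm_le hb'n) (I.norm_le hw)
      (I.norm_le hh) (I.norm_le hc)
    have h4 := I.Psi_lo_le_mid (u := u) hw hh hc hb'n hb'n
    have h5 : b' ∈ YSet M u w h c := by
      refine ⟨hb', hGb', ?_⟩
      linarith
    obtain ⟨g, b'', hg, hd3⟩ := hC.dense b' h5 (1 / 1000) (by norm_num)
    have h6 := F_eq_zero hv hgen hC hκ hg
    have h7 : L.F1 (κ (ι (b'' : M))) (fun i => κ (l (v i))) (κ z) (κ w') = 0 := by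
      unfold F1; rw [h6, mul_zero]; exact min_eq_right zero_le_one
    have hb''n : ‖(b'' : M)‖ ≤ 1 := M.norm_le_one_of_unitary b''.2
    have h8 := F1_lip (M := L) (x := b) (x' := I.κ b'') (u := fun i => κ (l (v i)))
      (u' := fun i => κ (l (v i))) (z := κ z) (z' := κ z) (w := κ w') (w' := κ w') hb
      (I.norm_le hb''n) hzn hwn
    simp only [sub_self, n2_zero, mul_zero, add_zero, Finset.sum_const_zero] at h8
    rw [hIκ, h7, ← hIκ] at h8
    have h9 := L.n2_tri b (I.κ b') (I.κ b'')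
    rw [← map_sub I.κ b' b'', n2_map I.κ I.tr] at h9
    linarith
  · -- case B
    push Not at hcase
    have h1 := F1_lip (M := L) (x := I.κ b') (x' := b) (u := fun i => κ (l (v i)))
      (u' := fun i => κ (l (v i))) (z := κ z) (z' := κ z) (w := κ w') (w' := κ w')
      (I.norm_le hb'n) hb hzn hwn
    simp only [sub_self, n2_zero, mul_zero, add_zero, Finset.sum_const_zero] at h1
    rw [L.n2_sub_comm] at h1
    have h2 : L.F (I.κ b') (fun i => κ (l (v i))) (κ z) (κ w') < 3 / 100 := by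
      have h3 : L.F1 (I.κ b') (fun i => κ (l (v i))) (κ z) (κ w') < 9 / 10 := by linarith
      unfold F1 at h3
      rcases min_lt_iff.1 h3 with h4 | h4
      · norm_num at h4
      · linarith
    obtain ⟨g, hg⟩ : ∃ g, 1 - 1 / 2000 < ovl M (x g) b' := by
      by_contra hno
      push Not at hno
      have h3 := le_F_of_ovl (v := v) hC hκ hL (y := ⟨b', hb'⟩) (Q := 1 - 1 / 2000) (by norm_num)
        (by norm_num) hno
      have h4 : (3 / 100 : ℝ) ≤ √(2 * (1 - (1 - 1 / 2000))) := by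
        apply Real.le_sqrt_of_sq_le
        norm_num
      have h5 : L.F (κ (ι b')) (fun i => κ (l (v i))) (κ z) (κ w') < 3 / 100 := h2
      have h6 : √(2 * (1 - (1 - 1 / 2000))) ≤
        L.F (κ (ι b')) (fun i => κ (l (v i))) (κ z) (κ w') := h3
      linarith
    obtain ⟨b'', hb''⟩ : ∃ b'', x g = some b'' := by
      cases hxg : x g with
      | none =>
        rw [hxg] at hg
        simp only [ovl, Option.elim_none] at hg
        norm_num at hg
      | some b'' => exact ⟨b'', rfl⟩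
    rw [hb''] at hg
    simp only [ovl, Option.elim_some] at hg
    have hb''n : ‖(b'' : M)‖ ≤ 1 := M.norm_le_one_of_unitary b''.2
    set τ := M.tr (star b' * (b'' : M)) with hτ
    set p := ‖τ‖ with hp
    have hp0 : 0 ≤ p := norm_nonneg _
    have hp1 : p ≤ 1 := by
      have := M.cs b' b''
      rw [M.n2_of_unitary hb', M.n2_of_unitary b''.2] at this
      linarith
    have hp2 : 1 - 1 / 2000 < p := by nlinarith
    have hppos : 0 < p := by linarith
    set t : ℂ := star τ / p with ht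
    have htn : ‖t‖ = 1 := by
      rw [ht, norm_div, norm_star, ← hp, Complex.norm_real, Real.norm_of_nonneg hp0,
        div_self hppos.ne']
    have hd3 : M.n2 (b' - t • (b'' : M)) ≤ 32 / 1000 := by
      have e1 : M.n2 (b' - t • (b'' : M)) ^ 2 = 2 - 2 * p := by
        rw [M.n2_sub_sq, M.n2_smul, htn, M.n2_of_unitary hb', M.n2_of_unitary b''.2,
          mul_smul_comm, map_smul, ← hτ, smul_eq_mul, ht]
        have e2 : star τ / (p : ℂ) * τ = ((p : ℝ) : ℂ) := by
          rw [div_mul_eq_mul_div, Complex.star_def, ← Complex.normSq_eq_conj_mul_self,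
            Complex.normSq_eq_norm_sq, ← hp, ← Complex.ofReal_div]
          congr 1
          field_simp
        rw [e2, Complex.ofReal_re]
        ring
      have e3 : M.n2 (b' - t • (b'' : M)) ^ 2 ≤ (32 / 1000 : ℝ) ^ 2 := by
        rw [e1]; norm_num; linarith
      exact (abs_le_of_sq_le_sq' e3 (by norm_num)).2
    obtain ⟨-, hGb'', hPb''⟩ := hC.sub g b'' hb''
    have h5 := I.Psi_mid_le_hi (u := u) hw hh hc hb''n hb''n
    have h6 := F_eq_zero hv hgen hC hκ hb''
    have h7 : L.F1 (I.κ (b'' : M)) (fun i => κ (l (v i))) (κ z) (κ w') = 0 := by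
      rw [hIκ]
      unfold F1; rw [h6, mul_zero]; exact min_eq_right zero_le_one
    have h8 := hX (I.κ (b'' : M)) (I.norm_le hb''n)
    rw [h7, I.ecM.GD_map I.κ I.tr] at h8
    have h9 : L.Psi 112000 280 b (I.κ (b'' : M)) (fun i => I.κ (u i)) (I.κ w) (I.κ h) (I.κ c) ≤
        EE 0 (L.Psi 112000 280 b (I.κ (b'' : M)) (fun i => I.κ (u i)) (I.κ w) (I.κ h) (I.κ c))
        (L.Psi 280 112000 b (I.κ (b'' : M)) (fun i => I.κ (u i)) (I.κ w) (I.κ h) (I.κ c)) := by
      unfold EE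
      refine le_trans ?_ (le_max_left _ _)
      rw [cut0_eq_one (by norm_num)]
      exact le_min (Psi_le_one _ _ _ _ _ _ _ _) le_rfl
    have htb : ‖t • I.κ (b'' : M)‖ ≤ 1 := by
      rw [norm_smul, htn, one_mul]; exact I.norm_le hb''n
    have h10 := Psi_lip_left (M := L) (α := 112000) (β := 280) (by norm_num) (by norm_num)
      (b := t • I.κ (b'' : M)) (b' := b) (x := I.κ (b'' : M)) (x' := I.κ (b'' : M))
      (u := fun i => I.κ (u i)) (w := I.κ w) (h := I.κ h) (c := I.κ c) htb hb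
      (I.norm_le hb''n) (I.norm_le hb''n) (I.norm_le hw) (I.norm_le hh) (I.norm_le hc)
    have h11 := Psi_smul (M := L) 112000 280 t 1 htn (by simp) (I.κ (b'' : M)) (I.κ (b'' : M))
      (fun i => I.κ (u i)) (I.κ w) (I.κ h) (I.κ c)
    rw [one_smul] at h11
    rw [h11, sub_self, n2_zero] at h10
    have h12 : L.n2 (t • I.κ (b'' : M) - b) ≤ 2 / 10000000 + 32 / 1000 := by
      have e1 := L.n2_tri (t • I.κ (b'' : M)) (I.κ b') b
      have e2 : L.n2 (t • I.κ (b'' : M) - I.κ b') = M.n2 (b' - t • (b'' : M)) := by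
        rw [← map_smul, ← map_sub, n2_map I.κ I.tr, M.n2_sub_comm]
      rw [e2, L.n2_sub_comm (I.κ b') b] at e1
      linarith
    linarith

end main

/-- every countable family of contractions embeds in a generic algebra -/
theorem exists_stage_zero : ∃ S : Stg, ∀ x : S.M, ‖x‖ ≤ 1 → ∀ ε > 0, ∃ i,
    S.M.n2 (x - S.v (0, i)) < ε := by
  classical
  obtain ⟨C, -, -⟩ := exists_group_tvn (G := Unit) (fun _ => 1) rfl (fun _ _ => rfl) (by
    intro s c
    have : ∑ a ∈ s, ∑ b ∈ s, star (c a) * c b * 1 = star (∑ a ∈ s, c a) * ∑ a ∈ s, c a := by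
      rw [star_sum, Finset.sum_mul_sum]
      simp
    rw [this]
    exact star_mul_self_nonneg _)
  haveI := countable_tpl Empty
  obtain ⟨R, μ, hμ, hbase, hT, -⟩ := exists_generic (B := Empty) (Qn := Empty)
    (S := ℕ) (𝒯 := Tpl Empty) (I := Unit) (fun _ => C.law (fun e : Empty => e.elim))
    continuous_const (by
      intro R
      refine ⟨C.law (fun _ => 0), isPosLaw_law (by simp), ?_⟩
      funext w
      unfold base law
      rw [ev_map]
      congr 2
      funext e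
      exact e.elim)
    (fun t => t.task) (fun q _ => q.elim)
  obtain ⟨M', v', hv', hlaw, hGen⟩ := hμ.exists_tvn
  subst hlaw
  have hEC : M'.EC' := ec' hv' hGen hT
  have hdense := dense_letters hv' hGen hT
  refine ⟨⟨M', fun j => v' (.inr j.2), fun j => hv' _, hEC, fun x hx ε hε => ?_⟩,
    fun x hx ε hε => hdense x hx ε hε⟩
  obtain ⟨i, hi⟩ := hdense x hx ε hε
  exact ⟨(0, i), hi⟩

/-- The model with diagonal codes. -/
theorem exists_model_one : ∃ L : TVN, L.EC' ∧ L.IsII1Factor ∧ 1 / 1000000000000 ≤ L.Theta := by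
  classical
  obtain ⟨Λ, hgrp, g, hkms, hcount, hinf, hgen⟩ := exists_lambda
  -- bookkeeping
  obtain ⟨e, he⟩ : ∃ e : ℕ → (Fin 6 → ℕ × ℕ), ∀ τ n, ∃ s, n ≤ s ∧ e s = τ := by
    obtain ⟨f, hf⟩ := exists_surjective_nat (ℕ × (Fin 6 → ℕ × ℕ))
    refine ⟨fun s => (f s).2, fun τ n => ?_⟩
    choose k hk using fun m : ℕ => hf (m, τ)
    have hinj : Function.Injective k := by
      intro a b hab
      have h1 := hk a
      rw [hab, hk b] at h1
      exact (Prod.ext_iff.1 h1).1.symm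
    obtain ⟨m, hm⟩ : ∃ m, n ≤ k m := by
      by_contra hno
      push Not at hno
      have : Set.Finite (Set.range k) := (Set.finite_Iio n).subset (by
        rintro _ ⟨m, rfl⟩; exact hno m)
      exact (Set.infinite_range_of_injective hinj) this
    exact ⟨k m, hm, by show (f (k m)).2 = τ; rw [hk m]⟩
  obtain ⟨S₀, hS₀⟩ := exists_stage_zero
  choose nS nι nx nl nz nw hnι hnv hnd hnC using
    fun (S : Stg) (s : ℕ) (τ : Fin 6 → ℕ × ℕ) => exists_step (Λ := Λ) S s
      ![S.v (τ 0), S.v (τ 1), S.v (τ 2)] (S.v (τ 3)) (S.v (τ 4)) (S.v (τ 5))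
  let st : ℕ → Stg := fun n => Nat.rec S₀ (fun s S => nS S s (e s)) n
  have hst : ∀ s, st (s + 1) = nS (st s) s (e s) := fun s => rfl
  let ιs : ∀ s, (st s).M →⋆ₐ[ℂ] (st (s + 1)).M := fun s => nι (st s) s (e s)
  have hιs : ∀ s x, (st (s + 1)).M.tr (ιs s x) = (st s).M.tr x := fun s x => hnι (st s) s (e s) x
  obtain ⟨L, κ, hκ, hκι, hd⟩ := exists_dirlim (fun s => (st s).M) ιs hιs
  have hEC : L.EC' := ec'_of_dirlim hκ hκι hd hιs (fun t => (st t).ec)
  -- names
  have hname : ∀ (t i s : ℕ), t ≤ s → κ s ((st s).v (t, i)) = κ t ((st t).v (t, i)) := by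
    intro t i s hts
    induction s, hts using Nat.le_induction with
    | base => rfl
    | succ s hs ih =>
      have h1 : (st (s + 1)).v (t, i) = ιs s ((st s).v (t, i)) := hnv (st s) s (e s) t i hs
      rw [h1, hκι, ih]
  have hdn : ∀ x : L, ‖x‖ ≤ 1 → ∀ ε > 0, ∃ τ : ℕ × ℕ,
      L.n2 (x - κ τ.1 ((st τ.1).v τ)) < ε := by
    intro x hx ε hε
    obtain ⟨t, y, hy, hxy⟩ := hd x hx (ε / 2) (by positivity)
    obtain ⟨i, hi⟩ := hnd (st t) t (e t) (ιs t y) (by rw [norm_map (ιs t) (hιs t)]; exact hy)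
      (ε / 2) (by positivity)
    refine ⟨(t + 1, i), ?_⟩
    have h1 := L.n2_tri x (κ t y) (κ (t + 1) ((st (t + 1)).v (t + 1, i)))
    have h2 : L.n2 (κ t y - κ (t + 1) ((st (t + 1)).v (t + 1, i))) < ε / 2 := by
      rw [← hκι t y, ← map_sub, n2_map (κ (t + 1)) (hκ (t + 1))]
      exact hi
    linarith
  -- the bound
  have hTheta : 1 / 1000000000000 ≤ L.Theta := by
    by_contra hlt
    push Not at hlt
    obtain ⟨u, w, h, c, hu, hw, hh, hc, hA⟩ := exists_of_Theta_lt hlt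
    let a : Fin 6 → L := ![u 0, u 1, u 2, w, h, c]
    have ha : ∀ k, ‖a k‖ ≤ 1 := by
      intro k
      fin_cases k
      · exact hu 0
      · exact hu 1
      · exact hu 2
      · exact hw
      · exact hh
      · exact hc
    choose τ hτ using fun k => hdn (a k) (ha k) (1 / 1000000000000000000000) (by norm_num)
    obtain ⟨n, hn⟩ : ∃ n, ∀ k, (τ k).1 ≤ n := by
      refine ⟨Finset.univ.sup fun k => (τ k).1, fun k => ?_⟩
      exact Finset.le_sup (f := fun k => (τ k).1) (Finset.mem_univ k)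
    obtain ⟨s, hs, hes⟩ := he τ n
    subst hes
    let b : Fin 6 → (st s).M := fun k => (st s).v ((e s) k)
    have hb : ∀ k, ‖b k‖ ≤ 1 := fun k => (st s).hv _
    have hκb : ∀ k, κ s (b k) = κ ((e s) k).1 ((st ((e s) k).1).v ((e s) k)) := fun k =>
      hname ((e s) k).1 ((e s) k).2 s ((hn k).trans hs)
    have hC := hnC (st s) s (e s)
    have hlow := thC_ge (L := L) hkms hgen (hιs s) hC (κ := κ (s + 1)) (hκ (s + 1)) hEC (st s).ec
      ((st s).hv _) ((st s).hv _) ((st s).hv _)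
    have hκs : ∀ y, κ (s + 1) (ιs s y) = κ s y := fun y => hκι s y
    simp only [hκs] at hlow
    -- compare
    have hz : ‖κ (s + 1) (nz (st s) s (e s))‖ ≤ 1 := by
      rw [norm_map (κ (s + 1)) (hκ (s + 1))]; exact hC.hz
    have hw' : ‖κ (s + 1) (nw (st s) s (e s))‖ ≤ 1 := by
      rw [norm_map (κ (s + 1)) (hκ (s + 1))]; exact hC.hw
    have hu' : ∀ i, ‖κ (s + 1) (nl (st s) s (e s) (g i))‖ ≤ 1 := by
      intro i
      rw [norm_map (κ (s + 1)) (hκ (s + 1))]; exact hC.copy.norm_le _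
    have hκn : ∀ k, ‖κ s (b k)‖ ≤ 1 := by
      intro k
      rw [norm_map (κ s) (hκ s)]; exact hb k
    have hlip := thC_lip (M := L) (u₁ := fun i => κ s (![(st s).v ((e s) 0), (st s).v ((e s) 1),
        (st s).v ((e s) 2)] i)) (u₂ := u) (w₁ := κ s (b 3)) (w₂ := w) (h₁ := κ s (b 4)) (h₂ := h)
      (c₁ := κ s (b 5)) (c₂ := c) (v₁ := fun i => κ (s + 1) (nl (st s) s (e s) (g i)))
      (v₂ := fun i => κ (s + 1) (nl (st s) s (e s) (g i))) (z₁ := κ (s + 1) (nz (st s) s (e s)))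
      (z₂ := κ (s + 1) (nz (st s) s (e s))) (y₁ := κ (s + 1) (nw (st s) s (e s)))
      (y₂ := κ (s + 1) (nw (st s) s (e s))) (hκn 3) hw (hκn 4) hh (hκn 5) hc hz hz hw' hw'
    have hdc : L.dCod (fun i => κ (s + 1) (nl (st s) s (e s) (g i)))
        (fun i => κ (s + 1) (nl (st s) s (e s) (g i))) (κ (s + 1) (nz (st s) s (e s)))
        (κ (s + 1) (nz (st s) s (e s))) (κ (s + 1) (nw (st s) s (e s))) (κ (s + 1) (nw (st s) s (e s))) = 0 := by
      unfold dCod; simp [n2_zero]
    have hdk : ∀ k, L.n2 (κ s (b k) - a k) ≤ 1 / 1000000000000000000000 := by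
      intro k
      rw [hκb k, L.n2_sub_comm]
      exact (hτ k).le
    have hdp : L.dPar (fun i => κ s (![(st s).v ((e s) 0), (st s).v ((e s) 1), (st s).v ((e s) 2)] i)) u
        (κ s (b 3)) w (κ s (b 4)) h (κ s (b 5)) c ≤ 6 / 1000000000000000000000 := by
      unfold dPar
      rw [Fin.sum_univ_three]
      have d0 : L.n2 (κ s ((st s).v ((e s) 0)) - u 0) ≤ 1 / 1000000000000000000000 := hdk 0
      have d1 : L.n2 (κ s ((st s).v ((e s) 1)) - u 1) ≤ 1 / 1000000000000000000000 := hdk 1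
      have d2 : L.n2 (κ s ((st s).v ((e s) 2)) - u 2) ≤ 1 / 1000000000000000000000 := hdk 2
      have d3 : L.n2 (κ s (b 3) - w) ≤ 1 / 1000000000000000000000 := hdk 3
      have d4 : L.n2 (κ s (b 4) - h) ≤ 1 / 1000000000000000000000 := hdk 4
      have d5 : L.n2 (κ s (b 5) - c) ≤ 1 / 1000000000000000000000 := hdk 5
      simp only [Matrix.cons_val_zero, Matrix.cons_val_one, Matrix.cons_val]
      linarith
    have hup := le_thA (M := L) (u := u) (w := w) (h := h) (c := c)
      (u' := fun i => κ (s + 1) (nl (st s) s (e s) (g i))) (z := κ (s + 1) (nz (st s) s (e s)))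
      (w' := κ (s + 1) (nw (st s) s (e s))) hu' hz hw'
    rw [hdc] at hlip
    have hlow' : 1 / 100000000000 ≤ L.thC (fun i => κ s (![(st s).v ((e s) 0), (st s).v ((e s) 1),
        (st s).v ((e s) 2)] i)) (κ s (b 3)) (κ s (b 4)) (κ s (b 5))
        (fun i => κ (s + 1) (nl (st s) s (e s) (g i))) (κ (s + 1) (nz (st s) s (e s)))
        (κ (s + 1) (nw (st s) s (e s))) := hlow
    linarith
  refine ⟨L, hEC, ⟨hEC.centre_trivial, ?_⟩, hTheta⟩
  exact infinite_dim_of_copy (Copy.map (κ 1) (hκ 1) (hnC (st 0) 0 (e 0)).copy)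

end Pool.Agent.Lib.EcII
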