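import Pool.Agent.Lib.EcII.Defs
import Pool.Agent.Lib.EcII.Funs

/-!
# The function `Theta` is the value of a sentence
-/

noncomputable section

namespace Pool.Agent.Lib.EcII

/-- Renaming of variables in a term. -/
def Term.rename {n m : ℕ} (f : Fin n → Fin m) : Term n → Term m
  | .var i => .var (f i)
  | .one => .one
  | .add s t => .add (s.rename f) (t.rename f)
  | .mul s t => .mul (s.rename f) (t.rename f)
  | .star t => .star (t.rename f)
  | .smul c t => .smul c (t.rename f)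

theorem Term.eval_rename (M : TVN) {n m : ℕ} (f : Fin n → Fin m) (t : Term n) (v : Fin m → M) :
    (t.rename f).eval M v = t.eval M (fun i => v (f i)) := by
  induction t with
  | var i => rfl
  | one => rfl
  | add s t hs ht => simp only [Term.rename, Term.eval, hs, ht]
  | mul s t hs ht => simp only [Term.rename, Term.eval, hs, ht]
  | star t ht => simp only [Term.rename, Term.eval, ht]
  | smul c t ht => simp only [Term.rename, Term.eval, ht]

/-- A family of operations is given by a term. -/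
def TDef {n : ℕ} (T : ∀ M : TVN, (Fin n → M) → M) : Prop :=
  ∃ t : Term n, ∀ M v, t.eval M v = T M v

/-- A family of real valued functions is given by a formula. -/
def FDef {n : ℕ} (Φ : ∀ M : TVN, (Fin n → M) → ℝ) : Prop :=
  ∃ φ : Formula n, ∀ M v, φ.eval M v = Φ M v

namespace TDef

variable {n : ℕ} {S T : ∀ M : TVN, (Fin n → M) → M}

theorem var (i : Fin n) : TDef (fun _ v => v i) := ⟨.var i, fun _ _ => rfl⟩

theorem one : TDef (n := n) (fun _ _ => 1) := ⟨.one, fun _ _ => rfl⟩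

theorem mul (hS : TDef S) (hT : TDef T) : TDef (fun M v => S M v * T M v) := by
  obtain ⟨s, hs⟩ := hS
  obtain ⟨t, ht⟩ := hT
  exact ⟨.mul s t, fun M v => by rw [Term.eval, hs, ht]⟩

theorem star (hT : TDef T) : TDef (fun M v => Star.star (T M v)) := by
  obtain ⟨t, ht⟩ := hT
  exact ⟨.star t, fun M v => by rw [Term.eval, ht]⟩

/-- weakening -/
theorem wk (hT : TDef T) : TDef (n := n + 1) (fun M v => T M (fun i => v i.succ)) := by
  obtain ⟨t, ht⟩ := hT
  exact ⟨t.rename Fin.succ, fun M v => by rw [Term.eval_rename, ht]⟩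

end TDef

namespace FDef

variable {n : ℕ}

theorem dist {S T : ∀ M : TVN, (Fin n → M) → M} (hS : TDef S) (hT : TDef T) :
    FDef (fun M v => M.n2 (S M v - T M v)) := by
  obtain ⟨s, hs⟩ := hS
  obtain ⟨t, ht⟩ := hT
  exact ⟨.dist s t, fun M v => by rw [Formula.eval, hs, ht]⟩

theorem cm {S T : ∀ M : TVN, (Fin n → M) → M} (hS : TDef S) (hT : TDef T) :
    FDef (fun M v => M.cm (S M v) (T M v)) :=
  dist (hS.mul hT) (hT.mul hS)

theorem comp {k : ℕ} (g : (Fin k → ℝ) → ℝ) (hg : Continuous g)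
    {Φ : Fin k → ∀ M : TVN, (Fin n → M) → ℝ} (h : ∀ i, FDef (Φ i)) :
    FDef (fun M v => g (fun i => Φ i M v)) := by
  choose φ hφ using h
  refine ⟨.conn ⟨g, hg⟩ φ, fun M v => ?_⟩
  rw [Formula.eval]
  simp only [hφ, ContinuousMap.coe_mk]

theorem comp1 (g : ℝ → ℝ) (hg : Continuous g) {Φ : ∀ M : TVN, (Fin n → M) → ℝ} (h : FDef Φ) :
    FDef (fun M v => g (Φ M v)) :=
  comp (k := 1) (fun x => g (x 0)) (hg.comp (continuous_apply _)) (Φ := fun _ => Φ) (fun _ => h)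

theorem comp2 (g : ℝ → ℝ → ℝ) (hg : Continuous fun p : ℝ × ℝ => g p.1 p.2)
    {Φ Ψ : ∀ M : TVN, (Fin n → M) → ℝ} (h : FDef Φ) (h' : FDef Ψ) :
    FDef (fun M v => g (Φ M v) (Ψ M v)) := by
  have := comp (k := 2) (fun x => g (x 0) (x 1))
    (hg.comp (((continuous_apply 0).prodMk (continuous_apply 1)) :
      Continuous fun x : Fin 2 → ℝ => (x 0, x 1)))
    (Φ := ![Φ, Ψ]) (fun i => by fin_cases i <;> assumption)
  simpa using this

theorem add {Φ Ψ : ∀ M : TVN, (Fin n → M) → ℝ} (h : FDef Φ) (h' : FDef Ψ) :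
    FDef (fun M v => Φ M v + Ψ M v) :=
  comp2 (fun x y => x + y) (by fun_prop) h h'

theorem sub {Φ Ψ : ∀ M : TVN, (Fin n → M) → ℝ} (h : FDef Φ) (h' : FDef Ψ) :
    FDef (fun M v => Φ M v - Ψ M v) :=
  comp2 (fun x y => x - y) (by fun_prop) h h'

theorem max {Φ Ψ : ∀ M : TVN, (Fin n → M) → ℝ} (h : FDef Φ) (h' : FDef Ψ) :
    FDef (fun M v => Max.max (Φ M v) (Ψ M v)) :=
  comp2 (fun x y => Max.max x y) (by fun_prop) h h'

theorem min {Φ Ψ : ∀ M : TVN, (Fin n → M) → ℝ} (h : FDef Φ) (h' : FDef Ψ) :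
    FDef (fun M v => Min.min (Φ M v) (Ψ M v)) :=
  comp2 (fun x y => Min.min x y) (by fun_prop) h h'

theorem cmul (c : ℝ) {Φ : ∀ M : TVN, (Fin n → M) → ℝ} (h : FDef Φ) :
    FDef (fun M v => c * Φ M v) :=
  comp1 (fun x => c * x) (by fun_prop) h

theorem const (c : ℝ) : FDef (n := n) (fun _ _ => c) :=
  comp (k := 0) (fun _ => c) continuous_const (Φ := fun i => i.elim0) (fun i => i.elim0)

theorem iSup {Φ : ∀ M : TVN, (Fin (n + 1) → M) → ℝ} (h : FDef Φ) :
    FDef (fun M v => ⨆ x : M.Ball, Φ M (Fin.cons (α := fun _ => (M : Type)) x.1 v)) := by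
  obtain ⟨φ, hφ⟩ := h
  refine ⟨.sup 1 φ, fun M v => ?_⟩
  rw [Formula.eval]
  simp only [hφ]
  have e : ∀ x : M, ‖x‖ ≤ ((1 : ℕ) : ℝ) ↔ ‖x‖ ≤ 1 := fun x => by simp
  exact (Equiv.subtypeEquivRight e).iSup_congr (fun x => rfl)

theorem iInf {Φ : ∀ M : TVN, (Fin (n + 1) → M) → ℝ} (h : FDef Φ) :
    FDef (fun M v => ⨅ x : M.Ball, Φ M (Fin.cons (α := fun _ => (M : Type)) x.1 v)) := by
  obtain ⟨φ, hφ⟩ := h
  refine ⟨.inf 1 φ, fun M v => ?_⟩
  rw [Formula.eval]
  simp only [hφ]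
  have e : ∀ x : M, ‖x‖ ≤ ((1 : ℕ) : ℝ) ↔ ‖x‖ ≤ 1 := fun x => by simp
  exact (Equiv.subtypeEquivRight e).iInf_congr (fun x => rfl)

/-- quantification over the last variable with the other arguments kept -/
theorem iSup' {Φ : ∀ M : TVN, (Fin n → M) → M → ℝ}
    (h : FDef (n := n + 1) (fun M v => Φ M (fun i => v i.succ) (v 0))) :
    FDef (fun M v => ⨆ x : M.Ball, Φ M v x.1) :=
  iSup h

theorem iInf' {Φ : ∀ M : TVN, (Fin n → M) → M → ℝ}
    (h : FDef (n := n + 1) (fun M v => Φ M (fun i => v i.succ) (v 0))) :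
    FDef (fun M v => ⨅ x : M.Ball, Φ M v x.1) :=
  iInf h

variable {x b s s' w h c z w' y v0 : ∀ M : TVN, (Fin n → M) → M}
  {u u' : Fin 3 → ∀ M : TVN, (Fin n → M) → M}

theorem gap (hx : TDef x) (hu : ∀ i, TDef (u i)) :
    FDef (fun M v => M.gap (x M v) (fun i => u i M v)) := by
  refine iSup' (Φ := fun M v y => M.gapT (x M v) (fun i => u i M v) y) ?_
  unfold TVN.gapT
  simp only [Fin.sum_univ_three]
  exact (const 0).max ((cm hx.wk (TDef.var 0)).sub (cmul 200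
    (((cm (hu 0).wk (TDef.var 0)).add (cm (hu 1).wk (TDef.var 0))).add
      (cm (hu 2).wk (TDef.var 0)))))

theorem n2one (hx : TDef x) : FDef (fun M v => M.n2 (1 - star (x M v) * x M v)) :=
  dist TDef.one (hx.star.mul hx)

theorem GD (hx : TDef x) (hu : ∀ i, TDef (u i)) (hw : TDef w) (hc : TDef c) :
    FDef (fun M v => M.GD (x M v) (fun i => u i M v) (w M v) (c M v)) := by
  unfold TVN.GD
  exact ((n2one hx).add (gap hx hu)).add (cm hc ((hx.mul hw).mul hx.star))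

theorem gh (hb : TDef b) (hx : TDef x) (hs : TDef s) (hs' : TDef s') (hw : TDef w) (hh : TDef h)
    (hc : TDef c) :
    FDef (fun M v => M.gh (b M v) (x M v) (s M v) (s' M v) (w M v) (h M v) (c M v)) := by
  unfold TVN.gh
  have hy := (((((hb.mul hh).mul hx).mul hh).mul hs).mul hh).mul hs'
  exact (const 1).min (cm hc ((hy.mul hw).mul hy.star))

theorem psiS (α β : ℝ) (hb : TDef b) (hx : TDef x) (hu : ∀ i, TDef (u i)) (hw : TDef w)
    (hh : TDef h) (hc : TDef c) (hs : TDef s) :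
    FDef (fun M v => M.psiS α β (b M v) (x M v) (fun i => u i M v) (w M v) (h M v) (c M v)
      (s M v)) := by
  unfold TVN.psiS
  refine (cmul α (GD hs hu hw hc)).add (iSup' (Φ := fun M v s' =>
    M.psiT β (b M v) (x M v) (s M v) (fun i => u i M v) (w M v) (h M v) (c M v) s') ?_)
  unfold TVN.psiT
  exact (const 0).max ((gh hb.wk hx.wk hs.wk (TDef.var 0) hw.wk hh.wk hc.wk).sub
    (cmul β (GD (TDef.var 0) (fun i => (hu i).wk) hw.wk hc.wk)))

theorem Psi (α β : ℝ) (hb : TDef b) (hx : TDef x) (hu : ∀ i, TDef (u i)) (hw : TDef w)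
    (hh : TDef h) (hc : TDef c) :
    FDef (fun M v => M.Psi α β (b M v) (x M v) (fun i => u i M v) (w M v) (h M v) (c M v)) := by
  unfold TVN.Psi
  refine (const 1).min (iInf' (Φ := fun M v s =>
    M.psiS α β (b M v) (x M v) (fun i => u i M v) (w M v) (h M v) (c M v) s) ?_)
  exact psiS α β hb.wk hx.wk (fun i => (hu i).wk) hw.wk hh.wk hc.wk (TDef.var 0)

theorem F1 (hx : TDef x) (hu : ∀ i, TDef (u i)) (hz : TDef z) (hw : TDef w') :
    FDef (fun M v => M.F1 (x M v) (fun i => u i M v) (z M v) (w' M v)) := by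
  unfold TVN.F1
  refine (const 1).min (cmul 32 ?_)
  refine iInf' (Φ := fun M v y => M.FT (x M v) (fun i => u i M v) (z M v) (w' M v) y) ?_
  unfold TVN.FT
  exact ((cm hw.wk (hx.wk.mul (((TDef.var 0).mul hz.wk).mul (TDef.var 0).star))).add
    (cmul 2 (n2one (TDef.var 0)))).add (cmul 12 (gap (TDef.var 0) (fun i => (hu i).wk)))

theorem EE {f ph pl : ∀ M : TVN, (Fin n → M) → ℝ} (hf : FDef f) (hph : FDef ph) (hpl : FDef pl) :
    FDef (fun M v => EcII.EE (f M v) (ph M v) (pl M v)) := by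
  unfold EcII.EE
  refine ((comp1 cut0 ?_ hf).min hph).max ((comp1 cut1 ?_ hf).min ((const 1).sub hpl))
  · unfold cut0; fun_prop
  · unfold cut1; fun_prop

theorem thX (hu : ∀ i, TDef (u i)) (hw : TDef w) (hh : TDef h) (hc : TDef c)
    (hu' : ∀ i, TDef (u' i)) (hz : TDef z) (hw' : TDef w') (hb : TDef b) (hx : TDef x) :
    FDef (fun M v => M.thX (fun i => u i M v) (w M v) (h M v) (c M v) (fun i => u' i M v)
      (z M v) (w' M v) (b M v) (x M v)) := by
  unfold TVN.thX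
  exact (const 0).max ((EE (F1 hx hu' hz hw') (Psi _ _ hb hx hu hw hh hc)
    (Psi _ _ hb hx hu hw hh hc)).sub (cmul _ (GD hx hu hw hc)))

theorem thB (hu : ∀ i, TDef (u i)) (hw : TDef w) (hh : TDef h) (hc : TDef c)
    (hu' : ∀ i, TDef (u' i)) (hz : TDef z) (hw' : TDef w') (hb : TDef b) :
    FDef (fun M v => M.thB (fun i => u i M v) (w M v) (h M v) (c M v) (fun i => u' i M v)
      (z M v) (w' M v) (b M v)) := by
  unfold TVN.thB
  refine (cmul _ (GD hb hu hw hc)).max (iSup' (Φ := fun M v x => M.thX (fun i => u i M v) (w M v)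
    (h M v) (c M v) (fun i => u' i M v) (z M v) (w' M v) (b M v) x) ?_)
  exact thX (fun i => (hu i).wk) hw.wk hh.wk hc.wk (fun i => (hu' i).wk) hz.wk hw'.wk hb.wk
    (TDef.var 0)

theorem thC (hu : ∀ i, TDef (u i)) (hw : TDef w) (hh : TDef h) (hc : TDef c)
    (hu' : ∀ i, TDef (u' i)) (hz : TDef z) (hw' : TDef w') :
    FDef (fun M v => M.thC (fun i => u i M v) (w M v) (h M v) (c M v) (fun i => u' i M v)
      (z M v) (w' M v)) := by
  unfold TVN.thC
  refine iInf' (Φ := fun M v b => M.thB (fun i => u i M v) (w M v)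
    (h M v) (c M v) (fun i => u' i M v) (z M v) (w' M v) b) ?_
  exact thB (fun i => (hu i).wk) hw.wk hh.wk hc.wk (fun i => (hu' i).wk) hz.wk hw'.wk
    (TDef.var 0)

theorem vec3 (a b c : ∀ M : TVN, (Fin n → M) → M) (M : TVN) (v : Fin n → M) :
    (![a M v, b M v, c M v] : Fin 3 → M) =
      fun i => (![a, b, c] : Fin 3 → ∀ M : TVN, (Fin n → M) → M) i M v := by
  funext i
  fin_cases i <;> rfl

theorem tdef3 {a b c : ∀ M : TVN, (Fin n → M) → M} (ha : TDef a) (hb : TDef b) (hc : TDef c) :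
    ∀ i, TDef ((![a, b, c] : Fin 3 → ∀ M : TVN, (Fin n → M) → M) i) := by
  intro i
  fin_cases i
  · exact ha
  · exact hb
  · exact hc

theorem thA (hu : ∀ i, TDef (u i)) (hw : TDef w) (hh : TDef h) (hc : TDef c) :
    FDef (fun M v => M.thA (fun i => u i M v) (w M v) (h M v) (c M v)) := by
  unfold TVN.thA
  refine iSup' (Φ := fun M v u0 => ⨆ u1 : M.Ball, ⨆ u2 : M.Ball, ⨆ z : M.Ball, ⨆ w' : M.Ball,
    M.thC (fun i => u i M v) (w M v) (h M v) (c M v) ![u0, u1.1, u2.1] z w') ?_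
  refine iSup' (Φ := fun M v u1 => ⨆ u2 : M.Ball, ⨆ z : M.Ball, ⨆ w' : M.Ball,
    M.thC (fun i => u i M _) (w M _) (h M _) (c M _) ![v 0, u1, u2.1] z w') ?_
  refine iSup' (Φ := fun M v u2 => ⨆ z : M.Ball, ⨆ w' : M.Ball,
    M.thC (fun i => u i M _) (w M _) (h M _) (c M _) ![v 1, v 0, u2] z w') ?_
  refine iSup' (Φ := fun M v z => ⨆ w' : M.Ball,
    M.thC (fun i => u i M _) (w M _) (h M _) (c M _) ![v 2, v 1, v 0] z w') ?_
  refine iSup' (Φ := fun M v w' =>
    M.thC (fun i => u i M _) (w M _) (h M _) (c M _) ![v 3, v 2, v 1] (v 0) w') ?_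
  have := thC (n := n + 5) (fun i => (hu i).wk.wk.wk.wk.wk) hw.wk.wk.wk.wk.wk hh.wk.wk.wk.wk.wk
    hc.wk.wk.wk.wk.wk (u' := ![fun _ v => v 4, fun _ v => v 3, fun _ v => v 2])
    (tdef3 (TDef.var 4) (TDef.var 3) (TDef.var 2)) (TDef.var 1) (TDef.var 0)
  simp only [← vec3] at this
  exact this

end FDef

theorem exists_sentence :
    ∃ φ : Formula 0, ∀ M : TVN, φ.eval M (fun i => i.elim0) = M.Theta := by
  suffices h : FDef (n := 0) (fun M _ => M.Theta) by
    obtain ⟨φ, hφ⟩ := h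
    exact ⟨φ, fun M => hφ M _⟩
  unfold TVN.Theta
  refine FDef.iInf' (Φ := fun M v u0 => ⨅ u1 : M.Ball, ⨅ u2 : M.Ball, ⨅ w : M.Ball,
    ⨅ h : M.Ball, ⨅ c : M.Ball, M.thA ![u0, u1.1, u2.1] w h c) ?_
  refine FDef.iInf' (Φ := fun M v u1 => ⨅ u2 : M.Ball, ⨅ w : M.Ball,
    ⨅ h : M.Ball, ⨅ c : M.Ball, M.thA ![v 0, u1, u2.1] w h c) ?_
  refine FDef.iInf' (Φ := fun M v u2 => ⨅ w : M.Ball,
    ⨅ h : M.Ball, ⨅ c : M.Ball, M.thA ![v 1, v 0, u2] w h c) ?_
  refine FDef.iInf' (Φ := fun M v w => ⨅ h : M.Ball, ⨅ c : M.Ball,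
    M.thA ![v 2, v 1, v 0] w h c) ?_
  refine FDef.iInf' (Φ := fun M v h => ⨅ c : M.Ball,
    M.thA ![v 3, v 2, v 1] (v 0) h c) ?_
  refine FDef.iInf' (Φ := fun M v c => M.thA ![v 4, v 3, v 2] (v 1) (v 0) c) ?_
  have := FDef.thA (n := 6) (u := ![fun _ v => v 5, fun _ v => v 4, fun _ v => v 3])
    (FDef.tdef3 (TDef.var 5) (TDef.var 4) (TDef.var 3)) (TDef.var 2) (TDef.var 1) (TDef.var 0)
  simp only [← FDef.vec3] at this
  exact this

end Pool.Agent.Lib.EcII
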