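import Pool.Agent.Lib.EcII.Basic

/-!
# The commutant of the right operators of a standard form is a tracial von Neumann algebra
-/

open scoped ComplexOrder InnerProductSpace InnerProduct
open ContinuousLinearMap

noncomputable section

namespace Pool.Agent.Lib.EcII

/-- Left and right operators in standard form. -/
structure StdData (H : Type) [NormedAddCommGroup H] [InnerProductSpace ℂ H] [CompleteSpace H]
    (A : Type) where
  /-- left operators -/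
  l : A → H →L[ℂ] H
  /-- right operators -/
  r : A → H →L[ℂ] H
  /-- involution -/
  inv : A → A
  /-- trace vector -/
  Ω : H
  norm_Ω : ‖Ω‖ = 1
  hl : ∀ a, l (inv a) = star (l a)
  hr : ∀ a, r (inv a) = star (r a)
  comm : ∀ a b, l a * r b = r b * l a
  vac : ∀ a, l a Ω = r a Ω
  dense : DenseRange fun a => l a Ω

namespace StdData

variable {H : Type} [NormedAddCommGroup H] [InnerProductSpace ℂ H] [CompleteSpace H]
    {A : Type} (S : StdData H A)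

/-- the algebra of operators commuting with the right operators -/
def alg : StarSubalgebra ℂ (H →L[ℂ] H) := StarSubalgebra.centralizer ℂ (Set.range S.r)

theorem mem_alg {T : H →L[ℂ] H} : T ∈ S.alg ↔ ∀ a, T * S.r a = S.r a * T := by
  rw [alg, StarSubalgebra.mem_centralizer_iff]
  constructor
  · intro h a
    exact (h _ ⟨a, rfl⟩).1.symm
  · rintro h _ ⟨a, rfl⟩
    refine ⟨(h a).symm, ?_⟩
    rw [← S.hr]
    exact (h _).symm

theorem isClosed_alg : IsClosed (S.alg : Set (H →L[ℂ] H)) := by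
  rw [alg, StarSubalgebra.coe_centralizer]
  exact Set.isClosed_centralizer _

instance : IsClosed (S.alg : Set (H →L[ℂ] H)) := S.isClosed_alg

theorem l_mem (a : A) : S.l a ∈ S.alg := S.mem_alg.2 fun b => S.comm a b

theorem comm_apply {T : H →L[ℂ] H} (hT : T ∈ S.alg) (a : A) (x : H) :
    T (S.r a x) = S.r a (T x) := by
  have := S.mem_alg.1 hT a
  exact congrArg (fun f : H →L[ℂ] H => f x) this

theorem l_r_apply (a b : A) (x : H) : S.l a (S.r b x) = S.r b (S.l a x) :=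
  S.comm_apply (S.l_mem a) b x

theorem inner_l_mul {T : H →L[ℂ] H} (hT : T ∈ S.alg) (b : A) :
    ⟪star T S.Ω, S.l b S.Ω⟫_ℂ = ⟪S.l (S.inv b) S.Ω, T S.Ω⟫_ℂ := by
  rw [star_eq_adjoint, adjoint_inner_left, S.vac b, S.comm_apply hT, S.vac (S.inv b), S.hr,
    star_eq_adjoint, adjoint_inner_left]

theorem norm_inv (b : A) : ‖S.l (S.inv b) S.Ω‖ = ‖S.l b S.Ω‖ := by
  have h := S.inner_l_mul (S.l_mem b) b
  rw [S.hl] at h
  have h1 : ⟪star (S.l b) S.Ω, S.l b S.Ω⟫_ℂ = ⟪S.Ω, S.l b (S.l b S.Ω)⟫_ℂ := by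
    rw [star_eq_adjoint, adjoint_inner_left]
  have h2 : ⟪S.l b S.Ω, S.l b S.Ω⟫_ℂ = ⟪S.l (S.inv b) S.Ω, S.l (S.inv b) S.Ω⟫_ℂ := by
    have e1 : ⟪S.l b S.Ω, S.l b S.Ω⟫_ℂ = ⟪S.l b S.Ω, S.r b S.Ω⟫_ℂ := by rw [← S.vac b]
    have e2 : ⟪S.l b S.Ω, S.r b S.Ω⟫_ℂ = ⟪S.r (S.inv b) (S.l b S.Ω), S.Ω⟫_ℂ := by
      rw [S.hr, star_eq_adjoint, adjoint_inner_left]
    rw [e1, e2, ← S.l_r_apply, ← S.vac, S.hl, star_eq_adjoint, adjoint_inner_right]
  rw [inner_self_eq_norm_sq_to_K, inner_self_eq_norm_sq_to_K] at h2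
  have h3 : ‖S.l b S.Ω‖ ^ 2 = ‖S.l (S.inv b) S.Ω‖ ^ 2 := by exact_mod_cast h2
  exact ((sq_eq_sq₀ (norm_nonneg _) (norm_nonneg _)).1 h3).symm

theorem norm_star_le {T : H →L[ℂ] H} (hT : T ∈ S.alg) : ‖star T S.Ω‖ ≤ ‖T S.Ω‖ := by
  by_contra hlt
  push Not at hlt
  set α := ‖star T S.Ω‖ with hα
  set β := ‖T S.Ω‖ with hβ
  have hβ0 : 0 ≤ β := norm_nonneg _
  have hα0 : 0 < α := lt_of_le_of_lt hβ0 hlt
  obtain ⟨b, hb⟩ := S.dense.exists_dist_lt (star T S.Ω) (ε := (α - β) / 4)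
    (by linarith)
  rw [dist_eq_norm] at hb
  have h1 := S.inner_l_mul hT b
  have h2 : ‖S.l b S.Ω‖ ≤ α + (α - β) / 4 := by
    have := norm_sub_norm_le (S.l b S.Ω) (star T S.Ω)
    rw [norm_sub_rev] at this
    linarith
  have h3 : ‖⟪S.l (S.inv b) S.Ω, T S.Ω⟫_ℂ‖ ≤ (α + (α - β) / 4) * β := by
    refine (norm_inner_le_norm _ _).trans ?_
    rw [S.norm_inv]
    exact mul_le_mul_of_nonneg_right h2 hβ0
  have h4 : (α : ℝ) ^ 2 ≤ ‖⟪star T S.Ω, S.l b S.Ω⟫_ℂ‖ + α * ((α - β) / 4) := by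
    have e1 : ⟪star T S.Ω, star T S.Ω⟫_ℂ = ⟪star T S.Ω, S.l b S.Ω⟫_ℂ +
        ⟪star T S.Ω, star T S.Ω - S.l b S.Ω⟫_ℂ := by rw [← inner_add_right]; congr 1; abel
    have e2 : ‖⟪star T S.Ω, star T S.Ω⟫_ℂ‖ = α ^ 2 := by
      rw [inner_self_eq_norm_sq_to_K, ← hα]; simp
    rw [← e2, e1]
    refine (norm_add_le _ _).trans (add_le_add le_rfl ?_)
    refine (norm_inner_le_norm _ _).trans ?_
    exact mul_le_mul_of_nonneg_left hb.le hα0.le
  rw [h1] at h4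
  nlinarith

theorem star_mem' {T : H →L[ℂ] H} (hT : T ∈ S.alg) : star T ∈ S.alg := star_mem hT

theorem norm_star_eq {T : H →L[ℂ] H} (hT : T ∈ S.alg) : ‖star T S.Ω‖ = ‖T S.Ω‖ := by
  refine le_antisymm (S.norm_star_le hT) ?_
  have := S.norm_star_le (star_mem hT)
  rwa [star_star] at this

theorem tracial_alg {T U : H →L[ℂ] H} (hT : T ∈ S.alg) (hU : U ∈ S.alg) :
    ⟪S.Ω, (T * U) S.Ω⟫_ℂ = ⟪S.Ω, (U * T) S.Ω⟫_ℂ := by
  have e : ∀ V W : H →L[ℂ] H, ⟪S.Ω, (V * W) S.Ω⟫_ℂ = ⟪star V S.Ω, W S.Ω⟫_ℂ := by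
    intro V W
    rw [star_eq_adjoint, adjoint_inner_left]; rfl
  rw [e, e]
  rw [← sub_eq_zero, ← norm_eq_zero]
  refine le_antisymm (le_of_forall_pos_le_add fun ε hε => ?_) (norm_nonneg _)
  obtain ⟨a, ha⟩ := S.dense.exists_dist_lt (U S.Ω) (ε := ε / (2 * ‖T S.Ω‖ + 1)) (by positivity)
  rw [dist_eq_norm] at ha
  have h1 : ‖S.l (S.inv a) S.Ω - star U S.Ω‖ = ‖S.l a S.Ω - U S.Ω‖ := by
    have := S.norm_star_eq (sub_mem (S.l_mem a) hU)
    rw [star_sub, ← S.hl] at this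
    exact this
  have h2 : ⟪star T S.Ω, U S.Ω⟫_ℂ - ⟪star U S.Ω, T S.Ω⟫_ℂ =
      ⟪star T S.Ω, U S.Ω - S.l a S.Ω⟫_ℂ + ⟪S.l (S.inv a) S.Ω - star U S.Ω, T S.Ω⟫_ℂ := by
    rw [inner_sub_right, inner_sub_left, S.inner_l_mul hT a]; ring
  rw [h2, zero_add]
  refine (norm_add_le _ _).trans ?_
  have h3 := norm_inner_le_norm (𝕜 := ℂ) (star T S.Ω) (U S.Ω - S.l a S.Ω)
  have h4 := norm_inner_le_norm (𝕜 := ℂ) (S.l (S.inv a) S.Ω - star U S.Ω) (T S.Ω)
  rw [h1, norm_sub_rev] at h4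
  rw [S.norm_star_eq hT] at h3
  have h5 : ‖U S.Ω - S.l a S.Ω‖ * (2 * ‖T S.Ω‖ + 1) < ε := by
    have := mul_lt_mul_of_pos_right ha (show 0 < 2 * ‖T S.Ω‖ + 1 by positivity)
    rwa [div_mul_cancel₀ _ (by positivity)] at this
  nlinarith [norm_nonneg (U S.Ω - S.l a S.Ω), norm_nonneg (T S.Ω)]

theorem eq_zero_of_apply {T : H →L[ℂ] H} (hT : T ∈ S.alg) (h : T S.Ω = 0) : T = 0 := by
  refine ContinuousLinearMap.ext fun x => ?_
  have hc : Set.EqOn (fun y => T y) (fun _ => 0) (Set.range fun a => S.l a S.Ω) := by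
    rintro _ ⟨a, rfl⟩
    show T (S.l a S.Ω) = 0
    rw [S.vac a, S.comm_apply hT, h, map_zero]
  exact Set.EqOn.closure hc T.continuous continuous_const (S.dense x)

theorem norm_apply_r (a : A) : ∃ C : ℝ, 0 ≤ C ∧ ∀ T ∈ S.alg, ‖T (S.l a S.Ω)‖ ≤ C * ‖T S.Ω‖ := by
  refine ⟨‖S.r a‖, norm_nonneg _, fun T hT => ?_⟩
  rw [S.vac a, S.comm_apply hT]
  exact le_opNorm _ _

theorem exists_strong_limit (T : ℕ → H →L[ℂ] H) (hT : ∀ n, T n ∈ S.alg) (h1 : ∀ n, ‖T n‖ ≤ 1)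
    (hc : ∀ ε > 0, ∃ N, ∀ m ≥ N, ∀ n ≥ N, ‖(T m - T n) S.Ω‖ < ε) :
    ∃ U ∈ S.alg, ‖U‖ ≤ 1 ∧ ∀ ε > 0, ∃ N, ∀ n ≥ N, ‖(T n - U) S.Ω‖ < ε := by
  have hcau : ∀ x, CauchySeq fun n => T n x := by
    intro x
    rw [Metric.cauchySeq_iff]
    intro ε hε
    obtain ⟨a, ha⟩ := S.dense.exists_dist_lt x (ε := ε / 4) (by positivity)
    rw [dist_eq_norm] at ha
    obtain ⟨C, hC0, hC⟩ := S.norm_apply_r a
    obtain ⟨N, hN⟩ := hc (ε / (4 * (C + 1))) (by positivity)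
    refine ⟨N, fun m hm n hn => ?_⟩
    rw [dist_eq_norm]
    have h2 : T m x - T n x = T m (x - S.l a S.Ω) - T n (x - S.l a S.Ω) +
        (T m - T n) (S.l a S.Ω) := by
      simp only [map_sub, sub_apply]; abel
    rw [h2]
    have h3 : ∀ k, ‖T k (x - S.l a S.Ω)‖ ≤ ‖x - S.l a S.Ω‖ := fun k =>
      (le_opNorm _ _).trans (mul_le_of_le_one_left (norm_nonneg _) (h1 k))
    have h4 := hC (T m - T n) (sub_mem (hT m) (hT n))
    have h5 := hN m hm n hn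
    have h6 : C * ‖(T m - T n) S.Ω‖ ≤ ε / 4 := by
      have : C * ‖(T m - T n) S.Ω‖ ≤ (C + 1) * (ε / (4 * (C + 1))) :=
        mul_le_mul (by linarith) h5.le (norm_nonneg _) (by positivity)
      refine this.trans (le_of_eq ?_)
      field_simp
    calc _ ≤ ‖T m (x - S.l a S.Ω) - T n (x - S.l a S.Ω)‖ + ‖(T m - T n) (S.l a S.Ω)‖ :=
          norm_add_le _ _
      _ ≤ (‖T m (x - S.l a S.Ω)‖ + ‖T n (x - S.l a S.Ω)‖) + ‖(T m - T n) (S.l a S.Ω)‖ := by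
          gcongr; exact norm_sub_le _ _
      _ < ε := by linarith [h3 m, h3 n]
  choose f hf using fun x => cauchySeq_tendsto_of_complete (hcau x)
  have hb : Bornology.IsBounded (Set.range T) := by
    rw [isBounded_iff_forall_norm_le]
    exact ⟨1, by rintro _ ⟨n, rfl⟩; exact h1 n⟩
  let U : H →L[ℂ] H := ContinuousLinearMap.ofTendstoOfBoundedRange f T
    (tendsto_pi_nhds.2 hf) hb
  have hU : ∀ x, Filter.Tendsto (fun n => T n x) Filter.atTop (nhds (U x)) := hf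
  refine ⟨U, S.mem_alg.2 fun a => ?_, ?_, ?_⟩
  · refine ContinuousLinearMap.ext fun x => ?_
    have e1 := hU (S.r a x)
    have e2 := ((S.r a).continuous.tendsto _).comp (hU x)
    refine tendsto_nhds_unique e1 (e2.congr fun n => ?_)
    exact (S.comm_apply (hT n) a x).symm
  · refine opNorm_le_bound _ zero_le_one fun x => ?_
    refine le_of_tendsto (hU x).norm (Filter.Eventually.of_forall fun n => ?_)
    exact (le_opNorm _ _).trans (mul_le_mul_of_nonneg_right (h1 n) (norm_nonneg _))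
  · intro ε hε
    have := hU S.Ω
    rw [Metric.tendsto_atTop] at this
    obtain ⟨N, hN⟩ := this ε hε
    refine ⟨N, fun n hn => ?_⟩
    have := hN n hn
    rwa [dist_eq_norm] at this

/-- The tracial von Neumann algebra of a standard form. -/
def tvn : TVN where
  carrier := S.alg
  tr :=
    { toFun := fun T => ⟪S.Ω, (T : H →L[ℂ] H) S.Ω⟫_ℂ
      map_add' := fun x y => by simp [inner_add_right]
      map_smul' := fun c x => by simp [inner_smul_right] }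
  tr_one := by
    simp [S.norm_Ω]
  tr_nonneg := fun T => by
    have : ⟪S.Ω, ((star T * T : S.alg) : H →L[ℂ] H) S.Ω⟫_ℂ = ((‖(T : H →L[ℂ] H) S.Ω‖ ^ 2 : ℝ) : ℂ) := by
      show ⟪S.Ω, (star (T : H →L[ℂ] H)) ((T : H →L[ℂ] H) S.Ω)⟫_ℂ = _
      rw [star_eq_adjoint, adjoint_inner_right, inner_self_eq_norm_sq_to_K]
      simp
    simp only [LinearMap.coe_mk, AddHom.coe_mk]
    rw [this]
    exact Complex.zero_le_real.2 (sq_nonneg _)
  tr_comm := fun T U => S.tracial_alg T.2 U.2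
  tr_faithful := fun T h => by
    have : ⟪S.Ω, ((star T * T : S.alg) : H →L[ℂ] H) S.Ω⟫_ℂ = ((‖(T : H →L[ℂ] H) S.Ω‖ ^ 2 : ℝ) : ℂ) := by
      show ⟪S.Ω, (star (T : H →L[ℂ] H)) ((T : H →L[ℂ] H) S.Ω)⟫_ℂ = _
      rw [star_eq_adjoint, adjoint_inner_right, inner_self_eq_norm_sq_to_K]
      simp
    simp only [LinearMap.coe_mk, AddHom.coe_mk] at h
    rw [this] at h
    have h2 : ‖(T : H →L[ℂ] H) S.Ω‖ ^ 2 = 0 := by exact_mod_cast h
    exact Subtype.ext (S.eq_zero_of_apply T.2 (norm_eq_zero.1 (pow_eq_zero_iff two_ne_zero |>.1 h2)))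
  complete_ball := by
    intro s hs hc
    have key : ∀ T : S.alg, (⟪S.Ω, ((star T * T : S.alg) : H →L[ℂ] H) S.Ω⟫_ℂ).re =
        ‖(T : H →L[ℂ] H) S.Ω‖ ^ 2 := by
      intro T
      show (⟪S.Ω, (star (T : H →L[ℂ] H)) ((T : H →L[ℂ] H) S.Ω)⟫_ℂ).re = _
      rw [star_eq_adjoint, adjoint_inner_right, inner_self_eq_norm_sq_to_K]
      simp [← Complex.ofReal_pow]
    obtain ⟨U, hU, hU1, hUl⟩ := S.exists_strong_limit (fun n => (s n : H →L[ℂ] H))
      (fun n => (s n).2) hs (by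
        intro ε hε
        obtain ⟨N, hN⟩ := hc (ε ^ 2) (by positivity)
        refine ⟨N, fun m hm n hn => ?_⟩
        have := hN m hm n hn
        simp only [LinearMap.coe_mk, AddHom.coe_mk] at this
        rw [key] at this
        exact lt_of_pow_lt_pow_left₀ 2 hε.le this)
    refine ⟨⟨U, hU⟩, hU1, fun ε hε => ?_⟩
    obtain ⟨N, hN⟩ := hUl (√ε) (by positivity)
    refine ⟨N, fun n hn => ?_⟩
    simp only [LinearMap.coe_mk, AddHom.coe_mk]
    rw [key]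
    have h5 : ‖((s n - ⟨U, hU⟩ : S.alg) : H →L[ℂ] H) S.Ω‖ < √ε := hN n hn
    calc _ < √ε ^ 2 := pow_lt_pow_left₀ h5 (norm_nonneg _) two_ne_zero
      _ = ε := Real.sq_sqrt hε.le

/-- the inclusion of the algebra in the bounded operators -/
def incl : S.tvn →⋆ₐ[ℂ] (H →L[ℂ] H) := S.alg.subtype

theorem incl_injective : Function.Injective S.incl := Subtype.val_injective

theorem incl_mem (x : S.tvn) : S.incl x ∈ S.alg := x.2

theorem exists_incl {T : H →L[ℂ] H} (hT : T ∈ S.alg) : ∃ x : S.tvn, S.incl x = T := ⟨⟨T, hT⟩, rfl⟩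

theorem norm_incl (x : S.tvn) : ‖S.incl x‖ = ‖x‖ := rfl

theorem tr_eq (x : S.tvn) : S.tvn.tr x = ⟪S.Ω, S.incl x S.Ω⟫_ℂ := rfl

theorem n2_eq (x : S.tvn) : S.tvn.n2 x = ‖S.incl x S.Ω‖ := by
  rw [TVN.n2, S.tr_eq, map_mul, map_star]
  have : ⟪S.Ω, (star (S.incl x) * S.incl x) S.Ω⟫_ℂ = ((‖S.incl x S.Ω‖ ^ 2 : ℝ) : ℂ) := by
    show ⟪S.Ω, (star (S.incl x)) ((S.incl x) S.Ω)⟫_ℂ = _
    rw [star_eq_adjoint, adjoint_inner_right, inner_self_eq_norm_sq_to_K]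
    simp
  rw [this, Complex.ofReal_re, Real.sqrt_sq (norm_nonneg _)]

/-- lifting a star homomorphism with values in the algebra -/
def lift {B : Type*} [CStarAlgebra B] (f : B →⋆ₐ[ℂ] (H →L[ℂ] H)) (hf : ∀ b, f b ∈ S.alg) :
    B →⋆ₐ[ℂ] S.tvn := f.codRestrict S.alg hf

theorem incl_lift {B : Type*} [CStarAlgebra B] (f : B →⋆ₐ[ℂ] (H →L[ℂ] H))
    (hf : ∀ b, f b ∈ S.alg) (b : B) : S.incl (S.lift f hf b) = f b := rfl

end StdData

end Pool.Agent.Lib.EcII
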