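import Pool.Agent.Lib.EcII.GenEC
import Pool.Agent.Lib.EcII.Copy
import Pool.Agent.Lib.EcII.CodeAlg
import Pool.Agent.Lib.EcII.Emb2

/-!
# One step of the chain: adding the code of a diagonal set
-/

open scoped ComplexOrder

noncomputable section

namespace Pool.Agent.Lib.EcII

open Gen TVN

/-- the diagonal set -/
def YSet (M : TVN) (u : Fin 3 → M) (w h c : M) : Set M :=
  {b | b ∈ unitary M ∧ M.GD b u w c ≤ 1 / 640000 ∧ 1 / 2 ≤ M.Psi 5600 5600 b b u w h c}

/-- squared overlap with an optional unitary -/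
def ovl (M : TVN) (o : Option (unitary M)) (y : M) : ℝ :=
  o.elim 0 fun u => ‖M.tr (star y * (u : M))‖ ^ 2

/-- a code of the diagonal set -/
structure CodeFor {Λ : Type} [Group Λ] {M M' : TVN} (ι : M →⋆ₐ[ℂ] M') (u : Fin 3 → M)
    (w h c : M) (x : Λ → Option (unitary M)) (l : Λ → M') (z w' : M') : Prop where
  copy : Copy M' l
  hz : ‖z‖ ≤ 1
  hw : ‖w'‖ ≤ 1
  form : ∀ (y : unitary M) (s : Finset Λ) (a : Λ → ℂ),
    M'.cm w' (ι y * ((∑ g ∈ s, a g • l g) * z * star (∑ g ∈ s, a g • l g))) ^ 2 =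
      2 * ((∑ g ∈ s, ‖a g‖ ^ 2) ^ 2 - ∑ g ∈ s, ‖a g‖ ^ 4 * ovl M (x g) y)
  sub : ∀ g b, x g = some b → (b : M) ∈ YSet M u w h c
  dense : ∀ b ∈ YSet M u w h c, ∀ ε > 0, ∃ g b', x g = some b' ∧ M.n2 (b - b') < ε

/-- a stage of the chain -/
structure Stg where
  /-- the algebra -/
  M : TVN
  /-- the names -/
  v : ℕ × ℕ → M
  hv : ∀ j, ‖v j‖ ≤ 1
  ec : M.EC'
  dense : ∀ x : M, ‖x‖ ≤ 1 → ∀ ε > 0, ∃ j, M.n2 (x - v j) < ε

/-- dense tuples generate -/
theorem gen_of_dense {M : TVN} {J : Type} {v : J → M}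
    (hd : ∀ x : M, ‖x‖ ≤ 1 → ∀ ε > 0, ∃ j, M.n2 (x - v j) < ε) : M.Gen v := by
  intro x hx
  by_contra hne
  have hpos : 0 < ‖x‖ := norm_pos_iff.2 hne
  have hn0 : 0 < M.n2 x := by
    rcases (M.n2_nonneg x).eq_or_lt with h | h
    · exact absurd (M.n2_eq_zero.1 h.symm) hne
    · exact h
  obtain ⟨j, hj⟩ := hd (((‖x‖⁻¹ : ℝ) : ℂ) • x) (by
    rw [norm_smul, Complex.norm_real, Real.norm_of_nonneg (by positivity),
      inv_mul_cancel₀ hpos.ne']) (‖x‖⁻¹ * M.n2 x) (by positivity)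
  have h1 := hx [(j, false)]
  rw [ev_cons, ev_nil, mul_one, letter_false] at h1
  set y := ((‖x‖⁻¹ : ℝ) : ℂ) • x with hy
  have h2 : M.tr (star (y - v j) * x) = ((‖x‖⁻¹ * M.n2 x ^ 2 : ℝ) : ℂ) := by
    rw [star_sub, sub_mul, map_sub, h1, sub_zero, hy, star_smul, smul_mul_assoc, map_smul,
      tr_star_mul_self, smul_eq_mul]
    simp
  have h3 := M.cs (y - v j) x
  rw [h2, Complex.norm_real, Real.norm_of_nonneg (by positivity)] at h3
  have h4 : M.n2 (y - v j) * M.n2 x < ‖x‖⁻¹ * M.n2 x * M.n2 x :=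
    mul_lt_mul_of_pos_right hj hn0
  nlinarith

theorem exists_dense_family {Λ : Type} [Countable Λ] [Infinite Λ] {M : TVN} {v : ℕ × ℕ → M}
    (hd : ∀ x : M, ‖x‖ ≤ 1 → ∀ ε > 0, ∃ j, M.n2 (x - v j) < ε) (Y : Set M)
    (hY : ∀ b ∈ Y, b ∈ unitary M) :
    ∃ x : Λ → Option (unitary M), (∀ g b, x g = some b → (b : M) ∈ Y) ∧
      ∀ b ∈ Y, ∀ ε > 0, ∃ g b', x g = some b' ∧ M.n2 (b - b') < ε := by
  classical
  obtain ⟨e, he⟩ : ∃ e : Λ → ((ℕ × ℕ) × ℕ), Function.Surjective e := by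
    obtain ⟨e, he⟩ := exists_surjective_nat ((ℕ × ℕ) × ℕ)
    let f : ℕ ↪ Λ := Infinite.natEmbedding Λ
    exact ⟨e ∘ Function.invFun f, he.comp (Function.invFun_surjective f.injective)⟩
  let P : Λ → M → Prop := fun g b => b ∈ Y ∧ M.n2 (b - v (e g).1) < 1 / ((e g).2 + 1 : ℝ)
  refine ⟨fun g => if h : ∃ b, P g b then some ⟨h.choose, hY _ h.choose_spec.1⟩ else none,
    fun g b hb => ?_, fun b hb ε hε => ?_⟩
  · beta_reduce at hb
    split_ifs at hb with h
    obtain rfl := Option.some.inj hb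
    exact h.choose_spec.1
  · obtain ⟨n, hn⟩ := exists_nat_one_div_lt (show (0 : ℝ) < ε / 2 by positivity)
    obtain ⟨j, hj⟩ := hd b (M.norm_le_one_of_unitary (hY b hb)) (1 / (n + 1 : ℝ)) (by positivity)
    obtain ⟨g, hg⟩ := he (j, n)
    have h : ∃ b, P g b := ⟨b, hb, by rw [hg]; exact hj⟩
    refine ⟨g, ⟨h.choose, hY _ h.choose_spec.1⟩, dif_pos h, ?_⟩
    have h2 := h.choose_spec.2
    rw [hg] at h2
    have h3 := M.n2_tri b (v j) h.choose
    rw [M.n2_sub_comm (v j)] at h3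
    simp only at h2
    show M.n2 (b - h.choose) < ε
    linarith

theorem Copy.of_map {D C : TVN} {Λ : Type} [Group Λ] (j : D →⋆ₐ[ℂ] C)
    (hj : ∀ x, C.tr (j x) = D.tr x) {l : Λ → D} (h : Copy C (fun g => j (l g))) : Copy D l := by
  have hinj := map_injective j hj
  refine ⟨fun g => ?_, fun g g' => ?_, ?_, fun g hg => ?_⟩
  · have := h.unit g
    rw [Unitary.mem_iff] at this ⊢
    constructor
    · apply hinj
      rw [map_mul, map_star, map_one]; exact this.1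
    · apply hinj
      rw [map_mul, map_star, map_one]; exact this.2
  · apply hinj
    rw [map_mul]; exact h.mul g g'
  · apply hinj
    rw [map_one]; exact h.one
  · rw [← hj]; exact h.orth g hg

theorem Copy.map {D C : TVN} {Λ : Type} [Group Λ] (j : D →⋆ₐ[ℂ] C)
    (hj : ∀ x, C.tr (j x) = D.tr x) {l : Λ → D} (h : Copy D l) : Copy C (fun g => j (l g)) := by
  refine ⟨fun g => ?_, fun g g' => ?_, ?_, fun g hg => ?_⟩
  · have := h.unit g
    rw [Unitary.mem_iff] at this ⊢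
    rw [← map_star, ← map_mul, ← map_mul, this.1, this.2, map_one]
    exact ⟨rfl, rfl⟩
  · rw [h.mul, map_mul]
  · rw [h.one, map_one]
  · rw [hj]; exact h.orth g hg

/-- two trace preserving homomorphisms which agree on a dense tuple agree -/
theorem eq_of_agree_dense {M C : TVN} {J : Type} {v : J → M}
    (hd : ∀ x : M, ‖x‖ ≤ 1 → ∀ ε > 0, ∃ j, M.n2 (x - v j) < ε) (f g : M →⋆ₐ[ℂ] C)
    (hf : ∀ x, C.tr (f x) = M.tr x) (hg : ∀ x, C.tr (g x) = M.tr x)
    (h : ∀ j, f (v j) = g (v j)) (x : M) (hx : ‖x‖ ≤ 1) : f x = g x := by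
  rw [← sub_eq_zero, ← C.n2_eq_zero]
  refine le_antisymm (le_of_forall_pos_le_add fun ε hε => ?_) (C.n2_nonneg _)
  obtain ⟨j, hj⟩ := hd x hx (ε / 2) (by positivity)
  have e : f x - g x = f (x - v j) - g (x - v j) := by
    rw [map_sub, map_sub, h j]; abel
  rw [e, zero_add]
  refine (C.n2_sub_le _ _).trans ?_
  rw [n2_map f hf, n2_map g hg]
  linarith

/-- **The step.** -/
theorem exists_step {Λ : Type} [Group Λ] [Countable Λ] [Infinite Λ] (S : Stg) (s : ℕ)
    (u : Fin 3 → S.M) (w h c : S.M) :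
    ∃ (S' : Stg) (ι : S.M →⋆ₐ[ℂ] S'.M) (x : Λ → Option (unitary S.M)) (l : Λ → S'.M)
      (z w' : S'.M), (∀ y, S'.M.tr (ι y) = S.M.tr y) ∧
      (∀ t i, t ≤ s → S'.v (t, i) = ι (S.v (t, i))) ∧
      (∀ y : S'.M, ‖y‖ ≤ 1 → ∀ ε > 0, ∃ i, S'.M.n2 (y - S'.v (s + 1, i)) < ε) ∧
      CodeFor ι u w h c x l z w' := by
  classical
  obtain ⟨x, hx1, hx2⟩ := exists_dense_family (Λ := Λ) S.dense (YSet S.M u w h c)
    (fun b hb => hb.1)
  obtain ⟨C, ιC, lC, zC, wC, hιC, hlu, hlm, hl1, hlo, hz, hw, hform⟩ := exists_code S.M Λ x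
  let bC : (ℕ × ℕ) ⊕ (Λ ⊕ Fin 2) → C :=
    Sum.elim (fun j => ιC (S.v j)) (Sum.elim lC ![zC, wC])
  have hbC : ∀ b, ‖bC b‖ ≤ 1 := by
    rintro (j | g | i)
    · show ‖ιC _‖ ≤ 1
      rw [norm_map ιC hιC]; exact S.hv j
    · exact C.norm_le_one_of_unitary (hlu g)
    · fin_cases i
      · exact C.norm_le_one_of_unitary hz
      · exact C.norm_le_one_of_unitary hw
  haveI := countable_tpl ((ℕ × ℕ) ⊕ (Λ ⊕ Fin 2))
  obtain ⟨R, μ, hμ, hbase, hT, -⟩ := exists_generic (B := (ℕ × ℕ) ⊕ (Λ ⊕ Fin 2)) (Qn := Empty)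
    (S := ℕ) (𝒯 := Tpl ((ℕ × ℕ) ⊕ (Λ ⊕ Fin 2))) (I := Unit) (fun _ => C.law bC)
    continuous_const (by
      intro R
      refine ⟨C.law (Sum.elim bC (fun _ => 0)), isPosLaw_law ?_, ?_⟩
      · rintro (j | j)
        · exact hbC j
        · simp
      · funext w
        unfold base law
        rw [ev_map]; rfl)
    (fun t => t.task) (fun q _ => q.elim)
  obtain ⟨M', v', hv', hlaw, hGen⟩ := hμ.exists_tvn
  subst hlaw
  have hEC : M'.EC' := ec' hv' hGen hT
  have hdense := dense_letters hv' hGen hT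
  -- the algebra generated by the base law
  obtain ⟨D, d, hd, hdlaw, hdgen⟩ := (isPosLaw_law hbC).exists_tvn
  obtain ⟨jC, hjC, hjCd⟩ := exists_embedding d hdgen bC (fun w => by rw [hdlaw])
  obtain ⟨jM, hjM, hjMd⟩ := exists_embedding d hdgen (fun b => v' (.inl b)) (fun w => by
    have h1 := congrFun hbase w
    rw [hdlaw, ← h1]
    unfold base law
    rw [ev_map]; rfl)
  obtain ⟨jS, hjS, hjSd⟩ := exists_embedding S.v (gen_of_dense S.dense) (fun j => d (.inl j))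
    (fun w => by
      have h1 := congrFun hdlaw (w.map (Prod.map Sum.inl id))
      unfold law at h1 ⊢
      rw [ev_map, ev_map] at h1
      rw [show (fun j => d (Sum.inl j)) = d ∘ Sum.inl from rfl, h1, ← hιC, map_ev]
      rfl)
  have hcomp : ∀ y : S.M, ‖y‖ ≤ 1 → jC (jS y) = ιC y := by
    intro y hy
    refine eq_of_agree_dense S.dense (jC.comp jS) ιC (fun x => ?_) hιC (fun j => ?_) y hy
    · rw [StarAlgHom.comp_apply, hjC, hjS]
    · rw [StarAlgHom.comp_apply, hjSd, hjCd]; rfl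
  have hcopyC : Copy C lC := ⟨hlu, hlm, hl1, hlo⟩
  have hcopyD : Copy D (fun g => d (.inr (.inl g))) := by
    refine Copy.of_map jC hjC ?_
    have : (fun g => jC (d (.inr (.inl g)))) = lC := by
      funext g; rw [hjCd]; rfl
    rw [this]; exact hcopyC
  have hcopyM : Copy M' (fun g => v' (.inl (.inr (.inl g)))) := by
    have := Copy.map jM hjM hcopyD
    simp only [hjMd] at this
    exact this
  let S' : Stg :=
    { M := M'
      v := fun j => if j.1 ≤ s then v' (.inl (.inl j)) else v' (.inr j.2)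
      hv := fun j => by
        split_ifs
        · exact hv' _
        · exact hv' _
      ec := hEC
      dense := fun y hy ε hε => by
        obtain ⟨i, hi⟩ := hdense y hy ε hε
        refine ⟨(s + 1, i), ?_⟩
        rw [if_neg (by simp)]
        exact hi }
  refine ⟨S', jM.comp jS, x, fun g => v' (.inl (.inr (.inl g))), v' (.inl (.inr (.inr 0))),
    v' (.inl (.inr (.inr 1))), fun y => ?_, fun t i hti => ?_, fun y hy ε hε => ?_, ?_⟩
  · rw [StarAlgHom.comp_apply, hjM, hjS]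
  · show (if (t, i).1 ≤ s then v' (.inl (.inl (t, i))) else v' (.inr (t, i).2)) = _
    rw [if_pos hti, StarAlgHom.comp_apply, hjSd, hjMd]
  · obtain ⟨i, hi⟩ := hdense y hy ε hε
    refine ⟨i, ?_⟩
    show M'.n2 (y - (if (s + 1, i).1 ≤ s then v' (.inl (.inl (s + 1, i))) else
      v' (.inr (s + 1, i).2))) < ε
    rw [if_neg (by simp)]
    exact hi
  · refine ⟨hcopyM, hv' _, hv' _, fun y t a => ?_, hx1, hx2⟩
    have h1 := hform y t a
    have e1 : C.cm wC (ιC y * ((∑ g ∈ t, a g • lC g) * zC * star (∑ g ∈ t, a g • lC g))) =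
        D.cm (d (.inr (.inr 1))) (jS y * ((∑ g ∈ t, a g • d (.inr (.inl g))) *
          d (.inr (.inr 0)) * star (∑ g ∈ t, a g • d (.inr (.inl g))))) := by
      rw [← cm_map jC hjC, map_mul, map_mul, map_mul, map_star, map_sum, hjCd, hjCd,
        hcomp _ (S.M.norm_le_one_of_unitary y.2)]
      simp only [map_smul, hjCd]
      rfl
    have e2 : M'.cm (v' (.inl (.inr (.inr 1)))) ((jM.comp jS) y *
        ((∑ g ∈ t, a g • v' (.inl (.inr (.inl g)))) *
          v' (.inl (.inr (.inr 0))) * star (∑ g ∈ t, a g • v' (.inl (.inr (.inl g)))))) =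
        D.cm (d (.inr (.inr 1))) (jS y * ((∑ g ∈ t, a g • d (.inr (.inl g))) *
          d (.inr (.inr 0)) * star (∑ g ∈ t, a g • d (.inr (.inl g))))) := by
      rw [← cm_map jM hjM, map_mul, map_mul, map_mul, map_star, map_sum, hjMd, hjMd]
      simp only [map_smul, hjMd]
      rfl
    rw [e2, ← e1, h1]
    congr 2
    refine Finset.sum_congr rfl fun g _ => ?_
    congr 1
    cases x g <;> rfl

end Pool.Agent.Lib.EcII
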